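import Mathlib

/-!
# Paths of length three in dense graphs
-/

namespace Pool.Agent.ConvTri

open Finset

/-- Dense graphs contain two large sets all of whose pairs are joined by many paths of
length three. -/
theorem many_paths {V : Type*} (P : Finset V) (G : V → V → Prop) {α : ℝ}
    (hα : 0 < α) (hne : P.Nonempty) [DecidableEq V] [∀ a b, Decidable (G a b)]
    (hG : α * (P.card : ℝ) ^ 2 ≤ ((P ×ˢ P).filter (fun z => G z.1 z.2)).card) :
    ∃ A' ⊆ P, ∃ B' ⊆ P, α / 6 * P.card ≤ A'.card ∧ α / 4 * P.card ≤ B'.card ∧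
      ∀ a ∈ A', ∀ b ∈ B', α ^ 5 / 3072 * (P.card : ℝ) ^ 2 ≤
        ((P ×ˢ P).filter (fun z => G a z.1 ∧ G z.2 z.1 ∧ G z.2 b)).card := by
  classical
  set n : ℝ := (P.card : ℝ) with hn
  have hn0 : 0 < n := by rw [hn]; exact_mod_cast card_pos.2 hne
  set D : V → ℝ := fun a => ((P.filter (fun b => G a b)).card : ℝ) with hD
  have hDn : ∀ a, D a ≤ n := by
    intro a
    change ((P.filter (fun b => G a b)).card : ℝ) ≤ (P.card : ℝ)
    exact_mod_cast card_filter_le _ _
  have hD0 : ∀ a, 0 ≤ D a := fun a => Nat.cast_nonneg _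
  have hsum : α * n ^ 2 ≤ ∑ a ∈ P, D a := by
    have h1 : ((P ×ˢ P).filter (fun z => G z.1 z.2)).card =
        ∑ a ∈ P, (P.filter (fun b => G a b)).card := by
      rw [card_filter, sum_product]
      apply sum_congr rfl
      intro a _
      rw [card_filter]
    rw [h1] at hG
    push_cast at hG
    exact hG
  set A1 := P.filter (fun a => α * n / 2 ≤ D a) with hA1
  have h1 : α * n ^ 2 / 2 ≤ ∑ a ∈ A1, D a := by
    have h2 := sum_filter_add_sum_filter_not P (fun a => α * n / 2 ≤ D a) D
    have h3 : ∑ a ∈ P.filter (fun a => ¬ (α * n / 2 ≤ D a)), D a ≤ n * (α * n / 2) := by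
      calc ∑ a ∈ P.filter (fun a => ¬ (α * n / 2 ≤ D a)), D a
          ≤ ∑ _a ∈ P.filter (fun a => ¬ (α * n / 2 ≤ D a)), α * n / 2 := by
            apply sum_le_sum
            intro a ha
            exact (not_le.1 (mem_filter.1 ha).2).le
        _ = (P.filter (fun a => ¬ (α * n / 2 ≤ D a))).card * (α * n / 2) := by
            rw [sum_const, nsmul_eq_mul]
        _ ≤ n * (α * n / 2) := by
            apply mul_le_mul_of_nonneg_right _ (by positivity)
            rw [hn]; exact_mod_cast card_filter_le _ _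
    have h4 : n * (α * n / 2) = α * n ^ 2 / 2 := by ring
    linarith
  set N : V → Finset V := fun b => A1.filter (fun a => G a b) with hN
  have h2 : ∑ b ∈ P, ((N b).card : ℝ) = ∑ a ∈ A1, D a := by
    have h3 : ∑ b ∈ P, (N b).card = ∑ a ∈ A1, (P.filter (fun b => G a b)).card := by
      have := sum_card_bipartiteAbove_eq_sum_card_bipartiteBelow (s := A1) (t := P)
        (fun a b => G a b)
      exact this.symm
    change ∑ b ∈ P, ((N b).card : ℝ) = ∑ a ∈ A1, ((P.filter (fun b => G a b)).card : ℝ)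
    exact_mod_cast h3
  set ε : ℝ := α ^ 3 / 128 with hε
  have hε0 : 0 < ε := by positivity
  set cod : V → V → ℝ := fun a a' => ((P.filter (fun b => G a b ∧ G a' b)).card : ℝ) with hcod
  set Bad : V → Finset (V × V) := fun b =>
    ((N b) ×ˢ (N b)).filter (fun z => cod z.1 z.2 < ε * n) with hBad
  have h3 : ∑ b ∈ P, ((Bad b).card : ℝ) ≤ ε * n ^ 3 := by
    have h4 : ∑ b ∈ P, (Bad b).card = ∑ z ∈ (A1 ×ˢ A1).filter (fun z => cod z.1 z.2 < ε * n),
        (P.filter (fun b => G z.1 b ∧ G z.2 b)).card := by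
      have h5 : ∀ b ∈ P, (Bad b).card = (((A1 ×ˢ A1).filter
          (fun z => cod z.1 z.2 < ε * n)).filter (fun z => G z.1 b ∧ G z.2 b)).card := by
        intro b _
        congr 1
        ext z
        simp only [hBad, hN, mem_filter, mem_product]
        tauto
      rw [sum_congr rfl h5]
      have := sum_card_bipartiteAbove_eq_sum_card_bipartiteBelow
        (s := (A1 ×ˢ A1).filter (fun z => cod z.1 z.2 < ε * n)) (t := P)
        (fun z b => G z.1 b ∧ G z.2 b)
      exact this.symm
    have h5 : ∑ b ∈ P, ((Bad b).card : ℝ) =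
        ∑ z ∈ (A1 ×ˢ A1).filter (fun z => cod z.1 z.2 < ε * n), cod z.1 z.2 := by
      change ∑ b ∈ P, ((Bad b).card : ℝ) =
        ∑ z ∈ (A1 ×ˢ A1).filter (fun z => cod z.1 z.2 < ε * n),
          ((P.filter (fun b => G z.1 b ∧ G z.2 b)).card : ℝ)
      exact_mod_cast h4
    rw [h5]
    calc ∑ z ∈ (A1 ×ˢ A1).filter (fun z => cod z.1 z.2 < ε * n), cod z.1 z.2
        ≤ ∑ _z ∈ (A1 ×ˢ A1).filter (fun z => cod z.1 z.2 < ε * n), ε * n := by
          apply sum_le_sum
          intro z hz
          exact (mem_filter.1 hz).2.le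
      _ = ((A1 ×ˢ A1).filter (fun z => cod z.1 z.2 < ε * n)).card * (ε * n) := by
          rw [sum_const, nsmul_eq_mul]
      _ ≤ (n * n) * (ε * n) := by
          apply mul_le_mul_of_nonneg_right _ (by positivity)
          have h6 : ((A1 ×ˢ A1).filter (fun z => cod z.1 z.2 < ε * n)).card ≤
              P.card * P.card := by
            refine (card_filter_le _ _).trans ?_
            rw [card_product]
            exact Nat.mul_le_mul (card_filter_le _ _) (card_filter_le _ _)
          rw [hn]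
          exact_mod_cast h6
      _ = ε * n ^ 3 := by ring
  have h4 : (∑ b ∈ P, ((N b).card : ℝ)) ^ 2 ≤ n * ∑ b ∈ P, ((N b).card : ℝ) ^ 2 :=
    sq_sum_le_card_mul_sum_sq
  -- a good vertex
  set τ : ℝ := α / 16 with hτ
  have hτ0 : 0 < τ := by positivity
  obtain ⟨b0, hb0, hb1⟩ : ∃ b ∈ P, α ^ 2 * n ^ 2 / 8 ≤
      ((N b).card : ℝ) ^ 2 - ((Bad b).card : ℝ) / τ := by
    apply exists_le_of_sum_le hne
    rw [sum_const, nsmul_eq_mul, sum_sub_distrib, ← sum_div]
    have h5 : (α * n ^ 2 / 2) ^ 2 ≤ n * ∑ b ∈ P, ((N b).card : ℝ) ^ 2 := by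
      refine le_trans (pow_le_pow_left₀ (by positivity) ?_ 2) h4
      rw [h2]; exact h1
    have h6 : α ^ 2 * n ^ 3 / 4 ≤ ∑ b ∈ P, ((N b).card : ℝ) ^ 2 := by
      have : n * (α ^ 2 * n ^ 3 / 4) ≤ n * ∑ b ∈ P, ((N b).card : ℝ) ^ 2 := by
        calc n * (α ^ 2 * n ^ 3 / 4) = (α * n ^ 2 / 2) ^ 2 := by ring
          _ ≤ _ := h5
      exact le_of_mul_le_mul_left this hn0
    have h7 : (∑ b ∈ P, ((Bad b).card : ℝ)) / τ ≤ α ^ 2 * n ^ 3 / 8 := by
      rw [div_le_iff₀ hτ0]
      calc ∑ b ∈ P, ((Bad b).card : ℝ) ≤ ε * n ^ 3 := h3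
        _ = α ^ 2 * n ^ 3 / 8 * τ := by rw [hε, hτ]; ring
    have h8 : (P.card : ℝ) * (α ^ 2 * n ^ 2 / 8) = α ^ 2 * n ^ 3 / 8 := by rw [← hn]; ring
    rw [h8]
    linarith
  set M : ℝ := ((N b0).card : ℝ) with hM
  have hM0 : 0 ≤ M := Nat.cast_nonneg _
  have hBb : ((Bad b0).card : ℝ) / τ ≤ M ^ 2 := by
    have : 0 ≤ α ^ 2 * n ^ 2 / 8 := by positivity
    linarith
  have hBb' : ((Bad b0).card : ℝ) ≤ τ * M ^ 2 := by
    rw [div_le_iff₀ hτ0] at hBb
    linarith
  have hM1 : α * n / 3 ≤ M := by
    have h5 : 0 ≤ ((Bad b0).card : ℝ) / τ := by positivity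
    have h6 : (α * n / 3) ^ 2 ≤ M ^ 2 := by nlinarith
    exact le_of_sq_le_sq h6 hM0
  have hMpos : 0 < M := lt_of_lt_of_le (by positivity) hM1
  -- the set `A'`
  set bp : V → Finset V := fun a => (N b0).filter (fun a' => cod a a' < ε * n) with hbp
  set A' := (N b0).filter (fun a => ((bp a).card : ℝ) ≤ 2 * τ * M) with hA'
  set B' := P.filter (fun b => α * M / 4 ≤ (((N b0).filter (fun a => G a b)).card : ℝ)) with hB'
  have hNP : N b0 ⊆ P := (filter_subset _ _).trans (filter_subset _ _)
  have hA'1 : M / 2 ≤ (A'.card : ℝ) := by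
    have h5 : ((Bad b0).card : ℝ) = ∑ a ∈ N b0, ((bp a).card : ℝ) := by
      have : (Bad b0).card = ∑ a ∈ N b0, (bp a).card := by
        rw [hBad]
        simp only
        rw [card_filter, sum_product]
        apply sum_congr rfl
        intro a _
        rw [hbp]
        simp only
        rw [card_filter]
      exact_mod_cast this
    have h6 := card_filter_add_card_filter_not (s := N b0)
      (p := fun a => ((bp a).card : ℝ) ≤ 2 * τ * M)
    have h7 : (((N b0).filter (fun a => ¬ (((bp a).card : ℝ) ≤ 2 * τ * M))).card : ℝ) *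
        (2 * τ * M) ≤ ∑ a ∈ N b0, ((bp a).card : ℝ) := by
      calc (((N b0).filter (fun a => ¬ (((bp a).card : ℝ) ≤ 2 * τ * M))).card : ℝ) *
            (2 * τ * M) = ∑ _a ∈ (N b0).filter (fun a => ¬ (((bp a).card : ℝ) ≤ 2 * τ * M)),
              (2 * τ * M) := by rw [sum_const, nsmul_eq_mul]
        _ ≤ ∑ a ∈ (N b0).filter (fun a => ¬ (((bp a).card : ℝ) ≤ 2 * τ * M)),
              ((bp a).card : ℝ) := by
            apply sum_le_sum
            intro a ha
            exact (not_le.1 (mem_filter.1 ha).2).le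
        _ ≤ _ := sum_le_sum_of_subset_of_nonneg (filter_subset _ _)
            (fun _ _ _ => Nat.cast_nonneg _)
    rw [← h5] at h7
    have h8 : (A'.card : ℝ) +
        (((N b0).filter (fun a => ¬ (((bp a).card : ℝ) ≤ 2 * τ * M))).card : ℝ) = M := by
      rw [hM]; exact_mod_cast h6
    have h9 : (((N b0).filter (fun a => ¬ (((bp a).card : ℝ) ≤ 2 * τ * M))).card : ℝ) *
        (2 * τ * M) ≤ (M / 2) * (2 * τ * M) := by
      calc _ ≤ _ := h7
        _ ≤ τ * M ^ 2 := hBb'
        _ = _ := by ring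
    have h10 := le_of_mul_le_mul_right h9 (by positivity)
    linarith
  have hB'1 : α * n / 4 ≤ (B'.card : ℝ) := by
    have h5 : ∑ b ∈ P, (((N b0).filter (fun a => G a b)).card : ℝ) = ∑ a ∈ N b0, D a := by
      have := sum_card_bipartiteAbove_eq_sum_card_bipartiteBelow (s := N b0) (t := P)
        (fun a b => G a b)
      have h6 : ∑ b ∈ P, ((N b0).filter (fun a => G a b)).card =
          ∑ a ∈ N b0, (P.filter (fun b => G a b)).card := this.symm
      change ∑ b ∈ P, (((N b0).filter (fun a => G a b)).card : ℝ) =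
        ∑ a ∈ N b0, ((P.filter (fun b => G a b)).card : ℝ)
      exact_mod_cast h6
    have h6 : M * (α * n / 2) ≤ ∑ a ∈ N b0, D a := by
      calc M * (α * n / 2) = ∑ _a ∈ N b0, α * n / 2 := by rw [sum_const, nsmul_eq_mul]
        _ ≤ _ := by
          apply sum_le_sum
          intro a ha
          exact (mem_filter.1 (mem_filter.1 ha).1).2
    have h7 := sum_filter_add_sum_filter_not P
      (fun b => α * M / 4 ≤ (((N b0).filter (fun a => G a b)).card : ℝ))
      (fun b => (((N b0).filter (fun a => G a b)).card : ℝ))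
    have h8 : ∑ b ∈ P.filter (fun b => ¬ (α * M / 4 ≤
        (((N b0).filter (fun a => G a b)).card : ℝ))),
        (((N b0).filter (fun a => G a b)).card : ℝ) ≤ n * (α * M / 4) := by
      calc _ ≤ ∑ _b ∈ P.filter (fun b => ¬ (α * M / 4 ≤
            (((N b0).filter (fun a => G a b)).card : ℝ))), α * M / 4 := by
            apply sum_le_sum
            intro b hb
            exact (not_le.1 (mem_filter.1 hb).2).le
        _ = ((P.filter (fun b => ¬ (α * M / 4 ≤
            (((N b0).filter (fun a => G a b)).card : ℝ)))).card : ℝ) * (α * M / 4) := by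
            rw [sum_const, nsmul_eq_mul]
        _ ≤ _ := by
            apply mul_le_mul_of_nonneg_right _ (by positivity)
            rw [hn]; exact_mod_cast card_filter_le _ _
    have h9 : ∑ b ∈ B', (((N b0).filter (fun a => G a b)).card : ℝ) ≤ (B'.card : ℝ) * M := by
      calc _ ≤ ∑ _b ∈ B', M := by
            apply sum_le_sum
            intro b _
            rw [hM]; exact_mod_cast card_filter_le _ _
        _ = _ := by rw [sum_const, nsmul_eq_mul]
    have h10 : (α * n / 4) * M ≤ (B'.card : ℝ) * M := by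
      have e1 : M * (α * n / 2) = (α * n / 4) * M + n * (α * M / 4) := by ring
      linarith
    exact le_of_mul_le_mul_right h10 hMpos
  refine ⟨A', (filter_subset _ _).trans hNP, B', filter_subset _ _, ?_, ?_, ?_⟩
  · linarith
  · linarith
  · intro a ha b hb
    obtain ⟨ha1, ha2⟩ := mem_filter.1 ha
    have hb2 := (mem_filter.1 hb).2
    -- the middle vertices
    set Z := ((N b0).filter (fun a1 => G a1 b)).filter (fun a1 => ¬ (cod a a1 < ε * n)) with hZ
    have h5 : α * M / 8 ≤ (Z.card : ℝ) := by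
      have h6 := card_filter_add_card_filter_not (s := (N b0).filter (fun a1 => G a1 b))
        (p := fun a1 => cod a a1 < ε * n)
      have h7 : (((N b0).filter (fun a1 => G a1 b)).filter (fun a1 => cod a a1 < ε * n)).card ≤
          (bp a).card := by
        apply card_le_card
        intro a1 h
        obtain ⟨h8, h9⟩ := mem_filter.1 h
        exact mem_filter.2 ⟨(mem_filter.1 h8).1, h9⟩
      have h8 : ((((N b0).filter (fun a1 => G a1 b)).filter
          (fun a1 => cod a a1 < ε * n)).card : ℝ) ≤ ((bp a).card : ℝ) := by exact_mod_cast h7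
      have h9 : ((((N b0).filter (fun a1 => G a1 b)).filter
          (fun a1 => cod a a1 < ε * n)).card : ℝ) + (Z.card : ℝ) =
          (((N b0).filter (fun a1 => G a1 b)).card : ℝ) := by exact_mod_cast h6
      have h10 : 2 * τ * M = α * M / 8 := by rw [hτ]; ring
      linarith
    have h6 : ((P ×ˢ P).filter (fun z => G a z.1 ∧ G z.2 z.1 ∧ G z.2 b)).card =
        ∑ a1 ∈ P, (P.filter (fun b1 => G a b1 ∧ G a1 b1 ∧ G a1 b)).card := by
      rw [card_filter, sum_product_right]
      apply sum_congr rfl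
      intro a1 _
      rw [card_filter]
    have h7 : (Z.card : ℝ) * (ε * n) ≤
        (((P ×ˢ P).filter (fun z => G a z.1 ∧ G z.2 z.1 ∧ G z.2 b)).card : ℝ) := by
      rw [h6]
      push_cast
      calc (Z.card : ℝ) * (ε * n) = ∑ _a1 ∈ Z, ε * n := by rw [sum_const, nsmul_eq_mul]
        _ ≤ ∑ a1 ∈ Z, ((P.filter (fun b1 => G a b1 ∧ G a1 b1 ∧ G a1 b)).card : ℝ) := by
            apply sum_le_sum
            intro a1 h
            obtain ⟨h8, h9⟩ := mem_filter.1 h
            have h10 := (mem_filter.1 h8).2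
            have h11 : P.filter (fun b1 => G a b1 ∧ G a1 b1 ∧ G a1 b) =
                P.filter (fun b1 => G a b1 ∧ G a1 b1) := by
              ext b1
              simp only [mem_filter]
              tauto
            rw [h11]
            exact not_lt.1 h9
        _ ≤ _ := by
            apply sum_le_sum_of_subset_of_nonneg
            · intro a1 h
              exact hNP (mem_filter.1 (mem_filter.1 h).1).1
            · intro _ _ _; exact Nat.cast_nonneg _
    calc α ^ 5 / 3072 * n ^ 2 = (α * (α * n / 3) / 8) * (ε * n) := by rw [hε]; ring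
      _ ≤ (α * M / 8) * (ε * n) := by
          apply mul_le_mul_of_nonneg_right _ (by positivity)
          have := mul_le_mul_of_nonneg_left hM1 hα.le
          linarith
      _ ≤ (Z.card : ℝ) * (ε * n) := mul_le_mul_of_nonneg_right h5 (by positivity)
      _ ≤ _ := h7

end Pool.Agent.ConvTri
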