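import Pool.Agent.Work.MP_dc37f8_co.Link

/-!
# The numerical part of the stability theorem
-/

namespace Pool.Agent.ConvTri

open Finset

theorem convex_rich {P : Finset Plane} (hP : ConvPos P) {N : ℕ} (hN : 10 ^ 10 ≤ N)
    (hmN : 19999 * N ≤ 20000 * P.card) (hT : 12 * (TC P).card ≤ N ^ 2 + 6) :
    ∃ (c : Plane) (r : ℝ), 3 * N ≤ 4 * (P.filter (fun p => dist p c = r)).card := by
  classical
  obtain ⟨K, hKc, hS⟩ := good_chords hP
  set S : ℕ := ∑ l ∈ K.D, (big P (K.α l) (K.β l)).card with hSd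
  have hE := sum_ex K
  rw [hKc, ← hSd] at hE
  set E : ℕ := ∑ l ∈ dists P, ex P l with hEd
  have hA := sum_ex_chords (lineBound_two hP)
  rw [← hEd] at hA
  have hD := total_defi hP
  set A : ℕ := ∑ z ∈ P.offDiag, ex P (dist z.1 z.2) with hAd
  set D : ℕ := ∑ z ∈ P.offDiag, defi P z.1 z.2 with hDd
  set s : ℕ := P.card / 7 with hs
  have hs6 : 6 * s + 2 < P.card := by omega
  have hbad := bad_chords P s
  rw [← hDd, offDiag_card] at hbad
  obtain ⟨c, r, hst⟩ := stability hP s hs6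
  refine ⟨c, r, ?_⟩
  set G : ℕ := (P.offDiag.filter (fun z => defi P z.1 z.2 ≤ s)).card with hG
  set M : ℕ := (P.filter (fun p => dist p c = r)).card with hM
  -- pass to the reals
  have rN : (10 : ℝ) ^ 10 ≤ N := by exact_mod_cast hN
  set m : ℝ := (P.card : ℝ) with hm
  have rmN : 19999 * (N : ℝ) ≤ 20000 * m := by rw [hm]; exact_mod_cast hmN
  have rT : 12 * ((TC P).card : ℝ) ≤ (N : ℝ) ^ 2 + 6 := by exact_mod_cast hT
  have rS : 4 * (S : ℝ) ^ 2 ≤ m ^ 3 := by rw [hm]; exact_mod_cast hS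
  have rA : (A : ℝ) ^ 2 ≤ 3 * m ^ 4 * E := by rw [hm]; exact_mod_cast hA
  have rD : (D : ℝ) ≤ A + 7 * m ^ 2 := by rw [hm]; exact_mod_cast hD
  have hm1 : (9 : ℝ) * 10 ^ 9 ≤ m := by linarith
  have hm0 : (0 : ℝ) < m := by linarith
  have hE0 : (0 : ℝ) ≤ E := Nat.cast_nonneg _
  have hA0 : (0 : ℝ) ≤ A := Nat.cast_nonneg _
  have hS0 : (0 : ℝ) ≤ S := Nat.cast_nonneg _
  -- the bound for `S`
  have rS2 : 2 * (S : ℝ) ≤ (11 / 10 ^ 6) * m ^ 2 := by
    have h1 : (2 * (S : ℝ)) ^ 2 ≤ ((11 / 10 ^ 6) * m ^ 2) ^ 2 := by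
      have h2 : m ^ 3 * 1 ≤ m ^ 3 * ((11 / 10 ^ 6) ^ 2 * m) := by
        apply mul_le_mul_of_nonneg_left _ (by positivity)
        nlinarith
      nlinarith
    have := abs_le_of_sq_le_sq' h1 (by positivity)
    exact this.2
  -- the bound for `E`
  have rE : (E : ℝ) ≤ (63 / 10 ^ 6) * m ^ 2 := by
    have h1 : ((E + (P.card - 1) / 2 * (P.card - 2) : ℕ) : ℝ) ≤
        ((6 * (TC P).card + 2 * S : ℕ) : ℝ) := by exact_mod_cast hE
    have h2 : (m - 2) ^ 2 / 2 ≤ (((P.card - 1) / 2 * (P.card - 2) : ℕ) : ℝ) := by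
      have h3 : (m - 2) / 2 ≤ (((P.card - 1) / 2 : ℕ) : ℝ) := by
        have : P.card ≤ 2 * ((P.card - 1) / 2) + 2 := by omega
        have : (P.card : ℝ) ≤ 2 * (((P.card - 1) / 2 : ℕ) : ℝ) + 2 := by exact_mod_cast this
        rw [← hm] at this
        linarith
      have h4 : m - 2 ≤ ((P.card - 2 : ℕ) : ℝ) := by
        have : P.card ≤ (P.card - 2) + 2 := by omega
        have : (P.card : ℝ) ≤ ((P.card - 2 : ℕ) : ℝ) + 2 := by exact_mod_cast this
        rw [← hm] at this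
        linarith
      rw [Nat.cast_mul]
      calc (m - 2) ^ 2 / 2 = (m - 2) / 2 * (m - 2) := by ring
        _ ≤ _ := mul_le_mul h3 h4 (by linarith) (Nat.cast_nonneg _)
    rw [Nat.cast_add, Nat.cast_add, Nat.cast_mul 6, Nat.cast_mul 2] at h1
    have h5 : (N : ℝ) ^ 2 ≤ (20000 / 19999) ^ 2 * m ^ 2 := by
      have h6 : (N : ℝ) ≤ (20000 / 19999) * m := by linarith
      have h7 : (N : ℝ) ^ 2 ≤ ((20000 / 19999) * m) ^ 2 :=
        pow_le_pow_left₀ (Nat.cast_nonneg _) h6 2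
      rwa [mul_pow] at h7
    have h6 : m * (9 * 10 ^ 9) ≤ m * m := mul_le_mul_of_nonneg_left hm1 hm0.le
    simp only [Nat.cast_ofNat] at h1
    have h7 : (m - 2) ^ 2 = m ^ 2 - 4 * m + 4 := by ring
    have h8 : m * m = m ^ 2 := by ring
    rw [h7] at h2
    rw [h8] at h6
    linarith
  -- the bound for `A`
  have rA2 : (A : ℝ) ≤ (1375 / 10 ^ 5) * m ^ 3 := by
    have h1 : (A : ℝ) ^ 2 ≤ ((1375 / 10 ^ 5) * m ^ 3) ^ 2 := by
      calc (A : ℝ) ^ 2 ≤ 3 * m ^ 4 * E := rA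
        _ ≤ 3 * m ^ 4 * ((63 / 10 ^ 6) * m ^ 2) := mul_le_mul_of_nonneg_left rE (by positivity)
        _ = (189 / 10 ^ 6) * m ^ 6 := by ring
        _ ≤ ((1375 / 10 ^ 5) ^ 2) * m ^ 6 := by
            apply mul_le_mul_of_nonneg_right _ (by positivity)
            norm_num
        _ = _ := by ring
    have := abs_le_of_sq_le_sq' h1 (by positivity)
    exact this.2
  have rD2 : (D : ℝ) ≤ (1376 / 10 ^ 5) * m ^ 3 := by
    have h1 : 7 * m ^ 2 ≤ (1 / 10 ^ 5) * m ^ 3 := by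
      have : m ^ 2 * 7 ≤ m ^ 2 * ((1 / 10 ^ 5) * m) := by
        apply mul_le_mul_of_nonneg_left _ (by positivity)
        linarith
      linarith
    linarith
  -- the number of good chords
  have rs1 : m / 7 ≤ (s : ℝ) + 1 := by
    have : P.card ≤ 7 * (s + 1) := by omega
    have : (P.card : ℝ) ≤ 7 * ((s : ℝ) + 1) := by exact_mod_cast this
    rw [← hm] at this
    linarith
  have rs2 : (s : ℝ) ≤ m / 7 := by
    have : 7 * s ≤ P.card := by omega
    have : 7 * (s : ℝ) ≤ (P.card : ℝ) := by exact_mod_cast this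
    rw [← hm] at this
    linarith
  have rG : (9036 / 10 ^ 4) * m ^ 2 ≤ (G : ℝ) := by
    have h1 : (m ^ 2 - m) * (s + 1) ≤ D + G * (s + 1) := by
      have h2 : (((P.card * P.card - P.card) * (s + 1) : ℕ) : ℝ) ≤ ((D + G * (s + 1) : ℕ) : ℝ) := by
        exact_mod_cast hbad
      have h3 : ((P.card * P.card - P.card : ℕ) : ℝ) = m ^ 2 - m := by
        rw [Nat.cast_sub (Nat.le_mul_self _), Nat.cast_mul, hm]
        ring
      rw [Nat.cast_mul, h3] at h2
      push_cast at h2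
      exact h2
    by_contra hcon
    push Not at hcon
    have h2 : (m ^ 2 - m - G) * (s + 1) ≤ D := by linarith
    have h3 : (9632 / 10 ^ 5) * m ^ 2 < m ^ 2 - m - G := by nlinarith
    have h4 : (m ^ 2 - m - G) * (m / 7) ≤ (m ^ 2 - m - G) * (s + 1) :=
      mul_le_mul_of_nonneg_left rs1 (by nlinarith)
    have h5 : (9632 / 10 ^ 5) * m ^ 2 * (m / 7) < (m ^ 2 - m - G) * (m / 7) :=
      mul_lt_mul_of_pos_right h3 (by positivity)
    nlinarith
  -- conclusion
  have rM : (77 / 100) * m ≤ (M : ℝ) := by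
    have h1 : (G : ℝ) * (m - s - 1) ≤ m * m * M := by
      have h2 : ((G * (P.card - s - 1) : ℕ) : ℝ) ≤ ((P.card * P.card * M : ℕ) : ℝ) := by
        exact_mod_cast hst
      have h3 : ((P.card - s - 1 : ℕ) : ℝ) = m - s - 1 := by
        rw [Nat.cast_sub (by omega), Nat.cast_sub (by omega), hm]
        simp
      rw [Nat.cast_mul, h3, Nat.cast_mul, Nat.cast_mul] at h2
      exact h2
    have h2 : (857 / 1000) * m ≤ m - s - 1 := by linarith
    have h3 : (9036 / 10 ^ 4) * m ^ 2 * ((857 / 1000) * m) ≤ G * (m - s - 1) :=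
      mul_le_mul rG h2 (by positivity) (Nat.cast_nonneg _)
    have h4 : m ^ 2 * ((77 / 100) * m) ≤ m ^ 2 * M := by
      have : (0 : ℝ) < m ^ 3 := by positivity
      nlinarith
    exact le_of_mul_le_mul_left h4 (by positivity)
  have rfin : 3 * (N : ℝ) ≤ 4 * M := by linarith
  exact_mod_cast rfin

end Pool.Agent.ConvTri
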