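import Pool.Agent.Work.MP_dc37f8_co.Circle3
import Pool.Agent.Work.MP_dc37f8_co.Numeric

/-!
# The final theorems
-/

namespace Pool.Agent.ConvTri

open Finset

theorem concT_eq (P : Finset Plane) : Conc.T P = (TC P).card := by
  classical
  unfold Conc.T
  rw [← Set.ncard_coe_finset]
  congr 1
  ext m
  simp only [Conc.triangleClasses, Set.mem_ofPred_eq, TC, Finset.coe_image,
    Set.mem_image, Finset.mem_coe, Finset.mem_filter, Finset.mem_product]
  constructor
  · rintro ⟨a, ha, b, hb, c, hc, hab, hbc, hac, rfl⟩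
    exact ⟨(a, b, c), ⟨⟨ha, hb, hc⟩, hab, hbc, hac⟩, rfl⟩
  · rintro ⟨⟨a, b, c⟩, ⟨⟨ha, hb, hc⟩, hab, hbc, hac⟩, rfl⟩
    exact ⟨a, ha, b, hb, c, hc, hab, hbc, hac, rfl⟩

/-- At least three quarters of the points on a circle. -/
theorem circle_final {P : Finset Plane} {c : Plane} {r : ℝ} (hn : 3 ≤ P.card)
    (h34 : 3 * P.card ≤ 4 * (P.filter (fun p => dist p c = r)).card) :
    round ((P.card : ℝ) ^ 2 / 12) ≤ ((TC P).card : ℤ) ∧
    ((17 ≤ P.card ∨ (5 ≤ P.card ∧ ∀ p ∈ P, dist p c = r)) →
      ((TC P).card : ℤ) = round ((P.card : ℝ) ^ 2 / 12) →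
      Conc.IsRegularPolygon P.card c P) := by
  classical
  have h34' : 3 * P.card ≤ 4 * (onC P c r).card := h34
  have hm3 : 3 ≤ (onC P c r).card := by omega
  have hr : 0 < r := by
    obtain ⟨a, ha, b, hb, hab⟩ := one_lt_card.1 (by omega : 1 < (onC P c r).card)
    have h1 := (onC_mem ha).2
    have h2 := (onC_mem hb).2
    have h0 : 0 ≤ r := by rw [← h1]; exact dist_nonneg
    rcases h0.lt_or_eq with h | h
    · exact h
    · exfalso
      apply hab
      rw [← h, dist_eq_zero] at h1 h2
      rw [h1, h2]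
  have hconc := Conc.conc_main c r (onC P c r) hm3 (fun p hp => (onC_mem hp).2)
  rw [concT_eq] at hconc
  have h0 := of_round_le hconc.1
  obtain ⟨h1, h2⟩ := near_circle h34' hr h0
  refine ⟨round_le_iff h1, ?_⟩
  intro h3 h4
  have hall : onC P c r = P := by
    rcases h3 with h3 | ⟨_, h3⟩
    · by_contra hne
      have h5 := h2 h3 hne
      have h6 : P.card ^ 2 ≤ 12 * ((TC P).card - 1) + 5 := by omega
      have h7 := round_le_iff h6
      have h8 : 1 ≤ (TC P).card := by
        by_contra h9
        have : (TC P).card = 0 := by omega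
        rw [this] at h5
        omega
      rw [← h4] at h7
      push_cast [Nat.cast_sub h8] at h7
      omega
    · exact filter_true_of_mem h3
  rw [hall] at hconc
  exact hconc.2 (by rcases h3 with h3 | h3 <;> omega) h4

/-- All but few of the points in convex position. -/
theorem convex_final {P P' : Finset Plane} (hsub : P' ⊆ P) (hP' : ConvPos P')
    (hn : 10 ^ 10 ≤ P.card) (hm : 19999 * P.card ≤ 20000 * P'.card) :
    round ((P.card : ℝ) ^ 2 / 12) ≤ ((TC P).card : ℤ) ∧
    (((TC P).card : ℤ) = round ((P.card : ℝ) ^ 2 / 12) →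
      ∃ c, Conc.IsRegularPolygon P.card c P) := by
  classical
  by_cases hT : 12 * (TC P).card ≤ P.card ^ 2 + 6
  · have hT' : 12 * (TC P').card ≤ P.card ^ 2 + 6 := by
      have := card_le_card (TC_mono hsub)
      omega
    obtain ⟨c, r, h1⟩ := convex_rich hP' hn hm hT'
    have h2 : 3 * P.card ≤ 4 * (P.filter (fun p => dist p c = r)).card := by
      have := card_le_card (filter_subset_filter (fun p => dist p c = r) hsub)
      omega
    have h3 := circle_final (by omega) h2
    exact ⟨h3.1, fun h => ⟨c, h3.2 (Or.inl (by omega)) h⟩⟩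
  · have h1 : P.card ^ 2 ≤ 12 * ((TC P).card - 1) + 5 := by omega
    have h2 := round_le_iff h1
    have h3 : 1 ≤ (TC P).card := by omega
    push_cast [Nat.cast_sub h3] at h2
    exact ⟨by omega, fun h => by omega⟩

end Pool.Agent.ConvTri
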