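import Mathlib

/-!
Counting zero-sum triples: the abstract group part of the lower bound for the number of
distinct triangles of a concyclic point set.
-/

set_option linter.unusedSectionVars false

namespace Pool.Agent.CircTri

open Finset

section multiset

variable {α : Type*}

theorem three_eq {a b c a' b' c' : α}
    (h : ({a, b, c} : Multiset α) = {a', b', c'}) :
    (a = a' ∧ b = b' ∧ c = c') ∨ (a = a' ∧ b = c' ∧ c = b') ∨
    (a = b' ∧ b = a' ∧ c = c') ∨ (a = b' ∧ b = c' ∧ c = a') ∨
    (a = c' ∧ b = a' ∧ c = b') ∨ (a = c' ∧ b = b' ∧ c = a') := by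
  classical
  have two : ∀ {p q p' q' : α}, ({p, q} : Multiset α) = {p', q'} →
      (p = p' ∧ q = q') ∨ (p = q' ∧ q = p') := by
    intro p q p' q' hh
    have hp : p ∈ ({p', q'} : Multiset α) := by rw [← hh]; simp
    simp only [Multiset.insert_eq_cons, Multiset.mem_cons, Multiset.mem_singleton] at hp
    rcases hp with rfl | rfl
    · left
      refine ⟨rfl, ?_⟩
      have := (Multiset.cons_inj_right p).1 hh
      simpa using this
    · right
      refine ⟨rfl, ?_⟩
      have h2 : ({p', p} : Multiset α) = {p, p'} := Multiset.pair_comm _ _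
      rw [h2] at hh
      have := (Multiset.cons_inj_right p).1 hh
      simpa using this
  have ha : a ∈ ({a', b', c'} : Multiset α) := by rw [← h]; simp
  simp only [Multiset.insert_eq_cons, Multiset.mem_cons, Multiset.mem_singleton] at ha
  rcases ha with rfl | rfl | rfl
  · have h1 := (Multiset.cons_inj_right a).1 h
    rcases two h1 with ⟨h2, h3⟩ | ⟨h2, h3⟩
    · exact Or.inl ⟨rfl, h2, h3⟩
    · exact Or.inr (Or.inl ⟨rfl, h2, h3⟩)
  · have e : ({a', a, c'} : Multiset α) = {a, a', c'} := Multiset.cons_swap _ _ _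
    rw [e] at h
    have h1 := (Multiset.cons_inj_right a).1 h
    rcases two h1 with ⟨h2, h3⟩ | ⟨h2, h3⟩
    · exact Or.inr (Or.inr (Or.inl ⟨rfl, h2, h3⟩))
    · exact Or.inr (Or.inr (Or.inr (Or.inl ⟨rfl, h2, h3⟩)))
  · have e : ({a', b', a} : Multiset α) = {a, a', b'} := by
      have e1 : ({a', b', a} : Multiset α) = {a', a, b'} := by
        have : ({b', a} : Multiset α) = {a, b'} := Multiset.pair_comm _ _
        show a' ::ₘ ({b', a} : Multiset α) = _
        rw [this]
        rfl
      rw [e1]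
      exact Multiset.cons_swap _ _ _
    rw [e] at h
    have h1 := (Multiset.cons_inj_right a).1 h
    rcases two h1 with ⟨h2, h3⟩ | ⟨h2, h3⟩
    · exact Or.inr (Or.inr (Or.inr (Or.inr (Or.inl ⟨rfl, h2, h3⟩))))
    · exact Or.inr (Or.inr (Or.inr (Or.inr (Or.inr ⟨rfl, h2, h3⟩))))

end multiset

variable {G : Type*} [AddCommGroup G] [DecidableEq G]

/-- the set of nonzero differences -/
def Df (P : Finset G) : Finset G := P.offDiag.image (fun q => q.2 - q.1)

/-- the ordered pairs `(b - a, c - b)` for distinct `a, b, c` in `P` -/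
def Zf (P : Finset G) : Finset (G × G) :=
  ((P ×ˢ P ×ˢ P).filter (fun t => t.1 ≠ t.2.1 ∧ t.2.1 ≠ t.2.2 ∧ t.1 ≠ t.2.2)).image
    (fun t => (t.2.1 - t.1, t.2.2 - t.2.1))

/-- type of a pair -/
def typ {α : Type*} (f : G → α) (z : G × G) : Multiset α := {f z.1, f z.2, f (z.1 + z.2)}

theorem mem_Df {P : Finset G} {x : G} : x ∈ Df P ↔ x ≠ 0 ∧ ∃ a ∈ P, a + x ∈ P := by
  unfold Df
  simp only [mem_image, mem_offDiag, Prod.exists]
  constructor
  · rintro ⟨a, b, ⟨ha, hb, hab⟩, rfl⟩
    refine ⟨sub_ne_zero.2 (Ne.symm hab), a, ha, ?_⟩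
    simpa using hb
  · rintro ⟨h0, a, ha, hax⟩
    refine ⟨a, a + x, ⟨ha, hax, ?_⟩, by abel⟩
    intro h
    exact h0 (by simpa using h.symm)

theorem mem_Zf {P : Finset G} {x y : G} :
    (x, y) ∈ Zf P ↔ x ≠ 0 ∧ y ≠ 0 ∧ x + y ≠ 0 ∧ ∃ a ∈ P, a + x ∈ P ∧ a + x + y ∈ P := by
  unfold Zf
  simp only [mem_image, mem_filter, mem_product, Prod.exists, Prod.mk.injEq]
  constructor
  · rintro ⟨a, b, c, ⟨⟨ha, hb, hc⟩, hab, hbc, hac⟩, rfl, rfl⟩
    refine ⟨sub_ne_zero.2 (Ne.symm hab), sub_ne_zero.2 (Ne.symm hbc), ?_, a, ha, ?_, ?_⟩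
    · have : b - a + (c - b) = c - a := by abel
      rw [this]
      exact sub_ne_zero.2 (Ne.symm hac)
    · have : a + (b - a) = b := by abel
      rwa [this]
    · have : a + (b - a) + (c - b) = c := by abel
      rwa [this]
  · rintro ⟨hx, hy, hxy, a, ha, hb, hc⟩
    refine ⟨a, a + x, a + x + y, ⟨⟨ha, hb, hc⟩, ?_, ?_, ?_⟩, by abel, by abel⟩
    · intro h
      exact hx (by simpa using h.symm)
    · intro h
      exact hy (by simpa using h.symm)
    · intro h
      apply hxy
      have : a + (x + y) = a := by rw [← add_assoc]; exact h.symm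
      simpa using this

theorem pm_helper {x y a b : G} (h1 : x = a ∨ x = -a) (h2 : y = b ∨ y = -b)
    (h3 : x + y = a + b ∨ x + y = -(a + b)) : (x = a ∧ y = b) ∨ (x = -a ∧ y = -b) := by
  rcases h1 with rfl | rfl <;> rcases h2 with rfl | rfl
  · exact Or.inl ⟨rfl, rfl⟩
  · rcases h3 with h3 | h3
    · left
      refine ⟨rfl, ?_⟩
      exact add_left_cancel h3
    · right
      refine ⟨?_, rfl⟩
      have : x + -b = -x + -b := by rw [h3]; abel
      exact add_right_cancel this
  · rcases h3 with h3 | h3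
    · left
      refine ⟨?_, rfl⟩
      exact add_right_cancel h3
    · right
      refine ⟨rfl, ?_⟩
      have : -a + y = -a + -y := by rw [h3]; abel
      exact add_left_cancel this
  · exact Or.inr ⟨rfl, rfl⟩

variable {α : Type*} {f : G → α}

/-- the (at most) twelve pairs with the type of `(a,b)` -/
def L12 (a b : G) : List (G × G) :=
  [(a, b), (-a, -b), (b, a), (-b, -a), (a, -(a + b)), (-a, a + b), (-(a + b), a), (a + b, -a),
   (b, -(a + b)), (-b, a + b), (-(a + b), b), (a + b, -b)]

/-- the (at most) six pairs with the type of `(a,a)` -/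
def L6 (a : G) : List (G × G) :=
  [(a, a), (-a, -a), (a, -(a + a)), (-a, a + a), (-(a + a), a), (a + a, -a)]

theorem typ_eq (hf : ∀ x y, f x = f y ↔ x = y ∨ x = -y) {x y a b : G}
    (h : typ f (x, y) = typ f (a, b)) :
    ∃ p q : G, (p, q) ∈ [(a, b), (b, a), (a, -(a + b)), (-(a + b), a), (b, -(a + b)),
      (-(a + b), b)] ∧ ((x = p ∧ y = q) ∨ (x = -p ∧ y = -q)) := by
  unfold typ at h
  simp only at h
  have hneg : ∀ {u v : G}, f u = f v → u = -v ∨ u = - -v := by
    intro u v huv
    rcases (hf u v).1 huv with h | h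
    · right; simpa using h
    · left; exact h
  have hpos : ∀ {u v : G}, f u = f v → u = v ∨ u = -v := fun {u v} huv => (hf u v).1 huv
  rcases three_eq h with ⟨h1, h2, h3⟩ | ⟨h1, h2, h3⟩ | ⟨h1, h2, h3⟩ | ⟨h1, h2, h3⟩ |
    ⟨h1, h2, h3⟩ | ⟨h1, h2, h3⟩
  · exact ⟨a, b, by simp, pm_helper (hpos h1) (hpos h2) (hpos h3)⟩
  · refine ⟨a, -(a + b), by simp, pm_helper (hpos h1) (hneg h2) ?_⟩
    have e : a + -(a + b) = -b := by abel
    rw [e]
    exact hneg h3
  · refine ⟨b, a, by simp, pm_helper (hpos h1) (hpos h2) ?_⟩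
    have e : b + a = a + b := add_comm _ _
    rw [e]
    exact hpos h3
  · refine ⟨b, -(a + b), by simp, pm_helper (hpos h1) (hneg h2) ?_⟩
    have e : b + -(a + b) = -a := by abel
    rw [e]
    exact hneg h3
  · refine ⟨-(a + b), a, by simp, pm_helper (hneg h1) (hpos h2) ?_⟩
    have e : -(a + b) + a = -b := by abel
    rw [e]
    exact hneg h3
  · refine ⟨-(a + b), b, by simp, pm_helper (hneg h1) (hpos h2) ?_⟩
    have e : -(a + b) + b = -a := by abel
    rw [e]
    exact hneg h3

theorem mem_L12 (hf : ∀ x y, f x = f y ↔ x = y ∨ x = -y) {x y a b : G}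
    (h : typ f (x, y) = typ f (a, b)) : (x, y) ∈ L12 a b := by
  obtain ⟨p, q, hpq, hxy⟩ := typ_eq hf h
  simp only [List.mem_cons, Prod.mk.injEq, List.not_mem_nil, or_false] at hpq
  unfold L12
  simp only [List.mem_cons, Prod.mk.injEq, List.not_mem_nil, or_false]
  rcases hpq with ⟨rfl, rfl⟩ | ⟨rfl, rfl⟩ | ⟨rfl, rfl⟩ | ⟨rfl, rfl⟩ | ⟨rfl, rfl⟩ | ⟨rfl, rfl⟩ <;>
    rcases hxy with ⟨rfl, rfl⟩ | ⟨rfl, rfl⟩ <;> simp

theorem mem_L6 (hf : ∀ x y, f x = f y ↔ x = y ∨ x = -y) {x y a : G}
    (h : typ f (x, y) = typ f (a, a)) : (x, y) ∈ L6 a := by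
  obtain ⟨p, q, hpq, hxy⟩ := typ_eq hf h
  simp only [List.mem_cons, Prod.mk.injEq, List.not_mem_nil, or_false] at hpq
  unfold L6
  simp only [List.mem_cons, Prod.mk.injEq, List.not_mem_nil, or_false]
  rcases hpq with ⟨rfl, rfl⟩ | ⟨rfl, rfl⟩ | ⟨rfl, rfl⟩ | ⟨rfl, rfl⟩ | ⟨rfl, rfl⟩ | ⟨rfl, rfl⟩ <;>
    rcases hxy with ⟨rfl, rfl⟩ | ⟨rfl, rfl⟩ <;> simp

theorem typ_diag (hf : ∀ x y, f x = f y ↔ x = y ∨ x = -y) {x y : G}
    (h : typ f (x, x) = typ f (y, y)) : x = y ∨ x = -y := by
  have h' := h
  unfold typ at h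
  simp only at h
  rcases three_eq h with ⟨h1, h2, h3⟩ | ⟨h1, h2, h3⟩ | ⟨h1, h2, h3⟩ | ⟨h1, h2, h3⟩ |
    ⟨h1, h2, h3⟩ | ⟨h1, h2, h3⟩
  · exact (hf _ _).1 h1
  · exact (hf _ _).1 h1
  · exact (hf _ _).1 h1
  · exact (hf _ _).1 h1
  · exact (hf _ _).1 h2
  · exact (hf _ _).1 h2

/-- the differences whose isosceles type occurs -/
def Nf (P : Finset G) : Finset G := (Df P).filter (fun x => (x, x) ∈ Zf P)

/-- the rare differences -/
def Rf (P : Finset G) : Finset G := (Df P).filter (fun x => x + x ≠ 0 ∧ (x, x) ∉ Zf P)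

/-- the involutory differences -/
def Ef (P : Finset G) : Finset G := (Df P).filter (fun x => x + x = 0)

theorem card_NRE (P : Finset G) : (Nf P).card + (Rf P).card + (Ef P).card = (Df P).card := by
  have h1 : (Df P).card = (Ef P).card + ((Df P).filter (fun x => ¬ (x + x = 0))).card := by
    unfold Ef
    exact (card_filter_add_card_filter_not _).symm
  have h2 : ((Df P).filter (fun x => ¬ (x + x = 0))).card = (Nf P).card + (Rf P).card := by
    rw [← card_filter_add_card_filter_not (s := (Df P).filter (fun x => ¬ (x + x = 0)))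
      (fun x => (x, x) ∈ Zf P)]
    congr 1
    · congr 1
      ext x
      simp only [mem_filter, Nf]
      constructor
      · rintro ⟨⟨h1, h2⟩, h3⟩
        exact ⟨h1, h3⟩
      · rintro ⟨h1, h3⟩
        exact ⟨⟨h1, (mem_Zf.1 h3).2.2.1⟩, h3⟩
    · congr 1
      ext x
      simp only [mem_filter, Rf]
      tauto
  omega

/-- the set of types -/
def Tf [DecidableEq α] (f : G → α) (P : Finset G) : Finset (Multiset α) := (Zf P).image (typ f)

theorem main_count [DecidableEq α] (hf : ∀ x y, f x = f y ↔ x = y ∨ x = -y) (P : Finset G) :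
    (Zf P).card + 3 * (Nf P).card ≤ 12 * (Tf f P).card := by
  classical
  set I : Finset (Multiset α) := (Nf P).image (fun x => typ f (x, x)) with hI
  have hIT : I ⊆ Tf f P := by
    intro τ hτ
    simp only [hI, mem_image] at hτ
    obtain ⟨x, hx, rfl⟩ := hτ
    exact mem_image_of_mem _ (mem_filter.1 hx).2
  have hIcard : (Nf P).card ≤ 2 * I.card := by
    rw [hI]
    apply card_le_mul_card_image (Nf P) 2
    intro τ hτ
    simp only [mem_image] at hτ
    obtain ⟨y, hy, rfl⟩ := hτ
    calc ((Nf P).filter (fun x => typ f (x, x) = typ f (y, y))).card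
        ≤ ([y, -y] : List G).toFinset.card := by
          apply card_le_card
          intro x hx
          simp only [mem_filter] at hx
          have := typ_diag hf hx.2
          simpa using this
      _ ≤ ([y, -y] : List G).length := List.toFinset_card_le _
      _ = 2 := rfl
  have hZ : (Zf P).card = ∑ τ ∈ Tf f P, ((Zf P).filter (fun z => typ f z = τ)).card := by
    apply card_eq_sum_card_fiberwise
    intro z hz
    exact mem_image_of_mem _ hz
  have h12 : ∀ τ ∈ Tf f P, ((Zf P).filter (fun z => typ f z = τ)).card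
      + (if τ ∈ I then 6 else 0) ≤ 12 := by
    intro τ hτ
    split_ifs with hi
    · simp only [hI, mem_image] at hi
      obtain ⟨y, hy, rfl⟩ := hi
      have : ((Zf P).filter (fun z => typ f z = typ f (y, y))).card ≤ 6 := by
        calc ((Zf P).filter (fun z => typ f z = typ f (y, y))).card
            ≤ (L6 y).toFinset.card := by
              apply card_le_card
              rintro ⟨x1, x2⟩ hx
              simp only [mem_filter] at hx
              rw [List.mem_toFinset]
              exact mem_L6 hf hx.2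
          _ ≤ (L6 y).length := List.toFinset_card_le _
          _ = 6 := rfl
      omega
    · obtain ⟨⟨a, b⟩, hab, rfl⟩ := mem_image.1 hτ
      have : ((Zf P).filter (fun z => typ f z = typ f (a, b))).card ≤ 12 := by
        calc ((Zf P).filter (fun z => typ f z = typ f (a, b))).card
            ≤ (L12 a b).toFinset.card := by
              apply card_le_card
              rintro ⟨x1, x2⟩ hx
              simp only [mem_filter] at hx
              rw [List.mem_toFinset]
              exact mem_L12 hf hx.2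
          _ ≤ (L12 a b).length := List.toFinset_card_le _
          _ = 12 := rfl
      omega
  have hsum : ∑ τ ∈ Tf f P, (((Zf P).filter (fun z => typ f z = τ)).card
      + (if τ ∈ I then 6 else 0)) ≤ ∑ τ ∈ Tf f P, 12 := sum_le_sum h12
  rw [sum_add_distrib, ← hZ, sum_const, smul_eq_mul, ← sum_filter, sum_const, smul_eq_mul] at hsum
  have hfi : (Tf f P).filter (fun τ => τ ∈ I) = I := by
    ext τ
    simp only [mem_filter]
    exact ⟨fun h => h.2, fun h => ⟨hIT h, h⟩⟩
  rw [hfi] at hsum
  omega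

/-- each difference lies under at least `n - 2` pairs -/
theorem Zf_lower (P : Finset G) : (Df P).card * (P.card - 2) ≤ (Zf P).card := by
  have h : (Zf P).card = ∑ x ∈ Df P, ((Zf P).filter (fun z => z.1 = x)).card := by
    apply card_eq_sum_card_fiberwise
    rintro ⟨x, y⟩ hz
    obtain ⟨h1, h2, h3, a, ha, hb, hc⟩ := mem_Zf.1 hz
    exact mem_Df.2 ⟨h1, a, ha, hb⟩
  rw [h, ← smul_eq_mul]
  apply card_nsmul_le_sum
  intro x hx
  obtain ⟨h0, a, ha, hax⟩ := mem_Df.1 hx
  have hsub : ((P.erase a).erase (a + x)).image (fun c => (x, c - (a + x))) ⊆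
      (Zf P).filter (fun z => z.1 = x) := by
    intro z hz
    simp only [mem_image, mem_erase] at hz
    obtain ⟨c, ⟨hc1, hc2, hc3⟩, rfl⟩ := hz
    simp only [mem_filter, and_true]
    rw [mem_Zf]
    refine ⟨h0, sub_ne_zero.2 hc1, ?_, a, ha, hax, ?_⟩
    · have : x + (c - (a + x)) = c - a := by abel
      rw [this]
      exact sub_ne_zero.2 hc2
    · have : a + x + (c - (a + x)) = c := by abel
      rwa [this]
  calc P.card - 2 = ((P.erase a).erase (a + x)).card := by
        rw [card_erase_of_mem, card_erase_of_mem ha]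
        · omega
        · rw [mem_erase]
          exact ⟨fun h => h0 (by simpa using h), hax⟩
    _ = (((P.erase a).erase (a + x)).image (fun c => (x, c - (a + x)))).card := by
        rw [card_image_of_injective]
        intro c c' hcc
        simp only [Prod.mk.injEq, true_and] at hcc
        exact sub_left_injective hcc
    _ ≤ _ := card_le_card hsub

/-- the points `a` of `P` with `a + x` in `P` -/
def Sf (P : Finset G) (x : G) : Finset G := P.filter (fun a => a + x ∈ P)

theorem sum_Sf (P : Finset G) : ∑ x ∈ Df P, (Sf P x).card = P.card * (P.card - 1) := by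
  have h1 : P.offDiag.card = ∑ x ∈ Df P, (P.offDiag.filter (fun q => q.2 - q.1 = x)).card := by
    apply card_eq_sum_card_fiberwise
    intro q hq
    exact mem_image_of_mem _ hq
  have h2 : P.offDiag.card = P.card * (P.card - 1) := by
    rw [offDiag_card, Nat.mul_sub, mul_one]
  rw [← h2, h1]
  apply sum_congr rfl
  intro x hx
  have h0 := (mem_Df.1 hx).1
  have : P.offDiag.filter (fun q => q.2 - q.1 = x) = (Sf P x).image (fun a => (a, a + x)) := by
    ext ⟨a, b⟩
    simp only [mem_filter, mem_offDiag, Sf, mem_image, Prod.mk.injEq]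
    constructor
    · rintro ⟨⟨ha, hb, hab⟩, rfl⟩
      refine ⟨a, ⟨ha, ?_⟩, rfl, by abel⟩
      have : a + (b - a) = b := by abel
      rwa [this]
    · rintro ⟨a', ⟨ha, hb⟩, rfl, rfl⟩
      refine ⟨⟨ha, hb, ?_⟩, by abel⟩
      intro h
      exact h0 (by simpa using h.symm)
  rw [this, card_image_of_injective]
  intro a a' h
  exact (Prod.mk.inj h).1

theorem Sf_le (P : Finset G) (x : G) : (Sf P x).card ≤ P.card := card_filter_le _ _

theorem Sf_rare {P : Finset G} {x : G} (hx : x ∈ Rf P) : 2 * (Sf P x).card ≤ P.card := by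
  simp only [Rf, mem_filter] at hx
  obtain ⟨hD, h2, hZ⟩ := hx
  have h0 := (mem_Df.1 hD).1
  have hdisj : Disjoint (Sf P x) ((Sf P x).image (fun a => a + x)) := by
    rw [disjoint_left]
    intro a ha hb
    simp only [mem_image, Sf, mem_filter] at ha hb
    obtain ⟨b, ⟨hb1, hb2⟩, rfl⟩ := hb
    exact hZ (mem_Zf.2 ⟨h0, h0, h2, b, hb1, hb2, ha.2⟩)
  have hsub : (Sf P x) ∪ ((Sf P x).image (fun a => a + x)) ⊆ P := by
    intro a ha
    simp only [mem_union, mem_image, Sf, mem_filter] at ha
    rcases ha with ha | ⟨b, hb, rfl⟩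
    · exact ha.1
    · exact hb.2
  have h3 := card_le_card hsub
  rw [card_union_of_disjoint hdisj, card_image_of_injective _ (add_left_injective x)] at h3
  omega

theorem card_even_of_invol (S : Finset G) (g : G → G) (h1 : ∀ a ∈ S, g a ∈ S)
    (h2 : ∀ a ∈ S, g (g a) = a) (h3 : ∀ a ∈ S, g a ≠ a) : 2 ∣ S.card := by
  have h : ∑ a ∈ S, (1 : ZMod 2) = 0 := by
    apply sum_involution (fun a _ => g a)
    · intro a ha
      decide
    · intro a ha _
      exact h3 a ha
    · intro a ha
      exact h1 a ha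
    · intro a ha
      exact h2 a ha
  rw [sum_const, nsmul_eq_mul, mul_one] at h
  exact (ZMod.natCast_eq_zero_iff _ _).1 h

theorem neg_mem_Df {P : Finset G} {x : G} (h : x ∈ Df P) : -x ∈ Df P := by
  obtain ⟨h0, a, ha, hax⟩ := mem_Df.1 h
  refine mem_Df.2 ⟨neg_ne_zero.2 h0, a + x, hax, ?_⟩
  simpa using ha

theorem neg_mem_Zf {P : Finset G} {x : G} (h : (x, x) ∈ Zf P) : (-x, -x) ∈ Zf P := by
  obtain ⟨h0, _, h2, a, ha, hax, haxx⟩ := mem_Zf.1 h
  refine mem_Zf.2 ⟨neg_ne_zero.2 h0, neg_ne_zero.2 h0, ?_, a + x + x, haxx, ?_, ?_⟩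
  · rw [← neg_add]
    exact neg_ne_zero.2 h2
  · simpa using hax
  · simpa using ha

theorem even_Nf (P : Finset G) : 2 ∣ (Nf P).card := by
  apply card_even_of_invol _ (fun x => -x)
  · intro a ha
    simp only [Nf, mem_filter] at ha ⊢
    exact ⟨neg_mem_Df ha.1, neg_mem_Zf ha.2⟩
  · intro a _
    simp
  · intro a ha h
    simp only [Nf, mem_filter] at ha
    apply (mem_Zf.1 ha.2).2.2.1
    have : a + a = a + -a := by rw [h]
    simpa using this

theorem even_Rf (P : Finset G) : 2 ∣ (Rf P).card := by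
  apply card_even_of_invol _ (fun x => -x)
  · intro a ha
    simp only [Rf, mem_filter] at ha ⊢
    refine ⟨neg_mem_Df ha.1, ?_, ?_⟩
    · rw [← neg_add]
      exact neg_ne_zero.2 ha.2.1
    · intro h
      apply ha.2.2
      simpa using neg_mem_Zf h
  · intro a _
    simp
  · intro a ha h
    simp only [Rf, mem_filter] at ha
    apply ha.2.1
    have : a + a = a + -a := by rw [h]
    simpa using this

/-- the trivial upper bound for `|S_x|` -/
def wt (P : Finset G) (x : G) : ℕ :=
  (if x ∈ Nf P then P.card else 0) + (if x ∈ Rf P then P.card / 2 else 0)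
    + (if x ∈ Ef P then P.card else 0)

theorem Sf_le_wt (P : Finset G) : ∀ x ∈ Df P, (Sf P x).card ≤ wt P x := by
  intro x hx
  unfold wt
  by_cases hE : x + x = 0
  · have : x ∈ Ef P := mem_filter.2 ⟨hx, hE⟩
    rw [if_pos this]
    have := Sf_le P x
    omega
  · by_cases hZ : (x, x) ∈ Zf P
    · have : x ∈ Nf P := mem_filter.2 ⟨hx, hZ⟩
      rw [if_pos this]
      have := Sf_le P x
      omega
    · have : x ∈ Rf P := mem_filter.2 ⟨hx, hE, hZ⟩
      rw [if_pos this]
      have := Sf_rare this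
      omega

theorem sum_wt (P : Finset G) : ∑ x ∈ Df P, wt P x =
    P.card * (Nf P).card + (P.card / 2) * (Rf P).card + P.card * (Ef P).card := by
  unfold wt
  rw [sum_add_distrib, sum_add_distrib, ← sum_filter, ← sum_filter, ← sum_filter, sum_const,
    sum_const, sum_const, smul_eq_mul, smul_eq_mul, smul_eq_mul]
  have e1 : (Df P).filter (fun x => x ∈ Nf P) = Nf P := by
    ext x; simp only [mem_filter]; exact ⟨fun h => h.2, fun h => ⟨(mem_filter.1 h).1, h⟩⟩
  have e2 : (Df P).filter (fun x => x ∈ Rf P) = Rf P := by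
    ext x; simp only [mem_filter]; exact ⟨fun h => h.2, fun h => ⟨(mem_filter.1 h).1, h⟩⟩
  have e3 : (Df P).filter (fun x => x ∈ Ef P) = Ef P := by
    ext x; simp only [mem_filter]; exact ⟨fun h => h.2, fun h => ⟨(mem_filter.1 h).1, h⟩⟩
  rw [e1, e2, e3]
  ring

/-- pair counting -/
theorem pair_count (P : Finset G) :
    P.card * (P.card - 1) ≤ P.card * (Nf P).card + (P.card / 2) * (Rf P).card
      + P.card * (Ef P).card := by
  rw [← sum_Sf, ← sum_wt]
  exact sum_le_sum (Sf_le_wt P)

/-- equality in pair counting forces equality for each difference -/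
theorem pair_count_eq (P : Finset G)
    (h : P.card * (P.card - 1) = P.card * (Nf P).card + (P.card / 2) * (Rf P).card
      + P.card * (Ef P).card) : ∀ x ∈ Df P, (Sf P x).card = wt P x := by
  rw [← sum_Sf, ← sum_wt] at h
  exact (sum_eq_sum_iff_of_le (Sf_le_wt P)).1 h

theorem six_case (P : Finset G) (hn : P.card = 6) (hE : (Ef P).card ≤ 1)
    (h36 : 7 * (Nf P).card + 4 * (Rf P).card + 4 * (Ef P).card ≤ 36) :
    (Df P).card < P.card := by
  by_contra hcon
  have hD := card_NRE P
  have hP := pair_count P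
  have hN2 := even_Nf P
  have hR2 := even_Rf P
  rw [hn] at hP hcon
  have hRpos : 0 < (Rf P).card := by omega
  have heq : P.card * (P.card - 1) = P.card * (Nf P).card + (P.card / 2) * (Rf P).card
      + P.card * (Ef P).card := by
    rw [hn]
    omega
  have hall := pair_count_eq P heq
  obtain ⟨y, hy⟩ := card_pos.1 hRpos
  have hyD : y ∈ Df P := (mem_filter.1 hy).1
  have hyN : y ∉ Nf P := fun h => (mem_filter.1 hy).2.2 (mem_filter.1 h).2
  have hyE : y ∉ Ef P := fun h => (mem_filter.1 hy).2.1 (mem_filter.1 h).2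
  have hS3 : (Sf P y).card = 3 := by
    rw [hall y hyD, wt, if_neg hyN, if_pos hy, if_neg hyE, hn]
  -- translations
  have htrans : ∀ z ∈ Nf P ∪ Ef P, ∀ a ∈ P, a + z ∈ P := by
    intro z hz a ha
    have hzD : z ∈ Df P := by
      rcases mem_union.1 hz with h | h
      · exact (mem_filter.1 h).1
      · exact (mem_filter.1 h).1
    have hzR : z ∉ Rf P := by
      intro h
      rcases mem_union.1 hz with h' | h'
      · exact (mem_filter.1 h).2.2 (mem_filter.1 h').2
      · exact (mem_filter.1 h).2.1 (mem_filter.1 h').2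
    have hc : P.card ≤ (Sf P z).card := by
      rw [hall z hzD, wt, if_neg hzR]
      rcases mem_union.1 hz with h' | h'
      · rw [if_pos h']; omega
      · rw [if_pos h']; omega
    have : Sf P z = P := eq_of_subset_of_card_le (filter_subset _ _) hc
    have ha' : a ∈ Sf P z := by rw [this]; exact ha
    exact (mem_filter.1 ha').2
  have hSinv : ∀ z ∈ Nf P ∪ Ef P, ∀ a ∈ Sf P y, a + z ∈ Sf P y := by
    intro z hz a ha
    obtain ⟨h1, h2⟩ := mem_filter.1 ha
    refine mem_filter.2 ⟨htrans z hz a h1, ?_⟩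
    have : a + z + y = a + y + z := by abel
    rw [this]
    exact htrans z hz _ h2
  obtain ⟨s, hs⟩ := card_pos.1 (by rw [hS3]; norm_num : 0 < (Sf P y).card)
  have hdisj : Disjoint (Nf P) (Ef P) := by
    rw [disjoint_left]
    intro a h1 h2
    exact (mem_Zf.1 (mem_filter.1 h1).2).2.2.1 (mem_filter.1 h2).2
  have h0 : (0 : G) ∉ Nf P ∪ Ef P := by
    intro h
    rcases mem_union.1 h with h | h
    · exact (mem_Df.1 (mem_filter.1 h).1).1 rfl
    · exact (mem_Df.1 (mem_filter.1 h).1).1 rfl
  have hcard : ((insert 0 (Nf P ∪ Ef P)).image (fun z => s + z)).card ≤ (Sf P y).card := by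
    apply card_le_card
    intro a ha
    obtain ⟨z, hz, rfl⟩ := mem_image.1 ha
    rcases mem_insert.1 hz with rfl | hz
    · simpa using hs
    · exact hSinv z hz s hs
  rw [card_image_of_injective _ (add_right_injective s), card_insert_of_notMem h0,
    card_union_of_disjoint hdisj, hS3] at hcard
  have hE1 : (Ef P).card = 1 := by omega
  obtain ⟨e, he⟩ := card_pos.1 (by omega : 0 < (Ef P).card)
  have hee : e + e = 0 := (mem_filter.1 he).2
  have he0 : e ≠ 0 := (mem_Df.1 (mem_filter.1 he).1).1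
  have hpar : 2 ∣ (Sf P y).card := by
    apply card_even_of_invol _ (fun a => a + e)
    · intro a ha
      exact hSinv e (mem_union_right _ he) a ha
    · intro a _
      show a + e + e = a
      rw [add_assoc, hee, add_zero]
    · intro a _ h
      exact he0 (by simpa using h)
  rw [hS3] at hpar
  omega

/-- the abstract lower bound: `n ^ 2 ≤ 12 T + 4` -/
theorem lower_bound [DecidableEq α] (hf : ∀ x y, f x = f y ↔ x = y ∨ x = -y)
    (h2 : ∀ x y : G, x + x = 0 → y + y = 0 → x ≠ 0 → y ≠ 0 → x = y)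
    (P : Finset G) (hn : 5 ≤ P.card) :
    P.card ^ 2 ≤ 12 * (Tf f P).card + 4 := by
  have hmain := main_count hf P
  have hZ := Zf_lower P
  have hD := card_NRE P
  have hE : (Ef P).card ≤ 1 := by
    rw [card_le_one]
    intro x hx y hy
    simp only [Ef, mem_filter] at hx hy
    exact h2 x y hx.2 hy.2 (mem_Df.1 hx.1).1 (mem_Df.1 hy.1).1
  have hP := pair_count P
  obtain ⟨k, hk⟩ : ∃ k, P.card = k + 5 := ⟨P.card - 5, by omega⟩
  have hhalf : 2 * (P.card / 2) ≤ P.card := by omega
  generalize (Tf f P).card = T at *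
  generalize (Zf P).card = Z at *
  generalize (Nf P).card = N at *
  generalize (Rf P).card = R at *
  generalize (Ef P).card = E at *
  generalize (Df P).card = D at *
  generalize P.card / 2 = h at *
  rw [hk] at *
  have e1 : k + 5 - 2 = k + 3 := by omega
  have e2 : k + 5 - 1 = k + 4 := by omega
  rw [e1] at hZ
  rw [e2] at hP
  -- 2 (k+4) ≤ 2 N + R + 2 E
  have h3 : 2 * (k + 4) ≤ 2 * N + R + 2 * E := by
    have : (k + 5) * (2 * (k + 4)) ≤ (k + 5) * (2 * N + R + 2 * E) := by nlinarith
    exact Nat.le_of_mul_le_mul_left this (by omega)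
  subst hD
  nlinarith

/-- nonregular sets: if there are at least `n` differences, then the bound improves -/
theorem lower_bound' [DecidableEq α] (hf : ∀ x y, f x = f y ↔ x = y ∨ x = -y)
    (h2 : ∀ x y : G, x + x = 0 → y + y = 0 → x ≠ 0 → y ≠ 0 → x = y)
    (P : Finset G) (hn : 5 ≤ P.card) (hD' : P.card ≤ (Df P).card) :
    P.card ^ 2 + P.card ≤ 12 * (Tf f P).card + 9 := by
  have hmain := main_count hf P
  have hZ := Zf_lower P
  have hD := card_NRE P
  have hE : (Ef P).card ≤ 1 := by
    rw [card_le_one]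
    intro x hx y hy
    simp only [Ef, mem_filter] at hx hy
    exact h2 x y hx.2 hy.2 (mem_Df.1 hx.1).1 (mem_Df.1 hy.1).1
  have hP := pair_count P
  obtain ⟨k, hk⟩ : ∃ k, P.card = k + 5 := ⟨P.card - 5, by omega⟩
  have hhalf : 2 * (P.card / 2) ≤ P.card := by omega
  generalize (Tf f P).card = T at *
  generalize (Zf P).card = Z at *
  generalize (Nf P).card = N at *
  generalize (Rf P).card = R at *
  generalize (Ef P).card = E at *
  generalize (Df P).card = D at *
  generalize P.card / 2 = h at *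
  rw [hk] at *
  have e1 : k + 5 - 2 = k + 3 := by omega
  have e2 : k + 5 - 1 = k + 4 := by omega
  rw [e1] at hZ
  rw [e2] at hP
  have h3 : 2 * (k + 4) ≤ 2 * N + R + 2 * E := by
    have : (k + 5) * (2 * (k + 4)) ≤ (k + 5) * (2 * N + R + 2 * E) := by nlinarith
    exact Nat.le_of_mul_le_mul_left this (by omega)
  -- 12 T ≥ D (k+6) - 3 R - 3
  have h4 : D * (k + 6) ≤ 12 * T + 3 * R + 3 * E := by nlinarith
  -- R ≤ 2 (D - (k+4))
  have h5 : R + 2 * (k + 4) ≤ 2 * D := by omega
  obtain ⟨j, hj⟩ : ∃ j, D = k + 5 + j := ⟨D - (k + 5), by omega⟩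
  rw [hj] at h4 h5
  nlinarith

/-- for at least five points the minimum forces as few differences as possible -/
theorem few_differences [DecidableEq α] (hf : ∀ x y, f x = f y ↔ x = y ∨ x = -y)
    (h2 : ∀ x y : G, x + x = 0 → y + y = 0 → x ≠ 0 → y ≠ 0 → x = y)
    (P : Finset G) (hn : 5 ≤ P.card) (hT : 12 * (Tf f P).card ≤ P.card ^ 2 + 6) :
    (Df P).card < P.card := by
  by_contra hcon
  have hlow := lower_bound' hf h2 P hn (not_lt.1 hcon)
  have hn15 : P.card ≤ 15 := by nlinarith
  have hmain := main_count hf P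
  have hZ := Zf_lower P
  have hD := card_NRE P
  have hE : (Ef P).card ≤ 1 := by
    rw [card_le_one]
    intro x hx y hy
    simp only [Ef, mem_filter] at hx hy
    exact h2 x y hx.2 hy.2 (mem_Df.1 hx.1).1 (mem_Df.1 hy.1).1
  have hP := pair_count P
  have hN2 := even_Nf P
  have hR2 := even_Rf P
  have h6 := six_case P
  generalize (Tf f P).card = T at *
  generalize (Zf P).card = Z at *
  generalize (Nf P).card = N at *
  generalize (Rf P).card = R at *
  generalize (Ef P).card = E at *
  generalize (Df P).card = D at *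
  generalize P.card = n at *
  interval_cases n
  · norm_num at *
    have hR7 : R ≤ 8 := by omega
    interval_cases R <;> omega
  · norm_num at *
    have := h6 hE (by omega)
    omega
  · norm_num at *; omega
  · norm_num at *; omega
  · norm_num at *; omega
  · norm_num at *; omega
  · norm_num at *; omega
  · norm_num at *; omega
  · norm_num at *; omega
  · norm_num at *; omega
  · norm_num at *; omega

/-- few differences: the set is a coset of a subgroup -/
theorem coset_of_few (P : Finset G) (hD : (Df P).card < P.card) :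
    ∀ a ∈ P, ∀ b ∈ P, ∀ c ∈ P, c + (b - a) ∈ P := by
  intro a ha b hb c hc
  have hA : (P.erase c).image (fun x => x - c) ⊆ Df P := by
    intro x hx
    obtain ⟨y, hy, rfl⟩ := mem_image.1 hx
    obtain ⟨h1, h2⟩ := mem_erase.1 hy
    refine mem_Df.2 ⟨sub_ne_zero.2 h1, c, hc, ?_⟩
    have : c + (y - c) = y := by abel
    rwa [this]
  have hA' : (P.erase c).image (fun x => x - c) = Df P := by
    apply eq_of_subset_of_card_le hA
    rw [card_image_of_injective _ sub_left_injective, card_erase_of_mem hc]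
    omega
  by_cases hab : b = a
  · subst hab
    simpa using hc
  · have : b - a ∈ Df P := by
      refine mem_Df.2 ⟨sub_ne_zero.2 hab, a, ha, ?_⟩
      have : a + (b - a) = b := by abel
      rwa [this]
    rw [← hA'] at this
    obtain ⟨y, hy, hyc⟩ := mem_image.1 this
    rw [← hyc]
    have e : c + (y - c) = y := by abel
    rw [e]
    exact (mem_erase.1 hy).2

end Pool.Agent.CircTri
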