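import Pool.Agent.Work.MP_dc37f8_co.Contract

/-!
# Many distances in a concave chain whose largest distance joins its ends
-/

namespace Pool.Agent.ConvTri

open Finset

theorem sd_self (p : ℝ × ℝ) : sd p p = 0 := by unfold sd; ring

theorem chain_step {C : Finset (ℝ × ℝ)} (hS : Concave (C : Set (ℝ × ℝ))) {l : ℝ} (hl : 0 < l)
    (hA : ((0, 0) : ℝ × ℝ) ∈ C) (hB : ((l, 0) : ℝ × ℝ) ∈ C)
    (hS0 : ∀ p ∈ C, 0 ≤ p.1) (hSl : ∀ p ∈ C, p.1 ≤ l)
    (hmax : ∀ p ∈ C, ∀ q ∈ C, sd p q ≤ l ^ 2) :
    ∀ n : ℕ, ∀ D ⊆ C, D.card = n + 2 → ∀ u ∈ D, ∀ v ∈ D, (∀ x ∈ D, u.1 ≤ x.1) →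
      (∀ x ∈ D, x.1 ≤ v.1) → (u ≠ (0, 0) ∨ v ≠ (l, 0)) →
      ∃ W : Finset ℝ, W ⊆ D.offDiag.image (fun z => sd z.1 z.2) ∧ n + 1 ≤ W.card ∧
        ∀ w ∈ W, w ≤ sd u v := by
  intro n
  induction n with
  | zero =>
    intro D hDC hcard u hu v hv hmin hmx hne
    have huv : u ≠ v := by
      rintro rfl
      have : D ⊆ {u} := by
        intro x hx
        have h1 : x.1 = u.1 := le_antisymm (hmx x hx) (hmin x hx)
        rw [mem_singleton]
        exact hS.inj x (hDC hx) u (hDC hu) h1
      have := card_le_card this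
      rw [card_singleton] at this
      omega
    refine ⟨{sd u v}, ?_, by simp, by simp⟩
    intro w hw
    rw [mem_singleton] at hw
    rw [hw, mem_image]
    exact ⟨(u, v), mem_offDiag.2 ⟨hu, hv, huv⟩, rfl⟩
  | succ n ih =>
    intro D hDC hcard u hu v hv hmin hmx hne
    have huv : u ≠ v := by
      rintro rfl
      have : D ⊆ {u} := by
        intro x hx
        have h1 : x.1 = u.1 := le_antisymm (hmx x hx) (hmin x hx)
        rw [mem_singleton]
        exact hS.inj x (hDC hx) u (hDC hu) h1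
      have := card_le_card this
      rw [card_singleton] at this
      omega
    have hcu : (D.erase u).card = n + 2 := by rw [card_erase_of_mem hu, hcard]; rfl
    have hcv : (D.erase v).card = n + 2 := by rw [card_erase_of_mem hv, hcard]; rfl
    obtain ⟨s, hs, hsmin⟩ := exists_min_image (D.erase u) (fun x => x.1)
      (card_pos.1 (by omega))
    obtain ⟨t, ht, htmax⟩ := exists_max_image (D.erase v) (fun x => x.1)
      (card_pos.1 (by omega))
    have hsu : u.1 < s.1 := by
      have h1 := hmin s (mem_of_mem_erase hs)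
      refine lt_of_le_of_ne h1 fun h => ?_
      exact (ne_of_mem_erase hs) (hS.inj s (hDC (mem_of_mem_erase hs)) u (hDC hu) h.symm)
    have htv : t.1 < v.1 := by
      have h1 := hmx t (mem_of_mem_erase ht)
      refine lt_of_le_of_ne h1 fun h => ?_
      exact (ne_of_mem_erase ht) (hS.inj t (hDC (mem_of_mem_erase ht)) v (hDC hv) h)
    have hst : s.1 ≤ t.1 := by
      -- a middle element
      have h3 : 0 < ((D.erase u).erase v).card := by
        have hve : v ∈ D.erase u := mem_erase.2 ⟨huv.symm, hv⟩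
        rw [card_erase_of_mem hve, hcu]
        omega
      obtain ⟨m, hm⟩ := card_pos.1 h3
      have hmv : m ≠ v := ne_of_mem_erase hm
      have hmu : m ≠ u := ne_of_mem_erase (mem_of_mem_erase hm)
      have hmD : m ∈ D := mem_of_mem_erase (mem_of_mem_erase hm)
      exact (hsmin m (mem_erase.2 ⟨hmu, hmD⟩)).trans (htmax m (mem_erase.2 ⟨hmv, hmD⟩))
    have hsD := mem_of_mem_erase hs
    have htD := mem_of_mem_erase ht
    rcases contraction hS hl hA hB hS0 hSl hmax (hDC hu) (hDC hsD) (hDC htD) (hDC hv) hsu hst htv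
      hne with h | h
    · have hvs : v ≠ u := huv.symm
      obtain ⟨W, hW1, hW2, hW3⟩ := ih (D.erase u) ((erase_subset _ _).trans hDC) hcu s hs v
        (mem_erase.2 ⟨hvs, hv⟩) hsmin (fun x hx => hmx x (mem_of_mem_erase hx)) (Or.inl (by
          rintro rfl
          have := hS0 u (hDC hu)
          simp only at hsu
          linarith))
      refine ⟨insert (sd u v) W, ?_, ?_, ?_⟩
      · intro w hw
        rcases mem_insert.1 hw with rfl | hw
        · exact mem_image.2 ⟨(u, v), mem_offDiag.2 ⟨hu, hv, huv⟩, rfl⟩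
        · obtain ⟨z, hz, rfl⟩ := mem_image.1 (hW1 hw)
          obtain ⟨z1, z2, z3⟩ := mem_offDiag.1 hz
          exact mem_image.2 ⟨z, mem_offDiag.2 ⟨mem_of_mem_erase z1, mem_of_mem_erase z2, z3⟩, rfl⟩
      · rw [card_insert_of_notMem]
        · omega
        · intro hmem
          have := hW3 _ hmem
          linarith
      · intro w hw
        rcases mem_insert.1 hw with rfl | hw
        · exact le_rfl
        · exact (hW3 w hw).trans h.le
    · obtain ⟨W, hW1, hW2, hW3⟩ := ih (D.erase v) ((erase_subset _ _).trans hDC) hcv u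
        (mem_erase.2 ⟨huv, hu⟩) t ht (fun x hx => hmin x (mem_of_mem_erase hx)) htmax (Or.inr (by
          rintro rfl
          have := hSl v (hDC hv)
          simp only at htv
          linarith))
      refine ⟨insert (sd u v) W, ?_, ?_, ?_⟩
      · intro w hw
        rcases mem_insert.1 hw with rfl | hw
        · exact mem_image.2 ⟨(u, v), mem_offDiag.2 ⟨hu, hv, huv⟩, rfl⟩
        · obtain ⟨z, hz, rfl⟩ := mem_image.1 (hW1 hw)
          obtain ⟨z1, z2, z3⟩ := mem_offDiag.1 hz
          exact mem_image.2 ⟨z, mem_offDiag.2 ⟨mem_of_mem_erase z1, mem_of_mem_erase z2, z3⟩, rfl⟩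
      · rw [card_insert_of_notMem]
        · omega
        · intro hmem
          have := hW3 _ hmem
          linarith
      · intro w hw
        rcases mem_insert.1 hw with rfl | hw
        · exact le_rfl
        · exact (hW3 w hw).trans h.le

/-- A concave chain of `k` points whose largest distance joins its ends determines at least
`k - 2` distances. -/
theorem chain_distances {C : Finset (ℝ × ℝ)} (hS : Concave (C : Set (ℝ × ℝ))) {l : ℝ}
    (hl : 0 < l) (hA : ((0, 0) : ℝ × ℝ) ∈ C) (hB : ((l, 0) : ℝ × ℝ) ∈ C)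
    (hS0 : ∀ p ∈ C, 0 ≤ p.1) (hSl : ∀ p ∈ C, p.1 ≤ l)
    (hmax : ∀ p ∈ C, ∀ q ∈ C, sd p q ≤ l ^ 2) :
    C.card ≤ (C.offDiag.image (fun z => sd z.1 z.2)).card + 2 := by
  by_cases h3 : C.card ≤ 2
  · omega
  push Not at h3
  obtain ⟨n, hn⟩ : ∃ n, C.card = n + 3 := ⟨C.card - 3, by omega⟩
  have hc : (C.erase (0, 0)).card = n + 2 := by rw [card_erase_of_mem hA, hn]; rfl
  obtain ⟨s, hs, hsmin⟩ := exists_min_image (C.erase (0, 0)) (fun x => x.1)
    (card_pos.1 (by omega))
  have hBe : ((l, 0) : ℝ × ℝ) ∈ C.erase (0, 0) := by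
    refine mem_erase.2 ⟨?_, hB⟩
    intro h
    have := congrArg Prod.fst h
    simp only at this
    linarith
  obtain ⟨W, hW1, hW2, -⟩ := chain_step hS hl hA hB hS0 hSl hmax n (C.erase (0, 0))
    (erase_subset _ _) hc s hs (l, 0) hBe hsmin (fun x hx => hSl x (mem_of_mem_erase hx))
    (Or.inl (ne_of_mem_erase hs))
  have hsub : W ⊆ C.offDiag.image (fun z => sd z.1 z.2) := by
    intro w hw
    obtain ⟨z, hz, rfl⟩ := mem_image.1 (hW1 hw)
    obtain ⟨z1, z2, z3⟩ := mem_offDiag.1 hz
    exact mem_image.2 ⟨z, mem_offDiag.2 ⟨mem_of_mem_erase z1, mem_of_mem_erase z2, z3⟩, rfl⟩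
  have := card_le_card hsub
  omega

end Pool.Agent.ConvTri
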