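import Mathlib

/-!
# Many approximate axes of a planar set are concurrent
-/

namespace Pool.Agent.ConvTri

open Finset ComplexConjugate

/-- the number of points of `Q` leaving `Q` -/
noncomputable def dfc (Q : Finset ℂ) (f : ℂ → ℂ) : ℕ := by
  classical
  exact (Q.filter (fun q => f q ∉ Q)).card

theorem dfc_comp (Q : Finset ℂ) (f g : ℂ → ℂ) (hg : Function.Injective g) :
    dfc Q (fun z => f (g z)) ≤ dfc Q g + dfc Q f := by
  classical
  unfold dfc
  have h1 : Q.filter (fun q => f (g q) ∉ Q) ⊆
      Q.filter (fun q => g q ∉ Q) ∪ Q.filter (fun q => g q ∈ Q ∧ f (g q) ∉ Q) := by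
    intro q hq
    obtain ⟨h1, h2⟩ := mem_filter.1 hq
    by_cases h : g q ∈ Q
    · exact mem_union_right _ (mem_filter.2 ⟨h1, h, h2⟩)
    · exact mem_union_left _ (mem_filter.2 ⟨h1, h⟩)
  refine (card_le_card h1).trans ((card_union_le _ _).trans (Nat.add_le_add_left ?_ _))
  apply card_le_card_of_injOn g
  · intro q hq
    obtain ⟨h1, h2, h3⟩ := mem_filter.1 (mem_coe.1 hq)
    exact mem_coe.2 (mem_filter.2 ⟨h2, h3⟩)
  · intro q _ q' _ h
    exact hg h

/-- the reflection `z ↦ u conj z + w` -/
noncomputable def rfl' (a : ℂ × ℂ) (z : ℂ) : ℂ := a.1 * conj z + a.2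

/-- `a` describes the reflection in a line -/
def IsAxis (a : ℂ × ℂ) : Prop := a.1 * conj a.1 = 1 ∧ a.1 * conj a.2 + a.2 = 0

theorem IsAxis.ne {a : ℂ × ℂ} (h : IsAxis a) : a.1 ≠ 0 := by
  intro h0
  have := h.1
  rw [h0] at this
  simp at this

theorem rfl'_inj {a : ℂ × ℂ} (h : IsAxis a) : Function.Injective (rfl' a) := by
  intro z w hzw
  unfold rfl' at hzw
  have h1 := mul_left_cancel₀ h.ne (add_right_cancel hzw)
  exact (starRingEnd ℂ).injective h1

/-- A translation moving few points out of `Q` is trivial. -/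
theorem trans_zero {Q : Finset ℂ}
    (h2 : ∀ t : ℂ, t ≠ 0 → (Q.filter (fun p => p + t ∈ Q)).card ≤ 2) {t : ℂ} {s : ℕ}
    (hs : s + 2 < Q.card) (h : dfc Q (fun z => z + t) ≤ s) : t = 0 := by
  classical
  by_contra ht
  have h3 := h2 t ht
  unfold dfc at h
  have h4 := card_filter_add_card_filter_not (s := Q) (p := fun q => q + t ∈ Q)
  have h5 : (Q.filter (fun q => ¬ (q + t ∈ Q))).card ≤ s := by
    convert h using 2
  omega

theorem concurrent {Q : Finset ℂ}
    (h2 : ∀ t : ℂ, t ≠ 0 → (Q.filter (fun p => p + t ∈ Q)).card ≤ 2) {s : ℕ}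
    (hs : 6 * s + 2 < Q.card) (A : Finset (ℂ × ℂ))
    (hA : ∀ a ∈ A, IsAxis a ∧ dfc Q (rfl' a) ≤ s) : ∃ O : ℂ, ∀ a ∈ A, rfl' a O = O := by
  classical
  -- parallel axes coincide
  have hpar : ∀ a ∈ A, ∀ b ∈ A, a.1 = b.1 → a = b := by
    intro a ha b hb hab
    have h3 : dfc Q (fun z => rfl' b (rfl' a z)) ≤ s + s :=
      (dfc_comp Q _ _ (rfl'_inj (hA a ha).1)).trans (Nat.add_le_add (hA a ha).2 (hA b hb).2)
    have h4 : (fun z => rfl' b (rfl' a z)) = fun z => z + (b.2 - a.2) := by
      funext z
      unfold rfl'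
      rw [map_add, map_mul, Complex.conj_conj, ← hab]
      have e1 := (hA a ha).1.1
      have e2 := (hA a ha).1.2
      linear_combination z * e1 + e2
    rw [h4] at h3
    have h5 := trans_zero h2 (by omega) h3
    exact Prod.ext hab (by linear_combination -h5)
  rcases A.eq_empty_or_nonempty with h0 | ⟨a, ha⟩
  · exact ⟨0, by rw [h0]; simp⟩
  by_cases hb : ∃ b ∈ A, b.1 ≠ a.1
  · obtain ⟨b, hb, hba⟩ := hb
    obtain ⟨⟨a1, a2⟩, ha3⟩ := hA a ha
    obtain ⟨⟨b1, b2⟩, hb3⟩ := hA b hb
    -- the intersection point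
    have hd : a.1 - b.1 ≠ 0 := sub_ne_zero.2 hba.symm
    set O : ℂ := (a.1 * b.2 - b.1 * a.2) / (a.1 - b.1) with hO
    have a1' : conj a.1 * a.1 = 1 := by rw [mul_comm]; exact a1
    have b1' : conj b.1 * b.1 = 1 := by rw [mul_comm]; exact b1
    have a2' : conj a.1 * a.2 + conj a.2 = 0 := by
      have := congrArg conj a2
      rw [map_add, map_mul, Complex.conj_conj, map_zero] at this
      exact this
    have b2' : conj b.1 * b.2 + conj b.2 = 0 := by
      have := congrArg conj b2
      rw [map_add, map_mul, Complex.conj_conj, map_zero] at this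
      exact this
    have hdc : conj a.1 - conj b.1 ≠ 0 := by
      rw [← map_sub]
      exact (map_ne_zero _).2 hd
    have hOc : conj O = (b.2 - a.2) / (a.1 - b.1) := by
      rw [hO, map_div₀, map_sub, map_sub, map_mul, map_mul]
      rw [div_eq_div_iff hdc hd]
      have e1 : conj a.2 = -(conj a.1 * a.2) := by linear_combination a2'
      have e2 : conj b.2 = -(conj b.1 * b.2) := by linear_combination b2'
      rw [e1, e2]
      linear_combination (-(conj b.1) * b.2 + conj b.1 * a.2) * a1' +
        (conj a.1 * b.2 - conj a.1 * a.2) * b1'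
    have hOa : rfl' a O = O := by
      unfold rfl'
      rw [hOc, hO]
      field_simp
      ring
    have hOb : rfl' b O = O := by
      unfold rfl'
      rw [hOc, hO]
      field_simp
      ring
    refine ⟨O, fun c hc => ?_⟩
    obtain ⟨⟨c1, c2⟩, hc3⟩ := hA c hc
    have hinja := rfl'_inj (hA a ha).1
    have hinjb := rfl'_inj (hA b hb).1
    have hinjc := rfl'_inj (hA c hc).1
    -- the composition of the three reflections
    set g : ℂ → ℂ := fun z => rfl' a (rfl' b (rfl' c z)) with hg
    have hginj : Function.Injective g := fun x y h => hinjc (hinjb (hinja h))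
    have d1 : dfc Q (fun z => rfl' b (rfl' c z)) ≤ s + s :=
      (dfc_comp Q _ _ hinjc).trans (Nat.add_le_add hc3 hb3)
    have d2 : dfc Q g ≤ (s + s) + s :=
      (dfc_comp Q (rfl' a) (fun z => rfl' b (rfl' c z)) (fun x y h => hinjc (hinjb h))).trans
        (Nat.add_le_add d1 ha3)
    have d3 : dfc Q (fun z => g (g z)) ≤ ((s + s) + s) + ((s + s) + s) :=
      (dfc_comp Q _ _ hginj).trans (Nat.add_le_add d2 d2)
    have h4 : (fun z => g (g z)) = fun z => z + ((a.1 * conj b.1 - 1) *
        (c.2 - O + c.1 * conj O)) := by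
      funext z
      have hOa' : a.1 * conj O + a.2 = O := hOa
      have hOb' : b.1 * conj O + b.2 = O := hOb
      have hOb'' : conj b.1 * O + conj b.2 = conj O := by
        have := congrArg conj hOb'
        rw [map_add, map_mul, Complex.conj_conj] at this
        exact this
      simp only [hg]
      unfold rfl'
      simp only [map_add, map_mul, Complex.conj_conj]
      have c1' : conj c.1 * c.1 = 1 := by rw [mul_comm]; exact c1
      have c2' : conj c.1 * c.2 + conj c.2 = 0 := by
        have := congrArg conj c2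
        rw [map_add, map_mul, Complex.conj_conj, map_zero] at this
        exact this
      have e1 : a.2 = O - a.1 * conj O := by linear_combination hOa'
      have e2 : b.2 = O - b.1 * conj O := by linear_combination hOb'
      have e3 : conj a.2 = conj O - conj a.1 * O := by
        rw [e1, map_sub, map_mul, Complex.conj_conj]
      have e4 : conj b.2 = conj O - conj b.1 * O := by linear_combination hOb''
      have e5 : conj c.2 = -(conj c.1 * c.2) := by linear_combination c2'
      rw [e3, e4, e1, e2, e5]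
      linear_combination
        ((z - c.2) * (b.1 * conj b.1 * (c.1 * conj c.1)) -
          c.1 * conj O * (b.1 * conj b.1)) * a1 +
        ((z - c.2) * (c.1 * conj c.1) - c.1 * conj O) * b1 + (z - c.2) * c1
    rw [h4] at d3
    have h5 := trans_zero h2 (by omega) d3
    rcases mul_eq_zero.1 h5 with h6 | h6
    · exfalso
      apply hba
      have h7 : a.1 * conj b.1 = 1 := by linear_combination h6
      have : a.1 * (conj b.1 * b.1) = b.1 := by rw [← mul_assoc, h7, one_mul]
      rw [b1', mul_one] at this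
      exact this.symm
    · unfold rfl'
      linear_combination h6
  · push Not at hb
    refine ⟨a.2 / 2, fun b hb' => ?_⟩
    have := hpar b hb' a ha (hb b hb')
    rw [this]
    unfold rfl'
    have e2 := (hA a ha).1.2
    rw [map_div₀]
    have : conj (2 : ℂ) = 2 := Complex.conj_ofNat 2
    rw [this]
    linear_combination e2 / 2

/-- **Many axes force a rich circle.** -/
theorem rich_circle {Q : Finset ℂ}
    (h2 : ∀ t : ℂ, t ≠ 0 → (Q.filter (fun p => p + t ∈ Q)).card ≤ 2) {s : ℕ}
    (hs : 6 * s + 2 < Q.card) (A : Finset (ℂ × ℂ))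
    (hA : ∀ a ∈ A, IsAxis a ∧ dfc Q (rfl' a) ≤ s) :
    ∃ (O : ℂ) (r : ℝ), A.card * (Q.card - s - 1) ≤
      Q.card * (Q.filter (fun q => dist q O = r)).card := by
  classical
  obtain ⟨O, hO⟩ := concurrent h2 hs A hA
  set R := Q.erase O with hR
  have hRc : Q.card ≤ R.card + 1 := by
    have := pred_card_le_card_erase (s := Q) (a := O)
    rw [← hR] at this
    omega
  -- the isometries fixing `O`
  have hdist : ∀ a ∈ A, ∀ p : ℂ, dist (rfl' a p) O = dist p O := by
    intro a ha p
    have h3 := hO a ha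
    have h4 : rfl' a p - O = a.1 * conj (p - O) := by
      rw [map_sub]
      unfold rfl' at h3 ⊢
      linear_combination h3
    rw [Complex.dist_eq, h4, norm_mul, Complex.norm_conj, ← Complex.dist_eq]
    have h5 : ‖a.1‖ = 1 := by
      have h6 := congrArg norm (hA a ha).1.1
      rw [norm_mul, Complex.norm_conj, norm_one] at h6
      nlinarith [norm_nonneg a.1]
    rw [h5, one_mul]
  have hdet : ∀ a ∈ A, ∀ b ∈ A, ∀ p : ℂ, p ≠ O → rfl' a p = rfl' b p → a = b := by
    intro a ha b hb p hp h
    have h3 := hO a ha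
    have h4 := hO b hb
    unfold rfl' at h h3 h4
    have h5 : (a.1 - b.1) * conj (p - O) = 0 := by
      rw [map_sub]
      linear_combination h - h3 + h4
    rcases mul_eq_zero.1 h5 with h6 | h6
    · have h7 : a.1 = b.1 := by linear_combination h6
      refine Prod.ext h7 ?_
      rw [h7] at h3
      linear_combination h3 - h4
    · exfalso
      have h7 : p - O = 0 := (map_eq_zero _).1 h6
      exact hp (sub_eq_zero.1 h7)
  -- double counting
  have h3 : ∑ a ∈ A, (R.filter (fun p => rfl' a p ∈ Q)).card =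
      ∑ p ∈ R, (A.filter (fun a => rfl' a p ∈ Q)).card :=
    sum_card_bipartiteAbove_eq_sum_card_bipartiteBelow _
  have h4 : ∀ a ∈ A, Q.card - s - 1 ≤ (R.filter (fun p => rfl' a p ∈ Q)).card := by
    intro a ha
    have h5 := (hA a ha).2
    have h6 := card_filter_add_card_filter_not (s := R) (p := fun p => rfl' a p ∈ Q)
    have h7 : (R.filter (fun p => ¬ (rfl' a p ∈ Q))).card ≤ dfc Q (rfl' a) := by
      unfold dfc
      apply card_le_card
      intro p hp
      obtain ⟨h8, h9⟩ := mem_filter.1 hp
      exact mem_filter.2 ⟨mem_of_mem_erase h8, h9⟩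
    omega
  have h5 : A.card * (Q.card - s - 1) ≤ ∑ p ∈ R, (A.filter (fun a => rfl' a p ∈ Q)).card := by
    rw [← h3]
    calc A.card * (Q.card - s - 1) = ∑ _a ∈ A, (Q.card - s - 1) := by
          rw [sum_const, smul_eq_mul]
      _ ≤ _ := sum_le_sum h4
  have h6 : ∀ p ∈ R, (A.filter (fun a => rfl' a p ∈ Q)).card ≤
      (Q.filter (fun q => dist q O = dist p O)).card := by
    intro p hp
    apply card_le_card_of_injOn (fun a => rfl' a p)
    · intro a ha
      obtain ⟨h7, h8⟩ := mem_filter.1 (mem_coe.1 ha)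
      exact mem_coe.2 (mem_filter.2 ⟨h8, hdist a h7 p⟩)
    · intro a ha b hb h
      exact hdet a (mem_filter.1 (mem_coe.1 ha)).1 b (mem_filter.1 (mem_coe.1 hb)).1 p
        (mem_erase.1 hp).1 h
  have hne : R.Nonempty := by
    apply card_pos.1
    omega
  obtain ⟨p0, hp0, hmax⟩ := exists_max_image R
    (fun p => (Q.filter (fun q => dist q O = dist p O)).card) hne
  refine ⟨O, dist p0 O, h5.trans ?_⟩
  calc ∑ p ∈ R, (A.filter (fun a => rfl' a p ∈ Q)).card
      ≤ ∑ _p ∈ R, (Q.filter (fun q => dist q O = dist p0 O)).card :=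
        sum_le_sum fun p hp => (h6 p hp).trans (hmax p hp)
    _ = R.card * (Q.filter (fun q => dist q O = dist p0 O)).card := by
        rw [sum_const, smul_eq_mul]
    _ ≤ Q.card * (Q.filter (fun q => dist q O = dist p0 O)).card :=
        Nat.mul_le_mul_right _ (card_le_card (erase_subset _ _))

end Pool.Agent.ConvTri
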