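import Pool.Agent.Work.MP_dc37f8_co.Abstract

/-!
# Concyclic sets: the regular polygon minimises the number of distinct triangles, and for at
least five points it is the only minimiser.
-/

namespace Pool.Agent.ConvTri.Conc

open Finset Pool.Agent.CircTri
open scoped Classical

/-- The plane. -/
abbrev Plane := EuclideanSpace ℝ (Fin 2)

/-- The congruence classes of triangles determined by `P`, a triangle being an unordered triple
of distinct points and its class being recorded (side-side-side) by the multiset of its three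
pairwise distances. -/
def triangleClasses (P : Finset Plane) : Set (Multiset ℝ) :=
  {m | ∃ a ∈ P, ∃ b ∈ P, ∃ c ∈ P, a ≠ b ∧ b ≠ c ∧ a ≠ c ∧ m = {dist a b, dist b c, dist a c}}

/-- `T(P)`, the number of congruence classes of triangles determined by `P`. -/
noncomputable def T (P : Finset Plane) : ℕ := (triangleClasses P).ncard

/-- `P` is the vertex set of a regular `n`-gon with centre `c`. -/
def IsRegularPolygon (n : ℕ) (c : Plane) (P : Finset Plane) : Prop :=
  ∃ (r θ : ℝ), 0 < r ∧ (P : Set Plane) = Set.range (fun k : Fin n =>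
    (!₂[c 0 + r * Real.cos (θ + 2 * Real.pi * k / n),
      c 1 + r * Real.sin (θ + 2 * Real.pi * k / n)] : Plane))

/-- the point of the circle with angle `θ` -/
noncomputable def pt (c : Plane) (r : ℝ) (θ : Real.Angle) : Plane :=
  !₂[c 0 + r * θ.cos, c 1 + r * θ.sin]

/-- chord length -/
noncomputable def chord (r : ℝ) (x : Real.Angle) : ℝ := Real.sqrt (r ^ 2 * (2 - 2 * x.cos))

theorem chord_iff {r : ℝ} (hr : 0 < r) (x y : Real.Angle) :
    chord r x = chord r y ↔ x = y ∨ x = -y := by
  unfold chord
  have h1 : ∀ z : Real.Angle, 0 ≤ r ^ 2 * (2 - 2 * z.cos) := by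
    intro z
    have : z.cos ≤ 1 := by
      induction z using Real.Angle.induction_on
      simpa using Real.cos_le_one _
    have : 0 ≤ 2 - 2 * z.cos := by linarith
    positivity
  rw [Real.sqrt_inj (h1 x) (h1 y), ← Real.Angle.cos_eq_iff_eq_or_eq_neg]
  have hr2 : r ^ 2 ≠ 0 := by positivity
  constructor
  · intro h
    have := mul_left_cancel₀ hr2 h
    linarith
  · intro h
    rw [h]

theorem dist_pt {c : Plane} {r : ℝ} (x y : Real.Angle) :
    dist (pt c r x) (pt c r y) = chord r (y - x) := by
  unfold chord pt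
  rw [EuclideanSpace.dist_eq]
  congr 1
  simp only [Fin.sum_univ_two, Real.dist_eq, sq_abs]
  simp only [Matrix.cons_val_zero, Matrix.cons_val_one]
  rw [sub_eq_add_neg y x, Real.Angle.cos_add, Real.Angle.cos_neg, Real.Angle.sin_neg]
  have h1 : x.cos ^ 2 + x.sin ^ 2 = 1 := Real.Angle.cos_sq_add_sin_sq x
  have h2 : y.cos ^ 2 + y.sin ^ 2 = 1 := Real.Angle.cos_sq_add_sin_sq y
  linear_combination r ^ 2 * h1 + r ^ 2 * h2

theorem pt_injective {c : Plane} {r : ℝ} (hr : 0 < r) : Function.Injective (pt c r) := by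
  intro x y h
  have h0 : r * x.cos = r * y.cos := by
    have := congrArg (fun p : Plane => p 0) h
    simpa [pt] using this
  have h1 : r * x.sin = r * y.sin := by
    have := congrArg (fun p : Plane => p 1) h
    simpa [pt] using this
  have h0' := mul_left_cancel₀ hr.ne' h0
  have h1' := mul_left_cancel₀ hr.ne' h1
  induction x using Real.Angle.induction_on
  induction y using Real.Angle.induction_on
  exact Real.Angle.cos_sin_inj (by simpa using h0') (by simpa using h1')

/-- the angle of a point -/
noncomputable def ang (c : Plane) (p : Plane) : Real.Angle :=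
  (Complex.arg ⟨p 0 - c 0, p 1 - c 1⟩ : Real.Angle)

theorem pt_ang {c : Plane} {r : ℝ} (hr : 0 < r) {p : Plane} (hp : dist p c = r) :
    pt c r (ang c p) = p := by
  set z : ℂ := ⟨p 0 - c 0, p 1 - c 1⟩ with hz
  have hnorm : ‖z‖ = r := by
    rw [← hp, EuclideanSpace.dist_eq, Complex.norm_eq_sqrt_sq_add_sq]
    congr 1
    simp only [Fin.sum_univ_two, Real.dist_eq, sq_abs, hz]
  have hz0 : z ≠ 0 := by
    intro h
    rw [h, norm_zero] at hnorm
    exact hr.ne hnorm
  have h1 : Real.cos z.arg = z.re / ‖z‖ := Complex.cos_arg hz0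
  have h2 : Real.sin z.arg = z.im / ‖z‖ := Complex.sin_arg z
  unfold pt ang
  rw [← hz, Real.Angle.cos_coe, Real.Angle.sin_coe, h1, h2, hnorm]
  ext i
  fin_cases i
  · simp only [hz]
    simp
    field_simp
    ring
  · simp only [hz]
    simp
    field_simp
    ring

theorem classes_eq {c : Plane} {r : ℝ} (hr : 0 < r) (Q : Finset Real.Angle) :
    triangleClasses (Q.image (pt c r)) = ↑(Tf (chord r) Q) := by
  have hsymm : ∀ x, chord r (-x) = chord r x := fun x => (chord_iff hr _ _).2 (Or.inr rfl)
  ext m
  simp only [triangleClasses, Set.mem_ofPred_eq, Tf, Finset.coe_image, Set.mem_image,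
    Finset.mem_coe, Finset.mem_image]
  constructor
  · rintro ⟨_, ⟨a, ha, rfl⟩, _, ⟨b, hb, rfl⟩, _, ⟨d, hd, rfl⟩, hab, hbd, had, rfl⟩
    refine ⟨(b - a, d - b), ?_, ?_⟩
    · rw [mem_Zf]
      refine ⟨sub_ne_zero.2 ?_, sub_ne_zero.2 ?_, ?_, a, ha, ?_, ?_⟩
      · rintro rfl; exact hab rfl
      · rintro rfl; exact hbd rfl
      · have : b - a + (d - b) = d - a := by abel
        rw [this]
        refine sub_ne_zero.2 ?_
        rintro rfl
        exact had rfl
      · have : a + (b - a) = b := by abel
        rwa [this]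
      · have : a + (b - a) + (d - b) = d := by abel
        rwa [this]
    · simp only [typ, dist_pt]
      have : b - a + (d - b) = d - a := by abel
      rw [this]
  · rintro ⟨⟨x, y⟩, hz, rfl⟩
    obtain ⟨hx, hy, hxy, a, ha, hb, hd⟩ := mem_Zf.1 hz
    refine ⟨_, ⟨a, ha, rfl⟩, _, ⟨a + x, hb, rfl⟩, _, ⟨a + x + y, hd, rfl⟩, ?_, ?_, ?_, ?_⟩
    · intro h
      have := pt_injective hr h
      exact hx (by simpa using this.symm)
    · intro h
      have := pt_injective hr h
      exact hy (by simpa using this.symm)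
    · intro h
      have := pt_injective hr h
      apply hxy
      have h' : a + (x + y) = a := by rw [← add_assoc]; exact this.symm
      simpa using h'
    · simp only [typ, dist_pt]
      have e1 : a + x - a = x := by abel
      have e2 : a + x + y - (a + x) = y := by abel
      have e3 : a + x + y - a = x + y := by abel
      rw [e1, e2, e3]

theorem two_torsion (x y : Real.Angle) (hx : x + x = 0) (hy : y + y = 0) (hx0 : x ≠ 0)
    (hy0 : y ≠ 0) : x = y := by
  have h1 := (Real.Angle.two_nsmul_eq_zero_iff (θ := x)).1 (by rw [two_nsmul]; exact hx)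
  have h2 := (Real.Angle.two_nsmul_eq_zero_iff (θ := y)).1 (by rw [two_nsmul]; exact hy)
  rw [h1.resolve_left hx0, h2.resolve_left hy0]

/-- a finite coset-like set of angles is a regular polygon -/
theorem regular_of_coset (Q : Finset Real.Angle) (hne : Q.Nonempty)
    (h : ∀ a ∈ Q, ∀ b ∈ Q, ∀ c ∈ Q, c + (b - a) ∈ Q) :
    ∃ θ : ℝ, (Q : Set Real.Angle) = Set.range (fun k : Fin Q.card =>
      ((θ + 2 * Real.pi * k / Q.card : ℝ) : Real.Angle)) := by
  obtain ⟨a, ha⟩ := hne
  have hn : 0 < Q.card := card_pos.2 ⟨a, ha⟩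
  have hn' : (Q.card : ℝ) ≠ 0 := by positivity
  have hker : ∀ b ∈ Q, Q.card • (b - a) = 0 := by
    intro b hb
    have h1 : Q.image (fun x => x + (b - a)) = Q := by
      apply eq_of_subset_of_card_le
      · intro x hx
        obtain ⟨y, hy, rfl⟩ := mem_image.1 hx
        exact h a ha b hb y hy
      · rw [card_image_of_injective _ (add_left_injective _)]
    have h2 : ∑ x ∈ Q, x = ∑ x ∈ Q, (x + (b - a)) := by
      conv_lhs => rw [← h1]
      rw [sum_image]
      intro x _ y _ hxy
      exact add_left_injective _ hxy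
    rw [sum_add_distrib, sum_const] at h2
    simpa using h2
  obtain ⟨θ, rfl⟩ : ∃ θ : ℝ, (θ : Real.Angle) = a := by
    induction a using Real.Angle.induction_on with
    | h t => exact ⟨t, rfl⟩
  refine ⟨θ, ?_⟩
  set W : Finset Real.Angle := (univ : Finset (Fin Q.card)).image (fun k : Fin Q.card =>
      ((θ + 2 * Real.pi * k / Q.card : ℝ) : Real.Angle)) with hW
  have hsub : Q ⊆ W := by
    intro b hb
    have hk := hker b hb
    obtain ⟨t, rfl⟩ : ∃ t : ℝ, (t : Real.Angle) = b := by
      induction b using Real.Angle.induction_on with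
      | h t => exact ⟨t, rfl⟩
    rw [← Real.Angle.coe_sub, ← Real.Angle.natCast_mul_eq_nsmul, Real.Angle.coe_eq_zero_iff] at hk
    obtain ⟨m, hm⟩ := hk
    have hnz : (0 : ℤ) < Q.card := by exact_mod_cast hn
    have hm0 := Int.emod_nonneg m hnz.ne'
    have hm1 := Int.emod_lt_of_pos m hnz
    obtain ⟨k, hkk⟩ : ∃ k : ℕ, m % (Q.card : ℤ) = k := ⟨(m % (Q.card : ℤ)).toNat, by omega⟩
    have hklt : k < Q.card := by omega
    rw [hW, mem_image]
    refine ⟨⟨k, hklt⟩, mem_univ _, ?_⟩
    rw [Real.Angle.angle_eq_iff_two_pi_dvd_sub]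
    refine ⟨-(m / (Q.card : ℤ)), ?_⟩
    have hdiv : (m : ℝ) = (Q.card : ℝ) * ((m / (Q.card : ℤ) : ℤ) : ℝ) + (k : ℝ) := by
      have h3 : (Q.card : ℤ) * (m / (Q.card : ℤ)) + m % (Q.card : ℤ) = m :=
        Int.mul_ediv_add_emod m (Q.card : ℤ)
      rw [hkk] at h3
      exact_mod_cast h3.symm
    rw [zsmul_eq_mul] at hm
    have hm' : t - θ = (m : ℝ) * (2 * Real.pi) / Q.card := by
      field_simp
      linarith
    have ht : t = θ + (m : ℝ) * (2 * Real.pi) / Q.card := by linarith
    rw [ht, hdiv]
    push_cast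
    field_simp
    ring
  have heq : Q = W := by
    apply eq_of_subset_of_card_le hsub
    calc W.card ≤ (univ : Finset (Fin Q.card)).card := card_image_le
      _ = Q.card := by simp
  have : (Q : Set Real.Angle) = (W : Set Real.Angle) := by rw [← heq]
  rw [this, hW]
  simp

/-- Let `P` be a finite set of `n ≥ 3` points of the plane lying on a circle (with
centre `c` and radius `r`). Then `T(P) ≥ [n² / 12]`, the nearest integer to `n² / 12`; and if
`n ≥ 5` and equality holds then `P` is the vertex set of a regular `n`-gon. -/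
theorem conc_main (c : Plane) (r : ℝ) (P : Finset Plane) (hn : 3 ≤ P.card)
    (hP : ∀ p ∈ P, dist p c = r) :
    round ((P.card : ℝ) ^ 2 / 12) ≤ (T P : ℤ) ∧
    (5 ≤ P.card → (T P : ℤ) = round ((P.card : ℝ) ^ 2 / 12) → IsRegularPolygon P.card c P) := by
  -- the radius is positive
  have hr : 0 < r := by
    obtain ⟨a, ha, b, hb, hab⟩ := one_lt_card.1 (by omega : 1 < P.card)
    have h0 : 0 ≤ r := by rw [← hP a ha]; exact dist_nonneg
    rcases h0.lt_or_eq with h | h
    · exact h
    · exfalso
      apply hab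
      have h1 := hP a ha
      have h2 := hP b hb
      rw [← h, dist_eq_zero] at h1 h2
      rw [h1, h2]
  set Q : Finset Real.Angle := P.image (ang c) with hQ
  have hPQ : P = Q.image (pt c r) := by
    ext p
    simp only [hQ, mem_image, exists_exists_and_eq_and]
    constructor
    · intro hp
      exact ⟨p, hp, pt_ang hr (hP p hp)⟩
    · rintro ⟨q, hq, rfl⟩
      rw [pt_ang hr (hP q hq)]
      exact hq
  have hcard : Q.card = P.card := by
    conv_rhs => rw [hPQ]
    rw [card_image_of_injective _ (pt_injective hr)]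
  have hT : T P = (Tf (chord r) Q).card := by
    unfold T
    rw [hPQ, classes_eq hr, Set.ncard_coe_finset]
  have hf := chord_iff hr
  have hround : ∀ t : ℕ, P.card ^ 2 ≤ 12 * t + 5 → round ((P.card : ℝ) ^ 2 / 12) ≤ (t : ℤ) := by
    intro t ht
    rw [round_eq]
    apply Int.le_of_lt_add_one
    rw [Int.floor_lt]
    have : ((P.card : ℝ)) ^ 2 ≤ 12 * t + 5 := by exact_mod_cast ht
    push_cast
    linarith
  constructor
  · rw [hT]
    apply hround
    rcases le_or_gt 5 P.card with h5 | h5
    · have := lower_bound hf two_torsion Q (by rw [hcard]; exact h5)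
      rw [hcard] at this
      omega
    · -- three or four points
      have hpos : 0 < (Tf (chord r) Q).card := by
        rw [card_pos]
        obtain ⟨a, ha, b, hb, d, hd, hab, had, hbd⟩ := two_lt_card.1 (by omega : 2 < Q.card)
        refine ⟨typ (chord r) (b - a, d - b), mem_image_of_mem _ ?_⟩
        rw [mem_Zf]
        refine ⟨sub_ne_zero.2 (Ne.symm hab), sub_ne_zero.2 (Ne.symm hbd), ?_, a, ha, ?_, ?_⟩
        · have : b - a + (d - b) = d - a := by abel
          rw [this]
          exact sub_ne_zero.2 (Ne.symm had)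
        · have : a + (b - a) = b := by abel
          rwa [this]
        · have : a + (b - a) + (d - b) = d := by abel
          rwa [this]
      have h4 : P.card ≤ 4 := by omega
      have : P.card ^ 2 ≤ 4 ^ 2 := Nat.pow_le_pow_left h4 2
      omega
  · intro h5 hTeq
    have h12 : 12 * (Tf (chord r) Q).card ≤ Q.card ^ 2 + 6 := by
      rw [hT] at hTeq
      have h1 : (((Tf (chord r) Q).card : ℤ) : ℝ) ≤ (P.card : ℝ) ^ 2 / 12 + 1 / 2 := by
        rw [hTeq, round_eq]
        exact Int.floor_le _
      have h2 : (12 : ℝ) * (Tf (chord r) Q).card ≤ (P.card : ℝ) ^ 2 + 6 := by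
        push_cast at h1
        linarith
      rw [hcard]
      exact_mod_cast h2
    have hfew := few_differences hf two_torsion Q (by rw [hcard]; exact h5) h12
    have hcos := coset_of_few Q hfew
    have hQne : Q.Nonempty := card_pos.1 (by omega)
    obtain ⟨θ, hθ⟩ := regular_of_coset Q hQne hcos
    refine ⟨r, θ, hr, ?_⟩
    rw [hcard] at hθ
    have : (P : Set Plane) = pt c r '' (Q : Set Real.Angle) := by
      conv_lhs => rw [hPQ]
      simp
    rw [this, hθ, ← Set.range_comp]
    congr 1

end Pool.Agent.ConvTri.Conc
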