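import Pool.Agent.Work.MP_dc37f8_co.Loss
import Pool.Agent.Work.MP_dc37f8_co.Conc

/-!
# Sets with at least three quarters of the points on a circle
-/

namespace Pool.Agent.ConvTri

open Finset

/-- vanishes on the triangles with circumradius `r` -/
noncomputable def gg (r : ℝ) (m : Multiset ℝ) : ℝ :=
  (m.map (fun s => s ^ 2)).prod -
    r ^ 2 * ((m.map (fun s => s ^ 2)).sum ^ 2 - 2 * (m.map (fun s => (s ^ 2) ^ 2)).sum)

theorem gg_three (r x y z : ℝ) : gg r {x, y, z} = x ^ 2 * y ^ 2 * z ^ 2 -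
    r ^ 2 * ((x ^ 2 + y ^ 2 + z ^ 2) ^ 2 - 2 * ((x ^ 2) ^ 2 + (y ^ 2) ^ 2 + (z ^ 2) ^ 2)) := by
  unfold gg
  simp [Multiset.insert_eq_cons]
  ring

theorem circ_identity (x0 x1 a0 a1 b0 b1 R : ℝ) (h1 : a0 ^ 2 + a1 ^ 2 = R)
    (h2 : b0 ^ 2 + b1 ^ 2 = R) :
    ((x0 - a0) ^ 2 + (x1 - a1) ^ 2) * ((a0 - b0) ^ 2 + (a1 - b1) ^ 2) *
      ((x0 - b0) ^ 2 + (x1 - b1) ^ 2) -
    R * ((((x0 - a0) ^ 2 + (x1 - a1) ^ 2) + ((a0 - b0) ^ 2 + (a1 - b1) ^ 2) +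
        ((x0 - b0) ^ 2 + (x1 - b1) ^ 2)) ^ 2 -
      2 * (((x0 - a0) ^ 2 + (x1 - a1) ^ 2) ^ 2 + ((a0 - b0) ^ 2 + (a1 - b1) ^ 2) ^ 2 +
        ((x0 - b0) ^ 2 + (x1 - b1) ^ 2) ^ 2)) =
    ((a0 - b0) ^ 2 + (a1 - b1) ^ 2) * (x0 ^ 2 + x1 ^ 2 - R) *
      ((x0 - a0 - b0) ^ 2 + (x1 - a1 - b1) ^ 2 - R) := by
  grind

theorem gg_cls {c : Plane} {r : ℝ} {x a b : Plane} (ha : dist a c = r) (hb : dist b c = r) :
    gg r (cls x a b) =
      dist a b ^ 2 * (dist x c ^ 2 - r ^ 2) * (dist (x + c - a) b ^ 2 - r ^ 2) := by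
  unfold cls
  rw [gg_three]
  have h1 : (a 0 - c 0) ^ 2 + (a 1 - c 1) ^ 2 = r ^ 2 := by rw [← ha, dist_sq]
  have h2 : (b 0 - c 0) ^ 2 + (b 1 - c 1) ^ 2 = r ^ 2 := by rw [← hb, dist_sq]
  have h3 := circ_identity (x 0 - c 0) (x 1 - c 1) (a 0 - c 0) (a 1 - c 1) (b 0 - c 0)
    (b 1 - c 1) (r ^ 2) h1 h2
  rw [dist_sq, dist_sq, dist_sq, dist_sq, dist_sq]
  simp only [PiLp.add_apply, PiLp.sub_apply]
  have e1 : x 0 - c 0 - (a 0 - c 0) = x 0 - a 0 := by ring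
  have e2 : x 1 - c 1 - (a 1 - c 1) = x 1 - a 1 := by ring
  have e3 : a 0 - c 0 - (b 0 - c 0) = a 0 - b 0 := by ring
  have e4 : a 1 - c 1 - (b 1 - c 1) = a 1 - b 1 := by ring
  have e5 : x 0 - c 0 - (b 0 - c 0) = x 0 - b 0 := by ring
  have e6 : x 1 - c 1 - (b 1 - c 1) = x 1 - b 1 := by ring
  rw [e1, e2, e3, e4, e5, e6] at h3
  have e7 : x 0 - a 0 - (b 0 - c 0) = x 0 + c 0 - a 0 - b 0 := by ring
  have e8 : x 1 - a 1 - (b 1 - c 1) = x 1 + c 1 - a 1 - b 1 := by ring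
  rw [e7, e8] at h3
  exact h3

theorem gg_zero {c : Plane} {r : ℝ} {x a b : Plane} (hx : dist x c = r) (ha : dist a c = r)
    (hb : dist b c = r) : gg r (cls x a b) = 0 := by
  rw [gg_cls ha hb, hx]
  ring

/-- Lines of equidistant points. -/
theorem bis_line {u w z b b' a a' : Plane} (huw : u ≠ w) (hbb : b ≠ b')
    (h1 : dist u b = dist u b') (h2 : dist w b = dist w b') (h3 : dist z b = dist z b')
    (h4 : dist u a = dist u a') (h5 : dist w a = dist w a') : dist z a = dist z a' := by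
  apply bisector'
  have g1 := bisector h1
  have g2 := bisector h2
  have g3 := bisector h3
  have g4 := bisector h4
  have g5 := bisector h5
  have hd := nsq_pos (sub_ne_zero.2 hbb.symm)
  have hp := nsq_pos (sub_ne_zero.2 huw)
  rw [← g5]
  unfold X nsq at *
  simp only [PiLp.sub_apply] at *
  set d0 := b' 0 - b 0
  set d1 := b' 1 - b 1
  set e0 := a' 0 - a 0
  set e1 := a' 1 - a 1
  set p0 := u 0 - w 0 with hp0
  set p1 := u 1 - w 1 with hp1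
  have k1 : d0 * p0 + d1 * p1 = 0 := by rw [hp0, hp1]; linarith
  have k2 : d0 * (z 0 - w 0) + d1 * (z 1 - w 1) = 0 := by linarith
  have k3 : e0 * p0 + e1 * p1 = 0 := by rw [hp0, hp1]; linarith
  have k4 : (d0 ^ 2 + d1 ^ 2) * (p0 * (z 1 - w 1) - p1 * (z 0 - w 0)) = 0 := by
    linear_combination (d0 * (z 1 - w 1) - d1 * (z 0 - w 0)) * k1 -
      (d0 * p1 - d1 * p0) * k2
  have k5 : p0 * (z 1 - w 1) - p1 * (z 0 - w 0) = 0 :=
    (mul_eq_zero.1 k4).resolve_left hd.ne'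
  have k6 : (p0 ^ 2 + p1 ^ 2) * (e0 * (z 0 - w 0) + e1 * (z 1 - w 1)) = 0 := by
    linear_combination (p0 * (z 0 - w 0) + p1 * (z 1 - w 1)) * k3 +
      (e1 * p0 - e0 * p1) * k5
  have k7 := (mul_eq_zero.1 k6).resolve_left hp.ne'
  linarith

end Pool.Agent.ConvTri
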