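import Pool.Agent.Work.MP_dc37f8_co.Loss

/-!
# Sets with at most `k` points on a line
-/

namespace Pool.Agent.ConvTri

open Finset

/-- No line contains more than `k` points of `P`. -/
def LineBound (P : Finset Plane) (k : ℕ) : Prop :=
  ∀ Q ⊆ P, Collinear ℝ (Q : Set Plane) → Q.card ≤ k

theorem collinear_X {d : Plane} (hd : d ≠ 0) (s : ℝ) (Q : Finset Plane)
    (hQ : ∀ q ∈ Q, X d q = s) : Collinear ℝ (Q : Set Plane) := by
  classical
  rcases Q.eq_empty_or_nonempty with h | ⟨q0, hq0⟩
  · rw [h, coe_empty]; exact collinear_empty ℝ Plane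
  rw [collinear_iff_of_mem (mem_coe.2 hq0)]
  refine ⟨!₂[-(d 1), d 0], fun q hq => ?_⟩
  have h1 := hQ q (mem_coe.1 hq)
  have h2 := hQ q0 hq0
  unfold X at h1 h2
  have hn : d 0 ^ 2 + d 1 ^ 2 ≠ 0 := by
    intro h
    apply hd
    have e0 : d 0 = 0 := by nlinarith [sq_nonneg (d 0), sq_nonneg (d 1)]
    have e1 : d 1 = 0 := by nlinarith [sq_nonneg (d 0), sq_nonneg (d 1)]
    ext i
    fin_cases i
    · simpa using e0
    · simpa using e1
  refine ⟨(-(d 1) * (q 0 - q0 0) + d 0 * (q 1 - q0 1)) / (d 0 ^ 2 + d 1 ^ 2), ?_⟩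
  have e : d 0 * (q 0 - q0 0) + d 1 * (q 1 - q0 1) = 0 := by linarith
  ext i
  fin_cases i
  · simp
    field_simp
    linear_combination (d 0) * e
  · simp
    field_simp
    linear_combination (d 1) * e

/-- The number of points of `P` on a bisector. -/
theorem bis_le {P : Finset Plane} {k : ℕ} (hP : LineBound P k) {x y : Plane} (hxy : x ≠ y) :
    (P.filter (fun a => dist a x = dist a y)).card ≤ k := by
  classical
  apply hP _ (filter_subset _ _)
  apply collinear_X (sub_ne_zero.2 hxy.symm)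
    (((y 0 ^ 2 + y 1 ^ 2) - (x 0 ^ 2 + x 1 ^ 2)) / 2)
  intro a ha
  have := bisector (mem_filter.1 ha).2
  linarith

/-- Twins come in ordered pairs. -/
theorem big_le_twins2 {P : Finset Plane} {a b : Plane} (hab : a ≠ b) :
    2 * (big P a b).card ≤ (twins P a b).card := by
  classical
  apply mul_card_le (twins P a b) (big P a b) (fun z => cls a b z.1) 2
  intro m hm
  obtain ⟨⟨z, hz, hzm⟩, _⟩ := big_spec hab hm
  obtain ⟨hz1, hz2, hz3⟩ := mem_filter.1 hz
  obtain ⟨h1, h2, h3⟩ := mem_offDiag.1 hz1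
  have hsub : ({z, (z.2, z.1)} : Finset (Plane × Plane)) ⊆
      (twins P a b).filter (fun z => cls a b z.1 = m) := by
    intro w hw
    rcases mem_insert.1 hw with rfl | hw
    · exact mem_filter.2 ⟨hz, hzm⟩
    · rw [mem_singleton] at hw
      rw [hw]
      refine mem_filter.2 ⟨mem_filter.2 ⟨mem_offDiag.2 ⟨h2, h1, h3.symm⟩, hz2.symm, hz3.symm⟩, ?_⟩
      rw [← hzm]
      unfold cls
      rw [hz2, hz3]
  have hne : z ≠ (z.2, z.1) := by
    intro h
    exact h3 (congrArg Prod.fst h)
  have := card_le_card hsub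
  rwa [card_pair hne] at this

/-- All twins. -/
theorem sum_all_twins {P : Finset Plane} {k : ℕ} (hP : LineBound P k) :
    ∑ z ∈ P.offDiag, (twins P z.1 z.2).card ≤ P.card * (P.card - 1) * (k * (k - 1)) := by
  classical
  have h1 : ∀ z ∈ P.offDiag, (twins P z.1 z.2).card = (P.offDiag.filter (fun w =>
      dist z.1 w.1 = dist z.1 w.2 ∧ dist z.2 w.1 = dist z.2 w.2)).card := fun z _ => rfl
  have h0 : ∑ z ∈ P.offDiag, (P.offDiag.filter (fun w =>
      dist z.1 w.1 = dist z.1 w.2 ∧ dist z.2 w.1 = dist z.2 w.2)).card =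
      ∑ w ∈ P.offDiag, (P.offDiag.filter (fun z =>
      dist z.1 w.1 = dist z.1 w.2 ∧ dist z.2 w.1 = dist z.2 w.2)).card :=
    sum_card_bipartiteAbove_eq_sum_card_bipartiteBelow _
  rw [sum_congr rfl h1, h0]
  have h2 : ∀ w ∈ P.offDiag, (P.offDiag.filter (fun z : Plane × Plane =>
      dist z.1 w.1 = dist z.1 w.2 ∧ dist z.2 w.1 = dist z.2 w.2)).card ≤ k * (k - 1) := by
    intro w hw
    have h3 : P.offDiag.filter (fun z : Plane × Plane =>
        dist z.1 w.1 = dist z.1 w.2 ∧ dist z.2 w.1 = dist z.2 w.2) ⊆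
        (P.filter (fun a => dist a w.1 = dist a w.2)).offDiag := by
      intro z hz
      obtain ⟨h4, h5, h6⟩ := mem_filter.1 hz
      obtain ⟨h7, h8, h9⟩ := mem_offDiag.1 h4
      exact mem_offDiag.2 ⟨mem_filter.2 ⟨h7, h5⟩, mem_filter.2 ⟨h8, h6⟩, h9⟩
    have h4 := card_le_card h3
    have h5 := bis_le hP (mem_offDiag.1 hw).2.2
    rw [offDiag_card] at h4
    calc _ ≤ _ := h4
      _ = (P.filter (fun a => dist a w.1 = dist a w.2)).card *
          ((P.filter (fun a => dist a w.1 = dist a w.2)).card - 1) := by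
            rw [Nat.mul_sub, mul_one]
      _ ≤ k * (k - 1) := Nat.mul_le_mul h5 (by omega)
  have h3 := sum_le_sum h2
  rw [sum_const, smul_eq_mul, offDiag_card] at h3
  have h4 : P.card * P.card - P.card = P.card * (P.card - 1) := by rw [Nat.mul_sub, mul_one]
  rw [h4] at h3
  exact h3

/-- The distances from `a`. -/
noncomputable def distsFrom (P : Finset Plane) (a : Plane) : Finset ℝ := (P.erase a).image (dist a)

/-- One point. -/
theorem one_point {P : Finset Plane} {a : Plane} (ha : a ∈ P) :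
    (distsFrom P a).card * P.card ≤ 6 * (TC P).card + 2 * (distsFrom P a).card +
      ∑ b ∈ P.erase a, (twins P a b).card := by
  classical
  have hex : ∀ l ∈ distsFrom P a, ∃ b ∈ P.erase a, dist a b = l := by
    intro l hl
    unfold distsFrom at hl
    exact mem_image.1 hl
  choose! β hβ hβd using hex
  let K : Chords P := ⟨distsFrom P a, fun _ => a, β, fun l hl => ha,
    fun l hl => (mem_erase.1 (hβ l hl)).2, fun l hl => (mem_erase.1 (hβ l hl)).1.symm,
    fun l hl => hβd l hl⟩
  have h1 : ∀ l ∈ distsFrom P a, P.card ≤ 2 * (overC P a (β l)).card +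
      2 * (big P a (β l)).card + 2 :=
    fun l hl => over_card ha (mem_erase.1 (hβ l hl)).2 (mem_erase.1 (hβ l hl)).1.symm
  have h2 := sum_le_sum h1
  rw [sum_const, smul_eq_mul, sum_add_distrib, sum_add_distrib, ← mul_sum, ← mul_sum,
    sum_const, smul_eq_mul] at h2
  have h3 : ∑ l ∈ distsFrom P a, (overC P a (β l)).card ≤ 3 * (TC P).card := sum_over K
  have h4 : ∑ l ∈ distsFrom P a, 2 * (big P a (β l)).card ≤
      ∑ l ∈ distsFrom P a, (twins P a (β l)).card :=
    sum_le_sum (fun l hl => big_le_twins2 (mem_erase.1 (hβ l hl)).1.symm)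
  have hinj : Set.InjOn β (distsFrom P a : Set ℝ) := by
    intro l hl l' hl' h
    rw [← hβd l (mem_coe.1 hl), ← hβd l' (mem_coe.1 hl'), h]
  have h5 : ∑ l ∈ distsFrom P a, (twins P a (β l)).card ≤
      ∑ b ∈ P.erase a, (twins P a b).card := by
    rw [← sum_image (f := fun b => (twins P a b).card) hinj]
    apply sum_le_sum_of_subset
    intro b hb
    obtain ⟨l, hl, rfl⟩ := mem_image.1 hb
    exact hβ l hl
  rw [← mul_sum] at h4
  omega

/-- the pairs with first point `y.1` and distance `y.2` -/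
noncomputable def degs (P : Finset Plane) (y : Plane × ℝ) : Finset (Plane × Plane) :=
  P.offDiag.filter (fun w => (w.1, dist w.1 w.2) = y)

/-- Counting isosceles triangles. -/
theorem iso_count {P : Finset Plane} {k : ℕ} (hP : LineBound P k) :
    ∑ z ∈ P.offDiag, (degs P (z.1, dist z.1 z.2)).card ≤ P.card * (P.card - 1) * (k + 1) := by
  classical
  set N := P.card with hN
  have hoff : P.offDiag.card = N * (N - 1) := by rw [offDiag_card, Nat.mul_sub, mul_one]
  have h4 : ∀ z ∈ P.offDiag, (degs P (z.1, dist z.1 z.2)).card ≤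
      1 + ((P.erase z.2).filter (fun c => dist z.1 c = dist z.1 z.2)).card := by
    intro z hz
    obtain ⟨z1, z2, z3⟩ := mem_offDiag.1 hz
    have h5 : degs P (z.1, dist z.1 z.2) ⊆
        insert z (((P.erase z.2).filter (fun c => dist z.1 c = dist z.1 z.2)).image
          (fun c => (z.1, c))) := by
      intro w hw
      obtain ⟨hw1, hw2⟩ := mem_filter.1 hw
      obtain ⟨w1, w2, w3⟩ := mem_offDiag.1 hw1
      have e1 : w.1 = z.1 := congrArg (fun y : Plane × ℝ => y.1) hw2
      have e2 : dist w.1 w.2 = dist z.1 z.2 := congrArg (fun y : Plane × ℝ => y.2) hw2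
      by_cases h : w.2 = z.2
      · rw [show w = z from Prod.ext e1 h]; exact mem_insert_self _ _
      · apply mem_insert_of_mem
        refine mem_image.2 ⟨w.2, mem_filter.2 ⟨mem_erase.2 ⟨h, w2⟩, ?_⟩, ?_⟩
        · rw [← e1, e2]
          rw [e1]
        · exact Prod.ext e1.symm rfl
    calc _ ≤ _ := card_le_card h5
      _ ≤ _ := card_insert_le _ _
      _ ≤ _ := by
        have := card_image_le (s := (P.erase z.2).filter (fun c => dist z.1 c = dist z.1 z.2))
          (f := fun c => (z.1, c))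
        omega
  have h5 : ∑ z ∈ P.offDiag, ((P.erase z.2).filter (fun c => dist z.1 c = dist z.1 z.2)).card ≤
      N * (N - 1) * k := by
    -- count the triples `(a, b, c)` in another order
    have h6 : ∑ z ∈ P.offDiag, ((P.erase z.2).filter (fun c => dist z.1 c = dist z.1 z.2)).card =
        ((P.offDiag ×ˢ P).filter (fun y : (Plane × Plane) × Plane =>
          y.2 ≠ y.1.2 ∧ dist y.1.1 y.2 = dist y.1.1 y.1.2)).card := by
      rw [card_filter, sum_product]
      apply sum_congr rfl
      intro z hz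
      rw [← card_filter]
      congr 1
      ext c
      simp only [mem_filter, mem_erase]
      tauto
    have h7 : ((P.offDiag ×ˢ P).filter (fun y : (Plane × Plane) × Plane =>
          y.2 ≠ y.1.2 ∧ dist y.1.1 y.2 = dist y.1.1 y.1.2)).card ≤
        ∑ w ∈ P.offDiag, (P.filter (fun a => dist a w.1 = dist a w.2)).card := by
      have h8 : ∑ w ∈ P.offDiag, (P.filter (fun a => dist a w.1 = dist a w.2)).card =
          ((P.offDiag ×ˢ P).filter (fun y : (Plane × Plane) × Plane =>
            dist y.2 y.1.1 = dist y.2 y.1.2)).card := by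
        rw [card_filter, sum_product]
        apply sum_congr rfl
        intro z hz
        rw [← card_filter]
      rw [h8]
      refine card_le_card_of_injOn (fun y => ((y.1.2, y.2), y.1.1)) ?_ ?_
      · intro y hy
        obtain ⟨hy1, hy2, hy3⟩ := mem_filter.1 (mem_coe.1 hy)
        obtain ⟨hy4, hy5⟩ := mem_product.1 hy1
        obtain ⟨y1, y2, y3⟩ := mem_offDiag.1 hy4
        exact mem_coe.2 (mem_filter.2 ⟨mem_product.2 ⟨mem_offDiag.2 ⟨y2, hy5, hy2.symm⟩, y1⟩,
          hy3.symm⟩)
      · rintro ⟨⟨a, b⟩, c⟩ _ ⟨⟨a', b'⟩, c'⟩ _ h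
        simp only [Prod.mk.injEq] at h ⊢
        exact ⟨⟨h.2, h.1.1⟩, h.1.2⟩
    rw [h6]
    refine h7.trans ?_
    calc ∑ w ∈ P.offDiag, (P.filter (fun a => dist a w.1 = dist a w.2)).card
        ≤ ∑ _w ∈ P.offDiag, k := sum_le_sum fun w hw => bis_le hP (mem_offDiag.1 hw).2.2
      _ = N * (N - 1) * k := by rw [sum_const, smul_eq_mul, hoff]
  have := sum_le_sum h4
  rw [sum_add_distrib, sum_const, smul_eq_mul, mul_one, hoff] at this
  calc _ ≤ _ := this
    _ ≤ N * (N - 1) + N * (N - 1) * k := by omega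
    _ = N * (N - 1) * (k + 1) := by ring

/-- The degrees. -/
theorem dist_deg {P : Finset Plane} {k : ℕ} (hP : LineBound P k) :
    P.card * (P.card - 1) ≤ (k + 1) * ∑ a ∈ P, (distsFrom P a).card := by
  classical
  set N := P.card with hN
  have hoff : P.offDiag.card = N * (N - 1) := by rw [offDiag_card, Nat.mul_sub, mul_one]
  rcases Nat.eq_zero_or_pos (N * (N - 1)) with h0 | h0
  · rw [h0]; exact Nat.zero_le _
  set f : Plane × Plane → Plane × ℝ := fun z => (z.1, dist z.1 z.2) with hf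
  set I := P.offDiag.image f with hI
  have hIle : I.card ≤ ∑ a ∈ P, (distsFrom P a).card := by
    have h1 : I ⊆ P.biUnion (fun a => (distsFrom P a).image (fun l => (a, l))) := by
      intro y hy
      obtain ⟨z, hz, rfl⟩ := mem_image.1 hy
      obtain ⟨z1, z2, z3⟩ := mem_offDiag.1 hz
      refine mem_biUnion.2 ⟨z.1, z1, mem_image.2 ⟨dist z.1 z.2, ?_, rfl⟩⟩
      exact mem_image.2 ⟨z.2, mem_erase.2 ⟨z3.symm, z2⟩, rfl⟩
    refine (card_le_card h1).trans (card_biUnion_le.trans (sum_le_sum fun a _ => card_image_le))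
  have h1 : N * (N - 1) = ∑ y ∈ I, (P.offDiag.filter (fun z => f z = y)).card := by
    rw [← hoff]
    exact card_eq_sum_card_fiberwise (fun z hz => mem_coe.2 (mem_image_of_mem _ (mem_coe.1 hz)))
  have h2 : (N * (N - 1)) ^ 2 ≤ I.card * ∑ y ∈ I, (P.offDiag.filter (fun z => f z = y)).card ^ 2 := by
    rw [h1]
    exact sq_sum_le_card_mul_sum_sq
  have h3 : ∑ y ∈ I, (P.offDiag.filter (fun z => f z = y)).card ^ 2 =
      ∑ z ∈ P.offDiag, (P.offDiag.filter (fun w => f w = f z)).card := by
    rw [← sum_fiberwise_of_maps_to (s := P.offDiag) (t := I) (g := f)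
      (fun z hz => mem_image_of_mem _ hz)]
    apply sum_congr rfl
    intro y hy
    have h4 : ∀ z ∈ P.offDiag.filter (fun z => f z = y),
        (P.offDiag.filter (fun w => f w = f z)).card =
        (P.offDiag.filter (fun w => f w = y)).card := by
      intro z hz
      rw [(mem_filter.1 hz).2]
    rw [sum_congr rfl h4, sum_const, smul_eq_mul, pow_two]
  have h6 : ∑ z ∈ P.offDiag, (P.offDiag.filter (fun w => f w = f z)).card ≤
      N * (N - 1) * (k + 1) := iso_count hP
  rw [h3] at h2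
  have h7 : (N * (N - 1)) * (N * (N - 1)) ≤ (N * (N - 1)) * (I.card * (k + 1)) := by
    calc (N * (N - 1)) * (N * (N - 1)) = (N * (N - 1)) ^ 2 := by ring
      _ ≤ I.card * ∑ z ∈ P.offDiag, (P.offDiag.filter (fun w => f w = f z)).card := h2
      _ ≤ I.card * (N * (N - 1) * (k + 1)) := Nat.mul_le_mul_left _ h6
      _ = _ := by ring
  have h8 := Nat.le_of_mul_le_mul_left h7 h0
  calc N * (N - 1) ≤ I.card * (k + 1) := h8
    _ = (k + 1) * I.card := by ring
    _ ≤ _ := Nat.mul_le_mul_left _ hIle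

/-- The bound for sets with at most `k` points on a line. -/
theorem lines_main {P : Finset Plane} {k : ℕ} (hne : P.Nonempty) (hk : 2 ≤ k)
    (hP : LineBound P k) :
    ((P.card : ℝ) - 1) * ((P.card : ℝ) - 2 - k * (k ^ 2 - 1)) / (6 * (k + 1)) ≤
      (TC P).card := by
  classical
  have hk0 : (0 : ℝ) ≤ k := Nat.cast_nonneg _
  have hk2 : (2 : ℝ) ≤ k := by exact_mod_cast hk
  have hT0 : (0 : ℝ) ≤ ((TC P).card : ℝ) := Nat.cast_nonneg _
  have hkk : (0 : ℝ) < 6 * (k + 1) := by linarith
  rw [div_le_iff₀ hkk]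
  have hn1 : 1 ≤ P.card := card_pos.2 hne
  rcases Nat.lt_or_ge P.card 2 with h2 | h2
  · have : P.card = 1 := by omega
    rw [this]
    have : (0 : ℝ) ≤ ((TC P).card : ℝ) * (6 * (k + 1)) := mul_nonneg hT0 hkk.le
    simpa using this
  · set K := ∑ a ∈ P, (distsFrom P a).card with hK
    have h3 : K * P.card ≤ 6 * (TC P).card * P.card + 2 * K +
        P.card * (P.card - 1) * (k * (k - 1)) := by
      have h4 := sum_le_sum (fun a (ha : a ∈ P) => one_point (P := P) ha)
      rw [sum_add_distrib, sum_add_distrib, ← sum_mul, ← mul_sum, sum_const, smul_eq_mul] at h4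
      have h5 : ∑ a ∈ P, ∑ b ∈ P.erase a, (twins P a b).card =
          ∑ z ∈ P.offDiag, (twins P z.1 z.2).card := by
        rw [sum_sigma']
        refine sum_bij' (fun z _ => (z.1, z.2)) (fun z _ => ⟨z.1, z.2⟩) ?_ ?_ ?_ ?_ ?_
        · intro z hz
          obtain ⟨h6, h7⟩ := mem_sigma.1 hz
          obtain ⟨h8, h9⟩ := mem_erase.1 h7
          exact mem_offDiag.2 ⟨h6, h9, h8.symm⟩
        · intro z hz
          obtain ⟨h6, h7, h8⟩ := mem_offDiag.1 hz
          exact mem_sigma.2 ⟨h6, mem_erase.2 ⟨h8.symm, h7⟩⟩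
        · intro z _; rfl
        · intro z _; rfl
        · intro z _; rfl
      rw [h5] at h4
      have h6 := sum_all_twins hP
      have e : 6 * (P.card * (TC P).card) = 6 * (TC P).card * P.card := by ring
      rw [e, ← mul_sum] at h4
      calc K * P.card ≤ _ := h4
        _ ≤ _ := Nat.add_le_add_left h6 _
    have h4 : P.card * (P.card - 1) ≤ (k + 1) * K := dist_deg hP
    set n : ℝ := (P.card : ℝ) with hn
    set T : ℝ := ((TC P).card : ℝ) with hT
    have hn2 : (2 : ℝ) ≤ n := by rw [hn]; exact_mod_cast h2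
    have c1 : (((P.card - 1 : ℕ)) : ℝ) = n - 1 := by rw [hn]; push_cast [Nat.cast_sub hn1]; ring
    have c2 : (((k - 1 : ℕ)) : ℝ) = (k : ℝ) - 1 := by
      have : 1 ≤ k := by omega
      push_cast [Nat.cast_sub this]; ring
    have r3 : (K : ℝ) * n ≤ 6 * T * n + 2 * K + n * (n - 1) * (k * (k - 1)) := by
      have : ((K * P.card : ℕ) : ℝ) ≤ ((6 * (TC P).card * P.card + 2 * K +
        P.card * (P.card - 1) * (k * (k - 1)) : ℕ) : ℝ) := by exact_mod_cast h3
      rw [Nat.cast_mul, Nat.cast_add, Nat.cast_add, Nat.cast_mul, Nat.cast_mul, Nat.cast_mul,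
        Nat.cast_mul, Nat.cast_mul, Nat.cast_mul, c1, c2] at this
      rw [hn, hT]
      rw [← hn, ← hT] at *
      push_cast at this
      linarith
    have r4 : n * (n - 1) ≤ (k + 1) * K := by
      have : ((P.card * (P.card - 1) : ℕ) : ℝ) ≤ (((k + 1) * K : ℕ) : ℝ) := by exact_mod_cast h4
      rw [Nat.cast_mul, Nat.cast_mul, c1] at this
      rw [hn]
      push_cast at this
      linarith
    have r5 : n * ((n - 1) * (n - 2)) ≤ n * (T * (6 * (k + 1)) + (n - 1) * (k * (k ^ 2 - 1))) := by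
      have e1 : n * (n - 1) * (n - 2) ≤ (k + 1) * K * (n - 2) :=
        mul_le_mul_of_nonneg_right r4 (by linarith)
      have e2 : (k + 1) * ((K : ℝ) * n) ≤
          (k + 1) * (6 * T * n + 2 * K + n * (n - 1) * (k * (k - 1))) :=
        mul_le_mul_of_nonneg_left r3 (by linarith)
      linarith
    have r6 := le_of_mul_le_mul_left r5 (by linarith : (0 : ℝ) < n)
    linarith

end Pool.Agent.ConvTri
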