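import Pool.Agent.Work.MP_dc37f8_co.Circle
import Pool.Agent.Work.MP_dc37f8_co.Lines

/-!
# Sets with at least three quarters of the points on a circle: counting
-/

namespace Pool.Agent.ConvTri

open Finset

/-- the points of `P` on the circle -/
noncomputable def onC (P : Finset Plane) (c : Plane) (r : ℝ) : Finset Plane :=
  P.filter (fun p => dist p c = r)

theorem onC_mem {P : Finset Plane} {c : Plane} {r : ℝ} {p : Plane} (h : p ∈ onC P c r) :
    p ∈ P ∧ dist p c = r := mem_filter.1 h

/-- the pairs with given distances -/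
noncomputable def trip (Q : Finset Plane) (x : Plane) (s v t : ℝ) : Finset (Plane × Plane) :=
  Q.offDiag.filter (fun z => dist x z.1 = s ∧ dist z.1 z.2 = v ∧ dist x z.2 = t)

theorem trip_key {P : Finset Plane} {c x : Plane} {r : ℝ} (hxc : c ≠ x) {s v t : ℝ}
    {z z' z'' : Plane × Plane} (hz : z ∈ trip (onC P c r) x s v t)
    (hz' : z' ∈ trip (onC P c r) x s v t) (hz'' : z'' ∈ trip (onC P c r) x s v t)
    (h1 : z ≠ z') (h2 : z ≠ z'') (h3 : z' ≠ z'') (h : z.1 = z'.1) : False := by
  obtain ⟨m1, a1, a2, a3⟩ := mem_filter.1 hz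
  obtain ⟨m2, b1, b2, b3⟩ := mem_filter.1 hz'
  obtain ⟨m3, c1, c2, c3⟩ := mem_filter.1 hz''
  obtain ⟨p1, p2, _⟩ := mem_offDiag.1 m1
  obtain ⟨q1, q2, _⟩ := mem_offDiag.1 m2
  obtain ⟨s1, s2, _⟩ := mem_offDiag.1 m3
  have p1 : dist c z.1 = r := by rw [dist_comm]; exact (onC_mem p1).2
  have p2 : dist c z.2 = r := by rw [dist_comm]; exact (onC_mem p2).2
  have q1 : dist c z'.1 = r := by rw [dist_comm]; exact (onC_mem q1).2
  have q2 : dist c z'.2 = r := by rw [dist_comm]; exact (onC_mem q2).2
  have s1 : dist c z''.1 = r := by rw [dist_comm]; exact (onC_mem s1).2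
  have s2 : dist c z''.2 = r := by rw [dist_comm]; exact (onC_mem s2).2
  have hne : z.2 ≠ z'.2 := fun h' => h1 (Prod.ext h h')
  -- the contradiction in the case of a different first point
  have fin : z''.1 ≠ z.1 → False := by
    intro hn
    have h6 : dist z.1 z.1 = dist z.1 z''.1 :=
      bis_line (u := c) (w := x) (z := z.1) (b := z.2) (b' := z'.2) (a := z.1) (a' := z''.1)
        hxc hne (by rw [p2, q2]) (by rw [a3, b3]) (by rw [a2, h, b2]) (by rw [p1, s1])
        (by rw [a1, c1])
    rw [dist_self] at h6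
    exact hn (dist_eq_zero.1 h6.symm).symm
  rcases two_circles (a := c) (b := x) (p := z.2) (q := z'.2) (r := z''.2) hxc
    (by rw [p2, q2]) (by rw [q2, s2]) (by rw [a3, b3]) (by rw [b3, c3]) with h4 | h4 | h4
  · exact hne h4
  · apply fin
    intro h5
    exact h3 (Prod.ext (h.symm.trans h5.symm) h4)
  · apply fin
    intro h5
    exact h2 (Prod.ext h5.symm h4)

theorem trip_le {P : Finset Plane} {c x : Plane} {r : ℝ} (hxc : c ≠ x) (s v t : ℝ) :
    (trip (onC P c r) x s v t).card ≤ 2 := by
  classical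
  by_contra hcon
  push Not at hcon
  obtain ⟨z, hz, z', hz', z'', hz'', h1, h2, h3⟩ := two_lt_card.1 hcon
  obtain ⟨m1, a1, a2, a3⟩ := mem_filter.1 hz
  obtain ⟨m2, b1, b2, b3⟩ := mem_filter.1 hz'
  obtain ⟨m3, c1, c2, c3⟩ := mem_filter.1 hz''
  have p1 : dist c z.1 = r := by rw [dist_comm]; exact (onC_mem (mem_offDiag.1 m1).1).2
  have q1 : dist c z'.1 = r := by rw [dist_comm]; exact (onC_mem (mem_offDiag.1 m2).1).2
  have s1 : dist c z''.1 = r := by rw [dist_comm]; exact (onC_mem (mem_offDiag.1 m3).1).2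
  rcases two_circles (a := c) (b := x) (p := z.1) (q := z'.1) (r := z''.1) hxc
    (by rw [p1, q1]) (by rw [q1, s1]) (by rw [a1, b1]) (by rw [b1, c1]) with h4 | h4 | h4
  · exact trip_key hxc hz hz' hz'' h1 h2 h3 h4
  · exact trip_key hxc hz' hz'' hz h3 h1.symm h2.symm h4
  · exact trip_key hxc hz hz'' hz' h2 h1 h3.symm h4

theorem fibre_le {P : Finset Plane} {c x : Plane} {r : ℝ} (hxc : c ≠ x) (m : Multiset ℝ) :
    ((onC P c r).offDiag.filter (fun z => cls x z.1 z.2 = m)).card ≤ 12 := by
  classical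
  set F := (onC P c r).offDiag.filter (fun z => cls x z.1 z.2 = m) with hF
  rcases F.eq_empty_or_nonempty with h0 | ⟨z0, hz0⟩
  · rw [h0]; simp
  obtain ⟨_, hm⟩ := mem_filter.1 hz0
  set s1 := dist x z0.1
  set s2 := dist z0.1 z0.2
  set s3 := dist x z0.2
  set Q := onC P c r
  have hsub : F ⊆ ((trip Q x s1 s2 s3 ∪ trip Q x s1 s3 s2) ∪
      (trip Q x s2 s1 s3 ∪ trip Q x s2 s3 s1)) ∪ (trip Q x s3 s1 s2 ∪ trip Q x s3 s2 s1) := by
    intro z hz
    obtain ⟨h1, h2⟩ := mem_filter.1 hz
    have h3 : ({dist x z.1, dist z.1 z.2, dist x z.2} : Multiset ℝ) = {s1, s2, s3} :=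
      h2.trans hm.symm
    simp only [mem_union]
    rcases Pool.Agent.CircTri.three_eq h3 with ⟨e1, e2, e3⟩ | ⟨e1, e2, e3⟩ | ⟨e1, e2, e3⟩ |
      ⟨e1, e2, e3⟩ | ⟨e1, e2, e3⟩ | ⟨e1, e2, e3⟩
    · exact Or.inl (Or.inl (Or.inl (mem_filter.2 ⟨h1, e1, e2, e3⟩)))
    · exact Or.inl (Or.inl (Or.inr (mem_filter.2 ⟨h1, e1, e2, e3⟩)))
    · exact Or.inl (Or.inr (Or.inl (mem_filter.2 ⟨h1, e1, e2, e3⟩)))
    · exact Or.inl (Or.inr (Or.inr (mem_filter.2 ⟨h1, e1, e2, e3⟩)))
    · exact Or.inr (Or.inl (mem_filter.2 ⟨h1, e1, e2, e3⟩))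
    · exact Or.inr (Or.inr (mem_filter.2 ⟨h1, e1, e2, e3⟩))
  have h := card_le_card hsub
  have k1 := trip_le (P := P) (r := r) hxc s1 s2 s3
  have k2 := trip_le (P := P) (r := r) hxc s1 s3 s2
  have k3 := trip_le (P := P) (r := r) hxc s2 s1 s3
  have k4 := trip_le (P := P) (r := r) hxc s2 s3 s1
  have k5 := trip_le (P := P) (r := r) hxc s3 s1 s2
  have k6 := trip_le (P := P) (r := r) hxc s3 s2 s1
  have j1 := card_union_le (trip Q x s1 s2 s3) (trip Q x s1 s3 s2)
  have j2 := card_union_le (trip Q x s2 s1 s3) (trip Q x s2 s3 s1)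
  have j3 := card_union_le (trip Q x s3 s1 s2) (trip Q x s3 s2 s1)
  have j4 := card_union_le (trip Q x s1 s2 s3 ∪ trip Q x s1 s3 s2)
    (trip Q x s2 s1 s3 ∪ trip Q x s2 s3 s1)
  have j5 := card_union_le ((trip Q x s1 s2 s3 ∪ trip Q x s1 s3 s2) ∪
      (trip Q x s2 s1 s3 ∪ trip Q x s2 s3 s1)) (trip Q x s3 s1 s2 ∪ trip Q x s3 s2 s1)
  change (trip Q x s1 s2 s3).card ≤ 2 at k1
  change (trip Q x s1 s3 s2).card ≤ 2 at k2
  change (trip Q x s2 s1 s3).card ≤ 2 at k3
  change (trip Q x s2 s3 s1).card ≤ 2 at k4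
  change (trip Q x s3 s1 s2).card ≤ 2 at k5
  change (trip Q x s3 s2 s1).card ≤ 2 at k6
  omega

theorem TC_mono {P Q : Finset Plane} (h : P ⊆ Q) : TC P ⊆ TC Q := by
  classical
  unfold TC
  apply image_subset_image
  apply filter_subset_filter
  exact product_subset_product h (product_subset_product h h)

theorem gg_TC {P : Finset Plane} {c : Plane} {r : ℝ} {m : Multiset ℝ}
    (hm : m ∈ TC (onC P c r)) : gg r m = 0 := by
  classical
  unfold TC at hm
  obtain ⟨z, hz, rfl⟩ := mem_image.1 hm
  obtain ⟨h1, _⟩ := mem_filter.1 hz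
  obtain ⟨h2, h3⟩ := mem_product.1 h1
  obtain ⟨h4, h5⟩ := mem_product.1 h3
  exact gg_zero (onC_mem h2).2 (onC_mem h4).2 (onC_mem h5).2

/-- New classes from a set of classes not vanishing under `gg`. -/
theorem new_classes {P : Finset Plane} {c : Plane} {r : ℝ} {N : Finset (Multiset ℝ)}
    (hN : N ⊆ TC P) (hg : ∀ m ∈ N, gg r m ≠ 0) :
    (TC (onC P c r)).card + N.card ≤ (TC P).card := by
  classical
  rw [← card_union_of_disjoint]
  · exact card_le_card (union_subset (TC_mono (filter_subset _ _)) hN)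
  · rw [disjoint_left]
    intro m hm hm'
    exact hg m hm' (gg_TC hm)

/-- A point neither on the circle nor at its centre gives many new classes. -/
theorem off_point {P : Finset Plane} {c x : Plane} {r : ℝ} (hx : x ∈ P) (hxc : c ≠ x)
    (hxr : dist x c ≠ r) : ∃ N : ℕ, (onC P c r).card * ((onC P c r).card - 3) ≤ 12 * N ∧
      (TC (onC P c r)).card + N ≤ (TC P).card := by
  classical
  set Q := onC P c r with hQ
  set New := Q.offDiag.filter (fun z => gg r (cls x z.1 z.2) ≠ 0) with hNew
  set N := New.image (fun z => cls x z.1 z.2) with hN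
  have hxQ : ∀ a ∈ Q, a ≠ x := by
    intro a ha h
    rw [h] at ha
    exact hxr (onC_mem ha).2
  refine ⟨N.card, ?_, ?_⟩
  · -- the old pairs
    have h1 : (Q.offDiag.filter (fun z => ¬ (gg r (cls x z.1 z.2) ≠ 0))).card ≤ 2 * Q.card := by
      rw [card_eq_sum_card_fiberwise (f := fun z : Plane × Plane => z.1) (t := Q) (by
        intro z hz
        exact mem_coe.2 (mem_offDiag.1 (mem_filter.1 (mem_coe.1 hz)).1).1)]
      calc _ ≤ ∑ _a ∈ Q, 2 := by
            apply sum_le_sum
            intro a ha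
            by_contra hcon
            have hcon := not_le.1 hcon
            obtain ⟨z, hz, z', hz', z'', hz'', h1, h2, h3⟩ := two_lt_card.1 hcon
            have key : ∀ w : Plane × Plane, w ∈ filter (fun z : Plane × Plane => z.1 = a)
                (filter (fun z : Plane × Plane => ¬ (gg r (cls x z.1 z.2) ≠ 0)) Q.offDiag) →
                w.1 = a ∧ dist c w.2 = r ∧ dist (x + c - a) w.2 = r := by
              intro w hw
              obtain ⟨h4, h5⟩ := mem_filter.1 hw
              obtain ⟨h6, h7⟩ := mem_filter.1 h4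
              obtain ⟨w1, w2, w3⟩ := mem_offDiag.1 h6
              push Not at h7
              have w1' := (onC_mem w1).2
              have w2' := (onC_mem w2).2
              rw [gg_cls w1' w2'] at h7
              have h8 : dist w.1 w.2 ^ 2 ≠ 0 := pow_ne_zero 2 (dist_ne_zero.2 w3)
              have h9 : dist x c ^ 2 - r ^ 2 ≠ 0 := by
                intro h
                apply hxr
                have hr : 0 ≤ r := by rw [← w1']; exact dist_nonneg
                have := sq_eq_sq_iff_eq_or_eq_neg.1 (sub_eq_zero.1 h)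
                rcases this with h' | h'
                · exact h'
                · have := dist_nonneg (x := x) (y := c)
                  linarith
              have h10 := (mul_eq_zero.1 h7).resolve_left (mul_ne_zero h8 h9)
              refine ⟨h5, by rw [dist_comm]; exact w2', ?_⟩
              rw [← h5]
              have hr : 0 ≤ r := by rw [← w1']; exact dist_nonneg
              rcases sq_eq_sq_iff_eq_or_eq_neg.1 (sub_eq_zero.1 h10) with h' | h'
              · exact h'
              · have := dist_nonneg (x := x + c - w.1) (y := w.2)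
                linarith
            obtain ⟨e1, e2, e3⟩ := key z hz
            obtain ⟨f1, f2, f3⟩ := key z' hz'
            obtain ⟨g1, g2, g3⟩ := key z'' hz''
            have hcc : c ≠ x + c - a := by
              intro h
              apply hxQ a ha
              have : x - a = 0 := by
                have h' : x + c - a - c = 0 := by rw [← h]; exact sub_self c
                rw [← h']; abel
              exact (sub_eq_zero.1 this).symm
            rcases two_circles (a := c) (b := x + c - a) (p := z.2) (q := z'.2) (r := z''.2)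
              hcc (by rw [e2, f2]) (by rw [f2, g2]) (by rw [e3, f3]) (by rw [f3, g3])
              with h | h | h
            · exact h1 (Prod.ext (e1.trans f1.symm) h)
            · exact h3 (Prod.ext (f1.trans g1.symm) h)
            · exact h2 (Prod.ext (e1.trans g1.symm) h)
        _ = 2 * Q.card := by rw [sum_const, smul_eq_mul, mul_comm]
    have h2 := card_filter_add_card_filter_not (s := Q.offDiag)
      (p := fun z => gg r (cls x z.1 z.2) ≠ 0)
    rw [offDiag_card] at h2
    -- the fibres
    have h3 : New.card ≤ 12 * N.card := by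
      rw [card_eq_sum_card_fiberwise (f := fun z : Plane × Plane => cls x z.1 z.2) (t := N)
        (fun z hz => mem_coe.2 (mem_image_of_mem _ (mem_coe.1 hz)))]
      calc _ ≤ ∑ _m ∈ N, 12 := by
            apply sum_le_sum
            intro m _
            refine le_trans (card_le_card ?_) (fibre_le (P := P) (r := r) hxc m)
            intro z hz
            obtain ⟨h4, h5⟩ := mem_filter.1 hz
            exact mem_filter.2 ⟨(mem_filter.1 h4).1, h5⟩
        _ = 12 * N.card := by rw [sum_const, smul_eq_mul, mul_comm]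
    change New.card + _ = _ at h2
    have h4 : Q.card * (Q.card - 3) + 3 * Q.card ≤ Q.card * Q.card + 2 := by
      rcases Nat.lt_or_ge Q.card 3 with h5 | h5
      · interval_cases Q.card <;> norm_num
      · obtain ⟨k, hk⟩ : ∃ k, Q.card = k + 3 := ⟨Q.card - 3, by omega⟩
        rw [hk]
        have : k + 3 - 3 = k := by omega
        rw [this]
        nlinarith
    rcases Nat.lt_or_ge Q.card 3 with h5 | h5
    · have : Q.card - 3 = 0 := by omega
      rw [this, mul_zero]; exact Nat.zero_le _
    · obtain ⟨k, hk⟩ : ∃ k, Q.card = k + 3 := ⟨Q.card - 3, by omega⟩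
      rw [hk] at h1 h2 ⊢
      have e1 : k + 3 - 3 = k := by omega
      have e2 : (k + 3) * (k + 3) - (k + 3) = (k + 3) * (k + 2) := by
        have : (k + 3) * (k + 3) = (k + 3) * (k + 2) + (k + 3) := by ring
        omega
      rw [e2] at h2
      rw [e1]
      have e3 : (k + 3) * (k + 2) = (k + 3) * k + 2 * (k + 3) := by ring
      omega
  · apply new_classes
    · intro m hm
      obtain ⟨z, hz, rfl⟩ := mem_image.1 hm
      obtain ⟨h1, _⟩ := mem_filter.1 hz
      obtain ⟨z1, z2, z3⟩ := mem_offDiag.1 h1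
      exact cls_mem_TC hx (onC_mem z1).1 (onC_mem z2).1 (hxQ _ z1).symm z3 (hxQ _ z2).symm
    · intro m hm
      obtain ⟨z, hz, rfl⟩ := mem_image.1 hm
      exact (mem_filter.1 hz).2

end Pool.Agent.ConvTri
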