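import Pool.Agent.Work.MP_dc37f8_co.Circle2

/-!
# Sets with at least three quarters of the points on a circle: conclusion
-/

namespace Pool.Agent.ConvTri

open Finset

theorem centre_point {P : Finset Plane} {c : Plane} {r : ℝ} (hc : c ∈ P) (hr : 0 < r)
    (hQ : (onC P c r).Nonempty) : ∃ N : ℕ, (onC P c r).card ≤ 2 * N + 3 ∧
      (TC (onC P c r)).card + N ≤ (TC P).card := by
  classical
  obtain ⟨a, ha⟩ := hQ
  set Q := onC P c r with hQ
  set L := (Q.erase a).image (dist a) with hL
  set L' := L.filter (fun d => d ^ 2 ≠ 3 * r ^ 2) with hL'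
  set N := L'.image (fun d => ({r, d, r} : Multiset ℝ)) with hN
  have hca : c ≠ a := by
    intro h
    have := (onC_mem ha).2
    rw [← h, dist_self] at this
    exact hr.ne this
  have h1 : (Q.erase a).card ≤ 2 * L.card := by
    rw [card_eq_sum_card_fiberwise (f := dist a) (t := L)
      (fun z hz => mem_coe.2 (mem_image_of_mem _ (mem_coe.1 hz)))]
    calc _ ≤ ∑ _l ∈ L, 2 := by
          apply sum_le_sum
          intro l _
          by_contra hcon
          have hcon := not_le.1 hcon
          obtain ⟨x, hx, y, hy, z, hz, h1, h2, h3⟩ := two_lt_card.1 hcon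
          obtain ⟨x1, x2⟩ := mem_filter.1 hx
          obtain ⟨y1, y2⟩ := mem_filter.1 hy
          obtain ⟨z1, z2⟩ := mem_filter.1 hz
          have x3 : dist c x = r := by rw [dist_comm]; exact (onC_mem (mem_of_mem_erase x1)).2
          have y3 : dist c y = r := by rw [dist_comm]; exact (onC_mem (mem_of_mem_erase y1)).2
          have z3 : dist c z = r := by rw [dist_comm]; exact (onC_mem (mem_of_mem_erase z1)).2
          rcases two_circles (a := c) (b := a) (p := x) (q := y) (r := z) hca
            (by rw [x3, y3]) (by rw [y3, z3]) (by rw [x2, y2]) (by rw [y2, z2]) with h | h | h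
          · exact h1 h
          · exact h3 h
          · exact h2 h
      _ = 2 * L.card := by rw [sum_const, smul_eq_mul, mul_comm]
  have hpos : ∀ d ∈ L, 0 < d := by
    intro d hd
    obtain ⟨b, hb, rfl⟩ := mem_image.1 hd
    exact dist_pos.2 (mem_erase.1 hb).1.symm
  have h2 : L.card ≤ L'.card + 1 := by
    have h3 := card_filter_add_card_filter_not (s := L) (p := fun d => d ^ 2 ≠ 3 * r ^ 2)
    have h4 : (L.filter (fun d => ¬ (d ^ 2 ≠ 3 * r ^ 2))).card ≤ 1 := by
      rw [card_le_one]
      intro d hd e he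
      obtain ⟨d1, d2⟩ := mem_filter.1 hd
      obtain ⟨e1, e2⟩ := mem_filter.1 he
      have d3 : d ^ 2 = 3 * r ^ 2 := not_not.1 d2
      have e3 : e ^ 2 = 3 * r ^ 2 := not_not.1 e2
      have := hpos d d1
      have := hpos e e1
      have h5 : (d - e) * (d + e) = 0 := by linear_combination d3 - e3
      rcases mul_eq_zero.1 h5 with h6 | h6
      · linarith
      · linarith
    change L'.card + _ = _ at h3
    omega
  have h3 : N.card = L'.card := by
    apply card_image_of_injective
    intro d e h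
    have h4 : ({d, r} : Multiset ℝ) = {e, r} := (Multiset.cons_inj_right r).1 h
    rcases pair_eq h4 with h5 | h5
    · exact h5.1
    · exact h5.1.trans h5.2
  refine ⟨N.card, ?_, ?_⟩
  · have h4 := card_erase_of_mem ha
    omega
  · apply new_classes
    · intro m hm
      obtain ⟨d, hd, rfl⟩ := mem_image.1 hm
      obtain ⟨hd1, _⟩ := mem_filter.1 hd
      obtain ⟨b, hb, rfl⟩ := mem_image.1 hd1
      obtain ⟨hba, hb⟩ := mem_erase.1 hb
      have h5 : dist c a = r := by rw [dist_comm]; exact (onC_mem ha).2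
      have h6 : dist c b = r := by rw [dist_comm]; exact (onC_mem hb).2
      have hcb : c ≠ b := by
        intro h
        rw [← h, dist_self] at h6
        exact hr.ne h6
      have h7 := cls_mem_TC hc (onC_mem ha).1 (onC_mem hb).1 hca hba.symm hcb
      unfold cls at h7
      rwa [h5, h6] at h7
    · intro m hm
      obtain ⟨d, hd, rfl⟩ := mem_image.1 hm
      obtain ⟨hd1, hd2⟩ := mem_filter.1 hd
      rw [gg_three]
      have h5 : r ^ 2 * d ^ 2 * r ^ 2 - r ^ 2 * ((r ^ 2 + d ^ 2 + r ^ 2) ^ 2 -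
          2 * ((r ^ 2) ^ 2 + (d ^ 2) ^ 2 + (r ^ 2) ^ 2)) =
          r ^ 2 * (d ^ 2 * (d ^ 2 - 3 * r ^ 2)) := by ring
      rw [h5]
      have h6 := hpos d hd1
      exact mul_ne_zero (by positivity) (mul_ne_zero (by positivity) (sub_ne_zero.2 hd2))

theorem round_le_iff {n t : ℕ} (h : n ^ 2 ≤ 12 * t + 5) : round ((n : ℝ) ^ 2 / 12) ≤ (t : ℤ) := by
  rw [round_eq]
  apply Int.le_of_lt_add_one
  rw [Int.floor_lt]
  have : ((n : ℝ)) ^ 2 ≤ 12 * t + 5 := by exact_mod_cast h
  push_cast
  linarith

theorem of_round_le {n t : ℕ} (h : round ((n : ℝ) ^ 2 / 12) ≤ (t : ℤ)) : n ^ 2 ≤ 12 * t + 5 := by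
  rw [round_eq] at h
  have h1 : ⌊(n : ℝ) ^ 2 / 12 + 1 / 2⌋ < (t : ℤ) + 1 := by omega
  rw [Int.floor_lt] at h1
  push_cast at h1
  have h2 : (n : ℝ) ^ 2 < 12 * t + 6 := by linarith
  have h3 : n ^ 2 < 12 * t + 6 := by exact_mod_cast h2
  omega

/-- The numerical part. -/
theorem near_num {m n T0 T : ℕ} (h0 : m ^ 2 ≤ 12 * T0 + 5) (h34 : 3 * n ≤ 4 * m) (hmn : m < n)
    (h : (∃ N, m * (m - 3) ≤ 12 * N ∧ T0 + N ≤ T) ∨ (n = m + 1 ∧ ∃ N, m ≤ 2 * N + 3 ∧ T0 + N ≤ T)) :
    n ^ 2 ≤ 12 * T + 5 ∧ (17 ≤ n → n ^ 2 + 7 ≤ 12 * T) := by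
  have hm3 : 3 ≤ m := by omega
  rcases h with ⟨N, h1, h2⟩ | ⟨rfl, N, h1, h2⟩
  · rcases Nat.lt_or_ge m 17 with h3 | h3
    · interval_cases m
      all_goals (have h5 : n ≤ 21 := by omega)
      all_goals (interval_cases n)
      all_goals (first | (exfalso; omega) | skip)
      all_goals (refine ⟨by omega, fun _ => by omega⟩)
    · have e1 : 9 * n ^ 2 ≤ 16 * m ^ 2 := by
        have := Nat.pow_le_pow_left h34 2
        nlinarith
      obtain ⟨k, hk⟩ : ∃ k, m = k + 17 := ⟨m - 17, by omega⟩
      have e2 : m * (m - 3) + 3 * m = m ^ 2 := by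
        have : m - 3 + 3 = m := by omega
        calc m * (m - 3) + 3 * m = m * (m - 3 + 3) := by ring
          _ = m ^ 2 := by rw [this, pow_two]
      have e3 : 2 * m ^ 2 ≥ 27 * m + 108 := by rw [hk]; nlinarith
      constructor
      · omega
      · intro _; omega
  · have e1 : (m + 1) ^ 2 = m ^ 2 + 2 * m + 1 := by ring
    rcases Nat.lt_or_ge m 16 with h3 | h3
    · constructor
      · interval_cases m <;> omega
      · intro h; omega
    · constructor
      · omega
      · intro _; omega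

theorem near_circle {P : Finset Plane} {c : Plane} {r : ℝ}
    (h34 : 3 * P.card ≤ 4 * (onC P c r).card) (hr : 0 < r)
    (h0 : (onC P c r).card ^ 2 ≤ 12 * (TC (onC P c r)).card + 5) :
    P.card ^ 2 ≤ 12 * (TC P).card + 5 ∧
      (17 ≤ P.card → onC P c r ≠ P → P.card ^ 2 + 7 ≤ 12 * (TC P).card) := by
  classical
  by_cases hPQ : onC P c r = P
  · rw [hPQ] at h0
    exact ⟨h0, fun _ h => absurd hPQ h⟩
  have hlt : (onC P c r).card < P.card := by
    apply card_lt_card
    exact (filter_subset _ _).ssubset_of_ne hPQ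
  have key := near_num (m := (onC P c r).card) (n := P.card) (T0 := (TC (onC P c r)).card)
    (T := (TC P).card) h0 h34 hlt
  have hne : (onC P c r).Nonempty := by
    apply card_pos.1
    omega
  have h1 : (∃ N, (onC P c r).card * ((onC P c r).card - 3) ≤ 12 * N ∧
      (TC (onC P c r)).card + N ≤ (TC P).card) ∨ (P.card = (onC P c r).card + 1 ∧
        ∃ N, (onC P c r).card ≤ 2 * N + 3 ∧ (TC (onC P c r)).card + N ≤ (TC P).card) := by
    by_cases hx : ∃ x ∈ P, dist x c ≠ r ∧ c ≠ x
    · obtain ⟨x, hx, hxr, hxc⟩ := hx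
      exact Or.inl (off_point hx hxc hxr)
    · push Not at hx
      have h2 : P \ onC P c r ⊆ {c} := by
        intro x hx'
        obtain ⟨h3, h4⟩ := mem_sdiff.1 hx'
        have h5 : dist x c ≠ r := fun h => h4 (mem_filter.2 ⟨h3, h⟩)
        rw [mem_singleton]
        exact (hx x h3 h5).symm
      have h3 : (P \ onC P c r).card + (onC P c r).card = P.card :=
        card_sdiff_add_card_eq_card (filter_subset _ _)
      have h4 := card_le_card h2
      rw [card_singleton] at h4
      have h5 : (P \ onC P c r).Nonempty := by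
        apply card_pos.1
        omega
      obtain ⟨x, hx'⟩ := h5
      have h6 : x = c := mem_singleton.1 (h2 hx')
      have h7 : c ∈ P := by rw [← h6]; exact (mem_sdiff.1 hx').1
      exact Or.inr ⟨by omega, centre_point h7 hr hne⟩
  have := key h1
  exact ⟨this.1, fun h _ => this.2 h⟩

end Pool.Agent.ConvTri
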