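import Pool.Agent.Work.MP_dc37f8_co.Poor
import Pool.Agent.Work.MP_dc37f8_co.Circle3

/-!
# Rich circles
-/

namespace Pool.Agent.ConvTri

open Finset

open Classical in
/-- the traces on `P` of the circles with at least `s` points of `P` -/
noncomputable def circs (P : Finset Plane) (s : ℝ) : Finset (Finset Plane) :=
  P.powerset.filter (fun K => s ≤ (K.card : ℝ) ∧ ∃ c r, K = P.filter (fun p => dist p c = r))

theorem circs_mem {P : Finset Plane} {s : ℝ} {K : Finset Plane} :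
    K ∈ circs P s ↔ s ≤ (K.card : ℝ) ∧ ∃ c r, K = P.filter (fun p => dist p c = r) := by
  classical
  unfold circs
  rw [mem_filter, mem_powerset]
  constructor
  · exact fun h => h.2
  · rintro ⟨h1, c, r, rfl⟩
    exact ⟨filter_subset _ _, h1, c, r, rfl⟩

theorem circle_inter {P : Finset Plane} {c c' : Plane} {r r' : ℝ}
    (hne : P.filter (fun p => dist p c = r) ≠ P.filter (fun p => dist p c' = r')) :
    (P.filter (fun p => dist p c = r) ∩ P.filter (fun p => dist p c' = r')).card ≤ 2 := by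
  classical
  by_contra hcon
  push Not at hcon
  obtain ⟨x, hx, y, hy, z, hz, h1, h2, h3⟩ := two_lt_card.1 hcon
  rw [mem_inter, mem_filter, mem_filter] at hx hy hz
  by_cases hc : c = c'
  · subst hc
    apply hne
    have : r = r' := by rw [← hx.1.2, hx.2.2]
    rw [this]
  · have hx1 : dist c x = r := by rw [dist_comm]; exact hx.1.2
    have hy1 : dist c y = r := by rw [dist_comm]; exact hy.1.2
    have hz1 : dist c z = r := by rw [dist_comm]; exact hz.1.2
    have hx2 : dist c' x = r' := by rw [dist_comm]; exact hx.2.2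
    have hy2 : dist c' y = r' := by rw [dist_comm]; exact hy.2.2
    have hz2 : dist c' z = r' := by rw [dist_comm]; exact hz.2.2
    rcases two_circles (a := c) (b := c') (p := x) (q := y) (r := z) hc
      (by rw [hx1, hy1]) (by rw [hy1, hz1]) (by rw [hx2, hy2]) (by rw [hy2, hz2]) with h | h | h
    · exact h1 h
    · exact h3 h
    · exact h2 h

theorem circs_inter {P : Finset Plane} {s : ℝ} {K K' : Finset Plane} (hK : K ∈ circs P s)
    (hK' : K' ∈ circs P s) (hne : K ≠ K') : (K ∩ K').card ≤ 2 := by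
  obtain ⟨_, c, r, rfl⟩ := circs_mem.1 hK
  obtain ⟨_, c', r', rfl⟩ := circs_mem.1 hK'
  exact circle_inter hne

theorem sum_card_union {F : Finset (Finset Plane)}
    (hF : ∀ K ∈ F, ∀ K' ∈ F, K ≠ K' → (K ∩ K').card ≤ 2) :
    ∑ K ∈ F, K.card ≤ (F.biUnion id).card + F.card ^ 2 := by
  classical
  induction F using Finset.induction_on with
  | empty => simp
  | insert K F hK ih =>
    rw [sum_insert hK, biUnion_insert, card_insert_of_notMem hK]
    have h1 := ih (fun a ha b hb => hF a (mem_insert_of_mem ha) b (mem_insert_of_mem hb))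
    have h2 : (K ∩ F.biUnion id).card ≤ 2 * F.card := by
      rw [inter_biUnion]
      refine card_biUnion_le.trans ?_
      calc ∑ K' ∈ F, (K ∩ id K').card ≤ ∑ _K' ∈ F, 2 := by
            apply sum_le_sum
            intro K' hK'
            exact hF K (mem_insert_self _ _) K' (mem_insert_of_mem hK')
              (by rintro rfl; exact hK hK')
        _ = 2 * F.card := by rw [sum_const, smul_eq_mul, mul_comm]
    have h3 := card_union_add_card_inter (id K) (F.biUnion id)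
    simp only [id] at h1 h2 h3 ⊢
    nlinarith

theorem circs_union {P : Finset Plane} {s : ℝ} {F : Finset (Finset Plane)} (hF : F ⊆ circs P s) :
    (F.biUnion id).card ≤ P.card := by
  classical
  apply card_le_card
  apply biUnion_subset.2
  intro K hK
  obtain ⟨_, c, r, h⟩ := circs_mem.1 (hF hK)
  rw [id, h]
  exact filter_subset _ _

theorem circs_few {P : Finset Plane} {κ' : ℝ} {m : ℕ} (hm : 2 ≤ κ' * m) (hn : m ^ 2 < P.card) :
    (circs P (κ' * P.card)).card < m := by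
  classical
  by_contra hcon
  push Not at hcon
  obtain ⟨F, hF, hFm⟩ := exists_subset_card_eq hcon
  have h1 := sum_card_union (F := F) (fun K hK K' hK' hne => circs_inter (hF hK) (hF hK') hne)
  have h2 := circs_union hF
  have h3 : (m : ℝ) * (κ' * P.card) ≤ ((∑ K ∈ F, K.card : ℕ) : ℝ) := by
    rw [Nat.cast_sum, ← hFm, ← nsmul_eq_mul]
    exact card_nsmul_le_sum _ _ _ (fun K hK => (circs_mem.1 (hF hK)).1)
  have h4 : ((∑ K ∈ F, K.card : ℕ) : ℝ) ≤ ((P.card + m ^ 2 : ℕ) : ℝ) := by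
    rw [hFm] at h1
    exact_mod_cast h1.trans (Nat.add_le_add_right h2 _)
  have h5 : ((m ^ 2 : ℕ) : ℝ) < (P.card : ℝ) := by exact_mod_cast hn
  have h6 : (2 : ℝ) * P.card ≤ (κ' * m) * P.card :=
    mul_le_mul_of_nonneg_right hm (Nat.cast_nonneg _)
  push_cast at h4 h5 h3
  nlinarith

theorem circs_sum {P : Finset Plane} {κ' : ℝ} {m : ℕ} (hm : 2 ≤ κ' * m) (hn : m ^ 2 < P.card) :
    ∑ K ∈ circs P (κ' * P.card), K.card ≤ P.card + m ^ 2 := by
  classical
  have h0 := circs_few hm hn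
  have h1 := sum_card_union (F := circs P (κ' * P.card))
    (fun K hK K' hK' hne => circs_inter hK hK' hne)
  have h2 := circs_union (Subset.refl (circs P (κ' * P.card)))
  have h3 : (circs P (κ' * P.card)).card ^ 2 ≤ m ^ 2 := Nat.pow_le_pow_left h0.le 2
  omega

theorem onRich_card {P : Finset Plane} {s t : ℝ} (T0 : Finset (Plane × Plane × Plane))
    (hT : ∀ z ∈ T0, z.1 ∈ P ∧ z.2.1 ∈ P ∧ z.2.2 ∈ P ∧ OnRich P s z)
    (ht : ∀ K ∈ circs P s, (K.card : ℝ) ≤ t) :
    (T0.card : ℝ) ≤ t ^ 2 * ((∑ K ∈ circs P s, K.card : ℕ) : ℝ) := by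
  classical
  have h1 : T0 ⊆ (circs P s).biUnion (fun K => K ×ˢ K ×ˢ K) := by
    intro z hz
    obtain ⟨z1, z2, z3, c, r, h1, h2, h3, h4⟩ := hT z hz
    refine mem_biUnion.2 ⟨P.filter (fun p => dist p c = r), circs_mem.2 ⟨h1, c, r, rfl⟩, ?_⟩
    exact mem_product.2 ⟨mem_filter.2 ⟨z1, h2⟩, mem_product.2 ⟨mem_filter.2 ⟨z2, h3⟩,
      mem_filter.2 ⟨z3, h4⟩⟩⟩
  have h2 : T0.card ≤ ∑ K ∈ circs P s, K.card * (K.card * K.card) := by
    refine (card_le_card h1).trans (card_biUnion_le.trans (le_of_eq ?_))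
    apply sum_congr rfl
    intro K _
    rw [card_product, card_product]
  have h3 : (T0.card : ℝ) ≤ ∑ K ∈ circs P s, (K.card : ℝ) * ((K.card : ℝ) * (K.card : ℝ)) := by
    exact_mod_cast h2
  refine h3.trans ?_
  rw [Nat.cast_sum, mul_sum]
  apply sum_le_sum
  intro K hK
  have h4 := ht K hK
  have h5 : (0 : ℝ) ≤ K.card := Nat.cast_nonneg _
  have h6 : (K.card : ℝ) * K.card ≤ t ^ 2 := by nlinarith
  nlinarith

theorem onRich_card2 {P : Finset Plane} {s : ℝ} {c1 : Plane} {r1 : ℝ}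
    (T0 : Finset (Plane × Plane × Plane))
    (hT : ∀ z ∈ T0, z.1 ∈ P ∧ dist z.1 c1 ≠ r1 ∧ z.2.1 ∈ P.filter (fun p => dist p c1 = r1) ∧
      z.2.2 ∈ P.filter (fun p => dist p c1 = r1) ∧ OnRich P s z) :
    T0.card ≤ 4 * ∑ K ∈ circs P s, K.card := by
  classical
  set K1 := P.filter (fun p => dist p c1 = r1) with hK1
  have h1 : T0 ⊆ ((circs P s).filter (fun K => K ≠ K1)).biUnion
      (fun K => K ×ˢ (K ∩ K1) ×ˢ (K ∩ K1)) := by
    intro z hz
    obtain ⟨z1, z0, z2, z3, c, r, h1, h2, h3, h4⟩ := hT z hz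
    have z2' := (mem_filter.1 z2).1
    have z3' := (mem_filter.1 z3).1
    refine mem_biUnion.2 ⟨P.filter (fun p => dist p c = r),
      mem_filter.2 ⟨circs_mem.2 ⟨h1, c, r, rfl⟩, ?_⟩, ?_⟩
    · intro h5
      have h6 : z.1 ∈ K1 := by
        rw [← h5]
        exact mem_filter.2 ⟨z1, h2⟩
      exact z0 (mem_filter.1 h6).2
    · exact mem_product.2 ⟨mem_filter.2 ⟨z1, h2⟩, mem_product.2
        ⟨mem_inter.2 ⟨mem_filter.2 ⟨z2', h3⟩, z2⟩, mem_inter.2 ⟨mem_filter.2 ⟨z3', h4⟩, z3⟩⟩⟩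
  refine (card_le_card h1).trans (card_biUnion_le.trans ?_)
  calc ∑ K ∈ (circs P s).filter (fun K => K ≠ K1), (K ×ˢ (K ∩ K1) ×ˢ (K ∩ K1)).card
      ≤ ∑ K ∈ (circs P s).filter (fun K => K ≠ K1), 4 * K.card := by
        apply sum_le_sum
        intro K hK
        obtain ⟨hK2, hK3⟩ := mem_filter.1 hK
        obtain ⟨_, c, r, rfl⟩ := circs_mem.1 hK2
        have h2 := circle_inter hK3
        rw [card_product, card_product]
        rw [← hK1] at h2
        have h3 := Nat.mul_le_mul h2 h2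
        nlinarith
    _ ≤ ∑ K ∈ circs P s, 4 * K.card := sum_le_sum_of_subset (filter_subset _ _)
    _ = 4 * ∑ K ∈ circs P s, K.card := by rw [mul_sum]

theorem trips_lower {P : Finset Plane} {κ : ℝ} {A B : Finset Plane} (hA : A ⊆ P) (hB : B ⊆ P) :
    (∑ a ∈ A, (B.filter (fun b => (a, b) ∈ richs P κ)).card) ^ 2 ≤
      A.card * (((trips P κ).filter (fun z => z.1 ∈ A ∧ z.2.1 ∈ B ∧ z.2.2 ∈ B)).card +
        P.card ^ 2) := by
  classical
  set Y : Plane → Finset Plane := fun a => B.filter (fun b => (a, b) ∈ richs P κ) with hY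
  set Z := (trips P κ).filter (fun z => z.1 ∈ A ∧ z.2.1 ∈ B ∧ z.2.2 ∈ B) with hZ
  have h1 : (∑ a ∈ A, (Y a).card) ^ 2 ≤ A.card * ∑ a ∈ A, (Y a).card ^ 2 :=
    sq_sum_le_card_mul_sum_sq
  have h2 : ∀ a ∈ A, (Y a).card ^ 2 = (Y a).offDiag.card + (Y a).card := by
    intro a _
    rw [offDiag_card, Nat.sub_add_cancel (Nat.le_mul_self _), pow_two]
  have h3 : ∑ a ∈ A, (Y a).offDiag.card ≤ Z.card := by
    have h4 : Z.card = ∑ a ∈ A, (Z.filter (fun z => z.1 = a)).card :=
      card_eq_sum_card_fiberwise (fun z hz => mem_coe.2 (mem_filter.1 (mem_coe.1 hz)).2.1)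
    rw [h4]
    apply sum_le_sum
    intro a ha
    apply card_le_card_of_injOn (fun w => (a, w))
    · intro w hw
      obtain ⟨w1, w2, w3⟩ := mem_offDiag.1 (mem_coe.1 hw)
      obtain ⟨w4, w5⟩ := mem_filter.1 w1
      obtain ⟨w6, w7⟩ := mem_filter.1 w2
      rw [mem_coe]
      refine mem_filter.2 ⟨mem_filter.2 ⟨?_, ha, w4, w6⟩, rfl⟩
      unfold trips
      exact mem_filter.2 ⟨mem_product.2 ⟨hA ha, mem_product.2 ⟨hB w4, hB w6⟩⟩, w3, w5, w7⟩
    · intro w _ w' _ h
      exact congrArg Prod.snd h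
  have h5 : ∑ a ∈ A, (Y a).card ≤ P.card ^ 2 := by
    calc ∑ a ∈ A, (Y a).card ≤ ∑ _a ∈ A, P.card :=
          sum_le_sum fun a _ => card_le_card ((filter_subset _ _).trans hB)
      _ = A.card * P.card := by rw [sum_const, smul_eq_mul]
      _ ≤ P.card * P.card := Nat.mul_le_mul_right _ (card_le_card hA)
      _ = P.card ^ 2 := (pow_two _).symm
  refine h1.trans (Nat.mul_le_mul_left _ ?_)
  rw [sum_congr rfl h2, sum_add_distrib]
  omega

theorem richs_sum (P : Finset Plane) (κ : ℝ) :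
    (richs P κ).card ≤ ∑ a ∈ P, (P.filter (fun b => (a, b) ∈ richs P κ)).card := by
  classical
  have h4 : (richs P κ).card = ∑ a ∈ P, ((richs P κ).filter (fun z => z.1 = a)).card :=
    card_eq_sum_card_fiberwise (fun z hz =>
      mem_coe.2 (mem_offDiag.1 (mem_filter.1 (mem_coe.1 hz)).1).1)
  rw [h4]
  apply sum_le_sum
  intro a _
  apply card_le_card_of_injOn Prod.snd
  · intro z hz
    obtain ⟨z1, z2⟩ := mem_filter.1 (mem_coe.1 hz)
    rw [mem_coe]
    refine mem_filter.2 ⟨(mem_offDiag.1 (mem_filter.1 z1).1).2.1, ?_⟩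
    rw [← z2]
    exact z1
  · intro z hz z' hz' h
    obtain ⟨z1, z2⟩ := mem_filter.1 (mem_coe.1 hz)
    obtain ⟨z3, z4⟩ := mem_filter.1 (mem_coe.1 hz')
    exact Prod.ext (z2.trans z4.symm) h

/-- averaging over the apexes -/
theorem dists_avg {P : Finset Plane} (hP : LineBound P 2) (hn : 0 < P.card) :
    (P.card : ℝ) * ((P.card : ℝ) - 1) / 3 - (Er P : ℝ) / P.card ≤
      ∑ l ∈ dists P, min ((2 * NL P l : ℕ) : ℝ) (P.card : ℝ) := by
  classical
  set n : ℝ := (P.card : ℝ) with hnd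
  have hn0 : 0 < n := by rw [hnd]; exact_mod_cast hn
  set g : ℝ → ℝ := fun l => min ((2 * NL P l : ℕ) : ℝ) n with hg
  have hg0 : ∀ l, 0 ≤ g l := fun l => le_min (Nat.cast_nonneg _) hn0.le
  -- one apex
  have h1 : ∀ a ∈ P, ((distsFrom P a).card : ℝ) * n ≤
      ∑ l ∈ dists P, g l + ∑ b ∈ P.erase a, (er P a b : ℝ) := by
    intro a ha
    have hex : ∀ l ∈ distsFrom P a, ∃ b ∈ P.erase a, dist a b = l := by
      intro l hl
      unfold distsFrom at hl
      exact mem_image.1 hl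
    choose! β hβ hβd using hex
    have hinj : Set.InjOn β (distsFrom P a) := by
      intro l hl l' hl' h
      rw [← hβd l hl, ← hβd l' hl', h]
    have h2 : ∀ l ∈ distsFrom P a, n ≤ g l + (er P a (β l) : ℝ) := by
      intro l hl
      obtain ⟨b1, b2⟩ := mem_erase.1 (hβ l hl)
      have h3 := one_NL ha b2 b1.symm
      rw [hβd l hl] at h3
      have h4 : n ≤ ((2 * NL P l : ℕ) : ℝ) + (er P a (β l) : ℝ) := by
        rw [hnd]; exact_mod_cast h3
      have h5 : (0 : ℝ) ≤ (er P a (β l) : ℝ) := Nat.cast_nonneg _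
      rcases min_choice ((2 * NL P l : ℕ) : ℝ) n with h6 | h6
      · have : g l = ((2 * NL P l : ℕ) : ℝ) := h6
        rw [this]; exact h4
      · have : g l = n := h6
        rw [this]; linarith
    have h3 := sum_le_sum h2
    rw [sum_const, nsmul_eq_mul, sum_add_distrib] at h3
    have hsub : distsFrom P a ⊆ dists P := by
      intro l hl
      obtain ⟨b1, b2⟩ := mem_erase.1 (hβ l hl)
      exact mem_image.2 ⟨(a, β l), mem_offDiag.2 ⟨ha, b2, b1.symm⟩, hβd l hl⟩
    have h4 : ∑ l ∈ distsFrom P a, g l ≤ ∑ l ∈ dists P, g l :=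
      sum_le_sum_of_subset_of_nonneg hsub (fun l _ _ => hg0 l)
    have h5 : ∑ l ∈ distsFrom P a, (er P a (β l) : ℝ) ≤ ∑ b ∈ P.erase a, (er P a b : ℝ) := by
      rw [← sum_image (f := fun b => (er P a b : ℝ)) hinj]
      apply sum_le_sum_of_subset_of_nonneg
      · intro b hb
        obtain ⟨l, hl, rfl⟩ := mem_image.1 hb
        exact hβ l hl
      · exact fun b _ _ => Nat.cast_nonneg _
    linarith
  have h2 := sum_le_sum h1
  rw [← sum_mul, sum_add_distrib, sum_const, nsmul_eq_mul] at h2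
  have h3 : ∑ a ∈ P, ∑ b ∈ P.erase a, (er P a b : ℝ) = (Er P : ℝ) := by
    unfold Er
    rw [Nat.cast_sum, ← sum_fiberwise_of_maps_to (s := P.offDiag) (t := P)
      (g := fun z => z.1) (fun z hz => (mem_offDiag.1 hz).1)]
    apply sum_congr rfl
    intro a ha
    symm
    apply sum_bij (fun z _ => z.2)
    · intro z hz
      obtain ⟨h4, h5⟩ := mem_filter.1 hz
      obtain ⟨z1, z2, z3⟩ := mem_offDiag.1 h4
      exact mem_erase.2 ⟨by rw [← h5]; exact z3.symm, z2⟩
    · intro z hz z' hz' h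
      have h5 := (mem_filter.1 hz).2
      have h6 := (mem_filter.1 hz').2
      exact Prod.ext (h5.trans h6.symm) h
    · intro b hb
      obtain ⟨b1, b2⟩ := mem_erase.1 hb
      exact ⟨(a, b), mem_filter.2 ⟨mem_offDiag.2 ⟨ha, b2, b1.symm⟩, rfl⟩, rfl⟩
    · intro z hz
      have h5 := (mem_filter.1 hz).2
      rw [h5]
  rw [h3] at h2
  have h4 := dist_deg hP
  have h5 : n * (n - 1) ≤ 3 * ∑ a ∈ P, ((distsFrom P a).card : ℝ) := by
    have h6 : ((P.card * (P.card - 1) : ℕ) : ℝ) ≤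
        (((2 + 1) * ∑ a ∈ P, (distsFrom P a).card : ℕ) : ℝ) := by exact_mod_cast h4
    rw [Nat.cast_mul, Nat.cast_sub hn, ← hnd] at h6
    push_cast at h6
    linarith
  rw [← hnd] at h2
  set S := ∑ a ∈ P, ((distsFrom P a).card : ℝ) with hS
  set G := ∑ l ∈ dists P, g l with hG
  have h6 : (Er P : ℝ) / n * n = (Er P : ℝ) := div_mul_cancel₀ _ hn0.ne'
  by_contra hcon
  push Not at hcon
  have h7 : n * G < n * (n * (n - 1) / 3 - (Er P : ℝ) / n) := mul_lt_mul_of_pos_left hcon hn0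
  nlinarith

end Pool.Agent.ConvTri
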