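import Mathlib

/-!
# The contraction lemma for the diameter chain of a convex polygon

Points of a strictly concave chain from `A = (0,0)` to `B = (l,0)`, where `AB` is the largest
distance. If `U < U' ≤ V' < V` are points of the chain and `(U, V) ≠ (A, B)` then
`|U'V| < |UV|` or `|UV'| < |UV|`.
-/

namespace Pool.Agent.ConvTri

/-- One half of the key inequality, in oblique unit coordinates. -/
theorem key_half {κ P Q p2 a1 a2 b1 b2 a b : ℝ} (hκ0 : 1 / 2 ≤ κ) (hκ1 : κ < 1)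
    (hP : 0 < P) (hQ : 0 < Q) (hp2' : p2 ≤ 2 * κ * P - Q) (hp2Q : p2 < Q)
    (ha1 : P < a1) (ha2 : 0 < a2) (hb1 : 0 < b1) (hb2 : Q < b2) (h1 : b1 < a1) (h2 : a2 < b2)
    (hb : 0 ≤ b) (ha : 0 ≤ a) (ha' : a ^ 2 = a1 ^ 2 + a2 ^ 2 + 2 * κ * a1 * a2)
    (hb' : b ^ 2 = b1 ^ 2 + b2 ^ 2 + 2 * κ * b1 * b2) (hab : b - Q ≤ a - P) :
    (a1 - b1) ^ 2 + (b2 - a2) ^ 2 - 2 * κ * (a1 - b1) * (b2 - a2) <
      a1 ^ 2 + (p2 - a2) ^ 2 - 2 * κ * a1 * (p2 - a2) := by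
  have hκ : 0 < κ := by linarith
  have ha1' : 0 < a1 := by linarith
  have hb2' : 0 < b2 := by linarith
  have hbQ : Q < b := by
    by_contra hcon
    push Not at hcon
    have : b ^ 2 ≤ Q ^ 2 := by nlinarith
    have h3 : 0 < 2 * κ * b1 * b2 := by positivity
    have h4 : Q ^ 2 < b2 ^ 2 := by nlinarith
    nlinarith
  have haP : P < a := by
    by_contra hcon
    push Not at hcon
    have : a ^ 2 ≤ P ^ 2 := by nlinarith
    have h3 : 0 < 2 * κ * a1 * a2 := by positivity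
    have h4 : P ^ 2 < a1 ^ 2 := by nlinarith
    nlinarith
  set h : ℝ := κ * a1 + a2 with hh
  have hhpos : 0 < h := by positivity
  have hσ : 0 < 1 - κ ^ 2 := by nlinarith
  have hκa : κ * a < h := by
    by_contra hcon
    push Not at hcon
    have h3 : h ^ 2 ≤ (κ * a) ^ 2 := by nlinarith
    have h4 : h ^ 2 - (κ * a) ^ 2 = (1 - κ ^ 2) * (a2 ^ 2 + 2 * κ * a1 * a2) := by
      rw [mul_pow, ha', hh]; ring
    have h5 : 0 < (1 - κ ^ 2) * (a2 ^ 2 + 2 * κ * a1 * a2) := by positivity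
    linarith
  set ip : ℝ := a1 * b1 + a2 * b2 + κ * (a1 * b2 + a2 * b1) with hip
  have hipos : 0 < ip := by positivity
  have hipb : b * h ≤ ip := by
    have hk : ip ^ 2 - (b * h) ^ 2 = (1 - κ ^ 2) * b1 *
        (2 * h * a1 * (κ * b1 + b2) + (1 - κ ^ 2) * a1 ^ 2 * b1 - b1 * h ^ 2) := by
      rw [mul_pow, hb', hip, hh]; ring
    have h3 : b1 * h ≤ a1 * (κ * b1 + b2) := by
      have : a2 * b1 ≤ a1 * b2 := by nlinarith
      rw [hh]; nlinarith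
    have h4 : 0 ≤ 2 * h * a1 * (κ * b1 + b2) + (1 - κ ^ 2) * a1 ^ 2 * b1 - b1 * h ^ 2 := by
      have h5 : h * (b1 * h) ≤ h * (a1 * (κ * b1 + b2)) :=
        mul_le_mul_of_nonneg_left h3 hhpos.le
      have h6 : 0 ≤ (1 - κ ^ 2) * a1 ^ 2 * b1 := by positivity
      have h7 : 0 ≤ h * (a1 * (κ * b1 + b2)) := by positivity
      nlinarith
    have h5 : (b * h) ^ 2 ≤ ip ^ 2 := by
      have : 0 ≤ (1 - κ ^ 2) * b1 *
        (2 * h * a1 * (κ * b1 + b2) + (1 - κ ^ 2) * a1 ^ 2 * b1 - b1 * h ^ 2) := by positivity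
      linarith
    exact le_of_sq_le_sq h5 hipos.le
  have hdiff : a1 ^ 2 + (p2 - a2) ^ 2 - 2 * κ * a1 * (p2 - a2) -
      ((a1 - b1) ^ 2 + (b2 - a2) ^ 2 - 2 * κ * (a1 - b1) * (b2 - a2)) =
      p2 ^ 2 - 2 * p2 * h - b ^ 2 + 2 * ip := by
    rw [hb', hip, hh]; ring
  have hprod : 0 < (b - p2) * (2 * h - b - p2) := by
    apply mul_pos
    · linarith
    · nlinarith [mul_nonneg (by linarith : 0 ≤ 2 * κ - 1) (by linarith : 0 ≤ a - P)]
  nlinarith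

/-- The key inequality. -/
theorem key {κ P Q p1 p2 a1 a2 b1 b2 : ℝ} (hκ0 : 1 / 2 ≤ κ) (hκ1 : κ < 1)
    (hP : 0 < P) (hQ : 0 < Q) (hp1 : 0 ≤ p1) (hp2 : 0 ≤ p2)
    (hp1' : p1 ≤ 2 * κ * Q - P) (hp2' : p2 ≤ 2 * κ * P - Q) (hp1P : p1 < P) (hp2Q : p2 < Q)
    (ha1 : P < a1) (ha2 : 0 < a2) (hb1 : 0 < b1) (hb2 : Q < b2) (h1 : b1 < a1) (h2 : a2 < b2) :
    (a1 - b1) ^ 2 + (b2 - a2) ^ 2 - 2 * κ * (a1 - b1) * (b2 - a2) <
      a1 ^ 2 + (p2 - a2) ^ 2 - 2 * κ * a1 * (p2 - a2) ∨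
    (a1 - b1) ^ 2 + (b2 - a2) ^ 2 - 2 * κ * (a1 - b1) * (b2 - a2) <
      (p1 - b1) ^ 2 + b2 ^ 2 - 2 * κ * (p1 - b1) * b2 := by
  have hκ : 0 < κ := by linarith
  have ha1' : 0 < a1 := by linarith
  have hb2' : 0 < b2 := by linarith
  have hA : 0 ≤ a1 ^ 2 + a2 ^ 2 + 2 * κ * a1 * a2 := by positivity
  have hB : 0 ≤ b1 ^ 2 + b2 ^ 2 + 2 * κ * b1 * b2 := by positivity
  rcases le_total (Real.sqrt (b1 ^ 2 + b2 ^ 2 + 2 * κ * b1 * b2) - Q)
    (Real.sqrt (a1 ^ 2 + a2 ^ 2 + 2 * κ * a1 * a2) - P) with h | h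
  · left
    exact key_half hκ0 hκ1 hP hQ hp2' hp2Q ha1 ha2 hb1 hb2 h1 h2 (Real.sqrt_nonneg _)
      (Real.sqrt_nonneg _) (Real.sq_sqrt hA) (Real.sq_sqrt hB) h
  · right
    have := key_half (κ := κ) (P := Q) (Q := P) (p2 := p1) (a1 := b2) (a2 := b1) (b1 := a2)
      (b2 := a1) (a := Real.sqrt (b1 ^ 2 + b2 ^ 2 + 2 * κ * b1 * b2))
      (b := Real.sqrt (a1 ^ 2 + a2 ^ 2 + 2 * κ * a1 * a2)) hκ0 hκ1 hQ hP hp1' hp1P hb2 hb1
      ha2 ha1 h2 h1 (Real.sqrt_nonneg _)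
      (Real.sqrt_nonneg _) (by rw [Real.sq_sqrt hB]; ring) (by rw [Real.sq_sqrt hA]; ring) h
    nlinarith [this]

/-- The key inequality in oblique coordinates with respect to two independent vectors `e`, `f`. -/
theorem key_oblique {e1 e2 f1 f2 p q a1 a2 b1 b2 : ℝ} (hD : 0 < e1 * f2 - e2 * f1)
    (hp : 1 ≤ p) (hq : 1 ≤ q)
    (hA : (2 * p - 1) * (e1 ^ 2 + e2 ^ 2) ≤ 2 * q * (e1 * f1 + e2 * f2))
    (hB : (2 * q - 1) * (f1 ^ 2 + f2 ^ 2) ≤ 2 * p * (e1 * f1 + e2 * f2))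
    (ha1 : p < a1) (ha2 : 0 < a2) (hb1 : 0 < b1) (hb2 : q < b2) (h1 : b1 < a1) (h2 : a2 < b2) :
    ((a1 - b1) * e1 - (b2 - a2) * f1) ^ 2 + ((a1 - b1) * e2 - (b2 - a2) * f2) ^ 2 <
      (a1 * e1 - (q - 1 - a2) * f1) ^ 2 + (a1 * e2 - (q - 1 - a2) * f2) ^ 2 ∨
    ((a1 - b1) * e1 - (b2 - a2) * f1) ^ 2 + ((a1 - b1) * e2 - (b2 - a2) * f2) ^ 2 <
      ((p - 1 - b1) * e1 - b2 * f1) ^ 2 + ((p - 1 - b1) * e2 - b2 * f2) ^ 2 := by
  set E : ℝ := e1 ^ 2 + e2 ^ 2 with hE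
  set F : ℝ := f1 ^ 2 + f2 ^ 2 with hF
  set g : ℝ := e1 * f1 + e2 * f2 with hg
  have hE0 : 0 < E := by
    rcases eq_or_ne e1 0 with h | h
    · have : e2 ≠ 0 := by
        rintro rfl
        rw [h] at hD; simp at hD
      positivity
    · positivity
  have hF0 : 0 < F := by
    rcases eq_or_ne f1 0 with h | h
    · have : f2 ≠ 0 := by
        rintro rfl
        rw [h] at hD; simp at hD
      positivity
    · positivity
  have hg0 : 0 < g := by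
    have h3 : 0 < (2 * p - 1) * E := mul_pos (by linarith) hE0
    by_contra hcon
    push Not at hcon
    nlinarith
  have hcs : g ^ 2 < E * F := by
    have : E * F - g ^ 2 = (e1 * f2 - e2 * f1) ^ 2 := by rw [hE, hF, hg]; ring
    have h3 : 0 < (e1 * f2 - e2 * f1) ^ 2 := by positivity
    linarith
  set r : ℝ := Real.sqrt E with hr
  set t : ℝ := Real.sqrt F with ht
  have hr0 : 0 < r := Real.sqrt_pos.2 hE0
  have ht0 : 0 < t := Real.sqrt_pos.2 hF0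
  have hr2 : r ^ 2 = E := Real.sq_sqrt hE0.le
  have ht2 : t ^ 2 = F := Real.sq_sqrt hF0.le
  set κ : ℝ := g / (r * t) with hκ
  have hκrt : κ * (r * t) = g := by rw [hκ]; field_simp
  have hκpos : 0 < κ := by positivity
  have hκ1 : κ < 1 := by
    have h3 : g < r * t := by
      have : g ^ 2 < (r * t) ^ 2 := by rw [mul_pow, hr2, ht2]; exact hcs
      nlinarith [mul_pos hr0 ht0]
    rw [hκ, div_lt_one (by positivity)]
    exact h3
  have hp1' : (p - 1) * r ≤ 2 * κ * (q * t) - p * r := by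
    have h3 : ((2 * p - 1) * r) * r ≤ (2 * κ * (q * t)) * r := by
      calc ((2 * p - 1) * r) * r = (2 * p - 1) * E := by rw [← hr2]; ring
        _ ≤ 2 * q * g := hA
        _ = (2 * κ * (q * t)) * r := by rw [← hκrt]; ring
    have := le_of_mul_le_mul_right h3 hr0
    linarith
  have hp2' : (q - 1) * t ≤ 2 * κ * (p * r) - q * t := by
    have h3 : ((2 * q - 1) * t) * t ≤ (2 * κ * (p * r)) * t := by
      calc ((2 * q - 1) * t) * t = (2 * q - 1) * F := by rw [← ht2]; ring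
        _ ≤ 2 * p * g := hB
        _ = (2 * κ * (p * r)) * t := by rw [← hκrt]; ring
    have := le_of_mul_le_mul_right h3 ht0
    linarith
  have hpr : 0 < p * r := by positivity
  have hqt : 0 < q * t := by positivity
  have hp10 : 0 ≤ (p - 1) * r := mul_nonneg (by linarith) hr0.le
  have hp20 : 0 ≤ (q - 1) * t := mul_nonneg (by linarith) ht0.le
  have hκ0 : 1 / 2 ≤ κ := by
    by_contra hcon
    push Not at hcon
    have h3 : p * r ≤ 2 * κ * (q * t) := by linarith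
    have h4 : q * t ≤ 2 * κ * (p * r) := by linarith
    have h5 : 2 * κ * (q * t) < q * t := by nlinarith
    have h6 : 2 * κ * (p * r) < p * r := by nlinarith
    linarith
  have hk := key (κ := κ) (P := p * r) (Q := q * t) (p1 := (p - 1) * r) (p2 := (q - 1) * t)
    (a1 := a1 * r) (a2 := a2 * t) (b1 := b1 * r) (b2 := b2 * t) hκ0 hκ1 hpr hqt hp10 hp20
    hp1' hp2' (by nlinarith) (by nlinarith) (by nlinarith) (by positivity) (by positivity)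
    (by nlinarith) (by nlinarith) (by nlinarith)
  have hid : ∀ x y : ℝ, (x * e1 - y * f1) ^ 2 + (x * e2 - y * f2) ^ 2 =
      (x * r) ^ 2 + (y * t) ^ 2 - 2 * κ * (x * r) * (y * t) := by
    intro x y
    have : (x * r) ^ 2 + (y * t) ^ 2 - 2 * κ * (x * r) * (y * t) =
      x ^ 2 * r ^ 2 + y ^ 2 * t ^ 2 - 2 * x * y * (κ * (r * t)) := by ring
    rw [this, hr2, ht2, hκrt, hE, hF, hg]
    ring
  rw [hid, hid, hid]
  have e1' : a1 * r - b1 * r = (a1 - b1) * r := by ring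
  have e2' : b2 * t - a2 * t = (b2 - a2) * t := by ring
  have e3' : (q - 1) * t - a2 * t = (q - 1 - a2) * t := by ring
  have e4' : (p - 1) * r - b1 * r = (p - 1 - b1) * r := by ring
  rw [e1', e2', e3', e4'] at hk
  exact hk

/-- Right turn at `q` on the way from `p` over `q` to `r`. -/
def Turn (p q r : ℝ × ℝ) : Prop :=
  (q.1 - p.1) * (r.2 - q.2) < (q.2 - p.2) * (r.1 - q.1)

/-- squared distance -/
def sd (p q : ℝ × ℝ) : ℝ := (p.1 - q.1) ^ 2 + (p.2 - q.2) ^ 2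

/-- A set of points of the plane which is the graph of a strictly concave function. -/
structure Concave (S : Set (ℝ × ℝ)) : Prop where
  inj : ∀ p ∈ S, ∀ q ∈ S, p.1 = q.1 → p = q
  turn : ∀ p ∈ S, ∀ q ∈ S, ∀ r ∈ S, p.1 < q.1 → q.1 < r.1 → Turn p q r

theorem slope4 {S : Set (ℝ × ℝ)} (hS : Concave S) {p q r s : ℝ × ℝ} (hp : p ∈ S) (hq : q ∈ S)
    (hr : r ∈ S) (hs : s ∈ S) (h1 : p.1 < q.1) (h2 : q.1 ≤ r.1) (h3 : r.1 < s.1) :
    (q.1 - p.1) * (s.2 - r.2) < (q.2 - p.2) * (s.1 - r.1) := by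
  rcases h2.eq_or_lt with h | h
  · have : q = r := hS.inj q hq r hr h
    subst this
    exact hS.turn p hp q hq s hs h1 h3
  · have t1 := hS.turn p hp q hq r hr h1 h
    have t2 := hS.turn q hq r hr s hs h h3
    unfold Turn at t1 t2
    have a : 0 < q.1 - p.1 := by linarith
    have b : 0 < r.1 - q.1 := by linarith
    have c : 0 < s.1 - r.1 := by linarith
    have m1 := mul_lt_mul_of_pos_left t2 a
    have m2 := mul_lt_mul_of_pos_right t1 c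
    have : ((q.1 - p.1) * (s.2 - r.2)) * (r.1 - q.1) <
        ((q.2 - p.2) * (s.1 - r.1)) * (r.1 - q.1) := by
      nlinarith
    exact lt_of_mul_lt_mul_right this b.le

/-- The oblique coordinates of the apex. -/
theorem oblique {e1 e2 f1 f2 w1 w2 D g : ℝ} (hD : D = e1 * f2 - e2 * f1) (hD0 : 0 < D)
    (hg : g = e1 * f1 + e2 * f2) (he1 : 0 < e1) (hf1 : f1 < 0)
    (hP1 : D ≤ w1 * f2 - w2 * f1) (hQ1 : D ≤ w1 * e2 - w2 * e1)
    (hcA : 0 ≤ (e1 ^ 2 + e2 ^ 2) - 2 * (e1 * w1 + e2 * w2))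
    (hcB : 0 ≤ (f1 ^ 2 + f2 ^ 2) + 2 * (f1 * w1 + f2 * w2)) :
    ∃ p q : ℝ, 1 ≤ p ∧ 1 ≤ q ∧ p * D = w1 * f2 - w2 * f1 ∧ q * D = w1 * e2 - w2 * e1 ∧
      w1 = p * e1 - q * f1 ∧ w2 = p * e2 - q * f2 ∧
      (2 * p - 1) * (e1 ^ 2 + e2 ^ 2) ≤ 2 * q * g ∧
      (2 * q - 1) * (f1 ^ 2 + f2 ^ 2) ≤ 2 * p * g ∧ 0 < g ∧ 0 < e2 ∧ 0 < f2 := by
  obtain ⟨p, hp⟩ : ∃ p : ℝ, p * D = w1 * f2 - w2 * f1 :=
    ⟨(w1 * f2 - w2 * f1) / D, div_mul_cancel₀ _ hD0.ne'⟩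
  obtain ⟨q, hq⟩ : ∃ q : ℝ, q * D = w1 * e2 - w2 * e1 :=
    ⟨(w1 * e2 - w2 * e1) / D, div_mul_cancel₀ _ hD0.ne'⟩
  have hp1 : 1 ≤ p := by
    by_contra hc
    push Not at hc
    nlinarith
  have hq1 : 1 ≤ q := by
    by_contra hc
    push Not at hc
    nlinarith
  have hww1 : w1 = p * e1 - q * f1 := by
    apply mul_right_cancel₀ hD0.ne'
    linear_combination w1 * hD - e1 * hp + f1 * hq
  have hww2 : w2 = p * e2 - q * f2 := by
    apply mul_right_cancel₀ hD0.ne'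
    linear_combination w2 * hD - e2 * hp + f2 * hq
  have hA' : (2 * p - 1) * (e1 ^ 2 + e2 ^ 2) ≤ 2 * q * g := by
    rw [hww1, hww2] at hcA
    rw [hg]
    linarith
  have hB' : (2 * q - 1) * (f1 ^ 2 + f2 ^ 2) ≤ 2 * p * g := by
    rw [hww1, hww2] at hcB
    rw [hg]
    linarith
  have hE0 : 0 < e1 ^ 2 + e2 ^ 2 := by positivity
  have hg0 : 0 < g := by
    have h3 : 0 < (2 * p - 1) * (e1 ^ 2 + e2 ^ 2) := mul_pos (by linarith) hE0
    by_contra hc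
    push Not at hc
    have h4 : 2 * q * g ≤ 0 := by
      have : 0 ≤ 2 * q := by linarith
      exact mul_nonpos_of_nonneg_of_nonpos this hc
    linarith
  have hef : 0 < e2 ∧ 0 < f2 := by
    have h3 : 0 < e2 * f2 := by
      have : e1 * f1 < 0 := mul_neg_of_pos_of_neg he1 hf1
      linarith
    rcases pos_and_pos_or_neg_and_neg_of_mul_pos h3 with h | h
    · exact h
    · exfalso
      have h4 : e1 * f2 < 0 := mul_neg_of_pos_of_neg he1 h.2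
      have h5 : 0 < e2 * f1 := mul_pos_of_neg_of_neg h.1 hf1
      linarith
  exact ⟨p, q, hp1, hq1, hp, hq, hww1, hww2, hA', hB', hg0, hef.1, hef.2⟩

theorem core_left {e1 e2 f1 f2 z1 z2 D g : ℝ} (hD : D = e1 * f2 - e2 * f1) (hD0 : 0 < D)
    (hg : g = e1 * f1 + e2 * f2) (hg0 : 0 < g)
    (hz1 : z1 * f2 - z2 * f1 < 0) (hz2 : 0 < z1 * e2 - z2 * e1) :
    e1 * z1 + e2 * z2 < 0 := by
  have h5 : D * (e1 * z1 + e2 * z2) =
      (z1 * f2 - z2 * f1) * (e1 ^ 2 + e2 ^ 2) - (z1 * e2 - z2 * e1) * g := by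
    rw [hD, hg]; ring
  have hE0 : 0 ≤ e1 ^ 2 + e2 ^ 2 := by positivity
  have h6 : (z1 * f2 - z2 * f1) * (e1 ^ 2 + e2 ^ 2) ≤ 0 :=
    mul_nonpos_of_nonpos_of_nonneg hz1.le hE0
  have h7 : 0 < (z1 * e2 - z2 * e1) * g := mul_pos hz2 hg0
  have h8 : D * (e1 * z1 + e2 * z2) < 0 := by linarith
  by_contra hc
  push Not at hc
  have := mul_nonneg hD0.le hc
  linarith

theorem core_right {e1 e2 f1 f2 z1 z2 D g : ℝ} (hD : D = e1 * f2 - e2 * f1) (hD0 : 0 < D)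
    (hg : g = e1 * f1 + e2 * f2) (hg0 : 0 < g)
    (hz1 : z1 * f2 - z2 * f1 < 0) (hz2 : 0 < z1 * e2 - z2 * e1) :
    f1 * z1 + f2 * z2 < 0 := by
  have h5 : D * (f1 * z1 + f2 * z2) =
      (z1 * f2 - z2 * f1) * g - (z1 * e2 - z2 * e1) * (f1 ^ 2 + f2 ^ 2) := by
    rw [hD, hg]; ring
  have hF0 : 0 ≤ f1 ^ 2 + f2 ^ 2 := by positivity
  have h6 : (z1 * f2 - z2 * f1) * g < 0 := mul_neg_of_neg_of_pos hz1 hg0
  have h7 : 0 ≤ (z1 * e2 - z2 * e1) * (f1 ^ 2 + f2 ^ 2) := mul_nonneg hz2.le hF0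
  have h8 : D * (f1 * z1 + f2 * z2) < 0 := by linarith
  by_contra hc
  push Not at hc
  have := mul_nonneg hD0.le hc
  linarith

/-- The main case: both ends are inner points of the chain. Here `A = (0,0)`, `B = (l,0)`,
`a = U`, `z = B - V`. -/
theorem core_both {e1 e2 f1 f2 w1 w2 a1 a2 z1 z2 l D g p q : ℝ}
    (hD : D = e1 * f2 - e2 * f1) (hD0 : 0 < D) (hg : g = e1 * f1 + e2 * f2)
    (hp1 : 1 ≤ p) (hq1 : 1 ≤ q)
    (hp : p * D = w1 * f2 - w2 * f1) (hq : q * D = w1 * e2 - w2 * e1)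
    (hww1 : w1 = p * e1 - q * f1) (hww2 : w2 = p * e2 - q * f2)
    (hA' : (2 * p - 1) * (e1 ^ 2 + e2 ^ 2) ≤ 2 * q * g)
    (hB' : (2 * q - 1) * (f1 ^ 2 + f2 ^ 2) ≤ 2 * p * g)
    (he2 : 0 < e2) (hf2 : 0 < f2) (hl : 0 < l)
    (ha1 : 0 < a1 * f2 - a2 * f1) (ha2 : 0 < a2 * e1 - a1 * e2)
    (hz1 : z1 * f2 - z2 * f1 < 0) (hz2 : 0 < z1 * e2 - z2 * e1)
    (hs1 : a1 + w1 + z1 = l) (hs2 : a2 + w2 + z2 = 0) :
    l ^ 2 < (a1 + w1 + f1) ^ 2 + (a2 + w2 + f2) ^ 2 ∨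
    l ^ 2 < (z1 + w1 - e1) ^ 2 + (z2 + w2 - e2) ^ 2 := by
  obtain ⟨la, hla⟩ : ∃ x : ℝ, x * D = a1 * f2 - a2 * f1 := ⟨_, div_mul_cancel₀ _ hD0.ne'⟩
  obtain ⟨ma, hma⟩ : ∃ x : ℝ, x * D = a2 * e1 - a1 * e2 := ⟨_, div_mul_cancel₀ _ hD0.ne'⟩
  obtain ⟨mb, hmb⟩ : ∃ x : ℝ, x * D = -(z1 * f2 - z2 * f1) := ⟨_, div_mul_cancel₀ _ hD0.ne'⟩
  obtain ⟨lb, hlb⟩ : ∃ x : ℝ, x * D = z1 * e2 - z2 * e1 := ⟨_, div_mul_cancel₀ _ hD0.ne'⟩
  have hpos : ∀ x y : ℝ, x * D = y → 0 < y → 0 < x := by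
    intro x y h1 h2
    by_contra hc
    push Not at hc
    have : x * D ≤ 0 := mul_nonpos_of_nonpos_of_nonneg hc hD0.le
    linarith
  have hla0 : 0 < la := hpos _ _ hla ha1
  have hma0 : 0 < ma := hpos _ _ hma ha2
  have hmb0 : 0 < mb := hpos _ _ hmb (by linarith)
  have hlb0 : 0 < lb := hpos _ _ hlb hz2
  have k1 : (p + la - mb) * D = l * f2 := by
    linear_combination hp + hla - hmb + f2 * hs1 - f1 * hs2
  have k2 : (q + lb - ma) * D = l * e2 := by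
    linear_combination hq + hlb - hma + e2 * hs1 - e1 * hs2
  have hBA1p : 0 < p + la - mb := hpos _ _ k1 (mul_pos hl hf2)
  have hBA2p : 0 < q + lb - ma := hpos _ _ k2 (mul_pos hl he2)
  have j1 : a1 = la * e1 + ma * f1 := by
    apply mul_right_cancel₀ hD0.ne'
    linear_combination a1 * hD - e1 * hla - f1 * hma
  have j2 : a2 = la * e2 + ma * f2 := by
    apply mul_right_cancel₀ hD0.ne'
    linear_combination a2 * hD - e2 * hla - f2 * hma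
  have j3 : z1 = -(mb * e1 + lb * f1) := by
    apply mul_right_cancel₀ hD0.ne'
    linear_combination z1 * hD + e1 * hmb + f1 * hlb
  have j4 : z2 = -(mb * e2 + lb * f2) := by
    apply mul_right_cancel₀ hD0.ne'
    linear_combination z2 * hD + e2 * hmb + f2 * hlb
  rw [hg] at hA' hB'
  have hk := key_oblique (e1 := e1) (e2 := e2) (f1 := f1) (f2 := f2) (p := p) (q := q)
    (a1 := p + la) (a2 := ma) (b1 := mb) (b2 := q + lb) (by rw [← hD]; exact hD0) hp1 hq1 hA' hB'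
    (by linarith) hma0 hmb0 (by linarith) (by linarith) (by linarith)
  have i1 : (p + la - mb) * e1 - (q + lb - ma) * f1 = l := by
    rw [← hs1, j1, hww1, j3]; ring
  have i2 : (p + la - mb) * e2 - (q + lb - ma) * f2 = 0 := by
    rw [← hs2, j2, hww2, j4]; ring
  have i3 : (p + la) * e1 - (q - 1 - ma) * f1 = a1 + w1 + f1 := by
    rw [j1, hww1]; ring
  have i4 : (p + la) * e2 - (q - 1 - ma) * f2 = a2 + w2 + f2 := by
    rw [j2, hww2]; ring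
  have i5 : (p - 1 - mb) * e1 - (q + lb) * f1 = z1 + w1 - e1 := by
    rw [j3, hww1]; ring
  have i6 : (p - 1 - mb) * e2 - (q + lb) * f2 = z2 + w2 - e2 := by
    rw [j4, hww2]; ring
  rw [i1, i2, i3, i4, i5, i6] at hk
  have hzz : l ^ 2 + (0 : ℝ) ^ 2 = l ^ 2 := by ring
  rw [hzz] at hk
  exact hk

/-- **Contraction lemma.** -/
theorem contraction {S : Set (ℝ × ℝ)} (hS : Concave S) {l : ℝ} (hl : 0 < l)
    (hA : ((0, 0) : ℝ × ℝ) ∈ S) (hB : ((l, 0) : ℝ × ℝ) ∈ S)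
    (hS0 : ∀ p ∈ S, 0 ≤ p.1) (hSl : ∀ p ∈ S, p.1 ≤ l)
    (hmax : ∀ p ∈ S, ∀ q ∈ S, sd p q ≤ l ^ 2)
    {u s t v : ℝ × ℝ} (hu : u ∈ S) (hs : s ∈ S) (ht : t ∈ S) (hv : v ∈ S)
    (hus : u.1 < s.1) (hst : s.1 ≤ t.1) (htv : t.1 < v.1)
    (hne : u ≠ (0, 0) ∨ v ≠ (l, 0)) : sd s v < sd u v ∨ sd u t < sd u v := by
  by_contra hcon
  push Not at hcon
  obtain ⟨hcA, hcB⟩ := hcon
  have hD0 : 0 < (s.1 - u.1) * (t.2 - v.2) - (s.2 - u.2) * (t.1 - v.1) := by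
    have := slope4 hS hu hs ht hv hus hst htv
    nlinarith
  have hP1 : (s.1 - u.1) * (t.2 - v.2) - (s.2 - u.2) * (t.1 - v.1) ≤
      (v.1 - u.1) * (t.2 - v.2) - (v.2 - u.2) * (t.1 - v.1) := by
    rcases hst.eq_or_lt with h | h
    · have : s = t := hS.inj s hs t ht h
      rw [this]; nlinarith
    · have := hS.turn s hs t ht v hv h htv
      unfold Turn at this
      nlinarith
  have hQ1 : (s.1 - u.1) * (t.2 - v.2) - (s.2 - u.2) * (t.1 - v.1) ≤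
      (v.1 - u.1) * (s.2 - u.2) - (v.2 - u.2) * (s.1 - u.1) := by
    rcases hst.eq_or_lt with h | h
    · have : s = t := hS.inj s hs t ht h
      rw [this]; nlinarith
    · have := hS.turn u hu s hs t ht hus h
      unfold Turn at this
      nlinarith
  have hcA' : 0 ≤ ((s.1 - u.1) ^ 2 + (s.2 - u.2) ^ 2) -
      2 * ((s.1 - u.1) * (v.1 - u.1) + (s.2 - u.2) * (v.2 - u.2)) := by
    unfold sd at hcA
    nlinarith
  have hcB' : 0 ≤ ((t.1 - v.1) ^ 2 + (t.2 - v.2) ^ 2) +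
      2 * ((t.1 - v.1) * (v.1 - u.1) + (t.2 - v.2) * (v.2 - u.2)) := by
    unfold sd at hcB
    nlinarith
  obtain ⟨p, q, hp1, hq1, hp, hq, hww1, hww2, hA', hB', hg0, he2, hf2⟩ :=
    oblique (e1 := s.1 - u.1) (e2 := s.2 - u.2) (f1 := t.1 - v.1) (f2 := t.2 - v.2)
      (w1 := v.1 - u.1) (w2 := v.2 - u.2) rfl hD0 rfl (by linarith) (by linarith) hP1 hQ1
      hcA' hcB'
  have hright : v ≠ (l, 0) →
      (l - v.1) * (t.2 - v.2) - (0 - v.2) * (t.1 - v.1) < 0 ∧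
      0 < (l - v.1) * (s.2 - u.2) - (0 - v.2) * (s.1 - u.1) := by
    intro hvB
    have hvl : v.1 < l := lt_of_le_of_ne (hSl v hv) (fun h => hvB (hS.inj v hv _ hB h))
    have hz1 := slope4 hS hu hs hv hB hus (hst.trans htv.le) hvl
    have hz2 := hS.turn t ht v hv _ hB htv hvl
    unfold Turn at hz2
    simp only at hz1 hz2
    constructor <;> nlinarith
  have hleft : u ≠ (0, 0) →
      0 < u.1 * (t.2 - v.2) - u.2 * (t.1 - v.1) ∧
      0 < u.2 * (s.1 - u.1) - u.1 * (s.2 - u.2) := by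
    intro hu0
    have hu1 : 0 < u.1 := lt_of_le_of_ne (hS0 u hu) (fun h => hu0 (hS.inj u hu _ hA h.symm))
    have ha1 := slope4 hS hA hu ht hv hu1 (hus.le.trans hst) htv
    have ha2 := hS.turn _ hA u hu s hs hu1 hus
    unfold Turn at ha2
    simp only [sub_zero] at ha1 ha2
    constructor <;> nlinarith
  have mA := hmax _ hA t ht
  have mB := hmax s hs _ hB
  unfold sd at mA mB
  simp only at mA mB
  by_cases hu0 : u = (0, 0)
  · have hvB : v ≠ (l, 0) := by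
      rcases hne with h | h
      · exact absurd hu0 h
      · exact h
    obtain ⟨hz1, hz2⟩ := hright hvB
    have hez := core_left rfl hD0 rfl hg0 hz1 hz2
    have hu1 : u.1 = 0 := by rw [hu0]
    have hu2 : u.2 = 0 := by rw [hu0]
    rw [hu1, hu2] at hcA' hez
    nlinarith
  by_cases hv0 : v = (l, 0)
  · obtain ⟨ha1, ha2⟩ := hleft hu0
    have hv1 : v.1 = l := by rw [hv0]
    have hv2 : v.2 = 0 := by rw [hv0]
    have hfa := core_right (z1 := -u.1) (z2 := -u.2) rfl hD0 rfl hg0 (by linarith) (by linarith)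
    rw [hv1, hv2] at hcB' hfa
    nlinarith
  obtain ⟨hz1, hz2⟩ := hright hv0
  obtain ⟨ha1, ha2⟩ := hleft hu0
  have hk := core_both (a1 := u.1) (a2 := u.2) (z1 := l - v.1) (z2 := 0 - v.2) (l := l) rfl hD0
    rfl hp1 hq1 hp hq hww1 hww2 hA' hB' he2 hf2 hl ha1 ha2 hz1 hz2 (by ring) (by ring)
  rcases hk with hk | hk
  · nlinarith
  · nlinarith

end Pool.Agent.ConvTri
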