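import Pool.Agent.Work.MP_dc37f8_co.Lines

/-!
# Near extremal sets have many axes
-/

namespace Pool.Agent.ConvTri

open Finset

theorem lineBound_two {P : Finset Plane} (hP : ConvPos P) : LineBound P 2 := by
  classical
  intro Q hQ hcol
  by_contra hcon
  push Not at hcon
  obtain ⟨x, hx, y, hy, z, hz, hxy, hxz, hyz⟩ := two_lt_card.1 hcon
  obtain ⟨p0, v, hv⟩ := (collinear_iff_exists_forall_eq_smul_vadd (k := ℝ) (Q : Set Plane)).1 hcol
  have hv0 : v ≠ 0 := by
    rintro rfl
    obtain ⟨r, hr⟩ := hv x (mem_coe.2 hx)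
    obtain ⟨s, hs⟩ := hv y (mem_coe.2 hy)
    apply hxy
    rw [hr, hs]
    simp
  set d : Plane := !₂[-(v 1), v 0] with hd
  have hd0 : d ≠ 0 := by
    intro h
    apply hv0
    have e0 := congrArg (fun z : Plane => z 0) h
    have e1 := congrArg (fun z : Plane => z 1) h
    simp [hd] at e0 e1
    ext i
    fin_cases i
    · simpa using e1
    · simpa using e0
  have hX : ∀ q ∈ Q, X d q = X d p0 := by
    intro q hq
    obtain ⟨r, hr⟩ := hv q (mem_coe.2 hq)
    rw [hr]
    unfold X
    simp [hd]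
    ring
  exact no_three hP hd0 (hQ hx) (hQ hy) (hQ hz) hxy hyz hxz ((hX x hx).trans (hX y hy).symm)
    ((hX y hy).trans (hX z hz).symm)

/-- reflection in the bisector of `a b` -/
noncomputable def rf (a b p : Plane) : Plane :=
  p + ((X (b - a) (a + b) - 2 * X (b - a) p) / nsq (b - a)) • (b - a)

theorem X_sub (d z w : Plane) : X d (z - w) = X d z - X d w := by unfold X; simp; ring
theorem Y_sub (d z w : Plane) : Y d (z - w) = Y d z - Y d w := by unfold Y; simp; ring
theorem Y_add (d z w : Plane) : Y d (z + w) = Y d z + Y d w := by unfold Y; simp; ring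
theorem Y_smul (d z : Plane) (t : ℝ) : Y d (t • z) = t * Y d z := by unfold Y; simp; ring
theorem X_self (d : Plane) : X d d = nsq d := by unfold X nsq; ring
theorem Y_self (d : Plane) : Y d d = 0 := by unfold Y; ring

theorem X_rf {a b : Plane} (hab : a ≠ b) (p : Plane) :
    X (b - a) (rf a b p) = X (b - a) (a + b) - X (b - a) p := by
  have h : nsq (b - a) ≠ 0 := (nsq_pos (sub_ne_zero.2 hab.symm)).ne'
  unfold rf
  rw [X_add (b - a) p, X_smul, X_self]
  field_simp
  ring

theorem Y_rf (a b p : Plane) : Y (b - a) (rf a b p) = Y (b - a) p := by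
  unfold rf
  rw [Y_add (b - a) p, Y_smul, Y_self]
  ring

theorem Y_ab (a b : Plane) : Y (b - a) b = Y (b - a) a := by
  have := Y_self (b - a)
  rw [Y_sub] at this
  linarith

theorem dist_eq_of_XY {d p q p' q' : Plane} (hd : d ≠ 0)
    (h : (X d p - X d q) ^ 2 + (Y d p - Y d q) ^ 2 =
      (X d p' - X d q') ^ 2 + (Y d p' - Y d q') ^ 2) : dist p q = dist p' q' := by
  rw [XY_norm, XY_norm] at h
  have h1 := mul_left_cancel₀ (nsq_pos hd).ne' h
  have h2 := abs_eq_abs.2 (sq_eq_sq_iff_eq_or_eq_neg.1 h1)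
  rwa [abs_of_nonneg dist_nonneg, abs_of_nonneg dist_nonneg] at h2

theorem dist_rf_a {a b : Plane} (hab : a ≠ b) (p : Plane) : dist a (rf a b p) = dist b p := by
  apply dist_eq_of_XY (sub_ne_zero.2 hab.symm)
  rw [X_rf hab, Y_rf, X_add, Y_ab]
  ring

theorem dist_rf_b {a b : Plane} (hab : a ≠ b) (p : Plane) : dist b (rf a b p) = dist a p := by
  apply dist_eq_of_XY (sub_ne_zero.2 hab.symm)
  rw [X_rf hab, Y_rf, X_add, Y_ab]
  ring

theorem rf_a {a b : Plane} (hab : a ≠ b) : rf a b a = b := by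
  apply XY_inj (sub_ne_zero.2 hab.symm)
  · rw [X_rf hab, X_add]; ring
  · rw [Y_rf, Y_ab]

theorem rf_b {a b : Plane} (hab : a ≠ b) : rf a b b = a := by
  apply XY_inj (sub_ne_zero.2 hab.symm)
  · rw [X_rf hab, X_add]; ring
  · rw [Y_rf, Y_ab]

theorem swap_cases {a b p q : Plane} (hab : a ≠ b) (h1 : dist a q = dist b p)
    (h2 : dist b q = dist a p) : q = rf a b p ∨ q = a + b - p := by
  have hd : b - a ≠ 0 := sub_ne_zero.2 hab.symm
  set d := b - a with hdd
  have e1 := XY_norm d a q
  have e2 := XY_norm d b q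
  have e3 := XY_norm d a p
  have e4 := XY_norm d b p
  rw [h1] at e1
  rw [h2] at e2
  have hY : Y d b = Y d a := Y_ab a b
  have hX : X d b - X d a = nsq d := by
    have := X_sub d b a
    rw [← hdd, X_self] at this
    linarith
  have hn : nsq d ≠ 0 := (nsq_pos hd).ne'
  rw [hY] at e2 e4
  have f1 : X d q = X d a + X d b - X d p := by
    have h5 : nsq d * (X d q - (X d a + X d b - X d p)) = 0 := by
      rw [← hX]
      nlinarith
    rcases mul_eq_zero.1 h5 with h6 | h6
    · exact absurd h6 hn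
    · linarith
  have f2 : (Y d q - Y d a) ^ 2 = (Y d p - Y d a) ^ 2 := by
    rw [f1] at e1
    nlinarith
  rcases sq_eq_sq_iff_eq_or_eq_neg.1 f2 with f3 | f3
  · left
    apply XY_inj hd
    · rw [X_rf hab, X_add]; exact f1
    · rw [Y_rf]; linarith
  · right
    apply XY_inj hd
    · rw [X_sub, X_add]; exact f1
    · rw [Y_sub, Y_add, hY]; linarith

/-- the number of points of `P` whose mirror image is not in `P` -/
noncomputable def defi (P : Finset Plane) (a b : Plane) : ℕ :=
  (P.filter (fun p => rf a b p ∉ P)).card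

theorem defi_le {P : Finset Plane} {a b : Plane} (ha : a ∈ P) (hb : b ∈ P) (hab : a ≠ b) :
    defi P a b + P.card ≤ 2 * (overC P a b).card + 2 * (big P a b).card +
      (twins P a b).card + (symm P (a + b)).card + 2 := by
  classical
  set fib : Multiset ℝ → Finset Plane := fun m => (third P a b).filter (fun p => cls a b p = m)
    with hfib
  set S1 := (third P a b).filter (fun p => (fib (cls a b p)).card = 1) with hS1
  set O1 := (overC P a b).filter (fun m => (fib m).card = 1) with hO1
  have h1 : (third P a b).card = ∑ m ∈ overC P a b, (fib m).card :=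
    card_eq_sum_card_fiberwise (fun p hp => mem_coe.2 (mem_image_of_mem _ (mem_coe.1 hp)))
  have h2 : ∀ m ∈ overC P a b, (fib m).card + (if (fib m).card = 1 then 1 else 0) ≤
      2 + 2 * (if 3 ≤ (fib m).card then 1 else 0) := by
    intro m hm
    have := fib_le_four (P := P) hab m
    change (fib m).card ≤ 4 at this
    split_ifs <;> omega
  have h3 := sum_le_sum h2
  rw [sum_add_distrib, ← h1, third_card ha hb hab, sum_add_distrib, sum_const, smul_eq_mul,
    ← mul_sum, ← card_filter, ← card_filter] at h3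
  have h4 : S1.card ≤ O1.card := by
    apply card_le_card_of_injOn (cls a b)
    · intro p hp
      obtain ⟨hp1, hp2⟩ := mem_filter.1 (mem_coe.1 hp)
      exact mem_coe.2 (mem_filter.2 ⟨mem_image_of_mem _ hp1, hp2⟩)
    · intro p hp q hq h
      obtain ⟨hp1, hp2⟩ := mem_filter.1 (mem_coe.1 hp)
      obtain ⟨hq1, hq2⟩ := mem_filter.1 (mem_coe.1 hq)
      obtain ⟨w, hw⟩ := card_eq_one.1 hp2
      have e1 : p ∈ fib (cls a b p) := mem_filter.2 ⟨hp1, rfl⟩
      have e2 : q ∈ fib (cls a b p) := mem_filter.2 ⟨hq1, h.symm⟩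
      rw [hw, mem_singleton] at e1 e2
      rw [e1, e2]
  have h5 : P.filter (fun p => rf a b p ∉ P) ⊆
      S1 ∪ ((twins P a b).image (fun z => z.1) ∪ symm P (a + b)) := by
    intro p hp
    obtain ⟨hpP, hpr⟩ := mem_filter.1 hp
    have hpa : p ≠ a := by rintro rfl; rw [rf_a hab] at hpr; exact hpr hb
    have hpb : p ≠ b := by rintro rfl; rw [rf_b hab] at hpr; exact hpr ha
    have hp3 : p ∈ third P a b := by
      unfold third; exact mem_erase.2 ⟨hpb, mem_erase.2 ⟨hpa, hpP⟩⟩
    by_cases h1 : (fib (cls a b p)).card = 1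
    · exact mem_union_left _ (mem_filter.2 ⟨hp3, h1⟩)
    · apply mem_union_right
      have e1 : p ∈ fib (cls a b p) := mem_filter.2 ⟨hp3, rfl⟩
      have e2 : 1 < (fib (cls a b p)).card := by
        have := card_pos.2 ⟨p, e1⟩
        omega
      obtain ⟨q, hq, hqp⟩ := exists_mem_ne e2 p
      obtain ⟨hq1, hq2⟩ := mem_filter.1 hq
      have hqP := (mem_third hq1).1
      rcases cls_eq hq2 with ⟨h3, h4⟩ | ⟨h3, h4⟩
      · apply mem_union_left
        exact mem_image.2 ⟨(p, q), mem_filter.2 ⟨mem_offDiag.2 ⟨hpP, hqP, hqp.symm⟩,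
          h3.symm, h4.symm⟩, rfl⟩
      · rcases swap_cases hab h3 h4 with h6 | h6
        · exact absurd (h6 ▸ hqP) hpr
        · apply mem_union_right
          unfold symm
          exact mem_filter.2 ⟨hpP, h6 ▸ hqP⟩
  have h6 : defi P a b ≤ S1.card + ((twins P a b).card + (symm P (a + b)).card) := by
    unfold defi
    refine (card_le_card h5).trans ((card_union_le _ _).trans ?_)
    refine Nat.add_le_add_left ((card_union_le _ _).trans ?_) _
    exact Nat.add_le_add_right card_image_le _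
  have h7 : (big P a b).card = ((overC P a b).filter (fun m => 3 ≤ (fib m).card)).card := rfl
  have h8 : O1.card = ((overC P a b).filter (fun m => (fib m).card = 1)).card := rfl
  rw [← h7, ← h8] at h3
  omega

/-- number of classes containing the length `l` -/
noncomputable def NL (P : Finset Plane) (l : ℝ) : ℕ := ((TC P).filter (fun m => l ∈ m)).card

theorem over_le_NL {P : Finset Plane} {a b : Plane} (ha : a ∈ P) (hb : b ∈ P) (hab : a ≠ b) :
    (overC P a b).card ≤ NL P (dist a b) := by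
  classical
  apply card_le_card
  intro m hm
  obtain ⟨p, hp, rfl⟩ := mem_image.1 hm
  obtain ⟨p1, p2, p3⟩ := mem_third hp
  refine mem_filter.2 ⟨cls_mem_TC ha hb p1 hab p3.symm p2.symm, ?_⟩
  unfold cls
  simp

theorem sum_NL (P : Finset Plane) (L : Finset ℝ) : ∑ l ∈ L, NL P l ≤ 3 * (TC P).card := by
  classical
  calc ∑ l ∈ L, NL P l = ∑ m ∈ TC P, (L.filter (fun l => l ∈ m)).card :=
        sum_card_bipartiteAbove_eq_sum_card_bipartiteBelow _
    _ ≤ ∑ _m ∈ TC P, 3 := by
        apply sum_le_sum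
        intro m hm
        refine le_trans (card_le_card ?_) (toFinset_card_le hm)
        intro l hl
        rw [Multiset.mem_toFinset]
        exact (mem_filter.1 hl).2
    _ = 3 * (TC P).card := by rw [sum_const, smul_eq_mul, mul_comm]

/-- the excess of a length -/
noncomputable def ex (P : Finset Plane) (l : ℝ) : ℕ :=
  2 * min (NL P l) (P.card - 2) - (P.card - 2)

theorem ex_le (P : Finset Plane) (l : ℝ) : ex P l ≤ P.card := by
  unfold ex
  have : min (NL P l) (P.card - 2) ≤ P.card - 2 := min_le_right _ _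
  omega

theorem over_ex {P : Finset Plane} {a b : Plane} (ha : a ∈ P) (hb : b ∈ P) (hab : a ≠ b) :
    2 * (overC P a b).card ≤ (P.card - 2) + ex P (dist a b) := by
  classical
  have h1 := over_le_NL ha hb hab
  have h2 : (overC P a b).card ≤ P.card - 2 := by
    rw [← third_card ha hb hab]
    exact card_image_le
  unfold ex
  have h3 : (overC P a b).card ≤ min (NL P (dist a b)) (P.card - 2) := le_min h1 h2
  omega

theorem sum_ex {P : Finset Plane} (K : Chords P) :
    ∑ l ∈ dists P, ex P l + K.D.card * (P.card - 2) ≤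
      6 * (TC P).card + 2 * ∑ l ∈ K.D, (big P (K.α l) (K.β l)).card := by
  classical
  have hsub : K.D ⊆ dists P := by
    intro l hl
    exact mem_image.2 ⟨(K.α l, K.β l), mem_offDiag.2 ⟨K.hα l hl, K.hβ l hl, K.hne l hl⟩,
      K.hd l hl⟩
  rw [← sum_sdiff hsub]
  have h1 : ∑ l ∈ dists P \ K.D, ex P l ≤ ∑ l ∈ dists P \ K.D, 2 * NL P l := by
    apply sum_le_sum
    intro l _
    unfold ex
    have : min (NL P l) (P.card - 2) ≤ NL P l := min_le_left _ _
    omega
  have h2 : ∑ l ∈ K.D, (ex P l + (P.card - 2)) ≤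
      ∑ l ∈ K.D, (2 * NL P l + 2 * (big P (K.α l) (K.β l)).card) := by
    apply sum_le_sum
    intro l hl
    have h3 := over_card (K.hα l hl) (K.hβ l hl) (K.hne l hl)
    have h4 := over_le_NL (K.hα l hl) (K.hβ l hl) (K.hne l hl)
    rw [K.hd l hl] at h4
    unfold ex
    have : min (NL P l) (P.card - 2) ≤ NL P l := min_le_left _ _
    omega
  rw [sum_add_distrib, sum_add_distrib, sum_const, smul_eq_mul, ← mul_sum, ← mul_sum] at h2
  rw [← mul_sum] at h1
  have h3 : ∑ l ∈ dists P, NL P l ≤ 3 * (TC P).card := sum_NL P _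
  rw [← sum_sdiff hsub] at h3
  omega

/-- the number of ordered pairs with distance `l` -/
noncomputable def un (P : Finset Plane) (l : ℝ) : ℕ :=
  (P.offDiag.filter (fun z => dist z.1 z.2 = l)).card

theorem sum_un_sq {P : Finset Plane} (hP : LineBound P 2) :
    ∑ l ∈ dists P, un P l ^ 2 ≤ 3 * P.card ^ 3 := by
  classical
  have h1 : ∀ l ∈ dists P, un P l = ∑ a ∈ P, (degs P (a, l)).card := by
    intro l hl
    unfold un
    rw [card_eq_sum_card_fiberwise (f := fun z : Plane × Plane => z.1) (t := P) (by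
      intro z hz
      exact mem_coe.2 (mem_offDiag.1 (mem_filter.1 (mem_coe.1 hz)).1).1)]
    apply sum_congr rfl
    intro a _
    unfold degs
    rw [filter_filter]
    congr 1
    ext z
    simp only [mem_filter, Prod.mk.injEq]
    tauto
  have h2 : ∀ l ∈ dists P, un P l ^ 2 ≤ P.card * ∑ a ∈ P, (degs P (a, l)).card ^ 2 := by
    intro l hl
    rw [h1 l hl]
    exact sq_sum_le_card_mul_sum_sq
  have h3 : ∑ l ∈ dists P, ∑ a ∈ P, (degs P (a, l)).card ^ 2 =
      ∑ z ∈ P.offDiag, (degs P (z.1, dist z.1 z.2)).card := by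
    rw [← sum_fiberwise_of_maps_to (s := P.offDiag) (t := P ×ˢ dists P)
      (g := fun z => (z.1, dist z.1 z.2))
      (fun z hz => mem_product.2 ⟨(mem_offDiag.1 hz).1, mem_image.2 ⟨z, hz, rfl⟩⟩)]
    rw [sum_product_right]
    apply sum_congr rfl
    intro l _
    apply sum_congr rfl
    intro a _
    have h4 : ∀ z ∈ P.offDiag.filter (fun z => (z.1, dist z.1 z.2) = (a, l)),
        (degs P (z.1, dist z.1 z.2)).card = (degs P (a, l)).card := by
      intro z hz
      rw [(mem_filter.1 hz).2]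
    rw [sum_congr rfl h4, sum_const, smul_eq_mul, pow_two]
    rfl
  calc ∑ l ∈ dists P, un P l ^ 2 ≤ ∑ l ∈ dists P, P.card * ∑ a ∈ P, (degs P (a, l)).card ^ 2 :=
        sum_le_sum h2
    _ = P.card * ∑ l ∈ dists P, ∑ a ∈ P, (degs P (a, l)).card ^ 2 := by rw [mul_sum]
    _ = P.card * ∑ z ∈ P.offDiag, (degs P (z.1, dist z.1 z.2)).card := by rw [h3]
    _ ≤ P.card * (P.card * (P.card - 1) * (2 + 1)) := Nat.mul_le_mul_left _ (iso_count hP)
    _ ≤ P.card * (P.card * P.card * 3) := by
        apply Nat.mul_le_mul_left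
        apply Nat.mul_le_mul_right
        exact Nat.mul_le_mul_left _ (Nat.sub_le _ _)
    _ = 3 * P.card ^ 3 := by ring

theorem sum_ex_chords {P : Finset Plane} (hP : LineBound P 2) :
    (∑ z ∈ P.offDiag, ex P (dist z.1 z.2)) ^ 2 ≤ 3 * P.card ^ 4 * ∑ l ∈ dists P, ex P l := by
  classical
  have h1 : ∑ z ∈ P.offDiag, ex P (dist z.1 z.2) = ∑ l ∈ dists P, un P l * ex P l := by
    rw [← sum_fiberwise_of_maps_to (s := P.offDiag) (t := dists P)
      (g := fun z => dist z.1 z.2) (fun z hz => mem_image.2 ⟨z, hz, rfl⟩)]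
    apply sum_congr rfl
    intro l _
    have h4 : ∀ z ∈ P.offDiag.filter (fun z => dist z.1 z.2 = l),
        ex P (dist z.1 z.2) = ex P l := by
      intro z hz
      rw [(mem_filter.1 hz).2]
    rw [sum_congr rfl h4, sum_const, smul_eq_mul]
    rfl
  have h2 : ∑ l ∈ dists P, ex P l ^ 2 ≤ P.card * ∑ l ∈ dists P, ex P l := by
    rw [mul_sum]
    apply sum_le_sum
    intro l _
    rw [pow_two]
    exact Nat.mul_le_mul_right _ (ex_le P l)
  rw [h1]
  calc (∑ l ∈ dists P, un P l * ex P l) ^ 2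
      ≤ (∑ l ∈ dists P, un P l ^ 2) * ∑ l ∈ dists P, ex P l ^ 2 := sum_mul_sq_le_sq_mul_sq _ _ _
    _ ≤ (3 * P.card ^ 3) * (P.card * ∑ l ∈ dists P, ex P l) := Nat.mul_le_mul (sum_un_sq hP) h2
    _ = _ := by ring

theorem sum_symm {P : Finset Plane} (hP : ConvPos P) :
    ∑ z ∈ P.offDiag, (symm P (z.1 + z.2)).card ≤ 3 * P.card ^ 2 := by
  classical
  set C := P.offDiag.image (fun z => z.1 + z.2) with hC
  have h1 : ∑ z ∈ P.offDiag, (symm P (z.1 + z.2)).card ≤ ∑ c ∈ C, (symm P c).card ^ 2 := by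
    rw [← sum_fiberwise_of_maps_to (s := P.offDiag) (t := C)
      (g := fun z => z.1 + z.2) (fun z hz => mem_image.2 ⟨z, hz, rfl⟩)]
    apply sum_le_sum
    intro c _
    have h4 : ∀ z ∈ P.offDiag.filter (fun z => z.1 + z.2 = c),
        (symm P (z.1 + z.2)).card = (symm P c).card := by
      intro z hz
      rw [(mem_filter.1 hz).2]
    rw [sum_congr rfl h4, sum_const, smul_eq_mul, pow_two]
    apply Nat.mul_le_mul_right
    apply card_le_card_of_injOn (fun z => z.1)
    · intro z hz
      obtain ⟨h5, h6⟩ := mem_filter.1 (mem_coe.1 hz)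
      obtain ⟨z1, z2, _⟩ := mem_offDiag.1 h5
      unfold symm
      refine mem_coe.2 (mem_filter.2 ⟨z1, ?_⟩)
      rw [← h6]
      have : z.1 + z.2 - z.1 = z.2 := add_sub_cancel_left _ _
      rw [this]; exact z2
    · intro z hz w hw h
      obtain ⟨_, h6⟩ := mem_filter.1 (mem_coe.1 hz)
      obtain ⟨_, h7⟩ := mem_filter.1 (mem_coe.1 hw)
      have h : z.1 = w.1 := h
      rw [← h7, h] at h6
      exact Prod.ext h (add_left_cancel h6)
  have h2 : ∑ c ∈ C, (symm P c).card ≤ P.card ^ 2 := by
    have h3 : ∑ c ∈ C, (symm P c).card = ∑ p ∈ P, (C.filter (fun c => c - p ∈ P)).card :=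
      sum_card_bipartiteAbove_eq_sum_card_bipartiteBelow _
    rw [h3]
    calc ∑ p ∈ P, (C.filter (fun c => c - p ∈ P)).card ≤ ∑ _p ∈ P, P.card := by
          apply sum_le_sum
          intro p _
          apply card_le_card_of_injOn (fun c => c - p)
          · intro c hc
            exact mem_coe.2 (mem_filter.1 (mem_coe.1 hc)).2
          · intro c _ c' _ h
            simpa using h
      _ = P.card ^ 2 := by rw [sum_const, smul_eq_mul, pow_two]
  have h3 := second_moment2 hP C
  have h4 : ∑ c ∈ C, (symm P c).card ^ 2 ≤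
      ∑ c ∈ C, ((symm P c).card * ((symm P c).card - 1) + (symm P c).card) := by
    apply sum_le_sum
    intro c _
    rcases Nat.eq_zero_or_pos (symm P c).card with h | h
    · rw [h]; simp
    · obtain ⟨t, ht⟩ : ∃ t, (symm P c).card = t + 1 := ⟨(symm P c).card - 1, by omega⟩
      rw [ht]
      have : t + 1 - 1 = t := by omega
      rw [this]
      nlinarith
  rw [sum_add_distrib] at h4
  omega

/-- **The total deficiency.** -/
theorem total_defi {P : Finset Plane} (hP : ConvPos P) :
    ∑ z ∈ P.offDiag, defi P z.1 z.2 ≤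
      ∑ z ∈ P.offDiag, ex P (dist z.1 z.2) + 7 * P.card ^ 2 := by
  classical
  have h1 : ∀ z ∈ P.offDiag, defi P z.1 z.2 ≤ ex P (dist z.1 z.2) +
      2 * (twins P z.1 z.2).card + (symm P (z.1 + z.2)).card := by
    intro z hz
    obtain ⟨z1, z2, z3⟩ := mem_offDiag.1 hz
    have h2 := defi_le z1 z2 z3
    have h3 := over_ex z1 z2 z3
    have h4 := big_le_twins2 (P := P) z3
    have h5 : 2 ≤ P.card := by
      have h6 : ({z.1, z.2} : Finset Plane) ⊆ P := by
        intro x hx
        rcases mem_insert.1 hx with rfl | hx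
        · exact z1
        · rw [mem_singleton] at hx
          rw [hx]; exact z2
      have := card_le_card h6
      rwa [card_pair z3] at this
    omega
  have h2 := sum_le_sum h1
  rw [sum_add_distrib, sum_add_distrib, ← mul_sum] at h2
  have h3 := sum_all_twins (lineBound_two hP)
  have h4 := sum_symm hP
  have h5 : P.card * (P.card - 1) * (2 * (2 - 1)) ≤ 2 * P.card ^ 2 := by
    have : P.card * (P.card - 1) ≤ P.card * P.card := Nat.mul_le_mul_left _ (Nat.sub_le _ _)
    nlinarith
  omega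

end Pool.Agent.ConvTri
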