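import Pool.Agent.Work.MP_dc37f8_co.Fibre

/-!
# Many chords with the same midpoint
-/

namespace Pool.Agent.ConvTri

open Finset

/-- all classes of triangles -/
noncomputable def TC (P : Finset Plane) : Finset (Multiset ℝ) := by
  classical
  exact ((P ×ˢ P ×ˢ P).filter (fun z => z.1 ≠ z.2.1 ∧ z.2.1 ≠ z.2.2 ∧ z.1 ≠ z.2.2)).image
    (fun z => cls z.1 z.2.1 z.2.2)

theorem cls_mem_TC {P : Finset Plane} {a b c : Plane} (ha : a ∈ P) (hb : b ∈ P) (hc : c ∈ P)
    (hab : a ≠ b) (hbc : b ≠ c) (hac : a ≠ c) : cls a b c ∈ TC P := by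
  classical
  unfold TC
  exact mem_image.2 ⟨(a, b, c), mem_filter.2 ⟨mem_product.2 ⟨ha, mem_product.2 ⟨hb, hc⟩⟩,
    hab, hbc, hac⟩, rfl⟩

theorem card_cls (a b c : Plane) : Multiset.card (cls a b c) = 3 := by
  unfold cls; simp

theorem card_of_mem_TC {P : Finset Plane} {m : Multiset ℝ} (hm : m ∈ TC P) :
    Multiset.card m = 3 := by
  classical
  unfold TC at hm
  obtain ⟨z, _, rfl⟩ := mem_image.1 hm
  exact card_cls _ _ _

theorem toFinset_card_le {P : Finset Plane} {m : Multiset ℝ} (hm : m ∈ TC P) :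
    m.toFinset.card ≤ 3 := by
  rw [← card_of_mem_TC hm]
  exact Multiset.toFinset_card_le m

/-- A choice of a pair of points of `P` for every element of a set of distances. -/
structure Chords (P : Finset Plane) where
  D : Finset ℝ
  α : ℝ → Plane
  β : ℝ → Plane
  hα : ∀ l ∈ D, α l ∈ P
  hβ : ∀ l ∈ D, β l ∈ P
  hne : ∀ l ∈ D, α l ≠ β l
  hd : ∀ l ∈ D, dist (α l) (β l) = l

variable {P : Finset Plane}

theorem sum_over (K : Chords P) :
    ∑ l ∈ K.D, (overC P (K.α l) (K.β l)).card ≤ 3 * (TC P).card := by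
  classical
  have h1 : ∀ l ∈ K.D, (overC P (K.α l) (K.β l)).card ≤
      ((TC P).filter (fun m => l ∈ m)).card := by
    intro l hl
    apply card_le_card
    intro m hm
    obtain ⟨p, hp, rfl⟩ := mem_image.1 hm
    obtain ⟨p1, p2, p3⟩ := mem_third hp
    refine mem_filter.2 ⟨cls_mem_TC (K.hα l hl) (K.hβ l hl) p1 (K.hne l hl) p3.symm p2.symm, ?_⟩
    unfold cls
    rw [K.hd l hl]
    simp
  calc ∑ l ∈ K.D, (overC P (K.α l) (K.β l)).card
      ≤ ∑ l ∈ K.D, ((TC P).filter (fun m => l ∈ m)).card := sum_le_sum h1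
    _ = ∑ m ∈ TC P, (K.D.filter (fun l => l ∈ m)).card :=
        sum_card_bipartiteAbove_eq_sum_card_bipartiteBelow _
    _ ≤ ∑ _m ∈ TC P, 3 := by
        apply sum_le_sum
        intro m hm
        refine le_trans (card_le_card ?_) (toFinset_card_le hm)
        intro l hl
        rw [Multiset.mem_toFinset]
        exact (mem_filter.1 hl).2
    _ = 3 * (TC P).card := by rw [sum_const, smul_eq_mul, mul_comm]

theorem bisector {a x y : Plane} (h : dist a x = dist a y) :
    2 * X (y - x) a = (y 0 ^ 2 + y 1 ^ 2) - (x 0 ^ 2 + x 1 ^ 2) := by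
  have e1 : dist a x ^ 2 = dist a y ^ 2 := by rw [h]
  rw [dist_sq, dist_sq] at e1
  unfold X
  simp only [PiLp.sub_apply]
  linarith

theorem bisector' {a x y : Plane}
    (h : 2 * X (y - x) a = (y 0 ^ 2 + y 1 ^ 2) - (x 0 ^ 2 + x 1 ^ 2)) : dist a x = dist a y := by
  have e1 : dist a x ^ 2 = dist a y ^ 2 := by
    rw [dist_sq, dist_sq]
    unfold X at h
    simp only [PiLp.sub_apply] at h
    linarith
  exact (sq_eq_sq₀ dist_nonneg dist_nonneg).1 e1

theorem X_add (d z w : Plane) : X d (z + w) = X d z + X d w := by unfold X; simp; ring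

theorem X_smul (d z : Plane) (t : ℝ) : X d (t • z) = t * X d z := by unfold X; simp; ring

/-- pairs of points of `P` at the same distance from `m` -/
noncomputable def conc (P : Finset Plane) (m : Plane) : Finset (Plane × Plane) :=
  P.offDiag.filter (fun z => dist m z.1 = dist m z.2)

theorem sum_twins (hP : ConvPos P) (K : Chords P) (c : Plane) (J : Finset ℝ) (hJ : J ⊆ K.D)
    (hJc : ∀ l ∈ J, K.α l + K.β l = c) :
    ∑ l ∈ J, (twins P (K.α l) (K.β l)).card ≤ (conc P ((1 / 2 : ℝ) • c)).card := by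
  classical
  have hline : ∀ l ∈ J, ∀ z ∈ twins P (K.α l) (K.β l),
      X (z.2 - z.1) (K.α l) = X (z.2 - z.1) (K.β l) ∧
      2 * X (z.2 - z.1) (K.α l) = (z.2 0 ^ 2 + z.2 1 ^ 2) - (z.1 0 ^ 2 + z.1 1 ^ 2) := by
    intro l _ z hz
    obtain ⟨_, h1, h2⟩ := mem_filter.1 hz
    have e1 := bisector h1
    have e2 := bisector h2
    exact ⟨by linarith, e1⟩
  rw [← card_biUnion]
  · apply card_le_card
    intro z hz
    obtain ⟨l, hl, hzl⟩ := mem_biUnion.1 hz
    obtain ⟨e1, e2⟩ := hline l hl z hzl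
    refine mem_filter.2 ⟨(mem_filter.1 hzl).1, ?_⟩
    apply bisector'
    rw [← hJc l hl, X_smul, X_add, ← e1]
    linarith
  · intro l hl l' hl' hne
    rw [Function.onFun, disjoint_left]
    intro z hz hz'
    obtain ⟨e1, e2⟩ := hline l hl z hz
    obtain ⟨e3, e4⟩ := hline l' hl' z hz'
    obtain ⟨z1, z2, z3⟩ := mem_offDiag.1 (mem_filter.1 hz).1
    have hd0 : z.2 - z.1 ≠ 0 := sub_ne_zero.2 z3.symm
    have hs : K.β l = c - K.α l := by rw [← hJc l hl]; abel
    have hs' : K.β l' = c - K.α l' := by rw [← hJc l' hl']; abel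
    have hD := K.hd l (hJ hl)
    have hD' := K.hd l' (hJ hl')
    by_cases h1 : K.α l' = K.α l
    · apply hne
      rw [← hD, ← hD', hs, hs', h1]
    · by_cases h2 : K.α l' = K.β l
      · apply hne
        have h3 : K.β l' = K.α l := by rw [hs', h2, hs]; abel
        rw [← hD, ← hD', h3, h2, dist_comm]
      · exact no_three hP hd0 (K.hα l (hJ hl)) (K.hβ l (hJ hl)) (K.hα l' (hJ hl'))
          (K.hne l (hJ hl)) (Ne.symm h2) (Ne.symm h1) e1 (by linarith)

/-- points of `P` on a circle about `m` -/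
noncomputable def circ (P : Finset Plane) (m : Plane) (r : ℝ) : Finset Plane :=
  P.filter (fun p => dist m p = r)

theorem conc_card (m : Plane) (hne : P.Nonempty) :
    ∃ p0 ∈ P, (conc P m).card ≤ P.card * ((circ P m (dist m p0)).card - 1) ∧
      1 ≤ (circ P m (dist m p0)).card := by
  classical
  obtain ⟨p0, hp0, hmax⟩ := exists_max_image P (fun p => (circ P m (dist m p)).card) hne
  refine ⟨p0, hp0, ?_, ?_⟩
  · have h1 : (conc P m).card = ∑ p ∈ P, ((conc P m).filter (fun z => z.1 = p)).card := by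
      apply card_eq_sum_card_fiberwise
      intro z hz
      exact mem_coe.2 (mem_offDiag.1 (mem_filter.1 (mem_coe.1 hz)).1).1
    rw [h1]
    calc ∑ p ∈ P, ((conc P m).filter (fun z => z.1 = p)).card
        ≤ ∑ _p ∈ P, ((circ P m (dist m p0)).card - 1) := by
          apply sum_le_sum
          intro p hp
          have h2 : ((conc P m).filter (fun z => z.1 = p)).card ≤
              ((circ P m (dist m p)).erase p).card := by
            refine card_le_card_of_injOn (fun z => z.2) ?_ ?_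
            · intro z hz
              obtain ⟨hz1, hz2⟩ := mem_filter.1 (mem_coe.1 hz)
              obtain ⟨hz3, hz4⟩ := mem_filter.1 hz1
              obtain ⟨z1, z2, z3⟩ := mem_offDiag.1 hz3
              refine mem_coe.2 (mem_erase.2 ⟨?_, mem_filter.2 ⟨z2, ?_⟩⟩)
              · intro h
                apply z3
                rw [hz2]
                exact h.symm
              · rw [← hz2]; exact hz4.symm
            · intro z hz z' hz' h
              have hz2 := (mem_filter.1 (mem_coe.1 hz)).2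
              have hz2' := (mem_filter.1 (mem_coe.1 hz')).2
              exact Prod.ext (hz2.trans hz2'.symm) h
          refine h2.trans ?_
          have hpc : p ∈ circ P m (dist m p) := mem_filter.2 ⟨hp, rfl⟩
          rw [card_erase_of_mem hpc]
          have := hmax p hp
          omega
      _ = P.card * ((circ P m (dist m p0)).card - 1) := by
          rw [sum_const, smul_eq_mul]
  · exact card_pos.2 ⟨p0, mem_filter.2 ⟨hp0, rfl⟩⟩

theorem three_roots {A B C t1 t2 t3 : ℝ} (h1 : A * t1 ^ 2 + B * t1 + C = 0)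
    (h2 : A * t2 ^ 2 + B * t2 + C = 0) (h3 : A * t3 ^ 2 + B * t3 + C = 0)
    (h12 : t1 ≠ t2) (h13 : t1 ≠ t3) (h23 : t2 ≠ t3) : A = 0 := by
  have e1 : (t1 - t2) * (A * (t1 + t2) + B) = 0 := by linear_combination h1 - h2
  have e2 : (t1 - t3) * (A * (t1 + t3) + B) = 0 := by linear_combination h1 - h3
  have f1 := (mul_eq_zero.1 e1).resolve_left (sub_ne_zero.2 h12)
  have f2 := (mul_eq_zero.1 e2).resolve_left (sub_ne_zero.2 h13)
  have : A * (t2 - t3) = 0 := by linear_combination f1 - f2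
  exact (mul_eq_zero.1 this).resolve_right (sub_ne_zero.2 h23)

/-- The Gram determinant of three vectors of the plane vanishes. -/
theorem gram (m x y a : Plane) :
    (-(dist x y ^ 2) / 4) * (dist m a ^ 2) ^ 2 +
    ((dist m x ^ 2) * (dist m y ^ 2) - ((dist m x ^ 2 + dist m y ^ 2 - dist x y ^ 2) / 2) ^ 2 +
      ((dist m x ^ 2 + dist m y ^ 2 - dist x y ^ 2) / 4) *
        ((dist m x ^ 2 - dist a x ^ 2) + (dist m y ^ 2 - dist a y ^ 2)) -
      (dist m y ^ 2 / 2) * (dist m x ^ 2 - dist a x ^ 2) -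
      (dist m x ^ 2 / 2) * (dist m y ^ 2 - dist a y ^ 2)) * (dist m a ^ 2) +
    (((dist m x ^ 2 + dist m y ^ 2 - dist x y ^ 2) / 4) *
        ((dist m x ^ 2 - dist a x ^ 2) * (dist m y ^ 2 - dist a y ^ 2)) -
      (dist m y ^ 2 / 4) * (dist m x ^ 2 - dist a x ^ 2) ^ 2 -
      (dist m x ^ 2 / 4) * (dist m y ^ 2 - dist a y ^ 2) ^ 2) = 0 := by
  simp only [dist_sq]
  ring

theorem fix_le_two {m a : Plane} (hma : m ≠ a) (r u : ℝ) :
    ((circ P m r).filter (fun p => dist a p = u)).card ≤ 2 := by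
  classical
  by_contra hcon
  push Not at hcon
  obtain ⟨x, hx, y, hy, z, hz, h1, h2, h3⟩ := two_lt_card.1 hcon
  obtain ⟨x0, x2⟩ := mem_filter.1 hx
  obtain ⟨y0, y2⟩ := mem_filter.1 hy
  obtain ⟨z0, z2⟩ := mem_filter.1 hz
  have x1 := (mem_filter.1 x0).2
  have y1 := (mem_filter.1 y0).2
  have z1 := (mem_filter.1 z0).2
  rcases two_circles hma (x1.trans y1.symm) (y1.trans z1.symm) (x2.trans y2.symm)
    (y2.trans z2.symm) with h | h | h
  · exact h1 h
  · exact h3 h
  · exact h2 h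

theorem cubic (K : Chords P) (c : Plane) (J : Finset ℝ) (hJ : J ⊆ K.D)
    (hJc : ∀ l ∈ J, K.α l + K.β l = c) (r : ℝ) :
    (J.card - 1) * ((circ P ((1 / 2 : ℝ) • c) r).card *
      ((circ P ((1 / 2 : ℝ) • c) r).card - 1)) ≤ 216 * (TC P).card := by
  classical
  set m : Plane := (1 / 2 : ℝ) • c with hm
  set S := circ P m r with hS
  have hrad : ∀ l ∈ J, dist m (K.α l) = l / 2 := by
    intro l hl
    have h1 : m - K.α l = (1 / 2 : ℝ) • (K.β l - K.α l) := by
      rw [hm, ← hJc l hl]; module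
    rw [dist_eq_norm, h1, norm_smul, ← dist_eq_norm, dist_comm, K.hd l (hJ hl)]
    simp; ring
  have hlpos : ∀ l ∈ J, 0 < l := by
    intro l hl
    rw [← K.hd l (hJ hl)]
    exact dist_pos.2 (K.hne l (hJ hl))
  set J' := J.filter (fun l => l / 2 ≠ r) with hJ'
  have hJ'card : J.card - 1 ≤ J'.card := by
    have h1 : J ⊆ J' ∪ {2 * r} := by
      intro l hl
      by_cases h : l / 2 = r
      · apply mem_union_right
        rw [mem_singleton]; linarith
      · exact mem_union_left _ (mem_filter.2 ⟨hl, h⟩)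
    have h2 := (card_le_card h1).trans (card_union_le _ _)
    rw [card_singleton] at h2
    omega
  -- the map to classes
  set g : ℝ × (Plane × Plane) → Multiset ℝ := fun z => cls (K.α z.1) z.2.1 z.2.2 with hg
  set Z : Finset (ℝ × (Plane × Plane)) := J' ×ˢ S.offDiag with hZ
  have hZ1 : ∀ z ∈ Z, z.1 ∈ J ∧ z.1 / 2 ≠ r ∧ z.2.1 ∈ S ∧ z.2.2 ∈ S ∧ z.2.1 ≠ z.2.2 := by
    intro z hz
    obtain ⟨h1, h2⟩ := mem_product.1 hz
    obtain ⟨h3, h4⟩ := mem_filter.1 h1
    obtain ⟨h5, h6, h7⟩ := mem_offDiag.1 h2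
    exact ⟨h3, h4, h5, h6, h7⟩
  have himg : ∀ z ∈ Z, g z ∈ TC P := by
    intro z hz
    obtain ⟨h1, h2, h3, h4, h5⟩ := hZ1 z hz
    have k1 := (mem_filter.1 h3).2
    have k2 := (mem_filter.1 h4).2
    refine cls_mem_TC (K.hα _ (hJ h1)) (mem_filter.1 h3).1 (mem_filter.1 h4).1 ?_ h5 ?_
    · intro h
      apply h2
      rw [← hrad _ h1, h, k1]
    · intro h
      apply h2
      rw [← hrad _ h1, h, k2]
  -- at most eight triples with given ordered distances
  have h8 : ∀ u v w : ℝ, (Z.filter (fun z => dist (K.α z.1) z.2.1 = u ∧ dist z.2.1 z.2.2 = v ∧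
      dist (K.α z.1) z.2.2 = w)).card ≤ 4 * 2 := by
    intro u v w
    set W := Z.filter (fun z => dist (K.α z.1) z.2.1 = u ∧ dist z.2.1 z.2.2 = v ∧
      dist (K.α z.1) z.2.2 = w) with hW
    have hfst : (W.image Prod.fst).card ≤ 2 := by
      by_contra hcon
      push Not at hcon
      obtain ⟨l1, hl1, l2, hl2, l3, hl3, h12, h13, h23⟩ := two_lt_card.1 hcon
      have key : ∀ l ∈ W.image Prod.fst, l ∈ J ∧ v ≠ 0 ∧
          (-(v ^ 2) / 4) * ((l / 2) ^ 2) ^ 2 +
          ((r ^ 2) * (r ^ 2) - ((r ^ 2 + r ^ 2 - v ^ 2) / 2) ^ 2 +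
            ((r ^ 2 + r ^ 2 - v ^ 2) / 4) * ((r ^ 2 - u ^ 2) + (r ^ 2 - w ^ 2)) -
            (r ^ 2 / 2) * (r ^ 2 - u ^ 2) - (r ^ 2 / 2) * (r ^ 2 - w ^ 2)) * ((l / 2) ^ 2) +
          (((r ^ 2 + r ^ 2 - v ^ 2) / 4) * ((r ^ 2 - u ^ 2) * (r ^ 2 - w ^ 2)) -
            (r ^ 2 / 4) * (r ^ 2 - u ^ 2) ^ 2 - (r ^ 2 / 4) * (r ^ 2 - w ^ 2) ^ 2) = 0 := by
        intro l hl
        obtain ⟨z, hz, rfl⟩ := mem_image.1 hl
        obtain ⟨hz1, hz2, hz3, hz4⟩ := mem_filter.1 hz
        obtain ⟨h1, h2, h3, h4, h5⟩ := hZ1 z hz1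
        refine ⟨h1, ?_, ?_⟩
        · rw [← hz3]
          exact (dist_pos.2 h5).ne'
        · have := gram m z.2.1 z.2.2 (K.α z.1)
          rw [hz2, hz3, hz4, (mem_filter.1 h3).2, (mem_filter.1 h4).2, hrad _ h1] at this
          exact this
      obtain ⟨k1, hv, e1⟩ := key l1 hl1
      obtain ⟨k2, _, e2⟩ := key l2 hl2
      obtain ⟨k3, _, e3⟩ := key l3 hl3
      have hsq : ∀ l ∈ J, ∀ l' ∈ J, l ≠ l' → (l / 2) ^ 2 ≠ (l' / 2) ^ 2 := by
        intro l hl l' hl' hne h
        apply hne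
        have p1 := hlpos l hl
        have p2 := hlpos l' hl'
        have := (sq_eq_sq₀ (by positivity) (by positivity)).1 h
        linarith
      have h0 := three_roots e1 e2 e3 (hsq l1 k1 l2 k2 h12) (hsq l1 k1 l3 k3 h13)
        (hsq l2 k2 l3 k3 h23)
      have : v ^ 2 = 0 := by linarith
      exact hv (pow_eq_zero_iff (two_ne_zero)|>.1 this)
    refine (card_le_mul_card_image (f := Prod.fst) W 4 ?_).trans (Nat.mul_le_mul_left 4 hfst)
    intro l hl
    obtain ⟨z0, hz0, hz0l⟩ := mem_image.1 hl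
    have hlJ : l ∈ J := by
      rw [← hz0l]
      exact (hZ1 z0 (mem_filter.1 hz0).1).1
    have hmα : m ≠ K.α l := by
      intro h
      have := hrad l hlJ
      rw [← h, dist_self] at this
      have := hlpos l hlJ
      linarith
    have h1 : (W.filter (fun z => z.1 = l)).card ≤
        ((S.filter (fun p => dist (K.α l) p = u)) ×ˢ
          (S.filter (fun p => dist (K.α l) p = w))).card := by
      refine card_le_card_of_injOn (fun z => z.2) ?_ ?_
      · intro z hz
        obtain ⟨hz1, hz2⟩ := mem_filter.1 (mem_coe.1 hz)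
        obtain ⟨hz3, hz4, hz5, hz6⟩ := mem_filter.1 hz1
        obtain ⟨h1, h2, h3, h4, h5⟩ := hZ1 z hz3
        rw [hz2] at hz4 hz6
        exact mem_coe.2 (mem_product.2 ⟨mem_filter.2 ⟨h3, hz4⟩, mem_filter.2 ⟨h4, hz6⟩⟩)
      · intro z hz z' hz' h
        have hz2 := (mem_filter.1 (mem_coe.1 hz)).2
        have hz2' := (mem_filter.1 (mem_coe.1 hz')).2
        exact Prod.ext (hz2.trans hz2'.symm) h
    rw [card_product] at h1
    have e1 := fix_le_two (P := P) hmα r u
    have e2 := fix_le_two (P := P) hmα r w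
    have : (S.filter (fun p => dist (K.α l) p = u)).card *
        (S.filter (fun p => dist (K.α l) p = w)).card ≤ 2 * 2 := Nat.mul_le_mul e1 e2
    omega
  -- at most 216 triples in a class
  have h216 : ∀ μ ∈ Z.image g, (Z.filter (fun z => g z = μ)).card ≤ 216 := by
    intro μ hμ
    obtain ⟨z0, hz0, rfl⟩ := mem_image.1 hμ
    have hμ3 : (g z0).toFinset.card ≤ 3 := toFinset_card_le (himg z0 hz0)
    set V := Z.filter (fun z => g z = g z0) with hV
    set h : ℝ × (Plane × Plane) → ℝ × ℝ × ℝ := fun z =>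
      (dist (K.α z.1) z.2.1, dist z.2.1 z.2.2, dist (K.α z.1) z.2.2) with hh
    have h27 : (V.image h).card ≤ 27 := by
      have : V.image h ⊆ (g z0).toFinset ×ˢ (g z0).toFinset ×ˢ (g z0).toFinset := by
        intro t ht
        obtain ⟨z, hz, rfl⟩ := mem_image.1 ht
        have hgz := (mem_filter.1 hz).2
        rw [← hgz]
        simp only [hh, mem_product, Multiset.mem_toFinset, hg, cls]
        simp
      have h2 := card_le_card this
      rw [card_product, card_product] at h2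
      calc _ ≤ _ := h2
        _ ≤ 3 * (3 * 3) := Nat.mul_le_mul hμ3 (Nat.mul_le_mul hμ3 hμ3)
        _ = 27 := by norm_num
    have h3 := card_le_mul_card_image (f := h) V 8 (by
      intro t _
      refine le_trans (card_le_card ?_) (h8 t.1 t.2.1 t.2.2)
      intro z hz
      obtain ⟨hz1, hz2⟩ := mem_filter.1 hz
      refine mem_filter.2 ⟨(mem_filter.1 hz1).1, ?_⟩
      rw [← hz2]
      exact ⟨rfl, rfl, rfl⟩)
    calc V.card ≤ 8 * (V.image h).card := h3
      _ ≤ 8 * 27 := Nat.mul_le_mul_left 8 h27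
      _ = 216 := by norm_num
  have hfin := card_le_mul_card_image (f := g) Z 216 h216
  have himg2 : (Z.image g).card ≤ (TC P).card := by
    apply card_le_card
    intro μ hμ
    obtain ⟨z, hz, rfl⟩ := mem_image.1 hμ
    exact himg z hz
  have hZcard : Z.card = J'.card * (S.card * S.card - S.card) := by
    rw [hZ, card_product, offDiag_card]
  have hSS : S.card * S.card - S.card = S.card * (S.card - 1) := by
    rcases Nat.eq_zero_or_pos S.card with h0 | h0
    · rw [h0]
    · obtain ⟨k, hk⟩ : ∃ k, S.card = k + 1 := ⟨S.card - 1, by omega⟩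
      rw [hk]
      have : (k + 1) * (k + 1) = (k + 1) * k + (k + 1) := by ring
      rw [this]
      simp
  calc (J.card - 1) * (S.card * (S.card - 1)) ≤ J'.card * (S.card * (S.card - 1)) :=
        Nat.mul_le_mul_right _ hJ'card
    _ = Z.card := by rw [hZcard, hSS]
    _ ≤ 216 * (Z.image g).card := hfin
    _ ≤ 216 * (TC P).card := Nat.mul_le_mul_left _ himg2

end Pool.Agent.ConvTri
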