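import Mathlib

/-!
# Sets of small doubling without three term progressions are bounded
-/

namespace Pool.Agent.ConvTri

open Finset
open scoped Pointwise

/-- Triangle removal: a set with small doubling and without arithmetic progressions of length
three is bounded. -/
theorem small_of_no3ap {G : Type*} [AddCommGroup G] [DecidableEq G] (B : Finset G) {K : ℝ}
    (hK : 1 ≤ K) (hne : B.Nonempty)
    (h3 : ∀ a ∈ B, ∀ b ∈ B, ∀ c ∈ B, a + c = b + b → a = b)
    (h1 : ((B - B).card : ℝ) ≤ K * B.card) (h2 : ((B + B - B).card : ℝ) ≤ K * B.card) :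
    SimpleGraph.triangleRemovalBound (1 / (1 + 2 * K) ^ 2) * (B.card : ℝ) ≤ 1 := by
  classical
  set m : ℝ := (B.card : ℝ) with hm
  have hm0 : 0 < m := by rw [hm]; exact_mod_cast card_pos.2 hne
  set f : {x // x ∈ B} × {x // x ∈ B} →
      {x // x ∈ B} × {x // x ∈ B - B} × {x // x ∈ B + B - B} := fun z =>
    (z.1, ⟨z.2.1 - z.1.1, sub_mem_sub z.2.2 z.1.2⟩,
      ⟨z.2.1 + z.2.1 - z.1.1, sub_mem_sub (add_mem_add z.2.2 z.2.2) z.1.2⟩) with hf
  have hfinj : Function.Injective f := by
    intro z w h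
    have e1 : z.1 = w.1 :=
      congrArg (fun y : {x // x ∈ B} × {x // x ∈ B - B} × {x // x ∈ B + B - B} => y.1) h
    have e2 : z.2.1 - z.1.1 = w.2.1 - w.1.1 :=
      congrArg (fun y : {x // x ∈ B} × {x // x ∈ B - B} × {x // x ∈ B + B - B} => y.2.1.1) h
    rw [e1] at e2
    exact Prod.ext e1 (Subtype.ext (sub_left_injective e2))
  set t : Finset ({x // x ∈ B} × {x // x ∈ B - B} × {x // x ∈ B + B - B}) :=
    univ.image f with ht
  have htc : (t.card : ℝ) = m ^ 2 := by
    rw [ht, card_image_of_injective _ hfinj, card_univ, Fintype.card_prod, Fintype.card_coe]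
    push_cast
    rw [hm]; ring
  have hmem : ∀ a b c, (a, b, c) ∈ t → ∃ p ∈ B, (b : G) = p - a ∧ (c : G) = p + p - a := by
    intro a b c h
    obtain ⟨z, _, hz⟩ := mem_image.1 h
    have e1 : z.1 = a := congrArg Prod.fst hz
    have e2 : z.2.1 - z.1.1 = b.1 :=
      congrArg (fun y : {x // x ∈ B} × {x // x ∈ B - B} × {x // x ∈ B + B - B} => y.2.1.1) hz
    have e3 : z.2.1 + z.2.1 - z.1.1 = c.1 :=
      congrArg (fun y : {x // x ∈ B} × {x // x ∈ B - B} × {x // x ∈ B + B - B} => y.2.2.1) hz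
    rw [e1] at e2 e3
    exact ⟨z.2.1, z.2.2, e2.symm, e3.symm⟩
  have hED : SimpleGraph.TripartiteFromTriangles.ExplicitDisjoint t := by
    refine ⟨?_, ?_, ?_⟩
    · intro a b c a' h h'
      obtain ⟨p, _, p1, p2⟩ := hmem _ _ _ h
      obtain ⟨q, _, q1, q2⟩ := hmem _ _ _ h'
      have e1 : p = c.1 - b.1 := by rw [p1, p2]; abel
      have e2 : q = c.1 - b.1 := by rw [q1, q2]; abel
      apply Subtype.ext
      have e3 : a.1 = p - b.1 := by rw [p1]; abel
      have e4 : a'.1 = q - b.1 := by rw [q1]; abel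
      rw [e3, e4, e1, e2]
    · intro a b c b' h h'
      obtain ⟨p, _, p1, p2⟩ := hmem _ _ _ h
      obtain ⟨q, _, q1, q2⟩ := hmem _ _ _ h'
      apply Subtype.ext
      -- `b + b` is not enough: use the progression condition
      have e1 : p + p = q + q := by
        have := p2.symm.trans q2
        exact sub_left_injective this
      have e2 := h3 p (by assumption) q (by assumption) p (by assumption) e1
      rw [p1, q1, e2]
    · intro a b c c' h h'
      obtain ⟨p, _, p1, p2⟩ := hmem _ _ _ h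
      obtain ⟨q, _, q1, q2⟩ := hmem _ _ _ h'
      apply Subtype.ext
      have e1 : p = q := sub_left_injective (p1.symm.trans q1)
      rw [p2, q2, e1]
  have hNA : SimpleGraph.TripartiteFromTriangles.NoAccidental t := by
    refine ⟨?_⟩
    intro a a' b b' c c' h h' h''
    obtain ⟨p, hp, p1, p2⟩ := hmem _ _ _ h
    obtain ⟨q, hq, q1, q2⟩ := hmem _ _ _ h'
    obtain ⟨r, hr, r1, r2⟩ := hmem _ _ _ h''
    left
    apply Subtype.ext
    -- `p = c - b`, `2 q = c + a`, `r = b + a`
    have e1 : p + r = q + q := by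
      have f1 : p = c.1 - b.1 := by rw [p1, p2]; abel
      have f2 : q + q = c.1 + a.1 := by rw [q2]; abel
      have f3 : r = b.1 + a.1 := by rw [r1]; abel
      rw [f1, f2, f3]; abel
    have e2 : p = q := h3 p hp q hq r hr e1
    have e3 : r = q := h3 r hr q hq p hp (by rw [add_comm]; exact e1)
    have e4 : a.1 = r - b.1 := by rw [r1]; abel
    have e5 : a'.1 = p - b.1 := by rw [p1]; abel
    rw [e4, e5, e2, e3]
  set N : ℕ := Fintype.card {x // x ∈ B} + Fintype.card {x // x ∈ B - B} +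
    Fintype.card {x // x ∈ B + B - B} with hN
  have hNle : (N : ℝ) ≤ (1 + 2 * K) * m := by
    rw [hN, Fintype.card_coe, Fintype.card_coe, Fintype.card_coe]
    push_cast
    rw [← hm]
    linarith
  have hNge : m ≤ (N : ℝ) := by
    rw [hN, Fintype.card_coe, Fintype.card_coe, Fintype.card_coe]
    push_cast
    rw [← hm]
    have e1 : (0 : ℝ) ≤ ((B - B).card : ℝ) := Nat.cast_nonneg _
    have e2 : (0 : ℝ) ≤ ((B + B - B).card : ℝ) := Nat.cast_nonneg _
    linarith
  have hfar : (SimpleGraph.TripartiteFromTriangles.graph t).FarFromTriangleFree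
      (1 / (1 + 2 * K) ^ 2) := by
    apply SimpleGraph.TripartiteFromTriangles.farFromTriangleFree
    rw [← hN, htc, div_mul_eq_mul_div, one_mul, div_le_iff₀ (by positivity)]
    push_cast
    calc (N : ℝ) ^ 2 ≤ ((1 + 2 * K) * m) ^ 2 := pow_le_pow_left₀ (Nat.cast_nonneg _) hNle 2
      _ = m ^ 2 * (1 + 2 * K) ^ 2 := by ring
  have hrem := hfar.le_card_cliqueFinset
  rw [SimpleGraph.TripartiteFromTriangles.card_triangles] at hrem
  have hcard : (Fintype.card ({x // x ∈ B} ⊕ {x // x ∈ B - B} ⊕ {x // x ∈ B + B - B}) : ℝ) =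
      (N : ℝ) := by
    rw [Fintype.card_sum, Fintype.card_sum, hN]
    push_cast
    ring
  rw [hcard, htc] at hrem
  set c := SimpleGraph.triangleRemovalBound (1 / (1 + 2 * K) ^ 2) with hc
  have hcpos : 0 < c := SimpleGraph.triangleRemovalBound_pos (by positivity)
  have h5 : m ^ 3 ≤ (N : ℝ) ^ 3 := pow_le_pow_left₀ hm0.le hNge 3
  have h6 : m ^ 2 * (c * m) ≤ m ^ 2 * 1 := by
    calc m ^ 2 * (c * m) = c * m ^ 3 := by ring
      _ ≤ c * (N : ℝ) ^ 3 := mul_le_mul_of_nonneg_left h5 hcpos.le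
      _ ≤ m ^ 2 := hrem
      _ = m ^ 2 * 1 := by ring
  exact le_of_mul_le_mul_left h6 (by positivity)

end Pool.Agent.ConvTri
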