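import Pool.Agent.Work.MP_dc37f8_co.Position

/-!
# Translations and central symmetries of a set in strictly convex position
-/

namespace Pool.Agent.ConvTri

open Finset

theorem trans_core {P : Finset Plane} (hP : ConvPos P) {d v : Plane} (hd : d ≠ 0)
    (hXv : X d v = 0) (hYv : 0 < Y d v) {p q r : Plane} (hp : p ∈ P) (hq : q ∈ P) (hr : r ∈ P)
    (hpv : p + v ∈ P) (hqv : q + v ∈ P) (hrv : r + v ∈ P)
    (h1 : X d p < X d q) (h2 : X d q < X d r) : False := by
  have hXa : ∀ z : Plane, X d (z + v) = X d z := by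
    intro z
    have : X d (z + v) = X d z + X d v := by unfold X; simp; ring
    rw [this, hXv, add_zero]
  have hYa : ∀ z : Plane, Y d (z + v) = Y d z + Y d v := by
    intro z; unfold Y; simp; ring
  have hpr : 0 < X d r - X d p := by linarith
  set τ : ℝ := (X d q - X d p) / (X d r - X d p) with hτ
  have hτ0 : 0 ≤ τ := div_nonneg (by linarith) hpr.le
  have hτ1 : 0 ≤ 1 - τ := by
    have : τ ≤ 1 := by rw [hτ, div_le_one hpr]; linarith
    linarith
  have hτm : τ * (X d r - X d p) = X d q - X d p := div_mul_cancel₀ _ hpr.ne'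
  set z : Plane := (1 - τ) • p + τ • r with hz
  have hzX : X d z = X d q := by rw [hz, X_comb]; linarith
  have hzv : z + v = (1 - τ) • (p + v) + τ • (r + v) := by
    rw [hz]; module
  have hne : ∀ a b : Plane, X d a ≠ X d b → a ≠ b := by
    rintro a b h rfl; exact h rfl
  have hv0 : v ≠ 0 := by
    rintro rfl
    unfold Y at hYv
    simp at hYv
  -- membership of `z` and `z + v` in the relevant hulls
  have m1 : z ∈ convexHull ℝ ((P : Set Plane) \ {q}) :=
    convex_convexHull ℝ _ (mem_hull_diff hp (hne _ _ h1.ne)) (mem_hull_diff hr (hne _ _ h2.ne'))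
      hτ1 hτ0 (by ring)
  have m2 : z + v ∈ convexHull ℝ ((P : Set Plane) \ {q}) := by
    rw [hzv]
    exact convex_convexHull ℝ _ (mem_hull_diff hpv (hne _ _ (by rw [hXa]; exact h1.ne)))
      (mem_hull_diff hrv (hne _ _ (by rw [hXa]; exact h2.ne'))) hτ1 hτ0 (by ring)
  have m3 : z ∈ convexHull ℝ ((P : Set Plane) \ {q + v}) :=
    convex_convexHull ℝ _ (mem_hull_diff hp (hne _ _ (by rw [hXa]; exact h1.ne)))
      (mem_hull_diff hr (hne _ _ (by rw [hXa]; exact h2.ne'))) hτ1 hτ0 (by ring)
  have m4 : z + v ∈ convexHull ℝ ((P : Set Plane) \ {q + v}) := by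
    rw [hzv]
    exact convex_convexHull ℝ _ (mem_hull_diff hpv (hne _ _ (by rw [hXa, hXa]; exact h1.ne)))
      (mem_hull_diff hrv (hne _ _ (by rw [hXa, hXa]; exact h2.ne'))) hτ1 hτ0 (by ring)
  rcases le_or_gt (Y d z) (Y d q) with c1 | c1
  · rcases le_or_gt (Y d q) (Y d z + Y d v) with c2 | c2
    · exact not_between hP hd hq m1 m2 hzX (by rw [hXa]; exact hzX) c1 (by rw [hYa]; exact c2)
    · refine not_between hP hd hq m2 (mem_hull_diff hqv (p := q) (by simpa using hv0))
        (by rw [hXa]; exact hzX) (hXa q) (by rw [hYa]; exact c2.le) (by rw [hYa]; linarith)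
  · rcases le_or_gt (Y d z) (Y d q + Y d v) with c2 | c2
    · exact not_between hP hd hqv m3 m4 (by rw [hXa]; exact hzX) (by rw [hXa, hXa]; exact hzX)
        (by rw [hYa]; exact c2) (by rw [hYa, hYa]; linarith)
    · refine not_between hP hd hqv (mem_hull_diff hq (p := q + v) (by simpa using hv0)) m3
        (by rw [hXa]) (by rw [hXa]; exact hzX) (by rw [hYa]; linarith) (by rw [hYa]; exact c2.le)

/-- A nonzero vector occurs at most twice as a difference of points of `P`. -/
theorem trans_le_two {P : Finset Plane} (hP : ConvPos P) {v : Plane} (hv : v ≠ 0) :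
    (P.filter (fun p => p + v ∈ P)).card ≤ 2 := by
  classical
  by_contra hcon
  push Not at hcon
  obtain ⟨p, hp, q, hq, r, hr, hpq, hpr, hqr⟩ := two_lt_card.1 hcon
  obtain ⟨hp, hpv⟩ := mem_filter.1 hp
  obtain ⟨hq, hqv⟩ := mem_filter.1 hq
  obtain ⟨hr, hrv⟩ := mem_filter.1 hr
  set d : Plane := !₂[v 1, -v 0] with hd
  have hd0 : d ≠ 0 := by
    intro h
    apply hv
    have h0 : d 0 = 0 := by rw [h]; rfl
    have h1 : d 1 = 0 := by rw [h]; rfl
    ext i
    fin_cases i
    · simpa [hd] using h1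
    · simpa [hd] using h0
  have hXv : X d v = 0 := by
    unfold X; rw [hd]; simp; ring
  have hYv : Y d v = nsq v := by
    unfold Y nsq; rw [hd]; simp; ring
  have hYpos : 0 < Y d v := by rw [hYv]; exact nsq_pos hv
  have hXa : ∀ z : Plane, X d (z + v) = X d z := by
    intro z
    have : X d (z + v) = X d z + X d v := by unfold X; simp; ring
    rw [this, hXv, add_zero]
  -- the three points have different coordinates
  have hdiff : ∀ p ∈ P, ∀ q ∈ P, p + v ∈ P → q + v ∈ P → p ≠ q → X d p ≠ X d q := by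
    intro p hp q hq hpv hqv hpq h
    have hpp : p ≠ p + v := by simpa using hv
    by_cases h1 : q = p + v
    · have hqq : q ≠ q + v := by simpa using hv
      have hpq2 : p ≠ q + v := by
        rw [h1]
        intro h3
        have h4 : v + v = 0 := by
          have : p + (v + v) = p + 0 := by rw [← add_assoc, ← h3, add_zero]
          exact add_left_cancel this
        apply hv
        have : (2 : ℝ) • v = 0 := by rw [two_smul]; exact h4
        exact (smul_eq_zero.1 this).resolve_left two_ne_zero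
      exact no_three hP hd0 hp hq hqv hpq hqq hpq2 h (by rw [hXa])
    · exact no_three hP hd0 hp hpv hq hpp (Ne.symm h1) hpq (by rw [hXa]) (by rw [hXa]; exact h)
  have e1 := hdiff p hp q hq hpv hqv hpq
  have e2 := hdiff q hq r hr hqv hrv hqr
  have e3 := hdiff p hp r hr hpv hrv hpr
  have core := @trans_core P hP d v hd0 hXv hYpos
  rcases lt_or_gt_of_ne e1 with u | u
  · rcases lt_or_gt_of_ne e2 with w | w
    · exact core hp hq hr hpv hqv hrv u w
    · rcases lt_or_gt_of_ne e3 with x | x
      · exact core hp hr hq hpv hrv hqv x w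
      · exact core hr hp hq hrv hpv hqv x u
  · rcases lt_or_gt_of_ne e2 with w | w
    · rcases lt_or_gt_of_ne e3 with x | x
      · exact core hq hp hr hqv hpv hrv u x
      · exact core hq hr hp hqv hrv hpv w x
    · exact core hr hq hp hrv hqv hpv w u

/-- The points of `P` whose mirror image in `c / 2` belongs to `P`. -/
noncomputable def symm (P : Finset Plane) (c : Plane) : Finset Plane :=
  P.filter (fun p => c - p ∈ P)

/-- Second moment of the numbers of centrally symmetric points. -/
theorem second_moment {P : Finset Plane} (hP : ConvPos P) (K : Finset Plane)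
    (hK : ∀ c ∈ K, 2 ≤ (symm P c).card) :
    ∑ c ∈ K, (symm P c).card ^ 2 ≤ 4 * P.card ^ 2 := by
  classical
  have h1 : ∀ c ∈ K, (symm P c).card ^ 2 ≤ 2 * (P.offDiag.filter
      (fun z => c - z.1 ∈ P ∧ c - z.2 ∈ P)).card := by
    intro c hc
    have h2 : P.offDiag.filter (fun z => c - z.1 ∈ P ∧ c - z.2 ∈ P) = (symm P c).offDiag := by
      ext z
      unfold symm
      simp only [mem_filter, mem_offDiag]
      tauto
    rw [h2, offDiag_card]
    have h3 := hK c hc
    obtain ⟨k, hk⟩ : ∃ k, (symm P c).card = k + 2 := ⟨(symm P c).card - 2, by omega⟩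
    rw [hk]
    have : (k + 2) * (k + 2) - (k + 2) = (k + 2) * (k + 1) := by
      have : (k + 2) * (k + 2) = (k + 2) * (k + 1) + (k + 2) := by ring
      omega
    rw [this]
    nlinarith
  have h2 : ∑ c ∈ K, (P.offDiag.filter (fun z => c - z.1 ∈ P ∧ c - z.2 ∈ P)).card =
      ∑ z ∈ P.offDiag, (K.filter (fun c => c - z.1 ∈ P ∧ c - z.2 ∈ P)).card :=
    sum_card_bipartiteAbove_eq_sum_card_bipartiteBelow _
  have h3 : ∀ z ∈ P.offDiag, (K.filter (fun c => c - z.1 ∈ P ∧ c - z.2 ∈ P)).card ≤ 2 := by
    intro z hz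
    obtain ⟨z1, z2, z3⟩ := mem_offDiag.1 hz
    have hne : z.1 - z.2 ≠ 0 := sub_ne_zero.2 z3
    refine le_trans ?_ (trans_le_two hP hne)
    refine card_le_card_of_injOn (fun c => c - z.1) ?_ ?_
    · intro c hc
      obtain ⟨_, h4, h5⟩ := mem_filter.1 (mem_coe.1 hc)
      refine mem_coe.2 (mem_filter.2 ⟨h4, ?_⟩)
      have : c - z.1 + (z.1 - z.2) = c - z.2 := by abel
      rw [this]; exact h5
    · intro c _ c' _ h
      simpa using h
  calc ∑ c ∈ K, (symm P c).card ^ 2
      ≤ ∑ c ∈ K, 2 * (P.offDiag.filter (fun z => c - z.1 ∈ P ∧ c - z.2 ∈ P)).card :=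
        sum_le_sum h1
    _ = 2 * ∑ z ∈ P.offDiag, (K.filter (fun c => c - z.1 ∈ P ∧ c - z.2 ∈ P)).card := by
        rw [← mul_sum, h2]
    _ ≤ 2 * ∑ _z ∈ P.offDiag, 2 := by
        apply Nat.mul_le_mul_left
        exact sum_le_sum h3
    _ = 4 * P.offDiag.card := by rw [sum_const, smul_eq_mul]; ring
    _ ≤ 4 * P.card ^ 2 := by
        apply Nat.mul_le_mul_left
        rw [offDiag_card, pow_two]
        exact Nat.sub_le _ _

end Pool.Agent.ConvTri
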