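import Pool.Agent.Work.MP_dc37f8_co.Paths
import Pool.Agent.Work.MP_dc37f8_co.ThreeAP
import Pool.Agent.Work.MP_dc37f8_co.Trans

/-!
# Sets without three term progressions have small additive energy
-/

namespace Pool.Agent.ConvTri

open Finset
open scoped Pointwise

/-- the sums -/
noncomputable def sums (P : Finset Plane) : Finset Plane := (P ×ˢ P).image (fun z => z.1 + z.2)

theorem symm_card_eq (P : Finset Plane) (c : Plane) :
    (symm P c).card = ((P ×ˢ P).filter (fun z => z.1 + z.2 = c)).card := by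
  classical
  apply card_bij (fun p _ => (p, c - p))
  · intro p hp
    obtain ⟨h1, h2⟩ := mem_filter.1 hp
    refine mem_filter.2 ⟨mem_product.2 ⟨h1, h2⟩, ?_⟩
    exact add_sub_cancel p c
  · intro p _ q _ h
    exact congrArg Prod.fst h
  · intro z hz
    obtain ⟨h1, h2⟩ := mem_filter.1 hz
    obtain ⟨h3, h4⟩ := mem_product.1 h1
    have e : c - z.1 = z.2 := by rw [← h2]; exact add_sub_cancel_left _ _
    refine ⟨z.1, ?_, ?_⟩
    · unfold symm
      exact mem_filter.2 ⟨h3, by rw [e]; exact h4⟩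
    · rw [e]

theorem sum_symm_sums (P : Finset Plane) : ∑ c ∈ sums P, (symm P c).card = P.card ^ 2 := by
  classical
  have h : (P ×ˢ P).card = ∑ c ∈ sums P, ((P ×ˢ P).filter (fun z => z.1 + z.2 = c)).card :=
    card_eq_sum_card_fiberwise (fun z hz => mem_coe.2 (mem_image_of_mem _ (mem_coe.1 hz)))
  rw [card_product] at h
  rw [pow_two, h]
  exact sum_congr rfl fun c _ => symm_card_eq P c

theorem sum_symm_le_energy (P : Finset Plane) :
    ∑ z ∈ P.offDiag, (symm P (z.1 + z.2)).card ≤ ∑ c ∈ sums P, (symm P c).card ^ 2 := by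
  classical
  have h1 : ∑ z ∈ P.offDiag, (symm P (z.1 + z.2)).card ≤
      ∑ z ∈ P ×ˢ P, (symm P (z.1 + z.2)).card := by
    apply sum_le_sum_of_subset
    intro z hz
    obtain ⟨h1, h2, _⟩ := mem_offDiag.1 hz
    exact mem_product.2 ⟨h1, h2⟩
  refine h1.trans (le_of_eq ?_)
  rw [← sum_fiberwise_of_maps_to (s := P ×ˢ P) (t := sums P)
      (g := fun z => z.1 + z.2) (fun z hz => mem_image.2 ⟨z, hz, rfl⟩)]
  apply sum_congr rfl
  intro c _
  have h4 : ∀ z ∈ (P ×ˢ P).filter (fun z => z.1 + z.2 = c),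
      (symm P (z.1 + z.2)).card = (symm P c).card := by
    intro z hz
    rw [(mem_filter.1 hz).2]
  rw [sum_congr rfl h4, sum_const, smul_eq_mul, pow_two, ← symm_card_eq]

/-- no three points in arithmetic progression -/
def NoAP (P : Finset Plane) : Prop := ∀ a ∈ P, ∀ b ∈ P, ∀ c ∈ P, a + c = b + b → a = b

theorem energy_small {δ : ℝ} (hδ : 0 < δ) : ∃ n0 : ℕ, ∀ P : Finset Plane, NoAP P →
    n0 ≤ P.card → ((∑ z ∈ P.offDiag, (symm P (z.1 + z.2)).card : ℕ) : ℝ) ≤
      δ * (P.card : ℝ) ^ 3 := by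
  classical
  -- the constants
  set α : ℝ := δ / 2 with hα
  have hα0 : 0 < α := by positivity
  set γ : ℝ := α ^ 5 / 3072 with hγ
  have hγ0 : 0 < γ := by positivity
  set K1 : ℝ := (1 / α) ^ 3 / γ / (α / 6) + 1 with hK1
  have hK10 : 1 ≤ K1 := by
    have : 0 ≤ (1 / α) ^ 3 / γ / (α / 6) := by positivity
    linarith
  set K : ℝ := K1 ^ 3 * (4 / α) + 1 with hK
  have hK0 : 1 ≤ K := by
    have : 0 ≤ K1 ^ 3 * (4 / α) := by positivity
    linarith
  set c := SimpleGraph.triangleRemovalBound (1 / (1 + 2 * K) ^ 2) with hc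
  have hcpos : 0 < c := SimpleGraph.triangleRemovalBound_pos (by positivity)
  obtain ⟨n0, hn0⟩ := exists_nat_gt (4 / α / c)
  refine ⟨n0 + 1, fun P hP hn => ?_⟩
  by_contra hcon
  push Not at hcon
  set n : ℝ := (P.card : ℝ) with hnd
  have hnpos : 0 < n := by
    rw [hnd]
    have : 0 < P.card := by omega
    exact_mod_cast this
  have hne : P.Nonempty := card_pos.1 (by omega)
  have hE : δ * n ^ 3 < ((∑ c ∈ sums P, (symm P c).card ^ 2 : ℕ) : ℝ) := by
    refine lt_of_lt_of_le hcon ?_
    exact_mod_cast sum_symm_le_energy P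
  push_cast at hE
  -- popular sums
  set C := (sums P).filter (fun c => α * n ≤ ((symm P c).card : ℝ)) with hC
  have hSs : ∑ c ∈ sums P, ((symm P c).card : ℝ) = n ^ 2 := by
    have := sum_symm_sums P
    rw [hnd]
    exact_mod_cast this
  have hedge : α * n ^ 2 ≤ ∑ c ∈ C, ((symm P c).card : ℝ) := by
    have h1 := sum_filter_add_sum_filter_not (sums P)
      (fun c => α * n ≤ ((symm P c).card : ℝ)) (fun c => ((symm P c).card : ℝ) ^ 2)
    have h2 : ∑ c ∈ (sums P).filter (fun c => ¬ (α * n ≤ ((symm P c).card : ℝ))),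
        ((symm P c).card : ℝ) ^ 2 ≤ α * n ^ 3 := by
      calc _ ≤ ∑ c ∈ (sums P).filter (fun c => ¬ (α * n ≤ ((symm P c).card : ℝ))),
            α * n * ((symm P c).card : ℝ) := by
            apply sum_le_sum
            intro c hc
            have := (not_le.1 (mem_filter.1 hc).2).le
            rw [pow_two]
            exact mul_le_mul_of_nonneg_right this (Nat.cast_nonneg _)
        _ ≤ ∑ c ∈ sums P, α * n * ((symm P c).card : ℝ) := by
            apply sum_le_sum_of_subset_of_nonneg (filter_subset _ _)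
            intro _ _ _
            positivity
        _ = α * n ^ 3 := by rw [← mul_sum, hSs]; ring
    have h3 : ∑ c ∈ C, ((symm P c).card : ℝ) ^ 2 ≤ n * ∑ c ∈ C, ((symm P c).card : ℝ) := by
      rw [mul_sum]
      apply sum_le_sum
      intro c _
      rw [pow_two]
      apply mul_le_mul_of_nonneg_right _ (Nat.cast_nonneg _)
      rw [hnd]
      exact_mod_cast card_filter_le _ _
    have h4 : n * (α * n ^ 2) ≤ n * ∑ c ∈ C, ((symm P c).card : ℝ) := by
      have e : δ * n ^ 3 = α * n ^ 3 + α * n ^ 3 := by rw [hα]; ring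
      have e2 : n * (α * n ^ 2) = α * n ^ 3 := by ring
      linarith
    exact le_of_mul_le_mul_left h4 hnpos
  have hCcard : (C.card : ℝ) * (α * n) ≤ n ^ 2 := by
    calc (C.card : ℝ) * (α * n) = ∑ _c ∈ C, α * n := by rw [sum_const, nsmul_eq_mul]
      _ ≤ ∑ c ∈ C, ((symm P c).card : ℝ) := sum_le_sum fun c hc => (mem_filter.1 hc).2
      _ ≤ ∑ c ∈ sums P, ((symm P c).card : ℝ) :=
          sum_le_sum_of_subset_of_nonneg (filter_subset _ _) (fun _ _ _ => Nat.cast_nonneg _)
      _ = n ^ 2 := hSs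
  have hCc : (C.card : ℝ) ≤ n * (1 / α) := by
    have : (C.card : ℝ) * (α * n) ≤ (n * (1 / α)) * (α * n) := by
      calc _ ≤ _ := hCcard
        _ = _ := by field_simp
    exact le_of_mul_le_mul_right this (by positivity)
  -- the graph
  have hG : α * (P.card : ℝ) ^ 2 ≤ ((P ×ˢ P).filter (fun z => z.1 + z.2 ∈ C)).card := by
    have h1 : ((P ×ˢ P).filter (fun z => z.1 + z.2 ∈ C)).card =
        ∑ c ∈ C, (symm P c).card := by
      rw [card_eq_sum_card_fiberwise (f := fun z : Plane × Plane => z.1 + z.2) (t := C)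
        (fun z hz => mem_coe.2 (mem_filter.1 (mem_coe.1 hz)).2)]
      apply sum_congr rfl
      intro c hc
      rw [symm_card_eq, filter_filter]
      congr 1
      ext z
      simp only [mem_filter, mem_product]
      constructor
      · rintro ⟨h1, _, h2⟩; exact ⟨h1, h2⟩
      · rintro ⟨h1, h2⟩; exact ⟨h1, by rw [h2]; exact hc, h2⟩
    rw [h1]
    push_cast
    exact hedge
  obtain ⟨A', hA'P, B', hB'P, hA'c, hB'c, hpath⟩ :=
    many_paths P (fun a b => a + b ∈ C) hα0 hne hG
  rw [← hnd] at hA'c hB'c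
  have hA'pos : 0 < (A'.card : ℝ) := lt_of_lt_of_le (by positivity) hA'c
  have hB'pos : 0 < (B'.card : ℝ) := lt_of_lt_of_le (by positivity) hB'c
  have hA'ne : A'.Nonempty := card_pos.1 (by exact_mod_cast hA'pos)
  have hB'ne : B'.Nonempty := card_pos.1 (by exact_mod_cast hB'pos)
  -- few sums
  have hsum : ((A' + B').card : ℝ) * (γ * n ^ 2) ≤ (n * (1 / α)) ^ 3 := by
    set W := C ×ˢ C ×ˢ C with hW
    set g : Plane × Plane × Plane → Plane := fun w => w.1 - w.2.1 + w.2.2 with hg
    have h1 : ∀ v ∈ A' + B', γ * n ^ 2 ≤ ((W.filter (fun w => g w = v)).card : ℝ) := by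
      intro v hv
      obtain ⟨a, ha, b, hb, rfl⟩ := mem_add.1 hv
      refine (hpath a ha b hb).trans ?_
      have h2 : ((P ×ˢ P).filter (fun z => a + z.1 ∈ C ∧ z.2 + z.1 ∈ C ∧ z.2 + b ∈ C)).card ≤
          (W.filter (fun w => g w = a + b)).card := by
        apply card_le_card_of_injOn (fun z => (a + z.1, z.2 + z.1, z.2 + b))
        · intro z hz
          obtain ⟨_, h3, h4, h5⟩ := mem_filter.1 (mem_coe.1 hz)
          refine mem_coe.2 (mem_filter.2 ⟨mem_product.2 ⟨h3, mem_product.2 ⟨h4, h5⟩⟩, ?_⟩)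
          change a + z.1 - (z.2 + z.1) + (z.2 + b) = a + b
          abel
        · intro z _ z' _ h
          have e1 : a + z.1 = a + z'.1 := congrArg Prod.fst h
          have e2 : z.2 + b = z'.2 + b :=
            congrArg (fun y : Plane × Plane × Plane => y.2.2) h
          exact Prod.ext (add_left_cancel e1) (add_right_cancel e2)
      exact_mod_cast h2
    have h2 : ∑ v ∈ A' + B', (W.filter (fun w => g w = v)).card ≤ W.card := by
      have h3 : (W.filter (fun w => g w ∈ A' + B')).card =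
          ∑ v ∈ A' + B', ((W.filter (fun w => g w ∈ A' + B')).filter (fun w => g w = v)).card :=
        card_eq_sum_card_fiberwise (fun w hw => mem_coe.2 (mem_filter.1 (mem_coe.1 hw)).2)
      calc ∑ v ∈ A' + B', (W.filter (fun w => g w = v)).card
          ≤ ∑ v ∈ A' + B', ((W.filter (fun w => g w ∈ A' + B')).filter
              (fun w => g w = v)).card := by
            apply sum_le_sum
            intro v hv
            apply card_le_card
            intro w hw
            obtain ⟨h4, h5⟩ := mem_filter.1 hw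
            exact mem_filter.2 ⟨mem_filter.2 ⟨h4, by rw [h5]; exact hv⟩, h5⟩
        _ = (W.filter (fun w => g w ∈ A' + B')).card := h3.symm
        _ ≤ W.card := card_filter_le _ _
    have h3 : (W.card : ℝ) = (C.card : ℝ) ^ 3 := by
      rw [hW, card_product, card_product]; push_cast; ring
    calc ((A' + B').card : ℝ) * (γ * n ^ 2) = ∑ _v ∈ A' + B', γ * n ^ 2 := by
          rw [sum_const, nsmul_eq_mul]
      _ ≤ ∑ v ∈ A' + B', ((W.filter (fun w => g w = v)).card : ℝ) := sum_le_sum h1
      _ ≤ (W.card : ℝ) := by exact_mod_cast h2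
      _ = (C.card : ℝ) ^ 3 := h3
      _ ≤ (n * (1 / α)) ^ 3 := pow_le_pow_left₀ (Nat.cast_nonneg _) hCc 3
  have hdoub : ((A' + B').card : ℝ) / A'.card ≤ K1 := by
    rw [div_le_iff₀ hA'pos]
    have h1 : ((A' + B').card : ℝ) ≤ (1 / α) ^ 3 / γ * n := by
      have : ((A' + B').card : ℝ) * (γ * n ^ 2) ≤ ((1 / α) ^ 3 / γ * n) * (γ * n ^ 2) := by
        calc _ ≤ _ := hsum
          _ = _ := by field_simp
      exact le_of_mul_le_mul_right this (by positivity)
    have h2 : (1 / α) ^ 3 / γ * n ≤ K1 * A'.card := by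
      calc (1 / α) ^ 3 / γ * n = ((1 / α) ^ 3 / γ / (α / 6)) * (α / 6 * n) := by field_simp
        _ ≤ K1 * (α / 6 * n) := by
            apply mul_le_mul_of_nonneg_right _ (by positivity)
            linarith
        _ ≤ K1 * A'.card := mul_le_mul_of_nonneg_left hA'c (by linarith)
    linarith
  have hAn : (A'.card : ℝ) ≤ n := by rw [hnd]; exact_mod_cast card_le_card hA'P
  have hnB : n ≤ 4 / α * B'.card := by
    have : 4 / α * (α / 4 * n) ≤ 4 / α * B'.card :=
      mul_le_mul_of_nonneg_left hB'c (by positivity)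
    calc n = 4 / α * (α / 4 * n) := by field_simp
      _ ≤ _ := this
  have hpl : ∀ k l : ℕ, k + l ≤ 3 → (((k • B' - l • B').card : ℕ) : ℝ) ≤ K * B'.card := by
    intro k l hkl
    have h1 := pluennecke_ruzsa_inequality_nsmul_sub_nsmul_add hA'ne B' k l
    have h2 : (((k • B' - l • B').card : ℕ) : ℝ) ≤
        (((A' + B').card : ℝ) / A'.card) ^ (k + l) * A'.card := by
      have h3 := (NNRat.cast_le (K := ℝ)).2 h1
      push_cast at h3
      exact h3
    calc (((k • B' - l • B').card : ℕ) : ℝ)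
        ≤ (((A' + B').card : ℝ) / A'.card) ^ (k + l) * A'.card := h2
      _ ≤ K1 ^ (k + l) * A'.card := by
          apply mul_le_mul_of_nonneg_right _ hA'pos.le
          exact pow_le_pow_left₀ (by positivity) hdoub _
      _ ≤ K1 ^ 3 * A'.card := by
          apply mul_le_mul_of_nonneg_right _ hA'pos.le
          exact pow_le_pow_right₀ hK10 hkl
      _ ≤ K1 ^ 3 * (4 / α * B'.card) :=
          mul_le_mul_of_nonneg_left (hAn.trans hnB) (by positivity)
      _ ≤ K * B'.card := by
          rw [← mul_assoc]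
          apply mul_le_mul_of_nonneg_right _ hB'pos.le
          linarith
  have hp1 : ((B' - B').card : ℝ) ≤ K * B'.card := by
    have := hpl 1 1 (by norm_num)
    rwa [one_nsmul] at this
  have hp2 : ((B' + B' - B').card : ℝ) ≤ K * B'.card := by
    have := hpl 2 1 (by norm_num)
    rwa [one_nsmul, two_nsmul] at this
  have hfin := small_of_no3ap B' hK0 hB'ne
    (fun a ha b hb c hc => hP a (hB'P ha) b (hB'P hb) c (hB'P hc)) hp1 hp2
  rw [← hc] at hfin
  -- contradiction
  have h1 : (n0 : ℝ) < n := by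
    rw [hnd]
    exact_mod_cast (by omega : n0 < P.card)
  have h2 : 4 / α / c < n := hn0.trans h1
  rw [div_lt_iff₀ hcpos] at h2
  have h3 : n * c ≤ 4 / α * 1 := by
    calc n * c ≤ (4 / α * B'.card) * c := mul_le_mul_of_nonneg_right hnB hcpos.le
      _ = 4 / α * (c * B'.card) := by ring
      _ ≤ 4 / α * 1 := mul_le_mul_of_nonneg_left hfin (by positivity)
  linarith

end Pool.Agent.ConvTri
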