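import Pool.Agent.Work.MP_dc37f8_co.Trans

/-!
# The triangles over a fixed pair of points
-/

namespace Pool.Agent.ConvTri

open Finset

/-- Two circles with different centres meet in at most two points. -/
theorem two_circles {a b p q r : Plane} (hab : a ≠ b) (h1 : dist a p = dist a q)
    (h2 : dist a q = dist a r) (h3 : dist b p = dist b q) (h4 : dist b q = dist b r) :
    p = q ∨ q = r ∨ p = r := by
  set d : Plane := b - a with hd
  have hd0 : d ≠ 0 := sub_ne_zero.2 hab.symm
  have hX : ∀ p q : Plane, dist a p = dist a q → dist b p = dist b q → X d p = X d q := by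
    intro p q h h'
    have e1 : dist a p ^ 2 = dist a q ^ 2 := by rw [h]
    have e2 : dist b p ^ 2 = dist b q ^ 2 := by rw [h']
    rw [dist_sq, dist_sq] at e1 e2
    rw [hd]; unfold X
    simp only [PiLp.sub_apply]
    linarith
  have hY : ∀ p q : Plane, dist a p = dist a q → X d p = X d q →
      (Y d p - Y d a) = (Y d q - Y d a) ∨ (Y d p - Y d a) = -(Y d q - Y d a) := by
    intro p q h h'
    have e1 := XY_norm d a p
    have e2 := XY_norm d a q
    rw [h, h'] at e1
    have : (Y d p - Y d a) ^ 2 = (Y d q - Y d a) ^ 2 := by nlinarith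
    exact sq_eq_sq_iff_eq_or_eq_neg.1 this
  have x1 := hX p q h1 h3
  have x2 := hX q r h2 h4
  rcases hY p q h1 x1 with y1 | y1
  · left
    exact XY_inj hd0 x1 (by linarith)
  · rcases hY q r h2 x2 with y2 | y2
    · right; left
      exact XY_inj hd0 x2 (by linarith)
    · right; right
      exact XY_inj hd0 (x1.trans x2) (by linarith)

theorem pair_eq {x y x' y' : ℝ} (h : ({x, y} : Multiset ℝ) = {x', y'}) :
    (x = x' ∧ y = y') ∨ (x = y' ∧ y = x') := by
  have h1 : x ::ₘ ({y} : Multiset ℝ) = x' ::ₘ {y'} := h
  rcases Multiset.cons_eq_cons.1 h1 with ⟨h2, h3⟩ | ⟨_, cs, h2, h3⟩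
  · left
    exact ⟨h2, Multiset.singleton_inj.1 h3⟩
  · right
    have h4 : cs = 0 := by
      have := congrArg Multiset.card h2
      rw [Multiset.card_singleton, Multiset.card_cons] at this
      exact Multiset.card_eq_zero.1 (by omega)
    rw [h4] at h2 h3
    constructor
    · exact (Multiset.singleton_inj.1 h3).symm
    · exact Multiset.singleton_inj.1 h2

/-- the class of a triangle -/
noncomputable def cls (a b c : Plane) : Multiset ℝ := {dist a b, dist b c, dist a c}

theorem cls_eq {a b p q : Plane} (h : cls a b p = cls a b q) :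
    (dist a p = dist a q ∧ dist b p = dist b q) ∨
    (dist a p = dist b q ∧ dist b p = dist a q) := by
  unfold cls at h
  have h1 : dist a b ::ₘ ({dist b p, dist a p} : Multiset ℝ) =
    dist a b ::ₘ {dist b q, dist a q} := h
  have h2 := (Multiset.cons_inj_right _).1 h1
  rcases pair_eq h2 with h3 | h3
  · left; exact ⟨h3.2, h3.1⟩
  · right; exact ⟨h3.2, h3.1⟩

/-- the third vertices -/
noncomputable def third (P : Finset Plane) (a b : Plane) : Finset Plane := (P.erase a).erase b

/-- the classes of the triangles over `a b` -/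
noncomputable def overC (P : Finset Plane) (a b : Plane) : Finset (Multiset ℝ) :=
  (third P a b).image (cls a b)

/-- the classes over `a b` occurring at least three times -/
noncomputable def big (P : Finset Plane) (a b : Plane) : Finset (Multiset ℝ) :=
  (overC P a b).filter (fun m => 3 ≤ ((third P a b).filter (fun p => cls a b p = m)).card)

/-- the pairs of points with the same distances from `a` and from `b` -/
noncomputable def twins (P : Finset Plane) (a b : Plane) : Finset (Plane × Plane) :=
  P.offDiag.filter (fun z => dist a z.1 = dist a z.2 ∧ dist b z.1 = dist b z.2)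

theorem fib_le_four {P : Finset Plane} {a b : Plane} (hab : a ≠ b) (m : Multiset ℝ) :
    ((third P a b).filter (fun p => cls a b p = m)).card ≤ 4 := by
  classical
  set F := (third P a b).filter (fun p => cls a b p = m) with hF
  rcases F.eq_empty_or_nonempty with h0 | ⟨p, hp⟩
  · rw [h0]; simp
  have hpm := (mem_filter.1 hp).2
  set F1 := F.filter (fun q => dist a q = dist a p ∧ dist b q = dist b p) with hF1
  set F2 := F.filter (fun q => dist a q = dist b p ∧ dist b q = dist a p) with hF2
  have hsub : F ⊆ F1 ∪ F2 := by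
    intro q hq
    have hqm := (mem_filter.1 hq).2
    rcases cls_eq (hqm.trans hpm.symm) with h | h
    · exact mem_union_left _ (mem_filter.2 ⟨hq, h⟩)
    · exact mem_union_right _ (mem_filter.2 ⟨hq, h⟩)
  have hc : ∀ (s t : ℝ) (G : Finset Plane), (G.filter (fun q => dist a q = s ∧ dist b q = t)).card
      ≤ 2 := by
    intro s t G
    by_contra hcon
    push Not at hcon
    obtain ⟨x, hx, y, hy, z, hz, h1, h2, h3⟩ := two_lt_card.1 hcon
    obtain ⟨_, x1, x2⟩ := mem_filter.1 hx
    obtain ⟨_, y1, y2⟩ := mem_filter.1 hy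
    obtain ⟨_, z1, z2⟩ := mem_filter.1 hz
    rcases two_circles hab (x1.trans y1.symm) (y1.trans z1.symm) (x2.trans y2.symm)
      (y2.trans z2.symm) with h | h | h
    · exact h1 h
    · exact h3 h
    · exact h2 h
  calc F.card ≤ (F1 ∪ F2).card := card_le_card hsub
    _ ≤ F1.card + F2.card := card_union_le _ _
    _ ≤ 4 := by
      have h1 : F1.card ≤ 2 := hc (dist a p) (dist b p) F
      have h2 : F2.card ≤ 2 := hc (dist b p) (dist a p) F
      omega

theorem third_card {P : Finset Plane} {a b : Plane} (ha : a ∈ P) (hb : b ∈ P) (hab : a ≠ b) :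
    (third P a b).card = P.card - 2 := by
  unfold third
  rw [card_erase_of_mem (mem_erase.2 ⟨hab.symm, hb⟩), card_erase_of_mem ha]
  omega

/-- Many classes over a pair. -/
theorem over_card {P : Finset Plane} {a b : Plane} (ha : a ∈ P) (hb : b ∈ P) (hab : a ≠ b) :
    P.card ≤ 2 * (overC P a b).card + 2 * (big P a b).card + 2 := by
  classical
  have h1 : (third P a b).card =
      ∑ m ∈ overC P a b, ((third P a b).filter (fun p => cls a b p = m)).card :=
    card_eq_sum_card_fiberwise (fun p hp => mem_coe.2 (mem_image_of_mem _ (mem_coe.1 hp)))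
  have h2 : ∀ m ∈ overC P a b, ((third P a b).filter (fun p => cls a b p = m)).card ≤
      2 + 2 * (if 3 ≤ ((third P a b).filter (fun p => cls a b p = m)).card then 1 else 0) := by
    intro m _
    have := fib_le_four (P := P) hab m
    split_ifs with h <;> omega
  have h3 := sum_le_sum h2
  rw [← h1, third_card ha hb hab, sum_add_distrib, sum_const, smul_eq_mul, ← mul_sum,
    ← card_filter] at h3
  unfold big
  omega

theorem mem_third {P : Finset Plane} {a b p : Plane} (h : p ∈ third P a b) :
    p ∈ P ∧ p ≠ a ∧ p ≠ b := by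
  unfold third at h
  exact ⟨mem_of_mem_erase (mem_of_mem_erase h), ne_of_mem_erase (mem_of_mem_erase h),
    ne_of_mem_erase h⟩

/-- In a class occurring three times there are twins, and a point whose mirror image in the
midpoint of `a b` also belongs to `P`. -/
theorem big_spec {P : Finset Plane} {a b : Plane} (hab : a ≠ b) {m : Multiset ℝ}
    (hm : m ∈ big P a b) :
    (∃ z ∈ twins P a b, cls a b z.1 = m) ∧ (∃ p ∈ symm P (a + b), cls a b p = m) := by
  classical
  obtain ⟨_, h3⟩ := mem_filter.1 hm
  obtain ⟨x, hx, y, hy, z, hz, hxy, hxz, hyz⟩ := two_lt_card.1 (by omega :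
    2 < ((third P a b).filter (fun p => cls a b p = m)).card)
  obtain ⟨hx, hxm⟩ := mem_filter.1 hx
  obtain ⟨hy, hym⟩ := mem_filter.1 hy
  obtain ⟨hz, hzm⟩ := mem_filter.1 hz
  -- there are two points of the same type and one of the other type
  have key : ∀ x ∈ third P a b, ∀ y ∈ third P a b, ∀ z ∈ third P a b, x ≠ y → x ≠ z → y ≠ z →
      cls a b x = m → cls a b y = m → cls a b z = m →
      dist a x = dist a y → dist b x = dist b y →
      (∃ z ∈ twins P a b, cls a b z.1 = m) ∧ (∃ p ∈ symm P (a + b), cls a b p = m) := by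
    intro x hx y hy z hz hxy hxz hyz hxm hym hzm e1 e2
    refine ⟨⟨(x, y), mem_filter.2 ⟨mem_offDiag.2 ⟨(mem_third hx).1, (mem_third hy).1, hxy⟩,
      e1, e2⟩, hxm⟩, ?_⟩
    rcases cls_eq (hym.trans hzm.symm) with ⟨h1, h2⟩ | ⟨h1, h2⟩
    · exfalso
      rcases two_circles hab e1 h1 e2 h2 with h | h | h
      · exact hxy h
      · exact hyz h
      · exact hxz h
    · -- `z` has the other type
      have da : ∀ w : Plane, dist a (a + b - w) = dist b w := by
        intro w
        rw [dist_eq_norm, dist_eq_norm]
        rw [← norm_neg (b - w)]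
        congr 1
        abel
      have db : ∀ w : Plane, dist b (a + b - w) = dist a w := by
        intro w
        rw [dist_eq_norm, dist_eq_norm]
        rw [← norm_neg (a - w)]
        congr 1
        abel
      rcases two_circles (p := a + b - x) (q := a + b - y) (r := z) hab
        (by rw [da, da, e2]) (by rw [da, h2]) (by rw [db, db, e1]) (by rw [db, h1])
        with h | h | h
      · exact absurd (sub_right_injective h) hxy
      · refine ⟨y, ?_, hym⟩
        unfold symm
        exact mem_filter.2 ⟨(mem_third hy).1, by rw [h]; exact (mem_third hz).1⟩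
      · refine ⟨x, ?_, hxm⟩
        unfold symm
        exact mem_filter.2 ⟨(mem_third hx).1, by rw [h]; exact (mem_third hz).1⟩
  rcases cls_eq (hxm.trans hym.symm) with ⟨h1, h2⟩ | ⟨h1, h2⟩
  · exact key x hx y hy z hz hxy hxz hyz hxm hym hzm h1 h2
  · rcases cls_eq (hxm.trans hzm.symm) with ⟨h3, h4⟩ | ⟨h3, h4⟩
    · exact key x hx z hz y hy hxz hxy hyz.symm hxm hzm hym h3 h4
    · exact key y hy z hz x hx hyz hxy.symm hxz.symm hym hzm hxm (h2.symm.trans h4)
        (h1.symm.trans h3)

theorem big_le_twins {P : Finset Plane} {a b : Plane} (hab : a ≠ b) :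
    (big P a b).card ≤ (twins P a b).card := by
  classical
  apply card_le_card_of_surjOn (fun z => cls a b z.1)
  intro m hm
  obtain ⟨⟨z, hz, hzm⟩, _⟩ := big_spec hab (mem_coe.1 hm)
  exact ⟨z, mem_coe.2 hz, hzm⟩

theorem big_le_symm {P : Finset Plane} {a b : Plane} (hab : a ≠ b) :
    (big P a b).card ≤ (symm P (a + b)).card := by
  classical
  apply card_le_card_of_surjOn (fun z => cls a b z)
  intro m hm
  obtain ⟨_, ⟨z, hz, hzm⟩⟩ := big_spec hab (mem_coe.1 hm)
  exact ⟨z, mem_coe.2 hz, hzm⟩

end Pool.Agent.ConvTri
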