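import Pool.Agent.Work.MP_dc37f8_co.Cubic

/-!
# The number of triangles of a set in strictly convex position
-/

namespace Pool.Agent.ConvTri

open Finset

theorem centre_bound {n x T M R s : ℝ} {t : ℕ} (hx : 1 ≤ x) (hn : n = x ^ 8)
    (hT : T ≤ n ^ 2 / 12) (hM : 0 ≤ M) (hR : 0 ≤ R) (hs : 1 ≤ s)
    (h1 : R ≤ t * M) (h2 : R ≤ n * (s - 1)) (h3 : ((t : ℝ) - 1) * (s * (s - 1)) ≤ 216 * T) :
    R ≤ 6 * (x ^ 7 * t + M ^ 2 / x) := by
  have hx0 : 0 < x := by linarith
  have ht0 : (0 : ℝ) ≤ t := Nat.cast_nonneg t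
  have hp1 : 0 ≤ x ^ 7 * t := by positivity
  have hp2 : 0 ≤ M ^ 2 / x := by positivity
  rcases le_or_gt M (x ^ 7) with c1 | c1
  · have : (t : ℝ) * M ≤ x ^ 7 * t := by nlinarith
    linarith
  rcases le_or_gt (x * t) M with c2 | c2
  · have : (t : ℝ) * M ≤ M ^ 2 / x := by
      rw [le_div_iff₀ hx0]
      nlinarith
    linarith
  -- now `t > x ^ 6`
  have ht6 : x ^ 6 < t := by
    have : x * x ^ 6 < x * t := by
      calc x * x ^ 6 = x ^ 7 := by ring
        _ < M := c1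
        _ < x * t := c2
    exact lt_of_mul_lt_mul_left this hx0.le
  have hx6 : 1 ≤ x ^ 6 := one_le_pow₀ hx
  have ht2 : (2 : ℝ) ≤ t := by
    have : (1 : ℝ) < t := by linarith
    have : 1 < t := by exact_mod_cast this
    have : 2 ≤ t := this
    exact_mod_cast this
  have hs0 : 0 ≤ s - 1 := by linarith
  have h4 : ((t : ℝ) - 1) * (s - 1) ^ 2 ≤ 18 * n ^ 2 := by
    have : ((t : ℝ) - 1) * (s - 1) ^ 2 ≤ ((t : ℝ) - 1) * (s * (s - 1)) := by
      apply mul_le_mul_of_nonneg_left _ (by linarith)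
      nlinarith
    linarith
  have h5 : R ^ 2 ≤ n ^ 2 * (s - 1) ^ 2 := by
    rw [← mul_pow]
    exact pow_le_pow_left₀ hR h2 2
  have h6 : (t : ℝ) * R ^ 2 ≤ 36 * n ^ 4 := by
    have e1 : (t : ℝ) * R ^ 2 ≤ 2 * (((t : ℝ) - 1) * R ^ 2) := by
      nlinarith [sq_nonneg R]
    have e2 : ((t : ℝ) - 1) * R ^ 2 ≤ ((t : ℝ) - 1) * (n ^ 2 * (s - 1) ^ 2) :=
      mul_le_mul_of_nonneg_left h5 (by linarith)
    have e3 : ((t : ℝ) - 1) * (n ^ 2 * (s - 1) ^ 2) = n ^ 2 * (((t : ℝ) - 1) * (s - 1) ^ 2) := by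
      ring
    have e4 : n ^ 2 * (((t : ℝ) - 1) * (s - 1) ^ 2) ≤ n ^ 2 * (18 * n ^ 2) :=
      mul_le_mul_of_nonneg_left h4 (sq_nonneg n)
    nlinarith
  have h7 : x ^ 6 * R ^ 2 ≤ x ^ 6 * (6 * x ^ 13) ^ 2 := by
    calc x ^ 6 * R ^ 2 ≤ t * R ^ 2 := mul_le_mul_of_nonneg_right ht6.le (sq_nonneg R)
      _ ≤ 36 * n ^ 4 := h6
      _ = x ^ 6 * (6 * x ^ 13) ^ 2 := by rw [hn]; ring
  have h8 : R ^ 2 ≤ (6 * x ^ 13) ^ 2 := le_of_mul_le_mul_left h7 (by positivity)
  have h9 : R ≤ 6 * x ^ 13 := le_of_sq_le_sq h8 (by positivity)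
  have h10 : x ^ 13 ≤ x ^ 7 * t := by
    calc x ^ 13 = x ^ 7 * x ^ 6 := by ring
      _ ≤ x ^ 7 * t := mul_le_mul_of_nonneg_left ht6.le (by positivity)
  linarith

theorem exists_chords (P : Finset Plane) (k : ℕ) (hk : k ≤ (dists P).card) :
    ∃ K : Chords P, K.D.card = k := by
  classical
  obtain ⟨D, hD, hDc⟩ := exists_subset_card_eq hk
  have : ∀ l : ℝ, ∃ z : Plane × Plane, l ∈ D → z ∈ P.offDiag ∧ dist z.1 z.2 = l := by
    intro l
    by_cases h : l ∈ D
    · obtain ⟨z, hz, hzl⟩ := mem_image.1 (hD h)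
      exact ⟨z, fun _ => ⟨hz, hzl⟩⟩
    · exact ⟨(0, 0), fun h' => absurd h' h⟩
  choose f hf using this
  refine ⟨⟨D, fun l => (f l).1, fun l => (f l).2, ?_, ?_, ?_, ?_⟩, hDc⟩
  · intro l hl
    exact (mem_offDiag.1 (hf l hl).1).1
  · intro l hl
    exact (mem_offDiag.1 (hf l hl).1).2.1
  · intro l hl
    exact (mem_offDiag.1 (hf l hl).1).2.2
  · intro l hl
    exact (hf l hl).2

theorem main {P : Finset Plane} (hP : ConvPos P) :
    (P.card : ℝ) ^ 2 / 12 - 10 * (P.card : ℝ) ^ (15 / 8 : ℝ) ≤ (TC P).card := by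
  classical
  rcases Nat.eq_zero_or_pos P.card with h0 | hpos
  · rw [h0, Nat.cast_zero, Real.zero_rpow (by norm_num)]
    have : (0 : ℝ) ≤ ((TC P).card : ℝ) := Nat.cast_nonneg _
    linarith
  set n : ℝ := (P.card : ℝ) with hn
  have hn1 : 1 ≤ n := by rw [hn]; exact_mod_cast hpos
  set T : ℝ := ((TC P).card : ℝ) with hT
  have hT0 : 0 ≤ T := Nat.cast_nonneg _
  set x : ℝ := n ^ (1 / 8 : ℝ) with hx
  have hn0 : 0 ≤ n := by linarith
  have hx1 : 1 ≤ x := Real.one_le_rpow hn1 (by norm_num)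
  have hx0 : 0 < x := by linarith
  have hx8 : n = x ^ 8 := by
    rw [hx, ← Real.rpow_natCast, ← Real.rpow_mul hn0]
    norm_num
  have hx15 : n ^ (15 / 8 : ℝ) = x ^ 15 := by
    rw [hx, ← Real.rpow_natCast, ← Real.rpow_mul hn0]
    norm_num
  rw [hx15]
  by_cases hTn : n ^ 2 / 12 < T
  · have : 0 ≤ x ^ 15 := pow_nonneg hx0.le _
    linarith
  push Not at hTn
  -- the chords
  have hmany := many_distances hP
  obtain ⟨K, hK⟩ := exists_chords P ((P.card - 1) / 2) (by omega)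
  set k : ℕ := (P.card - 1) / 2 with hk
  set b : ℝ → ℕ := fun l => (big P (K.α l) (K.β l)).card with hb
  -- the bound for one centre
  set cen : ℝ → Plane := fun l => K.α l + K.β l with hcen
  have hcentre : ∀ c ∈ K.D.image cen,
      ((∑ l ∈ K.D.filter (fun l => cen l = c), b l : ℕ) : ℝ) ≤
        6 * (x ^ 7 * ((K.D.filter (fun l => cen l = c)).card : ℕ) +
          ((symm P c).card : ℝ) ^ 2 / x) := by
    intro c _
    set J := K.D.filter (fun l => cen l = c) with hJ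
    have hJD : J ⊆ K.D := filter_subset _ _
    have hJc : ∀ l ∈ J, K.α l + K.β l = c := fun l hl => (mem_filter.1 hl).2
    obtain ⟨p0, _, hp1, hp2⟩ := conc_card (P := P) ((1 / 2 : ℝ) • c) (card_pos.1 hpos)
    set s := (circ P ((1 / 2 : ℝ) • c) (dist ((1 / 2 : ℝ) • c) p0)).card with hs
    have hcub := cubic K c J hJD hJc (dist ((1 / 2 : ℝ) • c) p0)
    rw [← hs] at hcub
    have htw := sum_twins hP K c J hJD hJc
    have e1 : ∑ l ∈ J, b l ≤ J.card * (symm P c).card := by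
      calc ∑ l ∈ J, b l ≤ ∑ _l ∈ J, (symm P c).card := by
            apply sum_le_sum
            intro l hl
            have := big_le_symm (P := P) (K.hne l (hJD hl))
            rw [hJc l hl] at this
            exact this
        _ = J.card * (symm P c).card := by rw [sum_const, smul_eq_mul]
    have e2 : ∑ l ∈ J, b l ≤ P.card * (s - 1) := by
      calc ∑ l ∈ J, b l ≤ ∑ l ∈ J, (twins P (K.α l) (K.β l)).card :=
            sum_le_sum (fun l hl => big_le_twins (K.hne l (hJD hl)))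
        _ ≤ _ := htw
        _ ≤ _ := hp1
    refine centre_bound (n := n) (T := T) (s := (s : ℝ)) hx1 hx8 hTn (Nat.cast_nonneg _)
      (Nat.cast_nonneg _) (by exact_mod_cast hp2) (by exact_mod_cast e1) ?_ ?_
    · have : ((∑ l ∈ J, b l : ℕ) : ℝ) ≤ ((P.card * (s - 1) : ℕ) : ℝ) := by exact_mod_cast e2
      rw [Nat.cast_mul, Nat.cast_sub hp2] at this
      simpa using this
    · rcases Nat.eq_zero_or_pos J.card with hJ0 | hJ0
      · rw [hJ0]
        have hs1 : (1 : ℝ) ≤ s := by exact_mod_cast hp2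
        have : 0 ≤ (s : ℝ) * ((s : ℝ) - 1) := mul_nonneg (by linarith) (by linarith)
        push_cast
        nlinarith
      · have h1 : (((J.card - 1) * (s * (s - 1)) : ℕ) : ℝ) ≤ ((216 * (TC P).card : ℕ) : ℝ) := by
          exact_mod_cast hcub
        rw [Nat.cast_mul, Nat.cast_mul, Nat.cast_sub hp2, Nat.cast_sub hJ0] at h1
        push_cast at h1
        exact h1
  -- every centre has at least two symmetric points
  have hsym2 : ∀ c ∈ K.D.image cen, 2 ≤ (symm P c).card := by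
    intro c hc
    obtain ⟨l, hl, rfl⟩ := mem_image.1 hc
    have hsub : ({K.α l, K.β l} : Finset Plane) ⊆ symm P (cen l) := by
      intro p hp
      unfold symm
      rcases mem_insert.1 hp with rfl | hp
      · refine mem_filter.2 ⟨K.hα l hl, ?_⟩
        have : cen l - K.α l = K.β l := add_sub_cancel_left (K.α l) (K.β l)
        rw [this]; exact K.hβ l hl
      · rw [mem_singleton] at hp
        rw [hp]
        refine mem_filter.2 ⟨K.hβ l hl, ?_⟩
        have : cen l - K.β l = K.α l := add_sub_cancel_right (K.α l) (K.β l)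
        rw [this]; exact K.hα l hl
    have := card_le_card hsub
    rwa [card_pair (K.hne l hl)] at this
  have hsecond := second_moment hP (K.D.image cen) hsym2
  -- total loss
  have hloss : ((∑ l ∈ K.D, b l : ℕ) : ℝ) ≤ 27 * x ^ 15 := by
    have f1 : ∑ l ∈ K.D, b l =
        ∑ c ∈ K.D.image cen, ∑ l ∈ K.D.filter (fun l => cen l = c), b l :=
      (sum_fiberwise_of_maps_to (fun l hl => mem_image_of_mem _ hl) _).symm
    have f2 : K.D.card = ∑ c ∈ K.D.image cen, (K.D.filter (fun l => cen l = c)).card :=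
      card_eq_sum_card_fiberwise (fun l hl => mem_coe.2 (mem_image_of_mem _ (mem_coe.1 hl)))
    have f3 : (2 * k : ℝ) ≤ n := by
      have : 2 * k ≤ P.card := by omega
      rw [hn]; exact_mod_cast this
    have f4 : ∑ c ∈ K.D.image cen, ((symm P c).card : ℝ) ^ 2 ≤ 4 * n ^ 2 := by
      rw [hn]; exact_mod_cast hsecond
    calc ((∑ l ∈ K.D, b l : ℕ) : ℝ)
        = ∑ c ∈ K.D.image cen, ((∑ l ∈ K.D.filter (fun l => cen l = c), b l : ℕ) : ℝ) := by
          rw [f1, Nat.cast_sum]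
      _ ≤ ∑ c ∈ K.D.image cen, 6 * (x ^ 7 * ((K.D.filter (fun l => cen l = c)).card : ℕ) +
          ((symm P c).card : ℝ) ^ 2 / x) := sum_le_sum hcentre
      _ = 6 * (x ^ 7 * (K.D.card : ℝ) +
          (∑ c ∈ K.D.image cen, ((symm P c).card : ℝ) ^ 2) / x) := by
          rw [← mul_sum, sum_add_distrib, ← mul_sum, ← sum_div, f2, Nat.cast_sum]
      _ ≤ 6 * (x ^ 7 * (n / 2) + (4 * n ^ 2) / x) := by
          have g1 : (K.D.card : ℝ) ≤ n / 2 := by rw [hK]; linarith
          have g2 : (∑ c ∈ K.D.image cen, ((symm P c).card : ℝ) ^ 2) / x ≤ (4 * n ^ 2) / x :=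
            div_le_div_of_nonneg_right f4 hx0.le
          have g3 : x ^ 7 * (K.D.card : ℝ) ≤ x ^ 7 * (n / 2) :=
            mul_le_mul_of_nonneg_left g1 (pow_nonneg hx0.le _)
          linarith
      _ = 27 * x ^ 15 := by
          rw [hx8]
          field_simp
          ring
  -- all classes
  have hall : k * P.card ≤ 2 * (3 * (TC P).card) + 2 * (∑ l ∈ K.D, b l) + 2 * k := by
    have h1 : ∀ l ∈ K.D, P.card ≤ 2 * (overC P (K.α l) (K.β l)).card + 2 * b l + 2 :=
      fun l hl => over_card (K.hα l hl) (K.hβ l hl) (K.hne l hl)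
    have h2 := sum_le_sum h1
    rw [sum_const, smul_eq_mul, sum_add_distrib, sum_add_distrib, ← mul_sum, ← mul_sum,
      sum_const, smul_eq_mul, hK] at h2
    have h3 := sum_over K
    omega
  have hall' : (k : ℝ) * n ≤ 6 * T + 2 * ((∑ l ∈ K.D, b l : ℕ) : ℝ) + 2 * k := by
    have : ((k * P.card : ℕ) : ℝ) ≤
        ((2 * (3 * (TC P).card) + 2 * (∑ l ∈ K.D, b l) + 2 * k : ℕ) : ℝ) := by
      exact_mod_cast hall
    rw [hn, hT]
    push_cast at this ⊢
    linarith
  have hk2 : n - 2 ≤ 2 * k := by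
    have : P.card ≤ 2 * k + 2 := by omega
    have : (P.card : ℝ) ≤ 2 * k + 2 := by exact_mod_cast this
    rw [hn]; linarith
  have hn15 : n ≤ x ^ 15 := by
    rw [hx8]
    exact pow_le_pow_right₀ hx1 (by norm_num)
  have hk0 : (0 : ℝ) ≤ k := Nat.cast_nonneg _
  rcases le_or_gt 2 n with h2 | h2
  · have h5 : (n - 2) * (n - 2) ≤ 2 * k * (n - 2) :=
      mul_le_mul_of_nonneg_right hk2 (by linarith)
    nlinarith
  · nlinarith

end Pool.Agent.ConvTri
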