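import Pool.Agent.Work.MP_dc37f8_co.Circs
import Pool.Agent.Work.MP_dc37f8_co.Energy
import Pool.Agent.Work.MP_dc37f8_co.Main

/-!
# Sets in general position
-/

namespace Pool.Agent.ConvTri

open Finset

/-- the number of points is huge -/
theorem huge {n : ℕ} (hn : 10 ^ 80 ≤ n) : (10 : ℝ) ^ 80 ≤ (n : ℝ) := by exact_mod_cast hn

theorem consts : (4 * (1 / 10 ^ 13) / (1 / 1000) ^ 2 + 6 * (1 / 10 ^ 33) / (1 / 10 ^ 13) ^ 2 : ℝ) =
    1 / 10 ^ 6 := by norm_num

theorem circs_huge {P : Finset Plane} (hn : 10 ^ 80 ≤ P.card) :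
    ((∑ K ∈ circs P (1 / 10 ^ 33 * P.card), K.card : ℕ) : ℝ) ≤
      (1 + 1 / 10 ^ 10) * (P.card : ℝ) := by
  have h1 := circs_sum (P := P) (κ' := 1 / 10 ^ 33) (m := 2 * 10 ^ 33) (by norm_num)
    (lt_of_lt_of_le (by norm_num) hn)
  have h2 := huge hn
  set S := ∑ K ∈ circs P (1 / 10 ^ 33 * P.card), K.card with hS
  set x : ℝ := (P.card : ℝ) with hx
  have h3 : (S : ℝ) ≤ x + (2 * 10 ^ 33) ^ 2 := by rw [hx]; exact_mod_cast h1
  have h4 : ((2 * 10 ^ 33) ^ 2 : ℝ) ≤ 1 / 10 ^ 10 * 10 ^ 80 := by norm_num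
  have h5 : (1 / 10 ^ 10 : ℝ) * 10 ^ 80 ≤ 1 / 10 ^ 10 * x :=
    mul_le_mul_of_nonneg_left h2 (by positivity)
  linarith

theorem big_circle {P : Finset Plane} (hP : LineBound P 2) (hn : 10 ^ 80 ≤ P.card)
    (hR : 4349 / 10000 * (P.card : ℝ) ^ 2 ≤ ((richs P (1 / 1000)).card : ℝ)) :
    ∃ c r, 2 / 5 * (P.card : ℝ) < ((P.filter (fun p => dist p c = r)).card : ℝ) := by
  classical
  by_contra hcon
  push Not at hcon
  have hx := huge hn
  set x : ℝ := (P.card : ℝ) with hxd
  have hx0 : 0 < x := lt_of_lt_of_le (by positivity) hx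
  set T1 := (trips P (1 / 1000)).filter (fun z => OnRich P (1 / 10 ^ 33 * P.card) z) with hT1
  set T2 := (trips P (1 / 1000)).filter (fun z => ¬ OnRich P (1 / 10 ^ 33 * P.card) z) with hT2
  have h12 : T1.card + T2.card = (trips P (1 / 1000)).card :=
    card_filter_add_card_filter_not (s := trips P (1 / 1000))
      (p := fun z => OnRich P (1 / 10 ^ 33 * P.card) z)
  have h1 : (T1.card : ℝ) ≤ (2 / 5 * x) ^ 2 * ((1 + 1 / 10 ^ 10) * x) := by
    refine (onRich_card (P := P) (s := 1 / 10 ^ 33 * P.card) (t := 2 / 5 * x) T1 ?_ ?_).trans ?_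
    · intro z hz
      obtain ⟨z1, z2⟩ := mem_filter.1 hz
      have z3 := (mem_filter.1 z1).1
      obtain ⟨z4, z5⟩ := mem_product.1 z3
      obtain ⟨z6, z7⟩ := mem_product.1 z5
      exact ⟨z4, z6, z7, z2⟩
    · intro K hK
      obtain ⟨_, c, r, rfl⟩ := circs_mem.1 hK
      exact hcon c r
    · exact mul_le_mul_of_nonneg_left (circs_huge hn) (sq_nonneg _)
  have h2 : (T2.card : ℝ) ≤ 1 / 10 ^ 6 * x ^ 3 := by
    have := structure_trips hP (κ := 1 / 1000) (κ2 := 1 / 10 ^ 13) (κ' := 1 / 10 ^ 33)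
      (by norm_num) (by norm_num) (by norm_num)
      (by rw [← hxd]; norm_num at hx ⊢; linarith) (by rw [← hxd]; norm_num at hx ⊢; linarith)
      T2 (filter_subset _ _) (fun z hz => (mem_filter.1 hz).2)
    rw [consts] at this
    exact this
  have h3 := trips_lower (P := P) (κ := 1 / 1000) (Subset.refl P) (Subset.refl P)
  have h4 := richs_sum P (1 / 1000)
  set S := ∑ a ∈ P, (P.filter (fun b => (a, b) ∈ richs P (1 / 1000))).card with hS
  have h5 : ((trips P (1 / 1000)).filter (fun z => z.1 ∈ P ∧ z.2.1 ∈ P ∧ z.2.2 ∈ P)).card ≤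
      T1.card + T2.card := by
    rw [h12]; exact card_le_card (filter_subset _ _)
  have h6 : (S : ℝ) ^ 2 ≤ x * ((T1.card : ℝ) + T2.card + x ^ 2) := by
    have : S ^ 2 ≤ P.card * (T1.card + T2.card + P.card ^ 2) :=
      h3.trans (Nat.mul_le_mul_left _ (Nat.add_le_add_right h5 _))
    rw [hxd]
    exact_mod_cast this
  have h7 : ((richs P (1 / 1000)).card : ℝ) ≤ S := by exact_mod_cast h4
  have h8 : (4349 / 10000 * x ^ 2) ^ 2 ≤ (S : ℝ) ^ 2 :=
    pow_le_pow_left₀ (by positivity) (hR.trans h7) 2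
  have h9 : x ^ 2 ≤ 1 / 10 ^ 10 * x ^ 3 := by
    have : (10 : ℝ) ^ 10 ≤ x := le_trans (by norm_num) hx
    have h10 : x ^ 2 * 10 ^ 10 ≤ x ^ 2 * x := mul_le_mul_of_nonneg_left this (sq_nonneg x)
    have e : x ^ 2 * x = x ^ 3 := by ring
    rw [e] at h10
    norm_num at h10 ⊢
    linarith
  have h10 : (T1.card : ℝ) + T2.card + x ^ 2 ≤ 17 / 100 * x ^ 3 := by
    have e : (2 / 5 * x) ^ 2 * ((1 + 1 / 10 ^ 10) * x) = 4 / 25 * (1 + 1 / 10 ^ 10) * x ^ 3 := by
      ring
    rw [e] at h1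
    have : 0 < x ^ 3 := by positivity
    norm_num at h1 h2 h9 ⊢
    linarith
  have h11 : x * ((T1.card : ℝ) + T2.card + x ^ 2) ≤ x * (17 / 100 * x ^ 3) :=
    mul_le_mul_of_nonneg_left h10 hx0.le
  have e1 : x * (17 / 100 * x ^ 3) = 17 / 100 * x ^ 4 := by ring
  have e2 : (4349 / 10000 * x ^ 2) ^ 2 = (4349 / 10000) ^ 2 * x ^ 4 := by ring
  rw [e1] at h11
  rw [e2] at h8
  have h12 : 0 < x ^ 4 := by positivity
  norm_num at h8
  linarith

theorem bigger_circle {P : Finset Plane} (hP : LineBound P 2) (hn : 10 ^ 80 ≤ P.card)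
    (hT : 12 * ((TC P).card : ℝ) ≤ 10413 / 10000 * (P.card : ℝ) ^ 2 + 6)
    (hE : (Er P : ℝ) ≤ 11 / 10 ^ 7 * (P.card : ℝ) ^ 3) {c : Plane} {r : ℝ}
    (hK : 2 / 5 * (P.card : ℝ) < ((P.filter (fun p => dist p c = r)).card : ℝ)) :
    77 / 100 * (P.card : ℝ) ≤ ((P.filter (fun p => dist p c = r)).card : ℝ) := by
  classical
  by_contra hcon
  push Not at hcon
  have hx := huge hn
  set x : ℝ := (P.card : ℝ) with hxd
  have hx0 : 0 < x := lt_of_lt_of_le (by positivity) hx
  have hx10 : (10 : ℝ) ^ 10 ≤ x := le_trans (by norm_num) hx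
  set K1 := P.filter (fun p => dist p c = r) with hK1
  set A := (P.filter (fun a => ¬ dist a c = r)).erase c with hA
  have hAP : A ⊆ P := (erase_subset _ _).trans (filter_subset _ _)
  have hKP : K1 ⊆ P := filter_subset _ _
  have hAc : 22 / 100 * x ≤ (A.card : ℝ) := by
    have h1 : K1.card + (P.filter (fun a => ¬ dist a c = r)).card = P.card :=
      card_filter_add_card_filter_not (s := P) (p := fun p => dist p c = r)
    have h2 : (P.filter (fun a => ¬ dist a c = r)).card - 1 ≤ A.card := pred_card_le_card_erase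
    have h3 : P.card ≤ K1.card + A.card + 1 := by omega
    have h4 : x ≤ (K1.card : ℝ) + A.card + 1 := by rw [hxd]; exact_mod_cast h3
    have h5 : (1 : ℝ) ≤ 1 / 100 * x := by norm_num at hx10 ⊢; linarith
    linarith
  -- the triples
  set Z := (trips P (1 / 1000)).filter (fun z => z.1 ∈ A ∧ z.2.1 ∈ K1 ∧ z.2.2 ∈ K1) with hZ
  set Z1 := Z.filter (fun z => OnRich P (1 / 10 ^ 33 * P.card) z) with hZ1
  set Z2 := Z.filter (fun z => ¬ OnRich P (1 / 10 ^ 33 * P.card) z) with hZ2
  have hZ12 : Z1.card + Z2.card = Z.card :=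
    card_filter_add_card_filter_not (s := Z) (p := fun z => OnRich P (1 / 10 ^ 33 * P.card) z)
  have h1 : (Z1.card : ℝ) ≤ 5 * x := by
    have h1 : Z1.card ≤ 4 * ∑ K ∈ circs P (1 / 10 ^ 33 * P.card), K.card := by
      apply onRich_card2 (c1 := c) (r1 := r)
      intro z hz
      obtain ⟨z1, z2⟩ := mem_filter.1 hz
      obtain ⟨z3, z4, z5, z6⟩ := mem_filter.1 z1
      exact ⟨hAP z4, (mem_filter.1 (mem_erase.1 z4).2).2, z5, z6, z2⟩
    have h2 : (Z1.card : ℝ) ≤ 4 * ((∑ K ∈ circs P (1 / 10 ^ 33 * P.card), K.card : ℕ) : ℝ) := by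
      exact_mod_cast h1
    have h3 := circs_huge hn
    rw [← hxd] at h3
    norm_num at h3 h2 ⊢
    linarith
  have h2 : (Z2.card : ℝ) ≤ 1 / 10 ^ 6 * x ^ 3 := by
    have := structure_trips hP (κ := 1 / 1000) (κ2 := 1 / 10 ^ 13) (κ' := 1 / 10 ^ 33)
      (by norm_num) (by norm_num) (by norm_num)
      (by rw [← hxd]; norm_num at hx ⊢; linarith) (by rw [← hxd]; norm_num at hx ⊢; linarith)
      Z2 ((filter_subset _ _).trans (filter_subset _ _)) (fun z hz => (mem_filter.1 hz).2)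
    rw [consts] at this
    exact this
  have h3 := trips_lower (P := P) (κ := 1 / 1000) hAP hKP
  set S := ∑ a ∈ A, (K1.filter (fun b => (a, b) ∈ richs P (1 / 1000))).card with hS
  have h4 : (S : ℝ) ^ 2 ≤ x * ((Z1.card : ℝ) + Z2.card + x ^ 2) := by
    have : S ^ 2 ≤ P.card * (Z1.card + Z2.card + P.card ^ 2) := by
      rw [hZ12]
      exact h3.trans (Nat.mul_le_mul_right _ (card_le_card hAP))
    rw [hxd]
    exact_mod_cast this
  have h9 : x ^ 2 ≤ 1 / 10 ^ 10 * x ^ 3 := by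
    have h10 : x ^ 2 * 10 ^ 10 ≤ x ^ 2 * x := mul_le_mul_of_nonneg_left hx10 (sq_nonneg x)
    have e : x ^ 2 * x = x ^ 3 := by ring
    rw [e] at h10
    norm_num at h10 ⊢
    linarith
  have h10' : x ≤ x ^ 2 := by
    have : x * 1 ≤ x * x := mul_le_mul_of_nonneg_left (le_trans (by norm_num) hx10) hx0.le
    nlinarith
  have h5 : (S : ℝ) ≤ 11 / 10000 * x ^ 2 := by
    have h10 : (Z1.card : ℝ) + Z2.card + x ^ 2 ≤ 11 / 10 ^ 7 * x ^ 3 := by
      have : 0 < x ^ 3 := by positivity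
      norm_num at h2 h9 ⊢
      linarith
    have h11 : x * ((Z1.card : ℝ) + Z2.card + x ^ 2) ≤ x * (11 / 10 ^ 7 * x ^ 3) :=
      mul_le_mul_of_nonneg_left h10 hx0.le
    apply le_of_sq_le_sq _ (by positivity)
    refine h4.trans (h11.trans ?_)
    have h12 : 0 < x ^ 4 := by positivity
    have e1 : x * (11 / 10 ^ 7 * x ^ 3) = 11 / 10 ^ 7 * x ^ 4 := by ring
    have e2 : (11 / 10000 * x ^ 2) ^ 2 = 121 / 10 ^ 8 * x ^ 4 := by ring
    rw [e1, e2]
    norm_num
    linarith
  -- the errors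
  set B := P.offDiag.filter (fun z => 1 / 100 * x ≤ (er P z.1 z.2 : ℝ)) with hB
  have h6 : (B.card : ℝ) ≤ 11 / 10 ^ 5 * x ^ 2 := by
    have h7 : (B.card : ℝ) * (1 / 100 * x) ≤ (Er P : ℝ) := by
      unfold Er
      rw [Nat.cast_sum, ← nsmul_eq_mul]
      refine (card_nsmul_le_sum B (fun z => (er P z.1 z.2 : ℝ)) _
        (fun z hz => (mem_filter.1 hz).2)).trans ?_
      exact sum_le_sum_of_subset_of_nonneg (filter_subset _ _) (fun _ _ _ => Nat.cast_nonneg _)
    have h8 : (B.card : ℝ) * (1 / 100 * x) ≤ 11 / 10 ^ 5 * x ^ 2 * (1 / 100 * x) := by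
      have e : 11 / 10 ^ 5 * x ^ 2 * (1 / 100 * x) = 11 / 10 ^ 7 * x ^ 3 := by ring
      rw [e]
      exact h7.trans hE
    exact le_of_mul_le_mul_right h8 (by positivity)
  have h7 : ∑ a ∈ A, (K1.filter (fun b => 1 / 100 * x ≤ (er P a b : ℝ))).card ≤ B.card := by
    have h8 : ∑ a ∈ A, (K1.filter (fun b => 1 / 100 * x ≤ (er P a b : ℝ))).card ≤
        ∑ a ∈ P, (B.filter (fun z => z.1 = a)).card := by
      refine le_trans ?_ (sum_le_sum_of_subset hAP)
      apply sum_le_sum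
      intro a ha
      apply card_le_card_of_injOn (fun b => (a, b))
      · intro b hb
        obtain ⟨b1, b2⟩ := mem_filter.1 (mem_coe.1 hb)
        rw [mem_coe]
        refine mem_filter.2 ⟨mem_filter.2 ⟨mem_offDiag.2 ⟨hAP ha, hKP b1, ?_⟩, b2⟩, rfl⟩
        intro h
        have h' : a = b := h
        rw [← h'] at b1
        exact (mem_filter.1 (mem_erase.1 ha).2).2 (mem_filter.1 b1).2
      · intro w _ w' _ h
        exact congrArg Prod.snd h
    refine h8.trans (le_of_eq ?_)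
    exact (card_eq_sum_card_fiberwise (fun z hz =>
      mem_coe.2 (mem_offDiag.1 (mem_filter.1 (mem_coe.1 hz)).1).1)).symm
  -- a good centre
  obtain ⟨a, haA, hbad⟩ : ∃ a ∈ A, ((K1.filter (fun b => (a, b) ∈ richs P (1 / 1000) ∨
      1 / 100 * x ≤ (er P a b : ℝ))).card : ℝ) ≤ 6 / 1000 * x := by
    by_contra hno
    push Not at hno
    have h8 : (A.card : ℝ) * (6 / 1000 * x) ≤ ∑ a ∈ A, ((K1.filter (fun b =>
        (a, b) ∈ richs P (1 / 1000) ∨ 1 / 100 * x ≤ (er P a b : ℝ))).card : ℝ) := by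
      rw [← nsmul_eq_mul]
      exact card_nsmul_le_sum _ _ _ (fun a ha => (hno a ha).le)
    have h10 : ∑ a ∈ A, (K1.filter (fun b =>
        (a, b) ∈ richs P (1 / 1000) ∨ 1 / 100 * x ≤ (er P a b : ℝ))).card ≤ S + B.card := by
      calc ∑ a ∈ A, (K1.filter (fun b =>
          (a, b) ∈ richs P (1 / 1000) ∨ 1 / 100 * x ≤ (er P a b : ℝ))).card
          ≤ ∑ a ∈ A, ((K1.filter (fun b => (a, b) ∈ richs P (1 / 1000))).card +
            (K1.filter (fun b => 1 / 100 * x ≤ (er P a b : ℝ))).card) := by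
            apply sum_le_sum
            intro a _
            rw [filter_or]
            exact card_union_le _ _
        _ ≤ S + B.card := by rw [sum_add_distrib]; exact Nat.add_le_add_left h7 _
    have h11 : ∑ a ∈ A, ((K1.filter (fun b =>
        (a, b) ∈ richs P (1 / 1000) ∨ 1 / 100 * x ≤ (er P a b : ℝ))).card : ℝ) ≤
        (S : ℝ) + B.card := by exact_mod_cast h10
    have h12 : 22 / 100 * x * (6 / 1000 * x) ≤ (A.card : ℝ) * (6 / 1000 * x) :=
      mul_le_mul_of_nonneg_right hAc (by positivity)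
    have h13 : 0 < x ^ 2 := by positivity
    have e : 22 / 100 * x * (6 / 1000 * x) = 132 / 10 ^ 5 * x ^ 2 := by ring
    rw [e] at h12
    norm_num at h12 h6 h5
    linarith
  have haP := hAP haA
  have hac : c ≠ a := fun h => (mem_erase.1 haA).1 h.symm
  set G := K1.filter (fun b => ¬ ((a, b) ∈ richs P (1 / 1000) ∨
    1 / 100 * x ≤ (er P a b : ℝ))) with hG
  set L := G.image (dist a) with hL
  have hGc : 394 / 1000 * x ≤ (G.card : ℝ) := by
    have h8 : (K1.filter (fun b => (a, b) ∈ richs P (1 / 1000) ∨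
        1 / 100 * x ≤ (er P a b : ℝ))).card + G.card = K1.card :=
      card_filter_add_card_filter_not (s := K1)
        (p := fun b => (a, b) ∈ richs P (1 / 1000) ∨ 1 / 100 * x ≤ (er P a b : ℝ))
    have h10 : ((K1.filter (fun b => (a, b) ∈ richs P (1 / 1000) ∨
        1 / 100 * x ≤ (er P a b : ℝ))).card : ℝ) + G.card = K1.card := by exact_mod_cast h8
    linarith
  have hLc : G.card ≤ 2 * L.card := by
    apply card_le_mul_card_image
    intro l _
    by_contra hc
    push Not at hc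
    obtain ⟨y, hy, z, hz, w, hw, n1, n2, n3⟩ := two_lt_card.1 hc
    obtain ⟨y1, y2⟩ := mem_filter.1 hy
    obtain ⟨z1, z2⟩ := mem_filter.1 hz
    obtain ⟨w1, w2⟩ := mem_filter.1 hw
    have y3 : dist c y = r := by rw [dist_comm]; exact (mem_filter.1 (mem_filter.1 y1).1).2
    have z3 : dist c z = r := by rw [dist_comm]; exact (mem_filter.1 (mem_filter.1 z1).1).2
    have w3 : dist c w = r := by rw [dist_comm]; exact (mem_filter.1 (mem_filter.1 w1).1).2
    rcases two_circles (a := c) (b := a) (p := y) (q := z) (r := w) hac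
      (by rw [y3, z3]) (by rw [z3, w3]) (by rw [y2, z2]) (by rw [z2, w2]) with h | h | h
    · exact n1 h
    · exact n3 h
    · exact n2 h
  have hLd : L ⊆ dists P := by
    intro l hl
    obtain ⟨b, hb, rfl⟩ := mem_image.1 hl
    have hb1 := (mem_filter.1 hb).1
    refine mem_image.2 ⟨(a, b), mem_offDiag.2 ⟨haP, hKP hb1, ?_⟩, rfl⟩
    rintro h
    have h' : a = b := h
    rw [← h'] at hb1
    exact (mem_filter.1 (mem_erase.1 haA).2).2 (mem_filter.1 hb1).2
  have hLn : ∀ l ∈ L, 1989 / 1000 * x ≤ ((2 * NL P l : ℕ) : ℝ) := by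
    intro l hl
    obtain ⟨b, hb, rfl⟩ := mem_image.1 hl
    obtain ⟨hb1, hb2⟩ := mem_filter.1 hb
    push Not at hb2
    obtain ⟨hb3, hb4⟩ := hb2
    have hab : a ≠ b := by
      rintro rfl
      exact (mem_filter.1 (mem_erase.1 haA).2).2 (mem_filter.1 hb1).2
    have h8 := two_NL haP (hKP hb1) hab
    have h10 : 2 * x ≤ ((2 * NL P (dist a b) : ℕ) : ℝ) + (wt P a b : ℝ) + (er P a b : ℝ) := by
      rw [hxd]; exact_mod_cast h8
    have h11 : (wt P a b : ℝ) ≤ 1 / 1000 * x := by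
      by_contra h12
      exact hb3 (mem_filter.2 ⟨mem_offDiag.2 ⟨haP, hKP hb1, hab⟩, (not_le.1 h12).le⟩)
    linarith
  -- the sums over the lengths
  set g : ℝ → ℝ := fun l => min ((2 * NL P l : ℕ) : ℝ) x with hg
  have h8 : ∑ l ∈ dists P, g l + 989 / 1000 * x * (L.card : ℝ) ≤
      ∑ l ∈ dists P, ((2 * NL P l : ℕ) : ℝ) := by
    rw [← sum_sdiff hLd, ← sum_sdiff hLd (f := fun l => ((2 * NL P l : ℕ) : ℝ))]
    have h10 : ∑ l ∈ dists P \ L, g l ≤ ∑ l ∈ dists P \ L, ((2 * NL P l : ℕ) : ℝ) :=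
      sum_le_sum fun l _ => min_le_left _ _
    have h11 : ∑ l ∈ L, (g l + 989 / 1000 * x) ≤ ∑ l ∈ L, ((2 * NL P l : ℕ) : ℝ) := by
      apply sum_le_sum
      intro l hl
      have h12 := hLn l hl
      have h13 : g l ≤ x := min_le_right _ _
      linarith
    rw [sum_add_distrib, sum_const, nsmul_eq_mul] at h11
    linarith
  have h10 : ∑ l ∈ dists P, ((2 * NL P l : ℕ) : ℝ) ≤ 6 * ((TC P).card : ℝ) := by
    have h11 := sum_NL P (dists P)
    have h12 : ∑ l ∈ dists P, 2 * NL P l ≤ 6 * (TC P).card := by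
      rw [← mul_sum]; omega
    exact_mod_cast h12
  have hPc : 0 < P.card := lt_of_lt_of_le (by positivity) hn
  have h11 := dists_avg hP hPc
  rw [← hxd] at h11
  have h12 : (Er P : ℝ) / x ≤ 11 / 10 ^ 7 * x ^ 2 := by
    rw [div_le_iff₀ hx0]
    have e : 11 / 10 ^ 7 * x ^ 2 * x = 11 / 10 ^ 7 * x ^ 3 := by ring
    rw [e]; exact hE
  have h13 : 197 / 1000 * x ≤ (L.card : ℝ) := by
    have : (G.card : ℝ) ≤ 2 * L.card := by exact_mod_cast hLc
    linarith
  have h14 : 989 / 1000 * x * (197 / 1000 * x) ≤ 989 / 1000 * x * (L.card : ℝ) :=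
    mul_le_mul_of_nonneg_left h13 (by positivity)
  have h15 : x ≤ 1 / 10 ^ 9 * x ^ 2 := by
    have h16 : x * 10 ^ 10 ≤ x * x := mul_le_mul_of_nonneg_left hx10 hx0.le
    have e : x * x = x ^ 2 := by ring
    rw [e] at h16
    norm_num at h16 ⊢
    linarith
  have h16 : (6 : ℝ) ≤ x := le_trans (by norm_num) hx10
  have h17 : 0 < x ^ 2 := by positivity
  have e : 989 / 1000 * x * (197 / 1000 * x) = 194833 / 10 ^ 6 * x ^ 2 := by ring
  have e' : x * (x - 1) / 3 = x ^ 2 / 3 - x / 3 := by ring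
  rw [e] at h14
  rw [e'] at h11
  norm_num at h14 h15 h12 hT
  linarith

/-- **Sets almost in general position.** -/
theorem genpos_final : ∃ n0 : ℕ, ∀ P P' : Finset Plane, P' ⊆ P → LineBound P' 2 →
    n0 ≤ P.card → 49 * P.card ≤ 50 * P'.card →
    round ((P.card : ℝ) ^ 2 / 12) ≤ ((TC P).card : ℤ) ∧
    (((TC P).card : ℤ) = round ((P.card : ℝ) ^ 2 / 12) →
      ∃ c, Conc.IsRegularPolygon P.card c P) := by
  classical
  obtain ⟨nE, hnE⟩ := energy_small (δ := 1 / 10 ^ 6) (by norm_num)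
  refine ⟨2 * nE + 2 * 10 ^ 80, ?_⟩
  intro P P' hsub hP' hn hm
  by_cases hT : 12 * (TC P).card ≤ P.card ^ 2 + 6
  · have hle : P'.card ≤ P.card := card_le_card hsub
    have hn1 : 10 ^ 80 ≤ P'.card := by omega
    have hn2 : nE ≤ P'.card := by omega
    have hx := huge hn1
    have hAP : NoAP P' := by
      intro a ha b hb c hc habc
      by_contra hab
      have hbc : b ≠ c := by
        rintro rfl
        exact hab (add_right_cancel habc)
      have hac : a ≠ c := by
        rintro rfl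
        apply hab
        have h1 : (2 : ℝ) • a = (2 : ℝ) • b := by rw [two_smul, two_smul]; exact habc
        exact smul_right_injective Plane (two_ne_zero) h1
      have h1 : ({a, b, c} : Finset Plane).card = 3 := card_eq_three.2 ⟨a, b, c, hab, hac, hbc, rfl⟩
      have h2 := hP' {a, b, c} (by
        intro p hp
        rw [mem_insert, mem_insert, mem_singleton] at hp
        rcases hp with rfl | rfl | rfl
        · exact ha
        · exact hb
        · exact hc) (by
        rw [coe_insert, coe_insert, coe_singleton]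
        rw [collinear_iff_of_mem (p₀ := b) (by simp)]
        refine ⟨a - b, ?_⟩
        intro p hp
        rcases hp with rfl | rfl | hp
        · exact ⟨1, by rw [one_smul, vadd_eq_add, sub_add_cancel]⟩
        · exact ⟨0, by rw [zero_smul, vadd_eq_add, zero_add]⟩
        · rw [Set.mem_singleton_iff] at hp
          subst hp
          refine ⟨-1, ?_⟩
          rw [vadd_eq_add]
          have h3 : p = b + b - a := eq_sub_of_add_eq' habc
          rw [h3]
          module)
      omega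
    have hEn := hnE P' hAP hn2
    have hEr := Er_le hP' hEn
    have hpoor := poor_bound hP' (κ := 1 / 1000) (by norm_num)
    have hTm : ((TC P').card : ℝ) ≤ ((TC P).card : ℝ) := by
      exact_mod_cast card_le_card (TC_mono hsub)
    have hT' : 12 * ((TC P).card : ℝ) ≤ (P.card : ℝ) ^ 2 + 6 := by exact_mod_cast hT
    set x : ℝ := (P'.card : ℝ) with hxd
    set y : ℝ := (P.card : ℝ) with hyd
    have hx0 : 0 < x := lt_of_lt_of_le (by positivity) hx
    have hx10 : (10 : ℝ) ^ 10 ≤ x := le_trans (by norm_num) hx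
    have hxy : 49 * y ≤ 50 * x := by rw [hxd, hyd]; exact_mod_cast hm
    have hy0 : 0 ≤ y := Nat.cast_nonneg _
    have hyx : y ^ 2 ≤ 10413 / 10000 * x ^ 2 := by
      have h1 : (49 * y) ^ 2 ≤ (50 * x) ^ 2 := pow_le_pow_left₀ (by positivity) hxy 2
      have h2 : 0 < x ^ 2 := by positivity
      nlinarith
    have hTT : 12 * ((TC P').card : ℝ) ≤ 10413 / 10000 * x ^ 2 + 6 := by linarith
    have h2x : 0 < x ^ 2 := by positivity
    have h3x : 0 < x ^ 3 := by positivity
    have h9 : x ^ 2 ≤ 1 / 10 ^ 10 * x ^ 3 := by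
      have h10 : x ^ 2 * 10 ^ 10 ≤ x ^ 2 * x := mul_le_mul_of_nonneg_left hx10 (sq_nonneg x)
      have e : x ^ 2 * x = x ^ 3 := by ring
      rw [e] at h10
      norm_num at h10 ⊢
      linarith
    have h10 : x ≤ 1 / 10 ^ 10 * x ^ 2 := by
      have h16 : x * 10 ^ 10 ≤ x * x := mul_le_mul_of_nonneg_left hx10 hx0.le
      have e : x * x = x ^ 2 := by ring
      rw [e] at h16
      norm_num at h16 ⊢
      linarith
    have hE : (Er P' : ℝ) ≤ 11 / 10 ^ 7 * x ^ 3 := by
      norm_num at hEr h9 ⊢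
      linarith
    have hR : 4349 / 10000 * x ^ 2 ≤ ((richs P' (1 / 1000)).card : ℝ) := by
      have h1 : (poorN P' (1 / 1000) : ℝ) = x * (x - 1) - ((richs P' (1 / 1000)).card : ℝ) := by
        have h2 : poorN P' (1 / 1000) + (richs P' (1 / 1000)).card = P'.offDiag.card := by
          unfold poorN
          have := card_sdiff_add_card_eq_card (filter_subset
            (fun z => 1 / 1000 * (P'.card : ℝ) ≤ (wt P' z.1 z.2 : ℝ)) P'.offDiag)
          exact this
        have h3 : (P'.offDiag.card : ℝ) = x * (x - 1) := by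
          rw [offDiag_card, Nat.cast_sub (Nat.le_mul_self _), Nat.cast_mul, ← hxd]
          ring
        rw [← h3, ← h2]
        push_cast
        ring
      rw [h1] at hpoor
      set R : ℝ := ((richs P' (1 / 1000)).card : ℝ) with hRd
      have h2 : 36 * x * ((TC P').card : ℝ) ≤ 3 * x * (10413 / 10000 * x ^ 2 + 6) := by
        have := mul_le_mul_of_nonneg_left hTT (by positivity : (0 : ℝ) ≤ 3 * x)
        linarith
      by_contra hc
      push Not at hc
      have h3 : 2 * x * (x * (x - 1) - 4349 / 10000 * x ^ 2) <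
          2 * x * (x * (x - 1) - R) := by
        apply mul_lt_mul_of_pos_left _ (by positivity)
        linarith
      have e1 : 2 * x * (x * (x - 1) - 4349 / 10000 * x ^ 2) =
          2 * x ^ 3 - 2 * x ^ 2 - 8698 / 10000 * x ^ 3 := by ring
      have e2 : 3 * x * (10413 / 10000 * x ^ 2 + 6) = 31239 / 10000 * x ^ 3 + 18 * x := by ring
      have e3 : 2 * x ^ 2 * (x - 1) = 2 * x ^ 3 - 2 * x ^ 2 := by ring
      rw [e1] at h3
      rw [e2] at h2
      rw [e3] at hpoor
      norm_num at h9 h10 hE hpoor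
      linarith
    obtain ⟨c, r, hK⟩ := big_circle hP' hn1 hR
    have hK2 := bigger_circle hP' hn1 hTT hE hK
    have h2 : 3 * P.card ≤ 4 * (P.filter (fun p => dist p c = r)).card := by
      have h3 : ((P'.filter (fun p => dist p c = r)).card : ℝ) ≤
          ((P.filter (fun p => dist p c = r)).card : ℝ) := by
        exact_mod_cast card_le_card (filter_subset_filter (fun p => dist p c = r) hsub)
      have h4 : 3 * (P.card : ℝ) ≤ 4 * ((P.filter (fun p => dist p c = r)).card : ℝ) := by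
        rw [← hyd]
        linarith
      exact_mod_cast h4
    have h17 : 17 ≤ P.card := by omega
    have h3 := circle_final (by omega) h2
    exact ⟨h3.1, fun h => ⟨c, h3.2 (Or.inl h17) h⟩⟩
  · have h1 : P.card ^ 2 ≤ 12 * ((TC P).card - 1) + 5 := by omega
    have h2 := round_le_iff h1
    have h3 : 1 ≤ (TC P).card := by omega
    push_cast [Nat.cast_sub h3] at h2
    exact ⟨by omega, fun h => by omega⟩

end Pool.Agent.ConvTri
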