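import Pool.Agent.Work.MP_dc37f8_co.Count
import Pool.Agent.Work.MP_dc37f8_co.Axis

/-!
# Stability: sets in convex position with few triangle classes have a rich circle
-/

namespace Pool.Agent.ConvTri

open Finset ComplexConjugate

/-- the plane as the complex numbers -/
noncomputable def toC (p : Plane) : ℂ := ⟨p 0, p 1⟩

theorem toC_re (p : Plane) : (toC p).re = p 0 := rfl
theorem toC_im (p : Plane) : (toC p).im = p 1 := rfl

theorem toC_inj : Function.Injective toC := by
  intro p q h
  have h0 := congrArg Complex.re h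
  have h1 := congrArg Complex.im h
  rw [toC_re, toC_re] at h0
  rw [toC_im, toC_im] at h1
  ext i
  fin_cases i
  · exact h0
  · exact h1

theorem toC_add (p q : Plane) : toC (p + q) = toC p + toC q := by
  apply Complex.ext <;> simp [toC]

theorem dist_toC (p q : Plane) : dist (toC p) (toC q) = dist p q := by
  have h : dist (toC p) (toC q) ^ 2 = dist p q ^ 2 := by
    rw [dist_sq, Complex.dist_eq, Complex.sq_norm, Complex.normSq_apply]
    simp [toC]
    ring
  have h2 := abs_eq_abs.2 (sq_eq_sq_iff_eq_or_eq_neg.1 h)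
  rwa [abs_of_nonneg dist_nonneg, abs_of_nonneg dist_nonneg] at h2

/-- inverse -/
noncomputable def ofC (z : ℂ) : Plane := !₂[z.re, z.im]

theorem toC_ofC (z : ℂ) : toC (ofC z) = z := by
  apply Complex.ext <;> simp [toC, ofC]

/-- multiplier of the reflection in the bisector of `a b` -/
noncomputable def mu (a b : Plane) : ℂ :=
  ⟨((b 1 - a 1) ^ 2 - (b 0 - a 0) ^ 2) / ((b 0 - a 0) ^ 2 + (b 1 - a 1) ^ 2),
    -(2 * (b 0 - a 0) * (b 1 - a 1)) / ((b 0 - a 0) ^ 2 + (b 1 - a 1) ^ 2)⟩

/-- the reflection in the bisector of `a b` -/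
noncomputable def axis (a b : Plane) : ℂ × ℂ := (mu a b, toC b - mu a b * conj (toC a))

theorem nsq_ne {a b : Plane} (hab : a ≠ b) : (b 0 - a 0) ^ 2 + (b 1 - a 1) ^ 2 ≠ 0 := by
  have h := (nsq_pos (sub_ne_zero.2 hab.symm)).ne'
  unfold nsq at h
  simpa using h

theorem axis_is {a b : Plane} (hab : a ≠ b) : IsAxis (axis a b) := by
  have h := nsq_ne hab
  constructor
  · unfold axis mu
    apply Complex.ext
    · simp
      field_simp
      ring
    · simp
      ring
  · unfold axis mu toC
    apply Complex.ext
    · simp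
      field_simp
      ring
    · simp
      field_simp
      ring

theorem rfl'_axis {a b : Plane} (hab : a ≠ b) (p : Plane) :
    rfl' (axis a b) (toC p) = toC (rf a b p) := by
  have h := nsq_ne hab
  unfold rfl' axis mu toC rf X nsq
  apply Complex.ext
  · simp
    field_simp
    ring
  · simp
    field_simp
    ring

theorem defi_eq {P : Finset Plane} {a b : Plane} (hab : a ≠ b) :
    dfc (P.image toC) (rfl' (axis a b)) = defi P a b := by
  classical
  unfold dfc defi
  rw [filter_image, card_image_of_injective _ toC_inj]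
  congr 1
  ext p
  simp only [mem_filter, rfl'_axis hab, mem_image, toC_inj.eq_iff, exists_eq_right]

theorem trans_C {P : Finset Plane} (hP : ConvPos P) (t : ℂ) (ht : t ≠ 0) :
    ((P.image toC).filter (fun p => p + t ∈ P.image toC)).card ≤ 2 := by
  classical
  have hv : ofC t ≠ 0 := by
    intro h
    apply ht
    rw [← toC_ofC t, h]
    apply Complex.ext <;> simp [toC]
  rw [filter_image, card_image_of_injective _ toC_inj]
  refine le_trans (le_of_eq ?_) (trans_le_two hP hv)
  congr 1
  ext p
  have e : toC p + t = toC (p + ofC t) := by rw [toC_add, toC_ofC]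
  simp only [mem_filter, e, mem_image, toC_inj.eq_iff, exists_eq_right]

/-- **Stability, counting form.** -/
theorem stability {P : Finset Plane} (hP : ConvPos P) (s : ℕ) (hs : 6 * s + 2 < P.card) :
    ∃ (c : Plane) (r : ℝ), (P.offDiag.filter (fun z => defi P z.1 z.2 ≤ s)).card *
      (P.card - s - 1) ≤ P.card * P.card * (P.filter (fun p => dist p c = r)).card := by
  classical
  set G := P.offDiag.filter (fun z => defi P z.1 z.2 ≤ s) with hG
  set A := G.image (fun z => axis z.1 z.2) with hA
  have hcard : (P.image toC).card = P.card := card_image_of_injective _ toC_inj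
  obtain ⟨O, r, h1⟩ := rich_circle (Q := P.image toC) (trans_C hP) (s := s) (by rw [hcard]; exact hs)
    A (by
      intro a ha
      obtain ⟨z, hz, rfl⟩ := mem_image.1 ha
      obtain ⟨h3, h4⟩ := mem_filter.1 hz
      have hne := (mem_offDiag.1 h3).2.2
      exact ⟨axis_is hne, by rw [defi_eq hne]; exact h4⟩)
  rw [hcard] at h1
  refine ⟨ofC O, r, ?_⟩
  have h2 : ((P.image toC).filter (fun q => dist q O = r)).card =
      (P.filter (fun p => dist p (ofC O) = r)).card := by
    rw [filter_image, card_image_of_injective _ toC_inj]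
    congr 1
    ext p
    have e : dist (toC p) O = dist p (ofC O) := by
      rw [← dist_toC, toC_ofC]
    simp only [mem_filter, e]
  rw [h2] at h1
  have h3 : G.card ≤ A.card * P.card := by
    have h4 : G.card ≤ (A ×ˢ P).card := by
      apply card_le_card_of_injOn (fun z => (axis z.1 z.2, z.1))
      · intro z hz
        have h5 := mem_coe.1 hz
        exact mem_coe.2 (mem_product.2 ⟨mem_image.2 ⟨z, h5, rfl⟩,
          (mem_offDiag.1 (mem_filter.1 h5).1).1⟩)
      · intro z hz w hw h
        have e1 : axis z.1 z.2 = axis w.1 w.2 := congrArg Prod.fst h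
        have e2 : z.1 = w.1 := congrArg Prod.snd h
        have hz3 := (mem_offDiag.1 (mem_filter.1 (mem_coe.1 hz)).1).2.2
        have hw3 := (mem_offDiag.1 (mem_filter.1 (mem_coe.1 hw)).1).2.2
        refine Prod.ext e2 (toC_inj ?_)
        have e3 := rfl'_axis hz3 z.1
        have e4 := rfl'_axis hw3 w.1
        rw [rf_a hz3] at e3
        rw [rf_a hw3] at e4
        rw [← e3, ← e4, e1, e2]
    rwa [card_product] at h4
  calc G.card * (P.card - s - 1) ≤ (A.card * P.card) * (P.card - s - 1) :=
        Nat.mul_le_mul_right _ h3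
    _ = P.card * (A.card * (P.card - s - 1)) := by ring
    _ ≤ P.card * (P.card * _) := Nat.mul_le_mul_left _ h1
    _ = _ := by ring

/-- The number of chords with large deficiency. -/
theorem bad_chords (P : Finset Plane) (s : ℕ) :
    P.offDiag.card * (s + 1) ≤ ∑ z ∈ P.offDiag, defi P z.1 z.2 +
      (P.offDiag.filter (fun z => defi P z.1 z.2 ≤ s)).card * (s + 1) := by
  classical
  have h1 := card_filter_add_card_filter_not (s := P.offDiag) (p := fun z => defi P z.1 z.2 ≤ s)
  have h2 : (P.offDiag.filter (fun z => ¬ (defi P z.1 z.2 ≤ s))).card * (s + 1) ≤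
      ∑ z ∈ P.offDiag, defi P z.1 z.2 := by
    calc (P.offDiag.filter (fun z => ¬ (defi P z.1 z.2 ≤ s))).card * (s + 1)
        = ∑ _z ∈ P.offDiag.filter (fun z => ¬ (defi P z.1 z.2 ≤ s)), (s + 1) := by
          rw [sum_const, smul_eq_mul]
      _ ≤ ∑ z ∈ P.offDiag.filter (fun z => ¬ (defi P z.1 z.2 ≤ s)), defi P z.1 z.2 := by
          apply sum_le_sum
          intro z hz
          have := (mem_filter.1 hz).2
          omega
      _ ≤ _ := sum_le_sum_of_subset (filter_subset _ _)
  rw [← h1]
  calc _ = (P.offDiag.filter (fun z => defi P z.1 z.2 ≤ s)).card * (s + 1) +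
        (P.offDiag.filter (fun z => ¬ (defi P z.1 z.2 ≤ s))).card * (s + 1) := by ring
    _ ≤ _ := by omega

end Pool.Agent.ConvTri
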