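import Pool.Agent.Work.MP_dc37f8_co.Nested2

/-!
# Convex position: at least `n² / 12 - n^(3/2) / 2` classes of triangles
-/

namespace Pool.Agent.ConvTri

open Finset

theorem mul_card_le {α β : Type*} [DecidableEq β] (s : Finset α) (t : Finset β) (f : α → β)
    (k : ℕ) (h : ∀ b ∈ t, k ≤ (s.filter (fun a => f a = b)).card) : k * t.card ≤ s.card := by
  classical
  have h1 : (s.filter (fun a => f a ∈ t)).card =
      ∑ b ∈ t, ((s.filter (fun a => f a ∈ t)).filter (fun a => f a = b)).card :=
    card_eq_sum_card_fiberwise (fun a ha => (mem_filter.1 (mem_coe.1 ha)).2)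
  have h2 : ∀ b ∈ t, k ≤ ((s.filter (fun a => f a ∈ t)).filter (fun a => f a = b)).card := by
    intro b hb
    refine (h b hb).trans (card_le_card ?_)
    intro a ha
    obtain ⟨ha, hab⟩ := mem_filter.1 ha
    exact mem_filter.2 ⟨mem_filter.2 ⟨ha, by rw [hab]; exact hb⟩, hab⟩
  calc k * t.card = ∑ _b ∈ t, k := by rw [sum_const, smul_eq_mul, mul_comm]
    _ ≤ _ := sum_le_sum h2
    _ = _ := h1.symm
    _ ≤ s.card := card_le_card (filter_subset _ _)

theorem dist_refl_a (a b w : Plane) : dist a (a + b - w) = dist b w := by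
  rw [dist_eq_norm, dist_eq_norm]
  rw [← norm_neg (b - w)]
  congr 1
  abel

theorem dist_refl_b (a b w : Plane) : dist b (a + b - w) = dist a w := by
  rw [dist_eq_norm, dist_eq_norm]
  rw [← norm_neg (a - w)]
  congr 1
  abel

/-- The refined bound for the number of big classes. -/
theorem big_symm2 {P : Finset Plane} {a b : Plane} (ha : a ∈ P) (hb : b ∈ P) (hab : a ≠ b) :
    2 * (big P a b).card + 2 ≤ (symm P (a + b)).card := by
  classical
  have ha' : a ∈ symm P (a + b) := by
    unfold symm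
    refine mem_filter.2 ⟨ha, ?_⟩
    have : a + b - a = b := add_sub_cancel_left a b
    rw [this]; exact hb
  have hb' : b ∈ symm P (a + b) := by
    unfold symm
    refine mem_filter.2 ⟨hb, ?_⟩
    have : a + b - b = a := add_sub_cancel_right a b
    rw [this]; exact ha
  set S := ((symm P (a + b)).erase a).erase b with hS
  have hSc : (symm P (a + b)).card = S.card + 2 := by
    rw [hS, card_erase_of_mem (mem_erase.2 ⟨hab.symm, hb'⟩), card_erase_of_mem ha']
    have : 2 ≤ (symm P (a + b)).card := by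
      have h1 : ({a, b} : Finset Plane) ⊆ symm P (a + b) := by
        intro x hx
        rcases mem_insert.1 hx with rfl | hx
        · exact ha'
        · rw [mem_singleton] at hx
          rw [hx]; exact hb'
      have := card_le_card h1
      rwa [card_pair hab] at this
    omega
  have := mul_card_le S (big P a b) (cls a b) 2 (by
    intro m hm
    obtain ⟨_, ⟨p, hp, hpm⟩⟩ := big_spec hab hm
    obtain ⟨_, h3⟩ := mem_filter.1 hm
    have hpP : p ∈ P := (mem_filter.1 hp).1
    have hpq : a + b - p ∈ P := (mem_filter.1 hp).2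
    have hqm : cls a b (a + b - p) = m := by
      rw [← hpm]
      unfold cls
      rw [dist_refl_a, dist_refl_b]
      have h4 : ({dist a p, dist b p} : Multiset ℝ) = {dist b p, dist a p} :=
        Multiset.cons_swap _ _ _
      change dist a b ::ₘ ({dist a p, dist b p} : Multiset ℝ) = dist a b ::ₘ {dist b p, dist a p}
      rw [h4]
    -- the class contains three points which are not `a`, `b`
    obtain ⟨x, hx, y, hy, z, hz, hxy, hxz, hyz⟩ := two_lt_card.1 (by omega :
      2 < ((third P a b).filter (fun p => cls a b p = m)).card)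
    have hne0 : ∀ w : Plane, w = a ∨ w = b → cls a b w = m → False := by
      intro w hw hwm
      obtain ⟨hx1, hxm⟩ := mem_filter.1 hx
      obtain ⟨_, hxa, hxb⟩ := mem_third hx1
      rcases hw with rfl | rfl
      · rcases cls_eq (hwm.trans hxm.symm) with ⟨h5, _⟩ | ⟨h5, _⟩
        · rw [dist_self] at h5; exact hxa (dist_eq_zero.1 h5.symm).symm
        · rw [dist_self] at h5; exact hxb (dist_eq_zero.1 h5.symm).symm
      · rcases cls_eq (hwm.trans hxm.symm) with ⟨_, h5⟩ | ⟨_, h5⟩
        · rw [dist_self] at h5; exact hxb (dist_eq_zero.1 h5.symm).symm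
        · rw [dist_self] at h5; exact hxa (dist_eq_zero.1 h5.symm).symm
    have hpa : p ≠ a := fun h => hne0 p (Or.inl h) hpm
    have hpb : p ≠ b := fun h => hne0 p (Or.inr h) hpm
    have hqa : a + b - p ≠ a := fun h => hne0 _ (Or.inl h) hqm
    have hqb : a + b - p ≠ b := fun h => hne0 _ (Or.inr h) hqm
    have hpq' : p ≠ a + b - p := by
      intro h
      -- then `p` is the midpoint and the class has only one point
      have hmid : ∀ w : Plane, cls a b w = m → w = p := by
        intro w hw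
        have hpp : a + b = p + p := by
          have : p + p = (a + b - p) + p := by rw [← h]
          rw [this]; abel
        have e1 : dist a p = dist b p := by
          have := dist_refl_a a b p
          rw [← h] at this
          exact this
        have e2 : dist a w = dist a p ∧ dist b w = dist a p := by
          rcases cls_eq (hw.trans hpm.symm) with ⟨h5, h6⟩ | ⟨h5, h6⟩
          · exact ⟨h5, h6.trans e1.symm⟩
          · exact ⟨h5.trans e1.symm, h6⟩
        -- parallelogram identity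
        have h7 : ∀ i : Fin 2, a i + b i = 2 * p i := by
          intro i
          have := congrFun (congrArg (fun z : Plane => (z : Fin 2 → ℝ)) hpp) i
          simp only [PiLp.add_apply] at this
          linarith
        have q1 : dist a w ^ 2 = dist a p ^ 2 := by rw [e2.1]
        have q2 : dist b w ^ 2 = dist a p ^ 2 := by rw [e2.2]
        rw [dist_sq, dist_sq] at q1 q2
        have b0 : b 0 = 2 * p 0 - a 0 := by linarith [h7 0]
        have b1 : b 1 = 2 * p 1 - a 1 := by linarith [h7 1]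
        rw [b0, b1] at q2
        have q3 : (w 0 - p 0) ^ 2 + (w 1 - p 1) ^ 2 = 0 := by nlinarith
        have q4 : dist w p ^ 2 = 0 := by rw [dist_sq]; exact q3
        exact dist_eq_zero.1 (pow_eq_zero_iff (two_ne_zero)|>.1 q4)
      exact hxy ((hmid x (mem_filter.1 hx).2).trans (hmid y (mem_filter.1 hy).2).symm)
    have hsub : ({p, a + b - p} : Finset Plane) ⊆ S.filter (fun x => cls a b x = m) := by
      intro x hx
      rcases mem_insert.1 hx with rfl | hx
      · exact mem_filter.2 ⟨mem_erase.2 ⟨hpb, mem_erase.2 ⟨hpa, hp⟩⟩, hpm⟩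
      · rw [mem_singleton] at hx
        rw [hx]
        refine mem_filter.2 ⟨mem_erase.2 ⟨hqb, mem_erase.2 ⟨hqa, ?_⟩⟩, hqm⟩
        unfold symm
        refine mem_filter.2 ⟨hpq, ?_⟩
        have : a + b - (a + b - p) = p := by abel
        rw [this]; exact hpP
    have := card_le_card hsub
    rwa [card_pair hpq'] at this)
  omega

/-- Second moment, refined. -/
theorem second_moment2 {P : Finset Plane} (hP : ConvPos P) (K : Finset Plane) :
    ∑ c ∈ K, (symm P c).card * ((symm P c).card - 1) ≤ 2 * P.card ^ 2 := by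
  classical
  have h1 : ∀ c ∈ K, (symm P c).card * ((symm P c).card - 1) = (P.offDiag.filter
      (fun z => c - z.1 ∈ P ∧ c - z.2 ∈ P)).card := by
    intro c hc
    have h2 : P.offDiag.filter (fun z => c - z.1 ∈ P ∧ c - z.2 ∈ P) = (symm P c).offDiag := by
      ext z
      unfold symm
      simp only [mem_filter, mem_offDiag]
      tauto
    rw [h2, offDiag_card, Nat.mul_sub, mul_one]
  have h2 : ∑ c ∈ K, (P.offDiag.filter (fun z => c - z.1 ∈ P ∧ c - z.2 ∈ P)).card =
      ∑ z ∈ P.offDiag, (K.filter (fun c => c - z.1 ∈ P ∧ c - z.2 ∈ P)).card :=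
    sum_card_bipartiteAbove_eq_sum_card_bipartiteBelow _
  have h3 : ∀ z ∈ P.offDiag, (K.filter (fun c => c - z.1 ∈ P ∧ c - z.2 ∈ P)).card ≤ 2 := by
    intro z hz
    obtain ⟨z1, z2, z3⟩ := mem_offDiag.1 hz
    have hne : z.1 - z.2 ≠ 0 := sub_ne_zero.2 z3
    refine le_trans ?_ (trans_le_two hP hne)
    refine card_le_card_of_injOn (fun c => c - z.1) ?_ ?_
    · intro c hc
      obtain ⟨_, h4, h5⟩ := mem_filter.1 (mem_coe.1 hc)
      refine mem_coe.2 (mem_filter.2 ⟨h4, ?_⟩)
      have : c - z.1 + (z.1 - z.2) = c - z.2 := by abel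
      rw [this]; exact h5
    · intro c _ c' _ h
      simpa using h
  calc ∑ c ∈ K, (symm P c).card * ((symm P c).card - 1)
      = ∑ c ∈ K, (P.offDiag.filter (fun z => c - z.1 ∈ P ∧ c - z.2 ∈ P)).card :=
        sum_congr rfl h1
    _ = ∑ z ∈ P.offDiag, (K.filter (fun c => c - z.1 ∈ P ∧ c - z.2 ∈ P)).card := h2
    _ ≤ ∑ _z ∈ P.offDiag, 2 := sum_le_sum h3
    _ = 2 * P.offDiag.card := by rw [sum_const, smul_eq_mul, mul_comm]
    _ ≤ 2 * P.card ^ 2 := by
        apply Nat.mul_le_mul_left
        rw [offDiag_card, pow_two]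
        exact Nat.sub_le _ _

/-- Exactly `(n - 1) / 2` chords with different lengths whose total loss is at most
`n^(3/2) / 2`. -/
theorem good_chords {P : Finset Plane} (hP : ConvPos P) :
    ∃ K : Chords P, K.D.card = (P.card - 1) / 2 ∧
      4 * (∑ l ∈ K.D, (big P (K.α l) (K.β l)).card) ^ 2 ≤ P.card ^ 3 := by
  classical
  obtain ⟨K, hK1, hK2⟩ := many_nested hP
  obtain ⟨D, hD, hDc⟩ := exists_subset_card_eq (show (P.card - 1) / 2 ≤ K.D.card by omega)
  refine ⟨⟨D, K.α, K.β, fun l hl => K.hα l (hD hl), fun l hl => K.hβ l (hD hl),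
    fun l hl => K.hne l (hD hl), fun l hl => K.hd l (hD hl)⟩, hDc, ?_⟩
  simp only
  set b : ℝ → ℕ := fun l => (big P (K.α l) (K.β l)).card with hb
  have h1 : (∑ l ∈ D, b l) ^ 2 ≤ D.card * ∑ l ∈ D, (b l) ^ 2 := sq_sum_le_card_mul_sum_sq
  have h2 : 4 * ∑ l ∈ D, (b l) ^ 2 ≤ 2 * P.card ^ 2 := by
    have hinj : Set.InjOn (fun l => K.α l + K.β l) (D : Set ℝ) := by
      intro l hl l' hl' h
      exact hK2 l (hD (mem_coe.1 hl)) l' (hD (mem_coe.1 hl')) h
    have h3 := second_moment2 hP (D.image (fun l => K.α l + K.β l))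
    rw [sum_image hinj] at h3
    refine le_trans ?_ h3
    rw [mul_sum]
    apply sum_le_sum
    intro l hl
    have h4 := big_symm2 (K.hα l (hD hl)) (K.hβ l (hD hl)) (K.hne l (hD hl))
    change 4 * (b l) ^ 2 ≤ _
    have h5 : 2 * b l + 2 ≤ (symm P (K.α l + K.β l)).card := h4
    calc 4 * (b l) ^ 2 ≤ (2 * b l + 2) * (2 * b l + 2 - 1) := by
          have : 2 * b l + 2 - 1 = 2 * b l + 1 := by omega
          rw [this]; nlinarith
      _ ≤ _ := Nat.mul_le_mul h5 (by omega)
  have h3 : 2 * D.card ≤ P.card := by omega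
  calc 4 * (∑ l ∈ D, b l) ^ 2 ≤ 4 * (D.card * ∑ l ∈ D, (b l) ^ 2) := Nat.mul_le_mul_left _ h1
    _ = D.card * (4 * ∑ l ∈ D, (b l) ^ 2) := by ring
    _ ≤ D.card * (2 * P.card ^ 2) := Nat.mul_le_mul_left _ h2
    _ = (2 * D.card) * P.card ^ 2 := by ring
    _ ≤ P.card * P.card ^ 2 := Nat.mul_le_mul_right _ h3
    _ = P.card ^ 3 := by ring

/-- The bound for all `n`. -/
theorem main32 {P : Finset Plane} (hP : ConvPos P) :
    (P.card : ℝ) ^ 2 / 12 - (P.card : ℝ) ^ (3 / 2 : ℝ) / 2 ≤ (TC P).card := by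
  classical
  obtain ⟨K, hKc, hS⟩ := good_chords hP
  set n : ℝ := (P.card : ℝ) with hn
  have hn0 : 0 ≤ n := Nat.cast_nonneg _
  set T : ℝ := ((TC P).card : ℝ) with hT
  have hT0 : 0 ≤ T := Nat.cast_nonneg _
  set S : ℕ := ∑ l ∈ K.D, (big P (K.α l) (K.β l)).card with hSd
  set x : ℝ := Real.sqrt n with hx
  have hx0 : 0 ≤ x := Real.sqrt_nonneg _
  have hxn : n = x ^ 2 := (Real.sq_sqrt hn0).symm
  have h32 : n ^ (3 / 2 : ℝ) = x ^ 3 := by
    rw [hx, Real.sqrt_eq_rpow, ← Real.rpow_natCast, ← Real.rpow_mul hn0]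
    norm_num
  rw [h32]
  have hSr : (S : ℝ) ≤ x ^ 3 / 2 := by
    have h1 : ((4 * S ^ 2 : ℕ) : ℝ) ≤ ((P.card ^ 3 : ℕ) : ℝ) := by exact_mod_cast hS
    push_cast at h1
    rw [← hn, hxn] at h1
    have h2 : (2 * (S : ℝ)) ^ 2 ≤ (x ^ 3) ^ 2 := by nlinarith
    have := abs_le_of_sq_le_sq' h2 (pow_nonneg hx0 3)
    linarith [this.2]
  have hall : (P.card - 1) / 2 * P.card ≤ 6 * (TC P).card + 2 * S + 2 * ((P.card - 1) / 2) := by
    have h1 : ∀ l ∈ K.D, P.card ≤ 2 * (overC P (K.α l) (K.β l)).card +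
        2 * (big P (K.α l) (K.β l)).card + 2 :=
      fun l hl => over_card (K.hα l hl) (K.hβ l hl) (K.hne l hl)
    have h2 := sum_le_sum h1
    rw [sum_const, smul_eq_mul, sum_add_distrib, sum_add_distrib, ← mul_sum, ← mul_sum,
      sum_const, smul_eq_mul, hKc] at h2
    have h3 := sum_over K
    omega
  rcases Nat.lt_or_ge P.card 2 with h2 | h2
  · have h3 : n ≤ 1 := by rw [hn]; exact_mod_cast (by omega : P.card ≤ 1)
    have : x ≤ 1 := by nlinarith
    rcases Nat.eq_zero_or_pos P.card with h0 | h0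
    · have h00 : n = 0 := by rw [hn, h0]; exact Nat.cast_zero
      have hx' : x = 0 := by rw [hx, h00]; exact Real.sqrt_zero
      rw [h00, hx']; linarith [hT0]
    · have h11 : n = 1 := by
        have h12 : P.card = 1 := by omega
        rw [hn, h12]; exact Nat.cast_one
      have hx' : x = 1 := by rw [hx, h11]; exact Real.sqrt_one
      rw [h11, hx']; linarith [hT0]
  · set k : ℕ := (P.card - 1) / 2 with hk
    have hk2 : n - 2 ≤ 2 * k := by
      have : P.card ≤ 2 * k + 2 := by omega
      have : (P.card : ℝ) ≤ 2 * k + 2 := by exact_mod_cast this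
      rw [hn]; linarith
    have hn2 : 2 ≤ n := by rw [hn]; exact_mod_cast h2
    have hallr : (k : ℝ) * n ≤ 6 * T + 2 * S + 2 * k := by
      have : ((k * P.card : ℕ) : ℝ) ≤ ((6 * (TC P).card + 2 * S + 2 * k : ℕ) : ℝ) := by
        exact_mod_cast hall
      push_cast at this
      rw [hn, hT]; linarith
    have h5 : (n - 2) * (n - 2) ≤ 2 * k * (n - 2) := mul_le_mul_of_nonneg_right hk2 (by linarith)
    have hx1 : 1 ≤ x := by nlinarith
    have h6 : n ≤ x ^ 3 := by rw [hxn]; nlinarith [sq_nonneg x]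
    nlinarith

end Pool.Agent.ConvTri
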