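import Pool.Agent.Work.MP_dc37f8_co.Cubic

/-!
# Nested chords: different lengths and different midpoints
-/

namespace Pool.Agent.ConvTri

open Finset

/-- Two points of a chain other than its leftmost point do not have the same midpoint as the ends. -/
theorem mid_ne {C : Finset (ℝ × ℝ)} (hS : Concave (C : Set (ℝ × ℝ))) {u v p q : ℝ × ℝ}
    (hu : u ∈ C) (hv : v ∈ C) (hp : p ∈ C) (hq : q ∈ C) (hup : u.1 ≤ p.1) (huq : u.1 ≤ q.1)
    (hpv : p.1 ≤ v.1) (hqv : q.1 ≤ v.1) (h : p + q = u + v) (huv : u ≠ v)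
    (hpu : p ≠ u) (hqu : q ≠ u) : False := by
  have h1 : p.1 + q.1 = u.1 + v.1 := congrArg Prod.fst h
  have h2 : p.2 + q.2 = u.2 + v.2 := congrArg Prod.snd h
  have hpv' : p ≠ v := by
    rintro rfl
    apply hqu
    rw [add_comm] at h
    exact add_right_cancel h
  have hqv' : q ≠ v := by
    rintro rfl
    exact hpu (add_right_cancel h)
  have e1 : u.1 < p.1 := lt_of_le_of_ne hup fun h => hpu (hS.inj p hp u hu h.symm)
  have e2 : u.1 < q.1 := lt_of_le_of_ne huq fun h => hqu (hS.inj q hq u hu h.symm)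
  have e3 : p.1 < v.1 := lt_of_le_of_ne hpv fun h => hpv' (hS.inj p hp v hv h)
  have e4 : q.1 < v.1 := lt_of_le_of_ne hqv fun h => hqv' (hS.inj q hq v hv h)
  have t1 := hS.turn u hu p hp v hv e1 e3
  have t2 := hS.turn u hu q hq v hv e2 e4
  unfold Turn at t1 t2
  have hp1 : p.1 = u.1 + v.1 - q.1 := by linarith
  have hp2 : p.2 = u.2 + v.2 - q.2 := by linarith
  rw [hp1, hp2] at t1
  nlinarith

theorem nested_step {C : Finset (ℝ × ℝ)} (hS : Concave (C : Set (ℝ × ℝ))) {l : ℝ} (hl : 0 < l)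
    (hA : ((0, 0) : ℝ × ℝ) ∈ C) (hB : ((l, 0) : ℝ × ℝ) ∈ C)
    (hS0 : ∀ p ∈ C, 0 ≤ p.1) (hSl : ∀ p ∈ C, p.1 ≤ l)
    (hmax : ∀ p ∈ C, ∀ q ∈ C, sd p q ≤ l ^ 2) :
    ∀ n : ℕ, ∀ D ⊆ C, D.card = n + 2 → ∀ u ∈ D, ∀ v ∈ D, (∀ x ∈ D, u.1 ≤ x.1) →
      (∀ x ∈ D, x.1 ≤ v.1) → (u ≠ (0, 0) ∨ v ≠ (l, 0)) →
      ∃ W : Finset ((ℝ × ℝ) × (ℝ × ℝ)), W ⊆ D.offDiag ∧ n + 1 ≤ W.card ∧
        (∀ w ∈ W, sd w.1 w.2 ≤ sd u v) ∧
        (∀ w ∈ W, ∀ w' ∈ W, sd w.1 w.2 = sd w'.1 w'.2 → w = w') ∧
        (∀ w ∈ W, ∀ w' ∈ W, w.1 + w.2 = w'.1 + w'.2 → w = w') := by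
  intro n
  induction n with
  | zero =>
    intro D hDC hcard u hu v hv hmin hmx hne
    have huv : u ≠ v := by
      rintro rfl
      have : D ⊆ {u} := by
        intro x hx
        have h1 : x.1 = u.1 := le_antisymm (hmx x hx) (hmin x hx)
        rw [mem_singleton]
        exact hS.inj x (hDC hx) u (hDC hu) h1
      have := card_le_card this
      rw [card_singleton] at this
      omega
    refine ⟨{(u, v)}, ?_, by simp, by simp, by simp, by simp⟩
    intro w hw
    rw [mem_singleton] at hw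
    rw [hw]
    exact mem_offDiag.2 ⟨hu, hv, huv⟩
  | succ n ih =>
    intro D hDC hcard u hu v hv hmin hmx hne
    have huv : u ≠ v := by
      rintro rfl
      have : D ⊆ {u} := by
        intro x hx
        have h1 : x.1 = u.1 := le_antisymm (hmx x hx) (hmin x hx)
        rw [mem_singleton]
        exact hS.inj x (hDC hx) u (hDC hu) h1
      have := card_le_card this
      rw [card_singleton] at this
      omega
    have hcu : (D.erase u).card = n + 2 := by rw [card_erase_of_mem hu, hcard]; rfl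
    have hcv : (D.erase v).card = n + 2 := by rw [card_erase_of_mem hv, hcard]; rfl
    obtain ⟨s, hs, hsmin⟩ := exists_min_image (D.erase u) (fun x => x.1)
      (card_pos.1 (by omega))
    obtain ⟨t, ht, htmax⟩ := exists_max_image (D.erase v) (fun x => x.1)
      (card_pos.1 (by omega))
    have hsu : u.1 < s.1 := by
      have h1 := hmin s (mem_of_mem_erase hs)
      refine lt_of_le_of_ne h1 fun h => ?_
      exact (ne_of_mem_erase hs) (hS.inj s (hDC (mem_of_mem_erase hs)) u (hDC hu) h.symm)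
    have htv : t.1 < v.1 := by
      have h1 := hmx t (mem_of_mem_erase ht)
      refine lt_of_le_of_ne h1 fun h => ?_
      exact (ne_of_mem_erase ht) (hS.inj t (hDC (mem_of_mem_erase ht)) v (hDC hv) h)
    have hst : s.1 ≤ t.1 := by
      have h3 : 0 < ((D.erase u).erase v).card := by
        have hve : v ∈ D.erase u := mem_erase.2 ⟨huv.symm, hv⟩
        rw [card_erase_of_mem hve, hcu]
        omega
      obtain ⟨m, hm⟩ := card_pos.1 h3
      have hmv : m ≠ v := ne_of_mem_erase hm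
      have hmu : m ≠ u := ne_of_mem_erase (mem_of_mem_erase hm)
      have hmD : m ∈ D := mem_of_mem_erase (mem_of_mem_erase hm)
      exact (hsmin m (mem_erase.2 ⟨hmu, hmD⟩)).trans (htmax m (mem_erase.2 ⟨hmv, hmD⟩))
    have hsD := mem_of_mem_erase hs
    have htD := mem_of_mem_erase ht
    -- adding the long chord
    have add_chord : ∀ (E : Finset (ℝ × ℝ)) (W : Finset ((ℝ × ℝ) × (ℝ × ℝ))) (r : ℝ),
        E ⊆ D → (u ∉ E ∨ v ∉ E) → r < sd u v → W ⊆ E.offDiag → n + 1 ≤ W.card →
        (∀ w ∈ W, sd w.1 w.2 ≤ r) →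
        (∀ w ∈ W, ∀ w' ∈ W, sd w.1 w.2 = sd w'.1 w'.2 → w = w') →
        (∀ w ∈ W, ∀ w' ∈ W, w.1 + w.2 = w'.1 + w'.2 → w = w') →
        ∃ W : Finset ((ℝ × ℝ) × (ℝ × ℝ)), W ⊆ D.offDiag ∧ n + 1 + 1 ≤ W.card ∧
        (∀ w ∈ W, sd w.1 w.2 ≤ sd u v) ∧
        (∀ w ∈ W, ∀ w' ∈ W, sd w.1 w.2 = sd w'.1 w'.2 → w = w') ∧
        (∀ w ∈ W, ∀ w' ∈ W, w.1 + w.2 = w'.1 + w'.2 → w = w') := by
      intro E W r hED hnot hr hW1 hW2 hW3 hW4 hW5
      have hlt : ∀ w ∈ W, sd w.1 w.2 < sd u v := fun w hw => (hW3 w hw).trans_lt hr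
      have hmid : ∀ w ∈ W, w.1 + w.2 ≠ u + v := by
        intro w hw h
        obtain ⟨w1, w2, w3⟩ := mem_offDiag.1 (hW1 hw)
        rcases hnot with hn | hn
        · exact mid_ne hS (hDC hu) (hDC hv) (hDC (hED w1)) (hDC (hED w2)) (hmin _ (hED w1))
            (hmin _ (hED w2)) (hmx _ (hED w1)) (hmx _ (hED w2)) h huv
            (fun h => hn (by rw [← h]; exact w1)) (fun h => hn (by rw [← h]; exact w2))
        · have hw1u : w.1 ≠ u := by
            intro h1
            rw [h1] at h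
            have : w.2 = v := add_left_cancel h
            exact hn (by rw [← this]; exact w2)
          have hw2u : w.2 ≠ u := by
            intro h1
            rw [h1, add_comm] at h
            have : w.1 = v := add_left_cancel h
            exact hn (by rw [← this]; exact w1)
          exact mid_ne hS (hDC hu) (hDC hv) (hDC (hED w1)) (hDC (hED w2)) (hmin _ (hED w1))
            (hmin _ (hED w2)) (hmx _ (hED w1)) (hmx _ (hED w2)) h huv hw1u hw2u
      refine ⟨insert (u, v) W, ?_, ?_, ?_, ?_, ?_⟩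
      · intro w hw
        rcases mem_insert.1 hw with rfl | hw
        · exact mem_offDiag.2 ⟨hu, hv, huv⟩
        · obtain ⟨w1, w2, w3⟩ := mem_offDiag.1 (hW1 hw)
          exact mem_offDiag.2 ⟨hED w1, hED w2, w3⟩
      · rw [card_insert_of_notMem]
        · omega
        · intro hmem
          exact lt_irrefl _ (hlt _ hmem)
      · intro w hw
        rcases mem_insert.1 hw with rfl | hw
        · exact le_rfl
        · exact (hlt w hw).le
      · intro w hw w' hw' h
        rcases mem_insert.1 hw with rfl | hw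
        · rcases mem_insert.1 hw' with rfl | hw'
          · rfl
          · have := hlt w' hw'
            rw [← h] at this
            exact absurd this (lt_irrefl _)
        · rcases mem_insert.1 hw' with rfl | hw'
          · have := hlt w hw
            rw [h] at this
            exact absurd this (lt_irrefl _)
          · exact hW4 w hw w' hw' h
      · intro w hw w' hw' h
        rcases mem_insert.1 hw with rfl | hw
        · rcases mem_insert.1 hw' with rfl | hw'
          · rfl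
          · exact absurd h.symm (hmid w' hw')
        · rcases mem_insert.1 hw' with rfl | hw'
          · exact absurd h (hmid w hw)
          · exact hW5 w hw w' hw' h
    rcases contraction hS hl hA hB hS0 hSl hmax (hDC hu) (hDC hsD) (hDC htD) (hDC hv) hsu hst htv
      hne with h | h
    · have hvs : v ≠ u := huv.symm
      obtain ⟨W, hW1, hW2, hW3, hW4, hW5⟩ := ih (D.erase u) ((erase_subset _ _).trans hDC) hcu s
        hs v (mem_erase.2 ⟨hvs, hv⟩) hsmin (fun x hx => hmx x (mem_of_mem_erase hx)) (Or.inl (by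
          rintro rfl
          have := hS0 u (hDC hu)
          simp only at hsu
          linarith))
      exact add_chord (D.erase u) W _ (erase_subset _ _) (Or.inl (notMem_erase _ _)) h hW1 hW2
        hW3 hW4 hW5
    · obtain ⟨W, hW1, hW2, hW3, hW4, hW5⟩ := ih (D.erase v) ((erase_subset _ _).trans hDC) hcv u
        (mem_erase.2 ⟨huv, hu⟩) t ht (fun x hx => hmin x (mem_of_mem_erase hx)) htmax (Or.inr (by
          rintro rfl
          have := hSl v (hDC hv)
          simp only at htv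
          linarith))
      exact add_chord (D.erase v) W _ (erase_subset _ _) (Or.inr (notMem_erase _ _)) h hW1 hW2
        hW3 hW4 hW5

/-- A concave chain of `k` points whose largest distance joins its ends has at least
`k - 2` chords with different lengths and different midpoints. -/
theorem nested_chords {C : Finset (ℝ × ℝ)} (hS : Concave (C : Set (ℝ × ℝ))) {l : ℝ}
    (hl : 0 < l) (hA : ((0, 0) : ℝ × ℝ) ∈ C) (hB : ((l, 0) : ℝ × ℝ) ∈ C)
    (hS0 : ∀ p ∈ C, 0 ≤ p.1) (hSl : ∀ p ∈ C, p.1 ≤ l)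
    (hmax : ∀ p ∈ C, ∀ q ∈ C, sd p q ≤ l ^ 2) :
    ∃ W : Finset ((ℝ × ℝ) × (ℝ × ℝ)), W ⊆ C.offDiag ∧ C.card ≤ W.card + 2 ∧
        (∀ w ∈ W, ∀ w' ∈ W, sd w.1 w.2 = sd w'.1 w'.2 → w = w') ∧
        (∀ w ∈ W, ∀ w' ∈ W, w.1 + w.2 = w'.1 + w'.2 → w = w') := by
  by_cases h3 : C.card ≤ 2
  · exact ⟨∅, by simp, by simpa using h3, by simp, by simp⟩
  push Not at h3
  obtain ⟨n, hn⟩ : ∃ n, C.card = n + 3 := ⟨C.card - 3, by omega⟩
  have hc : (C.erase (0, 0)).card = n + 2 := by rw [card_erase_of_mem hA, hn]; rfl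
  obtain ⟨s, hs, hsmin⟩ := exists_min_image (C.erase (0, 0)) (fun x => x.1)
    (card_pos.1 (by omega))
  have hBe : ((l, 0) : ℝ × ℝ) ∈ C.erase (0, 0) := by
    refine mem_erase.2 ⟨?_, hB⟩
    intro h
    have := congrArg Prod.fst h
    simp only at this
    linarith
  obtain ⟨W, hW1, hW2, -, hW4, hW5⟩ := nested_step hS hl hA hB hS0 hSl hmax n (C.erase (0, 0))
    (erase_subset _ _) hc s hs (l, 0) hBe hsmin (fun x hx => hSl x (mem_of_mem_erase hx))
    (Or.inl (ne_of_mem_erase hs))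
  refine ⟨W, ?_, by omega, hW4, hW5⟩
  intro w hw
  obtain ⟨z1, z2, z3⟩ := mem_offDiag.1 (hW1 hw)
  exact mem_offDiag.2 ⟨mem_of_mem_erase z1, mem_of_mem_erase z2, z3⟩

end Pool.Agent.ConvTri
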