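import Pool.Agent.Work.MP_dc37f8_co.Nested

/-!
# Nested chords of a set in strictly convex position
-/

namespace Pool.Agent.ConvTri

open Finset

theorem half_nested {P : Finset Plane} (hP : ConvPos P) {A B : Plane} (hA : A ∈ P) (hB : B ∈ P)
    (hAB : A ≠ B) (hmax : ∀ p ∈ P, ∀ q ∈ P, dist p q ≤ dist A B) :
    ∃ W : Finset (Plane × Plane), W ⊆ P.offDiag ∧
      (P.filter (fun p => 0 ≤ Y (B - A) (p - A))).card ≤ W.card + 2 ∧
      (∀ w ∈ W, ∀ w' ∈ W, dist w.1 w.2 = dist w'.1 w'.2 → w = w') ∧
      (∀ w ∈ W, ∀ w' ∈ W, w.1 + w.2 = w'.1 + w'.2 → w = w') := by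
  classical
  set d : Plane := B - A with hd
  have hd0 : d ≠ 0 := sub_ne_zero.2 hAB.symm
  set l : ℝ := nsq d with hl
  have hl0 : 0 < l := nsq_pos hd0
  have hl' : l = dist A B ^ 2 := by
    rw [hl, dist_sq, hd]; unfold nsq; simp; ring
  set Φ : Plane → ℝ × ℝ := fun z => (X d (z - A), Y d (z - A)) with hΦ
  have hXs : ∀ z w : Plane, X d (z - w) = X d z - X d w := by
    intro z w; unfold X; simp; ring
  have hYs : ∀ z w : Plane, Y d (z - w) = Y d z - Y d w := by
    intro z w; unfold Y; simp; ring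
  have hsd : ∀ p q, sd (Φ p) (Φ q) = l * dist p q ^ 2 := by
    intro p q
    rw [← XY_norm d p q]
    unfold sd
    simp only [hΦ, hXs, hYs]
    ring
  have hΦA : Φ A = (0, 0) := by
    simp only [hΦ, hXs, hYs]; simp
  have hΦB : Φ B = (l, 0) := by
    simp only [hΦ]
    rw [← hd, hl]
    unfold X Y nsq
    ext
    · simp only; ring
    · simp only; ring
  have hΦinj : Function.Injective Φ := by
    intro p q h
    simp only [hΦ, Prod.mk.injEq, hXs, hYs] at h
    exact XY_inj hd0 (by linarith [h.1]) (by linarith [h.2])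
  -- the lens
  have hlens0 : ∀ p ∈ P, dist p A ^ 2 ≤ 2 * X d (p - A) := by
    intro p hp
    have h1 := hmax p hp B hB
    have h2 : dist p B ^ 2 ≤ l := by
      rw [hl']; exact pow_le_pow_left₀ dist_nonneg h1 2
    have h3 : dist p B ^ 2 = dist p A ^ 2 - 2 * X d (p - A) + l := by
      rw [hl, dist_sq, dist_sq, hd]; unfold X nsq; simp; ring
    linarith
  have hlens1 : ∀ p ∈ P, dist p B ^ 2 ≤ 2 * (l - X d (p - A)) := by
    intro p hp
    have h1 := hmax p hp A hA
    have h2 : dist p A ^ 2 ≤ l := by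
      rw [hl']; exact pow_le_pow_left₀ dist_nonneg h1 2
    have h3 : dist p B ^ 2 = dist p A ^ 2 - 2 * X d (p - A) + l := by
      rw [hl, dist_sq, dist_sq, hd]; unfold X nsq; simp; ring
    linarith
  have hX0 : ∀ p ∈ P, 0 ≤ X d (p - A) := by
    intro p hp
    have := hlens0 p hp
    nlinarith [sq_nonneg (dist p A)]
  have hX1 : ∀ p ∈ P, X d (p - A) ≤ l := by
    intro p hp
    have := hlens1 p hp
    nlinarith [sq_nonneg (dist p B)]
  have hXA : ∀ p ∈ P, X d (p - A) = 0 → p = A := by
    intro p hp h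
    have := hlens0 p hp
    rw [h] at this
    have h2 : dist p A ^ 2 = 0 := le_antisymm (by linarith) (sq_nonneg _)
    exact dist_eq_zero.1 (pow_eq_zero_iff (two_ne_zero)|>.1 h2)
  have hXB : ∀ p ∈ P, X d (p - A) = l → p = B := by
    intro p hp h
    have := hlens1 p hp
    rw [h] at this
    have h2 : dist p B ^ 2 = 0 := le_antisymm (by linarith) (sq_nonneg _)
    exact dist_eq_zero.1 (pow_eq_zero_iff (two_ne_zero)|>.1 h2)
  -- the point of `AB` below `q`
  have hbelow : ∀ q ∈ P, q ≠ A → q ≠ B → ∃ z ∈ convexHull ℝ ((P : Set Plane) \ {q}),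
      X d z = X d q ∧ Y d (z - A) = 0 := by
    intro q hq hqA hqB
    have h0 := hX0 q hq
    have h1 := hX1 q hq
    refine ⟨(1 - X d (q - A) / l) • A + (X d (q - A) / l) • B, ?_, ?_, ?_⟩
    · exact convex_convexHull ℝ _ (mem_hull_diff hA hqA.symm) (mem_hull_diff hB hqB.symm)
        (by
          have : X d (q - A) / l ≤ 1 := by rw [div_le_one hl0]; exact h1
          linarith) (div_nonneg h0 hl0.le) (by ring)
    · rw [X_comb]
      have h2 : X d B = X d A + l := by
        rw [hl, hd]; unfold X nsq; simp; ring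
      rw [h2, hXs]
      field_simp
      ring
    · rw [hYs, Y_comb]
      have h2 : Y d B = Y d A := by
        rw [hd]; unfold Y; simp; ring
      rw [h2]; ring
  set U : Finset Plane := P.filter (fun p => 0 ≤ Y d (p - A)) with hU
  set C : Finset (ℝ × ℝ) := U.image Φ with hC
  have hUP : ∀ p ∈ U, p ∈ P := fun p hp => (mem_filter.1 hp).1
  have hUY : ∀ p ∈ U, 0 ≤ Y d (p - A) := fun p hp => (mem_filter.1 hp).2
  have hconc : Concave (C : Set (ℝ × ℝ)) := by
    constructor
    · intro p' hp' q' hq' hpq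
      obtain ⟨p, hp, rfl⟩ := mem_image.1 (mem_coe.1 hp')
      obtain ⟨q, hq, rfl⟩ := mem_image.1 (mem_coe.1 hq')
      simp only [hΦ] at hpq
      congr 1
      -- wlog the first is lower
      have key : ∀ p ∈ U, ∀ q ∈ U, X d (p - A) = X d (q - A) → Y d p < Y d q → False := by
        intro p hp q hq hx hy
        have hpA : p ≠ A := by
          rintro rfl
          have h1 : X d (q - p) = 0 := by rw [← hx, hXs]; ring
          have := hXA q (hUP q hq) h1
          rw [this] at hy
          exact lt_irrefl _ hy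
        have hpB : p ≠ B := by
          rintro rfl
          have h1 : X d (q - A) = l := by
            rw [← hx, ← hd, hl]; unfold X nsq; ring
          have := hXB q (hUP q hq) h1
          rw [this] at hy
          exact lt_irrefl _ hy
        have hqp : q ≠ p := by
          rintro rfl
          exact lt_irrefl _ hy
        obtain ⟨z, hz, hz1, hz2⟩ := hbelow p (hUP p hp) hpA hpB
        refine not_between hP hd0 (hUP p hp) hz (mem_hull_diff (hUP q hq) hqp) hz1 ?_ ?_ hy.le
        · have := hXs p A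
          have := hXs q A
          linarith
        · have h1 := hUY p hp
          rw [hYs] at h1 hz2
          linarith
      rcases lt_trichotomy (Y d p) (Y d q) with h | h | h
      · exact (key p hp q hq hpq h).elim
      · refine XY_inj hd0 ?_ h
        have := hXs p A
        have := hXs q A
        linarith
      · exact (key q hq p hp hpq.symm h).elim
    · intro p' hp' q' hq' r' hr' h1 h2
      obtain ⟨p, hp, rfl⟩ := mem_image.1 (mem_coe.1 hp')
      obtain ⟨q, hq, rfl⟩ := mem_image.1 (mem_coe.1 hq')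
      obtain ⟨r, hr, rfl⟩ := mem_image.1 (mem_coe.1 hr')
      unfold Turn
      by_contra hcon
      push Not at hcon
      simp only [hΦ, hXs, hYs] at h1 h2 hcon
      have hqA : q ≠ A := by
        rintro rfl
        have := hX0 p (hUP p hp)
        rw [hXs] at this
        linarith
      have hqB : q ≠ B := by
        rintro rfl
        have h3 := hX1 r (hUP r hr)
        have h4 : X d (q - A) = l := by rw [← hd, hl]; unfold X nsq; ring
        rw [hXs] at h3 h4
        linarith
      have hpq : p ≠ q := by rintro rfl; linarith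
      have hrq : r ≠ q := by rintro rfl; linarith
      obtain ⟨z, hz, hz1, hz2⟩ := hbelow q (hUP q hq) hqA hqB
      have hpr : 0 < X d r - X d p := by linarith
      set τ : ℝ := (X d q - X d p) / (X d r - X d p) with hτ
      have hτ0 : 0 ≤ τ := div_nonneg (by linarith) hpr.le
      have hτ1 : 0 ≤ 1 - τ := by
        have : τ ≤ 1 := by rw [hτ, div_le_one hpr]; linarith
        linarith
      have hτm : τ * (X d r - X d p) = X d q - X d p := div_mul_cancel₀ _ hpr.ne'
      have hz' : (1 - τ) • p + τ • r ∈ convexHull ℝ ((P : Set Plane) \ {q}) :=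
        convex_convexHull ℝ _ (mem_hull_diff (hUP p hp) hpq) (mem_hull_diff (hUP r hr) hrq)
          hτ1 hτ0 (by ring)
      refine not_between hP hd0 (hUP q hq) hz hz' hz1 ?_ ?_ ?_
      · rw [X_comb]; linarith
      · have h3 := hUY q hq
        rw [hYs] at h3 hz2
        linarith
      · rw [Y_comb]
        have h5 : (Y d q) * (X d r - X d p) ≤ ((1 - τ) * Y d p + τ * Y d r) * (X d r - X d p) := by
          have : ((1 - τ) * Y d p + τ * Y d r) * (X d r - X d p) =
            Y d p * (X d r - X d p) + (τ * (X d r - X d p)) * (Y d r - Y d p) := by ring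
          rw [this, hτm]
          nlinarith
        exact le_of_mul_le_mul_right h5 hpr
  have hAU : A ∈ U := by
    rw [hU, mem_filter]
    refine ⟨hA, ?_⟩
    rw [hYs]; simp
  have hBU : B ∈ U := by
    rw [hU, mem_filter]
    refine ⟨hB, ?_⟩
    rw [← hd]; unfold Y
    have : d 0 * d 1 - d 1 * d 0 = 0 := by ring
    rw [this]
  have hmaxC : ∀ p ∈ C, ∀ q ∈ C, sd p q ≤ l ^ 2 := by
    intro p' hp' q' hq'
    obtain ⟨p, hp, rfl⟩ := mem_image.1 hp'
    obtain ⟨q, hq, rfl⟩ := mem_image.1 hq'
    rw [hsd]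
    have h1 : dist p q ^ 2 ≤ l := by
      rw [hl']
      exact pow_le_pow_left₀ dist_nonneg (hmax p (hUP p hp) q (hUP q hq)) 2
    nlinarith
  obtain ⟨W, hW1, hW2, hW3, hW4⟩ := nested_chords hconc hl0 (by rw [← hΦA]; exact mem_image_of_mem _ hAU)
    (by rw [← hΦB]; exact mem_image_of_mem _ hBU)
    (by
      intro p' hp'
      obtain ⟨p, hp, rfl⟩ := mem_image.1 hp'
      exact hX0 p (hUP p hp))
    (by
      intro p' hp'
      obtain ⟨p, hp, rfl⟩ := mem_image.1 hp'
      exact hX1 p (hUP p hp)) hmaxC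
  have hcardC : C.card = U.card := card_image_of_injective _ hΦinj
  rw [hcardC] at hW2
  set V : Finset (Plane × Plane) := P.offDiag.filter (fun z => (Φ z.1, Φ z.2) ∈ W) with hV
  have hback : ∀ w w' : Plane × Plane, (Φ w.1, Φ w.2) = (Φ w'.1, Φ w'.2) → w = w' := by
    intro w w' h
    have h1 := congrArg Prod.fst h
    have h2 := congrArg Prod.snd h
    simp only at h1 h2
    exact Prod.ext (hΦinj h1) (hΦinj h2)
  refine ⟨V, filter_subset _ _, ?_, ?_, ?_⟩
  · have : W.card ≤ V.card := by
      apply card_le_card_of_surjOn (fun z => (Φ z.1, Φ z.2))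
      intro w hw
      obtain ⟨z1, z2, z3⟩ := mem_offDiag.1 (hW1 (mem_coe.1 hw))
      obtain ⟨p, hp, hpw⟩ := mem_image.1 z1
      obtain ⟨q, hq, hqw⟩ := mem_image.1 z2
      refine ⟨(p, q), mem_coe.2 (mem_filter.2 ⟨mem_offDiag.2 ⟨hUP p hp, hUP q hq, ?_⟩, ?_⟩), ?_⟩
      · intro h
        simp only at h
        exact z3 (by rw [← hpw, ← hqw, h])
      · simp only [hpw, hqw]
        exact mem_coe.1 hw
      · simp only [hpw, hqw]
    omega
  · intro w hw w' hw' h
    apply hback
    apply hW3 _ (mem_filter.1 hw).2 _ (mem_filter.1 hw').2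
    simp only
    rw [hsd, hsd, h]
  · intro w hw w' hw' h
    apply hback
    apply hW4 _ (mem_filter.1 hw).2 _ (mem_filter.1 hw').2
    have h0 : ∀ z z' : Plane, Φ z + Φ z' = (X d (z + z') - 2 * X d A, Y d (z + z') - 2 * Y d A) := by
      intro z z'
      simp only [hΦ]
      unfold X Y
      ext
      · simp; ring
      · simp; ring
    simp only
    rw [h0, h0, h]


/-- In strictly convex position there are at least `(n - 2) / 2` chords with different lengths and
different midpoints. -/
theorem many_nested {P : Finset Plane} (hP : ConvPos P) :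
    ∃ K : Chords P, P.card ≤ 2 * K.D.card + 2 ∧
      ∀ l ∈ K.D, ∀ l' ∈ K.D, K.α l + K.β l = K.α l' + K.β l' → l = l' := by
  classical
  -- it is enough to find the pairs
  suffices h : ∃ W : Finset (Plane × Plane), W ⊆ P.offDiag ∧ P.card ≤ 2 * W.card + 2 ∧
      (∀ w ∈ W, ∀ w' ∈ W, dist w.1 w.2 = dist w'.1 w'.2 → w = w') ∧
      (∀ w ∈ W, ∀ w' ∈ W, w.1 + w.2 = w'.1 + w'.2 → w = w') by
    obtain ⟨W, hW1, hW2, hW3, hW4⟩ := h
    have hch : ∀ l : ℝ, ∃ z : Plane × Plane, l ∈ W.image (fun w => dist w.1 w.2) → z ∈ W ∧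
        dist z.1 z.2 = l := by
      intro l
      by_cases h : l ∈ W.image (fun w => dist w.1 w.2)
      · obtain ⟨z, hz, hzl⟩ := mem_image.1 h
        exact ⟨z, fun _ => ⟨hz, hzl⟩⟩
      · exact ⟨(0, 0), fun h' => absurd h' h⟩
    choose f hf using hch
    refine ⟨⟨W.image (fun w => dist w.1 w.2), fun l => (f l).1, fun l => (f l).2,
      ?_, ?_, ?_, ?_⟩, ?_, ?_⟩
    · intro l hl
      exact (mem_offDiag.1 (hW1 (hf l hl).1)).1
    · intro l hl
      exact (mem_offDiag.1 (hW1 (hf l hl).1)).2.1
    · intro l hl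
      exact (mem_offDiag.1 (hW1 (hf l hl).1)).2.2
    · intro l hl
      exact (hf l hl).2
    · simp only
      rw [card_image_of_injOn]
      · exact hW2
      · intro w hw w' hw' h
        exact hW3 w (mem_coe.1 hw) w' (mem_coe.1 hw') h
    · intro l hl l' hl' h
      simp only at hl hl' h
      have := hW4 _ (hf l hl).1 _ (hf l' hl').1 h
      rw [← (hf l hl).2, ← (hf l' hl').2, this]
  by_cases h2 : P.card ≤ 2
  · exact ⟨∅, by simp, by simpa using h2, by simp, by simp⟩
  push Not at h2
  have hne : P.offDiag.Nonempty := by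
    obtain ⟨a, ha, b, hb, hab⟩ := one_lt_card.1 (by omega : 1 < P.card)
    exact ⟨(a, b), mem_offDiag.2 ⟨ha, hb, hab⟩⟩
  obtain ⟨⟨A, B⟩, hABm, hABmax⟩ := exists_max_image P.offDiag (fun z => dist z.1 z.2) hne
  obtain ⟨hA, hB, hAB⟩ := mem_offDiag.1 hABm
  simp only at hA hB hAB
  have hmax : ∀ p ∈ P, ∀ q ∈ P, dist p q ≤ dist A B := by
    intro p hp q hq
    by_cases hpq : p = q
    · rw [hpq, dist_self]; exact dist_nonneg
    · exact hABmax (p, q) (mem_offDiag.2 ⟨hp, hq, hpq⟩)
  obtain ⟨W1, a1, a2, a3, a4⟩ := half_nested hP hA hB hAB hmax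
  obtain ⟨W2, b1, b2, b3, b4⟩ := half_nested hP hB hA hAB.symm (by
    intro p hp q hq
    rw [dist_comm B A]
    exact hmax p hp q hq)
  set U1 := P.filter (fun p => 0 ≤ Y (B - A) (p - A)) with hU1
  set U2 := P.filter (fun p => 0 ≤ Y (A - B) (p - B)) with hU2
  have hrel : ∀ p : Plane, Y (A - B) (p - B) = -Y (B - A) (p - A) := by
    intro p; unfold Y; simp; ring
  have hun : U1 ∪ U2 = P := by
    ext p
    rw [mem_union, hU1, hU2, mem_filter, mem_filter]
    constructor
    · rintro (h | h)
      · exact h.1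
      · exact h.1
    · intro h
      rcases le_total 0 (Y (B - A) (p - A)) with h4 | h4
      · left; exact ⟨h, h4⟩
      · right
        refine ⟨h, ?_⟩
        rw [hrel]; linarith
  have hint : ({A, B} : Finset Plane) ⊆ U1 ∩ U2 := by
    intro p hp
    have hY0 : Y (B - A) (p - A) = 0 := by
      rcases mem_insert.1 hp with rfl | hp
      · unfold Y; simp
      · rw [mem_singleton] at hp
        rw [hp]; unfold Y; ring
    have hpP : p ∈ P := by
      rcases mem_insert.1 hp with rfl | hp
      · exact hA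
      · rw [mem_singleton] at hp
        rw [hp]; exact hB
    rw [mem_inter, hU1, hU2, mem_filter, mem_filter, hrel, hY0]
    exact ⟨⟨hpP, le_rfl⟩, hpP, by simp⟩
  have hc := card_le_card hint
  rw [card_pair hAB] at hc
  have hui := card_union_add_card_inter U1 U2
  rw [hun] at hui
  rcases le_total U1.card U2.card with h | h
  · exact ⟨W2, b1, by omega, b3, b4⟩
  · exact ⟨W1, a1, by omega, a3, a4⟩

end Pool.Agent.ConvTri
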