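import Pool.Agent.Work.MP_dc37f8_co.Rich2

/-!
# Few triangle classes force many rich pairs
-/

namespace Pool.Agent.ConvTri

open Finset

/-- the error term of a pair -/
noncomputable def er (P : Finset Plane) (a b : Plane) : ℕ :=
  2 * (big P a b).card + (twins P a b).card + (symm P (a + b)).card + 2

theorem two_NL {P : Finset Plane} {a b : Plane} (ha : a ∈ P) (hb : b ∈ P) (hab : a ≠ b) :
    2 * P.card ≤ 2 * NL P (dist a b) + wt P a b + er P a b := by
  have h1 := defi_le ha hb hab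
  have h2 := wt_add_defi P a b
  have h3 := over_le_NL ha hb hab
  unfold er
  omega

theorem one_NL {P : Finset Plane} {a b : Plane} (ha : a ∈ P) (hb : b ∈ P) (hab : a ≠ b) :
    P.card ≤ 2 * NL P (dist a b) + er P a b := by
  have h1 := over_card ha hb hab
  have h3 := over_le_NL ha hb hab
  unfold er
  omega

/-- the total error -/
noncomputable def Er (P : Finset Plane) : ℕ := ∑ z ∈ P.offDiag, er P z.1 z.2

theorem Er_le {P : Finset Plane} (hP : LineBound P 2) {δ : ℝ}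
    (hE : ((∑ z ∈ P.offDiag, (symm P (z.1 + z.2)).card : ℕ) : ℝ) ≤ δ * (P.card : ℝ) ^ 3) :
    (Er P : ℝ) ≤ δ * (P.card : ℝ) ^ 3 + 6 * (P.card : ℝ) ^ 2 := by
  classical
  have h1 : Er P ≤ 2 * ∑ z ∈ P.offDiag, (twins P z.1 z.2).card +
      ∑ z ∈ P.offDiag, (symm P (z.1 + z.2)).card + 2 * P.offDiag.card := by
    have h2 : ∀ z ∈ P.offDiag, er P z.1 z.2 ≤ 2 * (twins P z.1 z.2).card +
        (symm P (z.1 + z.2)).card + 2 := by
      intro z hz
      have := big_le_twins2 (P := P) (mem_offDiag.1 hz).2.2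
      unfold er
      omega
    have h3 := sum_le_sum h2
    rw [sum_add_distrib, sum_add_distrib, ← mul_sum, sum_const, smul_eq_mul] at h3
    unfold Er
    omega
  have h2 := sum_all_twins hP
  have h3 : P.card * (P.card - 1) * (2 * (2 - 1)) ≤ 2 * P.card ^ 2 := by
    have : P.card * (P.card - 1) ≤ P.card * P.card := Nat.mul_le_mul_left _ (Nat.sub_le _ _)
    nlinarith
  have h4 : P.offDiag.card ≤ P.card ^ 2 := by
    rw [offDiag_card, pow_two]; exact Nat.sub_le _ _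
  have h5 : Er P ≤ 6 * P.card ^ 2 + ∑ z ∈ P.offDiag, (symm P (z.1 + z.2)).card := by omega
  have h6 : (Er P : ℝ) ≤ 6 * (P.card : ℝ) ^ 2 +
      ((∑ z ∈ P.offDiag, (symm P (z.1 + z.2)).card : ℕ) : ℝ) := by exact_mod_cast h5
  linarith

/-- the index set of pairs (point, distance) -/
noncomputable def idx (P : Finset Plane) : Finset (Plane × ℝ) :=
  P.offDiag.image (fun z => (z.1, dist z.1 z.2))

theorem sum_idx {M : Type*} [AddCommMonoid M] (P : Finset Plane) (f : Plane × Plane → M) :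
    ∑ y ∈ idx P, ∑ z ∈ degs P y, f z = ∑ z ∈ P.offDiag, f z := by
  classical
  exact sum_fiberwise_of_maps_to (s := P.offDiag) (t := idx P)
    (g := fun z => (z.1, dist z.1 z.2)) (fun z hz => mem_image.2 ⟨z, hz, rfl⟩) f

theorem degs_mem {P : Finset Plane} {y : Plane × ℝ} {z : Plane × Plane} (hz : z ∈ degs P y) :
    z ∈ P.offDiag ∧ z.1 = y.1 ∧ dist z.1 z.2 = y.2 := by
  obtain ⟨h1, h2⟩ := mem_filter.1 hz
  exact ⟨h1, congrArg (fun w : Plane × ℝ => w.1) h2, congrArg (fun w : Plane × ℝ => w.2) h2⟩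

theorem sum_idx_NL (P : Finset Plane) : ∑ y ∈ idx P, 2 * NL P y.2 ≤ P.card * (6 * (TC P).card) := by
  classical
  have h1 : idx P ⊆ P ×ˢ dists P := by
    intro y hy
    obtain ⟨z, hz, rfl⟩ := mem_image.1 hy
    exact mem_product.2 ⟨(mem_offDiag.1 hz).1, mem_image.2 ⟨z, hz, rfl⟩⟩
  calc ∑ y ∈ idx P, 2 * NL P y.2 ≤ ∑ y ∈ P ×ˢ dists P, 2 * NL P y.2 :=
        sum_le_sum_of_subset h1
    _ = ∑ _a ∈ P, ∑ l ∈ dists P, 2 * NL P l := by rw [sum_product]
    _ = P.card * ∑ l ∈ dists P, 2 * NL P l := by rw [sum_const, smul_eq_mul]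
    _ ≤ P.card * (6 * (TC P).card) := by
        apply Nat.mul_le_mul_left
        rw [← mul_sum]
        have := sum_NL P (dists P)
        omega

theorem idx_card (P : Finset Plane) : (idx P).card ≤ P.card ^ 2 := by
  classical
  refine card_image_le.trans ?_
  rw [offDiag_card, pow_two]
  exact Nat.sub_le _ _

/-- the number of poor pairs -/
noncomputable def poorN (P : Finset Plane) (κ : ℝ) : ℕ := (P.offDiag \ richs P κ).card

theorem poor_bound {P : Finset Plane} (hP : LineBound P 2) {κ : ℝ} (hκ : 0 ≤ κ) :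
    2 * (P.card : ℝ) ^ 2 * ((P.card : ℝ) - 1) + 2 * (P.card : ℝ) * (poorN P κ : ℝ) ≤
      36 * (P.card : ℝ) * ((TC P).card : ℝ) + 6 * κ * (P.card : ℝ) ^ 3 + 6 * (Er P : ℝ) := by
  classical
  set n : ℝ := (P.card : ℝ) with hn
  have hn0 : 0 ≤ n := Nat.cast_nonneg _
  set ν : Plane × ℝ → ℕ := fun y => ((degs P y).filter (fun z => z ∉ richs P κ)).card with hν
  set d : Plane × ℝ → ℕ := fun y => (degs P y).card with hd
  -- the certificate
  have key : ∀ y ∈ idx P, n * (5 * (d y : ℝ) - (d y : ℝ) ^ 2 + 2 * (ν y : ℝ)) ≤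
      6 * ((2 * NL P y.2 : ℕ) : ℝ) + 6 * (κ * n) + 6 * ((∑ z ∈ degs P y, er P z.1 z.2 : ℕ) : ℝ) := by
    intro y hy
    have hνd : ν y ≤ d y := card_filter_le _ _
    have hνd' : (ν y : ℝ) ≤ d y := by exact_mod_cast hνd
    have herr : ∀ z ∈ degs P y, (er P z.1 z.2 : ℝ) ≤ ((∑ z ∈ degs P y, er P z.1 z.2 : ℕ) : ℝ) := by
      intro z hz
      have : er P z.1 z.2 ≤ ∑ z ∈ degs P y, er P z.1 z.2 :=
        single_le_sum (f := fun z : Plane × Plane => er P z.1 z.2) (fun _ _ => Nat.zero_le _) hz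
      exact_mod_cast this
    rcases Nat.eq_zero_or_pos (ν y) with h0 | h0
    · -- all pairs are rich
      obtain ⟨z, hz, hzy⟩ := mem_image.1 hy
      have hzd : z ∈ degs P y := mem_filter.2 ⟨hz, hzy⟩
      obtain ⟨z1, z2, z3⟩ := mem_offDiag.1 hz
      have h1 := one_NL z1 z2 z3
      rw [(degs_mem hzd).2.2] at h1
      have h2 : n ≤ ((2 * NL P y.2 : ℕ) : ℝ) + (er P z.1 z.2 : ℝ) := by
        rw [hn]; exact_mod_cast h1
      have h3 : 5 * (d y : ℝ) - (d y : ℝ) ^ 2 + 2 * (ν y : ℝ) ≤ 6 := by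
        rw [h0]
        have h4 : (0 : ℝ) ≤ ((d y : ℝ) - 2) * ((d y : ℝ) - 3) := by
          rcases Nat.lt_or_ge (d y) 3 with h5 | h5
          · have : (d y : ℝ) ≤ 2 := by exact_mod_cast (by omega : d y ≤ 2)
            nlinarith
          · have : (3 : ℝ) ≤ d y := by exact_mod_cast h5
            nlinarith
        push_cast
        nlinarith
      have h4 := herr z hzd
      have h5 : n * (5 * (d y : ℝ) - (d y : ℝ) ^ 2 + 2 * (ν y : ℝ)) ≤ n * 6 :=
        mul_le_mul_of_nonneg_left h3 hn0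
      have h6 : 0 ≤ κ * n := mul_nonneg hκ hn0
      linarith
    · obtain ⟨z, hz⟩ := card_pos.1 h0
      obtain ⟨hzd, hzr⟩ := mem_filter.1 hz
      obtain ⟨hz0, hz1, hz2⟩ := degs_mem hzd
      obtain ⟨z1, z2, z3⟩ := mem_offDiag.1 hz0
      have h1 := two_NL z1 z2 z3
      rw [hz2] at h1
      have h2 : 2 * n ≤ ((2 * NL P y.2 : ℕ) : ℝ) + (wt P z.1 z.2 : ℝ) + (er P z.1 z.2 : ℝ) := by
        rw [hn]; exact_mod_cast h1
      have h3 : (wt P z.1 z.2 : ℝ) ≤ κ * n := by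
        by_contra h4
        exact hzr (mem_filter.2 ⟨hz0, (not_le.1 h4).le⟩)
      have h4 := herr z hzd
      have h5 : 5 * (d y : ℝ) - (d y : ℝ) ^ 2 + 2 * (ν y : ℝ) ≤ 12 := by
        have h6 : (0 : ℝ) ≤ ((d y : ℝ) - 3) * ((d y : ℝ) - 4) := by
          rcases Nat.lt_or_ge (d y) 4 with h5 | h5
          · have : (d y : ℝ) ≤ 3 := by exact_mod_cast (by omega : d y ≤ 3)
            nlinarith
          · have : (4 : ℝ) ≤ d y := by exact_mod_cast h5
            nlinarith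
        nlinarith
      have h6 : n * (5 * (d y : ℝ) - (d y : ℝ) ^ 2 + 2 * (ν y : ℝ)) ≤ n * 12 :=
        mul_le_mul_of_nonneg_left h5 hn0
      linarith
  have hsum := sum_le_sum key
  have hL : ∑ y ∈ idx P, n * (5 * (d y : ℝ) - (d y : ℝ) ^ 2 + 2 * (ν y : ℝ)) =
      n * (5 * (∑ y ∈ idx P, (d y : ℝ)) - ∑ y ∈ idx P, (d y : ℝ) ^ 2 +
        2 * ∑ y ∈ idx P, (ν y : ℝ)) := by
    rw [← mul_sum, sum_add_distrib, sum_sub_distrib, ← mul_sum, ← mul_sum]
  have hR : ∑ y ∈ idx P, (6 * ((2 * NL P y.2 : ℕ) : ℝ) + 6 * (κ * n) +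
      6 * ((∑ z ∈ degs P y, er P z.1 z.2 : ℕ) : ℝ)) =
      6 * (∑ y ∈ idx P, ((2 * NL P y.2 : ℕ) : ℝ)) + ((idx P).card : ℝ) * (6 * (κ * n)) +
      6 * ∑ y ∈ idx P, ((∑ z ∈ degs P y, er P z.1 z.2 : ℕ) : ℝ) := by
    rw [sum_add_distrib, sum_add_distrib, sum_const, nsmul_eq_mul, ← mul_sum, ← mul_sum]
  rw [hL, hR] at hsum
  -- the sums
  have s1 : ∑ y ∈ idx P, (d y : ℝ) = n * (n - 1) := by
    have h1 : ∑ y ∈ idx P, d y = P.offDiag.card := by
      have := sum_idx P (fun _ => (1 : ℕ))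
      simp only [sum_const, smul_eq_mul, mul_one] at this
      exact this
    have h2 : ((∑ y ∈ idx P, d y : ℕ) : ℝ) = n * (n - 1) := by
      rw [h1, offDiag_card, Nat.cast_sub (Nat.le_mul_self _), Nat.cast_mul, ← hn]
      ring
    push_cast at h2
    exact h2
  have s2 : ∑ y ∈ idx P, (d y : ℝ) ^ 2 ≤ 3 * (n * (n - 1)) := by
    have h1 : ∑ y ∈ idx P, d y ^ 2 = ∑ z ∈ P.offDiag, (degs P (z.1, dist z.1 z.2)).card := by
      rw [← sum_idx P (fun z => (degs P (z.1, dist z.1 z.2)).card)]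
      apply sum_congr rfl
      intro y _
      have h2 : ∀ z ∈ degs P y, (degs P (z.1, dist z.1 z.2)).card = d y := by
        intro z hz
        have h3 := (mem_filter.1 hz).2
        rw [h3]
      rw [sum_congr rfl h2, sum_const, smul_eq_mul, pow_two]
    have h2 := iso_count hP
    rw [← h1] at h2
    have h3 : ((∑ y ∈ idx P, d y ^ 2 : ℕ) : ℝ) ≤ ((P.card * (P.card - 1) * (2 + 1) : ℕ) : ℝ) := by
      exact_mod_cast h2
    have h4 : ((P.card * (P.card - 1) * (2 + 1) : ℕ) : ℝ) = 3 * (n * (n - 1)) := by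
      rcases Nat.eq_zero_or_pos P.card with h5 | h5
      · rw [hn, h5]; simp
      · rw [Nat.cast_mul, Nat.cast_mul, Nat.cast_sub h5, ← hn]
        push_cast; ring
    rw [h4] at h3
    push_cast at h3
    exact h3
  have s3 : ∑ y ∈ idx P, (ν y : ℝ) = (poorN P κ : ℝ) := by
    have h1 : ∑ y ∈ idx P, ν y = poorN P κ := by
      have h2 := sum_idx P (fun z => if z ∉ richs P κ then (1 : ℕ) else 0)
      have h3 : ∀ y ∈ idx P, ν y = ∑ z ∈ degs P y, (if z ∉ richs P κ then (1 : ℕ) else 0) := by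
        intro y _
        rw [hν]
        simp only
        rw [card_filter]
      rw [sum_congr rfl h3, h2, ← card_filter]
      unfold poorN
      congr 1
      ext z
      simp only [mem_filter, mem_sdiff]
    exact_mod_cast h1
  have s4 : ∑ y ∈ idx P, ((2 * NL P y.2 : ℕ) : ℝ) ≤ n * (6 * ((TC P).card : ℝ)) := by
    have := sum_idx_NL P
    rw [hn]
    exact_mod_cast this
  have s5 : ∑ y ∈ idx P, ((∑ z ∈ degs P y, er P z.1 z.2 : ℕ) : ℝ) = (Er P : ℝ) := by
    have := sum_idx P (fun z => er P z.1 z.2)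
    unfold Er
    exact_mod_cast this
  have s6 : ((idx P).card : ℝ) ≤ n ^ 2 := by rw [hn]; exact_mod_cast idx_card P
  rw [s1, s3, s5] at hsum
  have h7 : ((idx P).card : ℝ) * (κ * n) ≤ n ^ 2 * (κ * n) :=
    mul_le_mul_of_nonneg_right s6 (mul_nonneg hκ hn0)
  have h8 : n * (5 * (n * (n - 1)) - ∑ y ∈ idx P, (d y : ℝ) ^ 2 + 2 * (poorN P κ : ℝ)) ≥
      n * (2 * (n * (n - 1)) + 2 * (poorN P κ : ℝ)) :=
    mul_le_mul_of_nonneg_left (by linarith) hn0
  have e1 : n * (2 * (n * (n - 1)) + 2 * (poorN P κ : ℝ)) =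
      2 * n ^ 2 * (n - 1) + 2 * n * (poorN P κ : ℝ) := by ring
  have e2 : n ^ 2 * (κ * n) = κ * n ^ 3 := by ring
  nlinarith

end Pool.Agent.ConvTri
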