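import Pool.Agent.Work.MP_dc37f8_co.Altman

/-!
# Finite sets in strictly convex position determine at least `(n-2)/2` distances
-/

namespace Pool.Agent.ConvTri

open Finset

/-- The plane. -/
abbrev Plane := EuclideanSpace ℝ (Fin 2)

/-- coordinate along `d` -/
def X (d z : Plane) : ℝ := d 0 * z 0 + d 1 * z 1

/-- coordinate across `d` -/
def Y (d z : Plane) : ℝ := d 0 * z 1 - d 1 * z 0

/-- squared norm -/
def nsq (d : Plane) : ℝ := d 0 ^ 2 + d 1 ^ 2

theorem nsq_pos {d : Plane} (hd : d ≠ 0) : 0 < nsq d := by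
  unfold nsq
  by_contra h
  push Not at h
  have h0 : d 0 = 0 := by nlinarith [sq_nonneg (d 0), sq_nonneg (d 1)]
  have h1 : d 1 = 0 := by nlinarith [sq_nonneg (d 0), sq_nonneg (d 1)]
  apply hd
  ext i
  fin_cases i
  · simpa using h0
  · simpa using h1

theorem nsq_nonneg (d : Plane) : 0 ≤ nsq d := by unfold nsq; positivity

theorem dist_sq (p q : Plane) : dist p q ^ 2 = (p 0 - q 0) ^ 2 + (p 1 - q 1) ^ 2 := by
  rw [EuclideanSpace.dist_eq, Real.sq_sqrt (by positivity)]
  simp [Fin.sum_univ_two, Real.dist_eq, sq_abs]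

theorem XY_norm (d p q : Plane) :
    (X d p - X d q) ^ 2 + (Y d p - Y d q) ^ 2 = nsq d * dist p q ^ 2 := by
  rw [dist_sq]; unfold X Y nsq; ring

theorem XY_inj {d : Plane} (hd : d ≠ 0) {p q : Plane} (h1 : X d p = X d q)
    (h2 : Y d p = Y d q) : p = q := by
  have h := XY_norm d p q
  rw [h1, h2] at h
  have h3 : nsq d * dist p q ^ 2 = 0 := by rw [← h]; ring
  rcases mul_eq_zero.1 h3 with h4 | h4
  · exact absurd h4 (nsq_pos hd).ne'
  · exact dist_eq_zero.1 (pow_eq_zero_iff (two_ne_zero)|>.1 h4)

theorem X_comb (d z w : Plane) (a b : ℝ) : X d (a • z + b • w) = a * X d z + b * X d w := by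
  unfold X; simp; ring

theorem Y_comb (d z w : Plane) (a b : ℝ) : Y d (a • z + b • w) = a * Y d z + b * Y d w := by
  unfold Y; simp; ring

/-- A point between two points of a convex set on the same line across `d`. -/
theorem between {S : Set Plane} (hS : Convex ℝ S) {d : Plane} (hd : d ≠ 0) {z0 z1 q : Plane}
    (h0 : z0 ∈ S) (h1 : z1 ∈ S) (hx0 : X d z0 = X d q) (hx1 : X d z1 = X d q)
    (hy0 : Y d z0 ≤ Y d q) (hy1 : Y d q ≤ Y d z1) : q ∈ S := by
  rcases (hy0.trans hy1).eq_or_lt with h | h
  · have : q = z0 := XY_inj hd hx0.symm (le_antisymm (by rw [h]; exact hy1) hy0)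
    rw [this]; exact h0
  · have hpos : 0 < Y d z1 - Y d z0 := by linarith
    set σ : ℝ := (Y d q - Y d z0) / (Y d z1 - Y d z0) with hσ
    have hσ0 : 0 ≤ σ := div_nonneg (by linarith) hpos.le
    have hσ1 : 0 ≤ 1 - σ := by
      have : σ ≤ 1 := by rw [hσ, div_le_one hpos]; linarith
      linarith
    have hmem := hS h0 h1 hσ1 hσ0 (by ring)
    have : q = (1 - σ) • z0 + σ • z1 := by
      apply XY_inj hd
      · rw [X_comb, hx0, hx1]; ring
      · rw [Y_comb, hσ]
        field_simp
        ring
    rw [this]; exact hmem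

/-- Strictly convex position, in the form used below. -/
def ConvPos (P : Finset Plane) : Prop :=
  ∀ p ∈ P, p ∉ convexHull ℝ ((P : Set Plane) \ {p})

theorem convPos_iff (P : Finset Plane) :
    ConvPos P ↔ ConvexIndependent ℝ (Subtype.val : {x // x ∈ P} → Plane) :=
  (convexIndependent_set_iff_notMem_convexHull_sdiff (𝕜 := ℝ) (s := (P : Set Plane))).symm

theorem mem_hull_diff {P : Finset Plane} {p q : Plane} (hq : q ∈ P) (h : q ≠ p) :
    q ∈ convexHull ℝ ((P : Set Plane) \ {p}) :=
  subset_convexHull ℝ _ ⟨hq, h⟩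

/-- No point of `P` lies between two others, nor between other points of the hull. -/
theorem not_between {P : Finset Plane} (hP : ConvPos P) {d : Plane} (hd : d ≠ 0)
    {z0 z1 q : Plane} (hq : q ∈ P) (h0 : z0 ∈ convexHull ℝ ((P : Set Plane) \ {q}))
    (h1 : z1 ∈ convexHull ℝ ((P : Set Plane) \ {q})) (hx0 : X d z0 = X d q)
    (hx1 : X d z1 = X d q) (hy0 : Y d z0 ≤ Y d q) (hy1 : Y d q ≤ Y d z1) : False :=
  hP q hq (between (convex_convexHull ℝ _) hd h0 h1 hx0 hx1 hy0 hy1)

/-- No three points of `P` on a line. -/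
theorem no_three {P : Finset Plane} (hP : ConvPos P) {d : Plane} (hd : d ≠ 0)
    {a b c : Plane} (ha : a ∈ P) (hb : b ∈ P) (hc : c ∈ P) (hab : a ≠ b) (hbc : b ≠ c)
    (hac : a ≠ c) (h1 : X d a = X d b) (h2 : X d b = X d c) : False := by
  have key : ∀ a ∈ P, ∀ b ∈ P, ∀ c ∈ P, a ≠ b → b ≠ c → X d a = X d b → X d c = X d b →
      Y d a ≤ Y d b → Y d b ≤ Y d c → False := by
    intro a ha b hb c hc hab hbc h1 h2 h3 h4
    exact not_between hP hd hb (mem_hull_diff ha hab) (mem_hull_diff hc hbc.symm) h1 h2 h3 h4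
  have h3 : X d a = X d c := h1.trans h2
  rcases le_total (Y d a) (Y d b) with u | u
  · rcases le_total (Y d b) (Y d c) with v | v
    · exact key a ha b hb c hc hab hbc h1 h2.symm u v
    · rcases le_total (Y d a) (Y d c) with w | w
      · exact key a ha c hc b hb hac hbc.symm h3 h2 w v
      · exact key c hc a ha b hb hac.symm hab h3.symm h1.symm w u
  · rcases le_total (Y d b) (Y d c) with v | v
    · rcases le_total (Y d a) (Y d c) with w | w
      · exact key b hb a ha c hc hab.symm hac h1.symm h3.symm u w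
      · exact key b hb c hc a ha hbc hac.symm h2 h3 v w
    · exact key c hc b hb a ha hbc.symm hab.symm h2.symm h1 v u

/-- The set of distances. -/
noncomputable def dists (P : Finset Plane) : Finset ℝ := P.offDiag.image (fun z => dist z.1 z.2)

theorem half_chain {P : Finset Plane} (hP : ConvPos P) {A B : Plane} (hA : A ∈ P) (hB : B ∈ P)
    (hAB : A ≠ B) (hmax : ∀ p ∈ P, ∀ q ∈ P, dist p q ≤ dist A B) :
    (P.filter (fun p => 0 ≤ Y (B - A) (p - A))).card ≤ (dists P).card + 2 := by
  classical
  set d : Plane := B - A with hd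
  have hd0 : d ≠ 0 := sub_ne_zero.2 hAB.symm
  set l : ℝ := nsq d with hl
  have hl0 : 0 < l := nsq_pos hd0
  have hl' : l = dist A B ^ 2 := by
    rw [hl, dist_sq, hd]; unfold nsq; simp; ring
  set Φ : Plane → ℝ × ℝ := fun z => (X d (z - A), Y d (z - A)) with hΦ
  have hXs : ∀ z w : Plane, X d (z - w) = X d z - X d w := by
    intro z w; unfold X; simp; ring
  have hYs : ∀ z w : Plane, Y d (z - w) = Y d z - Y d w := by
    intro z w; unfold Y; simp; ring
  have hsd : ∀ p q, sd (Φ p) (Φ q) = l * dist p q ^ 2 := by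
    intro p q
    rw [← XY_norm d p q]
    unfold sd
    simp only [hΦ, hXs, hYs]
    ring
  have hΦA : Φ A = (0, 0) := by
    simp only [hΦ, hXs, hYs]; simp
  have hΦB : Φ B = (l, 0) := by
    simp only [hΦ]
    rw [← hd, hl]
    unfold X Y nsq
    ext
    · simp only; ring
    · simp only; ring
  have hΦinj : Function.Injective Φ := by
    intro p q h
    simp only [hΦ, Prod.mk.injEq, hXs, hYs] at h
    exact XY_inj hd0 (by linarith [h.1]) (by linarith [h.2])
  -- the lens
  have hlens0 : ∀ p ∈ P, dist p A ^ 2 ≤ 2 * X d (p - A) := by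
    intro p hp
    have h1 := hmax p hp B hB
    have h2 : dist p B ^ 2 ≤ l := by
      rw [hl']; exact pow_le_pow_left₀ dist_nonneg h1 2
    have h3 : dist p B ^ 2 = dist p A ^ 2 - 2 * X d (p - A) + l := by
      rw [hl, dist_sq, dist_sq, hd]; unfold X nsq; simp; ring
    linarith
  have hlens1 : ∀ p ∈ P, dist p B ^ 2 ≤ 2 * (l - X d (p - A)) := by
    intro p hp
    have h1 := hmax p hp A hA
    have h2 : dist p A ^ 2 ≤ l := by
      rw [hl']; exact pow_le_pow_left₀ dist_nonneg h1 2
    have h3 : dist p B ^ 2 = dist p A ^ 2 - 2 * X d (p - A) + l := by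
      rw [hl, dist_sq, dist_sq, hd]; unfold X nsq; simp; ring
    linarith
  have hX0 : ∀ p ∈ P, 0 ≤ X d (p - A) := by
    intro p hp
    have := hlens0 p hp
    nlinarith [sq_nonneg (dist p A)]
  have hX1 : ∀ p ∈ P, X d (p - A) ≤ l := by
    intro p hp
    have := hlens1 p hp
    nlinarith [sq_nonneg (dist p B)]
  have hXA : ∀ p ∈ P, X d (p - A) = 0 → p = A := by
    intro p hp h
    have := hlens0 p hp
    rw [h] at this
    have h2 : dist p A ^ 2 = 0 := le_antisymm (by linarith) (sq_nonneg _)
    exact dist_eq_zero.1 (pow_eq_zero_iff (two_ne_zero)|>.1 h2)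
  have hXB : ∀ p ∈ P, X d (p - A) = l → p = B := by
    intro p hp h
    have := hlens1 p hp
    rw [h] at this
    have h2 : dist p B ^ 2 = 0 := le_antisymm (by linarith) (sq_nonneg _)
    exact dist_eq_zero.1 (pow_eq_zero_iff (two_ne_zero)|>.1 h2)
  -- the point of `AB` below `q`
  have hbelow : ∀ q ∈ P, q ≠ A → q ≠ B → ∃ z ∈ convexHull ℝ ((P : Set Plane) \ {q}),
      X d z = X d q ∧ Y d (z - A) = 0 := by
    intro q hq hqA hqB
    have h0 := hX0 q hq
    have h1 := hX1 q hq
    refine ⟨(1 - X d (q - A) / l) • A + (X d (q - A) / l) • B, ?_, ?_, ?_⟩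
    · exact convex_convexHull ℝ _ (mem_hull_diff hA hqA.symm) (mem_hull_diff hB hqB.symm)
        (by
          have : X d (q - A) / l ≤ 1 := by rw [div_le_one hl0]; exact h1
          linarith) (div_nonneg h0 hl0.le) (by ring)
    · rw [X_comb]
      have h2 : X d B = X d A + l := by
        rw [hl, hd]; unfold X nsq; simp; ring
      rw [h2, hXs]
      field_simp
      ring
    · rw [hYs, Y_comb]
      have h2 : Y d B = Y d A := by
        rw [hd]; unfold Y; simp; ring
      rw [h2]; ring
  set U : Finset Plane := P.filter (fun p => 0 ≤ Y d (p - A)) with hU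
  set C : Finset (ℝ × ℝ) := U.image Φ with hC
  have hUP : ∀ p ∈ U, p ∈ P := fun p hp => (mem_filter.1 hp).1
  have hUY : ∀ p ∈ U, 0 ≤ Y d (p - A) := fun p hp => (mem_filter.1 hp).2
  have hconc : Concave (C : Set (ℝ × ℝ)) := by
    constructor
    · intro p' hp' q' hq' hpq
      obtain ⟨p, hp, rfl⟩ := mem_image.1 (mem_coe.1 hp')
      obtain ⟨q, hq, rfl⟩ := mem_image.1 (mem_coe.1 hq')
      simp only [hΦ] at hpq
      congr 1
      -- wlog the first is lower
      have key : ∀ p ∈ U, ∀ q ∈ U, X d (p - A) = X d (q - A) → Y d p < Y d q → False := by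
        intro p hp q hq hx hy
        have hpA : p ≠ A := by
          rintro rfl
          have h1 : X d (q - p) = 0 := by rw [← hx, hXs]; ring
          have := hXA q (hUP q hq) h1
          rw [this] at hy
          exact lt_irrefl _ hy
        have hpB : p ≠ B := by
          rintro rfl
          have h1 : X d (q - A) = l := by
            rw [← hx, ← hd, hl]; unfold X nsq; ring
          have := hXB q (hUP q hq) h1
          rw [this] at hy
          exact lt_irrefl _ hy
        have hqp : q ≠ p := by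
          rintro rfl
          exact lt_irrefl _ hy
        obtain ⟨z, hz, hz1, hz2⟩ := hbelow p (hUP p hp) hpA hpB
        refine not_between hP hd0 (hUP p hp) hz (mem_hull_diff (hUP q hq) hqp) hz1 ?_ ?_ hy.le
        · have := hXs p A
          have := hXs q A
          linarith
        · have h1 := hUY p hp
          rw [hYs] at h1 hz2
          linarith
      rcases lt_trichotomy (Y d p) (Y d q) with h | h | h
      · exact (key p hp q hq hpq h).elim
      · refine XY_inj hd0 ?_ h
        have := hXs p A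
        have := hXs q A
        linarith
      · exact (key q hq p hp hpq.symm h).elim
    · intro p' hp' q' hq' r' hr' h1 h2
      obtain ⟨p, hp, rfl⟩ := mem_image.1 (mem_coe.1 hp')
      obtain ⟨q, hq, rfl⟩ := mem_image.1 (mem_coe.1 hq')
      obtain ⟨r, hr, rfl⟩ := mem_image.1 (mem_coe.1 hr')
      unfold Turn
      by_contra hcon
      push Not at hcon
      simp only [hΦ, hXs, hYs] at h1 h2 hcon
      have hqA : q ≠ A := by
        rintro rfl
        have := hX0 p (hUP p hp)
        rw [hXs] at this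
        linarith
      have hqB : q ≠ B := by
        rintro rfl
        have h3 := hX1 r (hUP r hr)
        have h4 : X d (q - A) = l := by rw [← hd, hl]; unfold X nsq; ring
        rw [hXs] at h3 h4
        linarith
      have hpq : p ≠ q := by rintro rfl; linarith
      have hrq : r ≠ q := by rintro rfl; linarith
      obtain ⟨z, hz, hz1, hz2⟩ := hbelow q (hUP q hq) hqA hqB
      have hpr : 0 < X d r - X d p := by linarith
      set τ : ℝ := (X d q - X d p) / (X d r - X d p) with hτ
      have hτ0 : 0 ≤ τ := div_nonneg (by linarith) hpr.le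
      have hτ1 : 0 ≤ 1 - τ := by
        have : τ ≤ 1 := by rw [hτ, div_le_one hpr]; linarith
        linarith
      have hτm : τ * (X d r - X d p) = X d q - X d p := div_mul_cancel₀ _ hpr.ne'
      have hz' : (1 - τ) • p + τ • r ∈ convexHull ℝ ((P : Set Plane) \ {q}) :=
        convex_convexHull ℝ _ (mem_hull_diff (hUP p hp) hpq) (mem_hull_diff (hUP r hr) hrq)
          hτ1 hτ0 (by ring)
      refine not_between hP hd0 (hUP q hq) hz hz' hz1 ?_ ?_ ?_
      · rw [X_comb]; linarith
      · have h3 := hUY q hq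
        rw [hYs] at h3 hz2
        linarith
      · rw [Y_comb]
        have h5 : (Y d q) * (X d r - X d p) ≤ ((1 - τ) * Y d p + τ * Y d r) * (X d r - X d p) := by
          have : ((1 - τ) * Y d p + τ * Y d r) * (X d r - X d p) =
            Y d p * (X d r - X d p) + (τ * (X d r - X d p)) * (Y d r - Y d p) := by ring
          rw [this, hτm]
          nlinarith
        exact le_of_mul_le_mul_right h5 hpr
  have hAU : A ∈ U := by
    rw [hU, mem_filter]
    refine ⟨hA, ?_⟩
    rw [hYs]; simp
  have hBU : B ∈ U := by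
    rw [hU, mem_filter]
    refine ⟨hB, ?_⟩
    rw [← hd]; unfold Y
    have : d 0 * d 1 - d 1 * d 0 = 0 := by ring
    rw [this]
  have hmaxC : ∀ p ∈ C, ∀ q ∈ C, sd p q ≤ l ^ 2 := by
    intro p' hp' q' hq'
    obtain ⟨p, hp, rfl⟩ := mem_image.1 hp'
    obtain ⟨q, hq, rfl⟩ := mem_image.1 hq'
    rw [hsd]
    have h1 : dist p q ^ 2 ≤ l := by
      rw [hl']
      exact pow_le_pow_left₀ dist_nonneg (hmax p (hUP p hp) q (hUP q hq)) 2
    nlinarith
  have hmain := chain_distances hconc hl0 (by rw [← hΦA]; exact mem_image_of_mem _ hAU)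
    (by rw [← hΦB]; exact mem_image_of_mem _ hBU)
    (by
      intro p' hp'
      obtain ⟨p, hp, rfl⟩ := mem_image.1 hp'
      exact hX0 p (hUP p hp))
    (by
      intro p' hp'
      obtain ⟨p, hp, rfl⟩ := mem_image.1 hp'
      exact hX1 p (hUP p hp)) hmaxC
  have hcardC : C.card = U.card := card_image_of_injective _ hΦinj
  rw [hcardC] at hmain
  refine hmain.trans ?_
  have : (C.offDiag.image (fun z => sd z.1 z.2)) ⊆ (dists P).image (fun x => l * x ^ 2) := by
    intro w hw
    obtain ⟨⟨p', q'⟩, hz, rfl⟩ := mem_image.1 hw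
    obtain ⟨z1, z2, z3⟩ := mem_offDiag.1 hz
    obtain ⟨p, hp, rfl⟩ := mem_image.1 z1
    obtain ⟨q, hq, rfl⟩ := mem_image.1 z2
    simp only at z3
    refine mem_image.2 ⟨dist p q, mem_image.2 ⟨(p, q), mem_offDiag.2 ⟨hUP p hp, hUP q hq, ?_⟩,
      rfl⟩, ?_⟩
    · intro h
      simp only at h
      exact z3 (by rw [h])
    · exact (hsd p q).symm
  have := card_le_card this
  have := this.trans card_image_le
  omega

/-- **Altman (asymptotic form).** A set of `n` points in strictly convex position determines at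
least `(n-2)/2` distances. -/
theorem many_distances {P : Finset Plane} (hP : ConvPos P) : P.card ≤ 2 * (dists P).card + 2 := by
  classical
  by_cases h2 : P.card ≤ 2
  · omega
  push Not at h2
  have hne : P.offDiag.Nonempty := by
    obtain ⟨a, ha, b, hb, hab⟩ := one_lt_card.1 (by omega : 1 < P.card)
    exact ⟨(a, b), mem_offDiag.2 ⟨ha, hb, hab⟩⟩
  obtain ⟨⟨A, B⟩, hABm, hABmax⟩ := exists_max_image P.offDiag (fun z => dist z.1 z.2) hne
  obtain ⟨hA, hB, hAB⟩ := mem_offDiag.1 hABm
  simp only at hA hB hAB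
  have hmax : ∀ p ∈ P, ∀ q ∈ P, dist p q ≤ dist A B := by
    intro p hp q hq
    by_cases hpq : p = q
    · rw [hpq, dist_self]; exact dist_nonneg
    · exact hABmax (p, q) (mem_offDiag.2 ⟨hp, hq, hpq⟩)
  have h1 := half_chain hP hA hB hAB hmax
  have h3 := half_chain hP hB hA hAB.symm (by
    intro p hp q hq
    rw [dist_comm B A]
    exact hmax p hp q hq)
  set U1 := P.filter (fun p => 0 ≤ Y (B - A) (p - A)) with hU1
  set U2 := P.filter (fun p => 0 ≤ Y (A - B) (p - B)) with hU2
  have hrel : ∀ p : Plane, Y (A - B) (p - B) = -Y (B - A) (p - A) := by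
    intro p; unfold Y; simp; ring
  have hun : U1 ∪ U2 = P := by
    ext p
    rw [mem_union, hU1, hU2, mem_filter, mem_filter]
    constructor
    · rintro (h | h)
      · exact h.1
      · exact h.1
    · intro h
      rcases le_total 0 (Y (B - A) (p - A)) with h4 | h4
      · left; exact ⟨h, h4⟩
      · right
        refine ⟨h, ?_⟩
        rw [hrel]; linarith
  have hint : ({A, B} : Finset Plane) ⊆ U1 ∩ U2 := by
    intro p hp
    have hY0 : Y (B - A) (p - A) = 0 := by
      rcases mem_insert.1 hp with rfl | hp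
      · unfold Y; simp
      · rw [mem_singleton] at hp
        rw [hp]; unfold Y; ring
    have hpP : p ∈ P := by
      rcases mem_insert.1 hp with rfl | hp
      · exact hA
      · rw [mem_singleton] at hp
        rw [hp]; exact hB
    rw [mem_inter, hU1, hU2, mem_filter, mem_filter, hrel, hY0]
    exact ⟨⟨hpP, le_rfl⟩, hpP, by simp⟩
  have hc := card_le_card hint
  rw [card_pair hAB] at hc
  have hui := card_union_add_card_inter U1 U2
  rw [hun] at hui
  omega

end Pool.Agent.ConvTri
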