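import Pool.Agent.Work.MP_dc37f8_co.Link

/-!
# Rich axes and rich circles
-/

namespace Pool.Agent.ConvTri

open Finset ComplexConjugate

/-- the map `z ↦ g.1 z + g.2` -/
noncomputable def mv (g : ℂ × ℂ) (z : ℂ) : ℂ := g.1 * z + g.2

/-- the product of two reflections -/
noncomputable def comp (a a' : ℂ × ℂ) : ℂ × ℂ := (a'.1 * conj a.1, a'.1 * conj a.2 + a'.2)

theorem mv_comp (a a' : ℂ × ℂ) (z : ℂ) : mv (comp a a') z = rfl' a' (rfl' a z) := by
  unfold mv comp rfl'
  rw [map_add, map_mul, Complex.conj_conj]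
  ring

/-- action of `g` on the plane -/
noncomputable def act (g : ℂ × ℂ) (p : Plane) : Plane := ofC (mv g (toC p))

/-- action of the reflection `a` on the plane -/
noncomputable def actr (a : ℂ × ℂ) (p : Plane) : Plane := ofC (rfl' a (toC p))

theorem ofC_toC (p : Plane) : ofC (toC p) = p := toC_inj (toC_ofC (toC p))

theorem toC_act (g : ℂ × ℂ) (p : Plane) : toC (act g p) = mv g (toC p) := toC_ofC _

theorem toC_actr (a : ℂ × ℂ) (p : Plane) : toC (actr a p) = rfl' a (toC p) := toC_ofC _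

theorem act_comp (a a' : ℂ × ℂ) (p : Plane) : act (comp a a') p = actr a' (actr a p) := by
  apply toC_inj
  rw [toC_act, toC_actr, toC_actr, mv_comp]

theorem actr_axis {a b : Plane} (hab : a ≠ b) (p : Plane) : actr (axis a b) p = rf a b p := by
  apply toC_inj
  rw [toC_actr, rfl'_axis hab]

theorem rfl'_invol {a : ℂ × ℂ} (h : IsAxis a) (z : ℂ) : rfl' a (rfl' a z) = z := by
  unfold rfl'
  rw [map_add, map_mul, Complex.conj_conj]
  linear_combination z * h.1 + h.2

theorem actr_invol {a : ℂ × ℂ} (h : IsAxis a) (p : Plane) : actr a (actr a p) = p := by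
  apply toC_inj
  rw [toC_actr, toC_actr, rfl'_invol h]

/-- A reflection is determined by a point and its image. -/
theorem axis_unique {a : ℂ × ℂ} (h : IsAxis a) {p : Plane} (hne : p ≠ actr a p) :
    a = axis p (actr a p) := by
  set q := actr a p with hq
  have hb := axis_is hne
  have e1 : rfl' a (toC p) = toC q := (toC_actr a p).symm
  have e2 : rfl' a (toC q) = toC p := by rw [← e1, rfl'_invol h]
  have e3 : rfl' (axis p q) (toC p) = toC q := by rw [rfl'_axis hne, rf_a hne]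
  have e4 : rfl' (axis p q) (toC q) = toC p := by rw [rfl'_axis hne, rf_b hne]
  set b := axis p q with hbd
  unfold rfl' at e1 e2 e3 e4
  have h5 : (a.1 - b.1) * conj (toC p - toC q) = 0 := by
    rw [map_sub]
    linear_combination e1 - e2 - e3 + e4
  have h6 : conj (toC p - toC q) ≠ 0 := by
    intro h7
    have : toC p - toC q = 0 := (map_eq_zero _).1 h7
    exact hne (toC_inj (sub_eq_zero.1 this))
  have h7 : a.1 = b.1 := sub_eq_zero.1 ((mul_eq_zero.1 h5).resolve_right h6)
  refine Prod.ext h7 ?_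
  rw [h7] at e1
  linear_combination e1 - e3

/-- the number of points of `P` mirrored into `P` -/
noncomputable def wt (P : Finset Plane) (a b : Plane) : ℕ :=
  (P.filter (fun p => rf a b p ∈ P)).card

theorem wt_add_defi (P : Finset Plane) (a b : Plane) : wt P a b + defi P a b = P.card :=
  card_filter_add_card_filter_not (s := P) (p := fun p => rf a b p ∈ P)

/-- the points of `P` moved into `P` -/
noncomputable def stay (P : Finset Plane) (g : ℂ × ℂ) : Finset Plane :=
  P.filter (fun p => act g p ∈ P)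

theorem mv_dist {g : ℂ × ℂ} (hg : ‖g.1‖ = 1) (p q : Plane) :
    dist (act g p) (act g q) = dist p q := by
  rw [← dist_toC, toC_act, toC_act, ← dist_toC p q, Complex.dist_eq, Complex.dist_eq]
  unfold mv
  have : g.1 * toC p + g.2 - (g.1 * toC q + g.2) = g.1 * (toC p - toC q) := by ring
  rw [this, norm_mul, hg, one_mul]

/-- Few isometries move many points of `P` into `P`. -/
theorem heavy_card {P : Finset Plane} (hP : LineBound P 2) (𝒢 : Finset (ℂ × ℂ)) {s : ℝ}
    (hs : 2 ≤ s) (hg : ∀ g ∈ 𝒢, ‖g.1‖ = 1 ∧ s ≤ ((stay P g).card : ℝ)) :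
    (𝒢.card : ℝ) * s ^ 2 ≤ 6 * (P.card : ℝ) ^ 3 := by
  classical
  -- pairs of pairs at the same distance
  set E := (P.offDiag ×ˢ P.offDiag).filter
    (fun z => dist z.1.1 z.1.2 = dist z.2.1 z.2.2) with hE
  have hEc : E.card ≤ 3 * P.card ^ 3 := by
    refine le_trans (le_of_eq ?_) (sum_un_sq hP)
    rw [card_eq_sum_card_fiberwise (f := fun z : (Plane × Plane) × (Plane × Plane) =>
      dist z.1.1 z.1.2) (t := dists P) (by
        intro z hz
        have h1 := (mem_product.1 (mem_filter.1 (mem_coe.1 hz)).1).1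
        exact mem_coe.2 (mem_image.2 ⟨z.1, h1, rfl⟩))]
    apply sum_congr rfl
    intro l _
    unfold un
    rw [pow_two, ← card_product]
    congr 1
    ext z
    simp only [hE, mem_filter, mem_product]
    constructor
    · rintro ⟨⟨⟨h1, h2⟩, h3⟩, h4⟩
      exact ⟨⟨h1, h4⟩, ⟨h2, h3 ▸ h4⟩⟩
    · rintro ⟨⟨h1, h4⟩, ⟨h2, h5⟩⟩
      exact ⟨⟨⟨h1, h2⟩, h4.trans h5.symm⟩, h4⟩
  have h1 : ∑ g ∈ 𝒢, (stay P g).offDiag.card ≤ E.card := by
    rw [← card_sigma]
    apply card_le_card_of_injOn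
      (fun y : (_ : ℂ × ℂ) × (Plane × Plane) =>
        ((y.2.1, y.2.2), (act y.1 y.2.1, act y.1 y.2.2)))
    · intro y hy
      obtain ⟨h2, h3⟩ := mem_sigma.1 (mem_coe.1 hy)
      obtain ⟨h4, h5, h6⟩ := mem_offDiag.1 h3
      obtain ⟨h7, h8⟩ := mem_filter.1 h4
      obtain ⟨h9, h10⟩ := mem_filter.1 h5
      have hd := mv_dist (hg _ h2).1 y.2.1 y.2.2
      refine mem_coe.2 (mem_filter.2 ⟨mem_product.2 ⟨mem_offDiag.2 ⟨h7, h9, h6⟩,
        mem_offDiag.2 ⟨h8, h10, ?_⟩⟩, hd.symm⟩)
      intro h11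
      change act y.1 y.2.1 = act y.1 y.2.2 at h11
      rw [h11, dist_self] at hd
      exact h6 (dist_eq_zero.1 hd.symm)
    · intro y hy y' hy' h
      obtain ⟨h2, h3⟩ := mem_sigma.1 (mem_coe.1 hy)
      obtain ⟨_, _, h6⟩ := mem_offDiag.1 h3
      have e1 : y.2.1 = y'.2.1 := congrArg
        (fun w : (Plane × Plane) × (Plane × Plane) => w.1.1) h
      have e2 : y.2.2 = y'.2.2 := congrArg
        (fun w : (Plane × Plane) × (Plane × Plane) => w.1.2) h
      have e3 : act y.1 y.2.1 = act y'.1 y'.2.1 := congrArg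
        (fun w : (Plane × Plane) × (Plane × Plane) => w.2.1) h
      have e4 : act y.1 y.2.2 = act y'.1 y'.2.2 := congrArg
        (fun w : (Plane × Plane) × (Plane × Plane) => w.2.2) h
      have e5 : y.2 = y'.2 := Prod.ext e1 e2
      have f3 := congrArg toC e3
      have f4 := congrArg toC e4
      rw [toC_act, toC_act, ← e1] at f3
      rw [toC_act, toC_act, ← e2] at f4
      unfold mv at f3 f4
      have h7 : (y.1.1 - y'.1.1) * (toC y.2.1 - toC y.2.2) = 0 := by
        linear_combination f3 - f4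
      have h8 : toC y.2.1 - toC y.2.2 ≠ 0 := sub_ne_zero.2 (fun h => h6 (toC_inj h))
      have h9 : y.1.1 = y'.1.1 := sub_eq_zero.1 ((mul_eq_zero.1 h7).resolve_right h8)
      have h10 : y.1.2 = y'.1.2 := by
        rw [h9] at f3
        linear_combination f3
      have h11 : y.1 = y'.1 := Prod.ext h9 h10
      obtain ⟨g, z⟩ := y
      obtain ⟨g', z'⟩ := y'
      simp only at h11 e5
      rw [h11, e5]
  have h2 : ∀ g ∈ 𝒢, s ^ 2 / 2 ≤ ((stay P g).offDiag.card : ℝ) := by
    intro g hg'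
    have h3 := (hg g hg').2
    rw [offDiag_card, Nat.cast_sub (Nat.le_mul_self _), Nat.cast_mul]
    set M : ℝ := ((stay P g).card : ℝ)
    nlinarith
  have h3 : (𝒢.card : ℝ) * (s ^ 2 / 2) ≤ 3 * (P.card : ℝ) ^ 3 := by
    calc (𝒢.card : ℝ) * (s ^ 2 / 2) = ∑ _g ∈ 𝒢, s ^ 2 / 2 := by rw [sum_const, nsmul_eq_mul]
      _ ≤ ∑ g ∈ 𝒢, ((stay P g).offDiag.card : ℝ) := sum_le_sum h2
      _ ≤ (E.card : ℝ) := by exact_mod_cast h1
      _ ≤ 3 * (P.card : ℝ) ^ 3 := by exact_mod_cast hEc
  linarith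

/-- the rich ordered pairs -/
noncomputable def richs (P : Finset Plane) (κ : ℝ) : Finset (Plane × Plane) :=
  P.offDiag.filter (fun z => κ * P.card ≤ (wt P z.1 z.2 : ℝ))

/-- the rich axes -/
noncomputable def axes (P : Finset Plane) (κ : ℝ) : Finset (ℂ × ℂ) :=
  (richs P κ).image (fun z => axis z.1 z.2)

theorem axes_card {P : Finset Plane} (hP : LineBound P 2) {κ : ℝ} (hκ : 0 < κ)
    (hn : 4 ≤ κ * P.card) : ((axes P κ).card : ℝ) * κ ≤ 2 * P.card := by
  classical
  set n : ℝ := (P.card : ℝ) with hnd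
  have hn0 : 0 < n := by
    by_contra h
    have : κ * n ≤ 0 := mul_nonpos_of_nonneg_of_nonpos hκ.le (not_lt.1 h)
    linarith
  set mvd : ℂ × ℂ → Finset Plane := fun a =>
    P.filter (fun p => actr a p ∈ P ∧ actr a p ≠ p) with hmvd
  have h1 : ∑ a ∈ axes P κ, (mvd a).card ≤ P.card * P.card := by
    rw [← card_sigma, ← card_product]
    apply card_le_card_of_injOn
      (fun y : (_ : ℂ × ℂ) × Plane => (y.2, actr y.1 y.2))
    · intro y hy
      obtain ⟨_, h3⟩ := mem_sigma.1 (mem_coe.1 hy)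
      obtain ⟨h4, h5, _⟩ := mem_filter.1 h3
      exact mem_coe.2 (mem_product.2 ⟨h4, h5⟩)
    · intro y hy y' hy' h
      obtain ⟨h2, h3⟩ := mem_sigma.1 (mem_coe.1 hy)
      obtain ⟨h2', h3'⟩ := mem_sigma.1 (mem_coe.1 hy')
      obtain ⟨_, _, h6⟩ := mem_filter.1 h3
      obtain ⟨_, _, h6'⟩ := mem_filter.1 h3'
      have hax : ∀ a ∈ axes P κ, IsAxis a := by
        intro a ha
        obtain ⟨z, hz, rfl⟩ := mem_image.1 ha
        exact axis_is (mem_offDiag.1 (mem_filter.1 hz).1).2.2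
      have e1 : y.2 = y'.2 := congrArg Prod.fst h
      have e2 : actr y.1 y.2 = actr y'.1 y'.2 := congrArg Prod.snd h
      have e3 := axis_unique (hax _ h2) (p := y.2) (Ne.symm h6)
      have e4 := axis_unique (hax _ h2') (p := y'.2) (Ne.symm h6')
      have e5 : y.1 = y'.1 := by rw [e3, e4, e2, e1]
      obtain ⟨g, z⟩ := y
      obtain ⟨g', z'⟩ := y'
      simp only at e5 e1
      rw [e5, e1]
  have h2 : ∀ a ∈ axes P κ, κ * n / 2 ≤ ((mvd a).card : ℝ) := by
    intro a ha
    obtain ⟨z, hz, rfl⟩ := mem_image.1 ha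
    obtain ⟨h3, h4⟩ := mem_filter.1 hz
    have hne := (mem_offDiag.1 h3).2.2
    have h5 : wt P z.1 z.2 ≤ (mvd (axis z.1 z.2)).card + 2 := by
      have h6 : P.filter (fun p => rf z.1 z.2 p ∈ P) ⊆
          mvd (axis z.1 z.2) ∪ P.filter (fun p => dist p z.1 = dist p z.2) := by
        intro p hp
        obtain ⟨h7, h8⟩ := mem_filter.1 hp
        by_cases h9 : rf z.1 z.2 p = p
        · apply mem_union_right
          refine mem_filter.2 ⟨h7, ?_⟩
          have := dist_rf_a hne p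
          rw [h9] at this
          rw [dist_comm, this, dist_comm]
        · apply mem_union_left
          exact mem_filter.2 ⟨h7, by rw [actr_axis hne]; exact h8, by rw [actr_axis hne]; exact h9⟩
      refine (card_le_card h6).trans ((card_union_le _ _).trans ?_)
      exact Nat.add_le_add_left (bis_le hP hne) _
    have h6 : (wt P z.1 z.2 : ℝ) ≤ ((mvd (axis z.1 z.2)).card : ℝ) + 2 := by exact_mod_cast h5
    linarith
  have h3 : ((axes P κ).card : ℝ) * (κ * n / 2) ≤ n * n := by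
    calc ((axes P κ).card : ℝ) * (κ * n / 2) = ∑ _a ∈ axes P κ, κ * n / 2 := by
          rw [sum_const, nsmul_eq_mul]
      _ ≤ ∑ a ∈ axes P κ, ((mvd a).card : ℝ) := sum_le_sum h2
      _ ≤ n * n := by rw [hnd]; exact_mod_cast h1
  have h4 : n * (((axes P κ).card : ℝ) * κ) ≤ n * (2 * n) := by linarith
  exact le_of_mul_le_mul_left h4 hn0

end Pool.Agent.ConvTri
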