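import Pool.Agent.Work.MP_dc37f8_co.Rich

/-!
# Triples of points and rich circles
-/

namespace Pool.Agent.ConvTri

open Finset ComplexConjugate

/-- Parallel axes through a common first point give collinear points. -/
theorem mu_ne {P : Finset Plane} (hP : LineBound P 2) {x y y' : Plane} (hx : x ∈ P) (hy : y ∈ P)
    (hy' : y' ∈ P) (h1 : x ≠ y) (h2 : x ≠ y') (h3 : y ≠ y') : mu x y ≠ mu x y' := by
  classical
  intro h
  have n1 := nsq_ne h1
  have n2 := nsq_ne h2
  have hre := congrArg Complex.re h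
  have him := congrArg Complex.im h
  unfold mu at hre him
  simp only at hre him
  rw [div_eq_div_iff n1 n2] at hre him
  set d0 := y 0 - x 0 with hd0
  set d1 := y 1 - x 1 with hd1
  set e0 := y' 0 - x 0 with he0
  set e1 := y' 1 - x 1 with he1
  have hc : d0 * e1 - d1 * e0 = 0 := by
    have h4 : (d0 ^ 2 + d1 ^ 2) * (d0 * e1 - d1 * e0) ^ 2 = 0 := by
      linear_combination ((d1 ^ 2 - d0 ^ 2) / 2) * hre - (d0 * d1) * him
    have h5 := (mul_eq_zero.1 h4).resolve_left n1
    exact pow_eq_zero_iff (two_ne_zero) |>.1 h5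
  -- the three points are collinear
  have hQ : ({x, y, y'} : Finset Plane) ⊆ P := by
    intro p hp
    simp only [mem_insert, mem_singleton] at hp
    rcases hp with rfl | rfl | rfl
    · exact hx
    · exact hy
    · exact hy'
  have hd : (!₂[-d1, d0] : Plane) ≠ 0 := by
    intro h0
    have f0 := congrArg (fun z : Plane => z 0) h0
    have f1 := congrArg (fun z : Plane => z 1) h0
    simp at f0 f1
    apply n1
    rw [f0, f1]
    ring
  have hcol := hP _ hQ (collinear_X hd (X !₂[-d1, d0] x) _ (by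
    intro q hq
    simp only [mem_insert, mem_singleton] at hq
    rcases hq with rfl | rfl | rfl
    · rfl
    · unfold X; simp; rw [hd0, hd1]; ring
    · unfold X; simp
      linear_combination hc))
  rw [card_eq_three.2 ⟨x, y, y', h1, h2, h3, rfl⟩] at hcol
  omega

/-- the centre of `g` -/
noncomputable def cen (g : ℂ × ℂ) : Plane := ofC (g.2 / (1 - g.1))

theorem comp_norm {a a' : ℂ × ℂ} (h : IsAxis a) (h' : IsAxis a') : ‖(comp a a').1‖ = 1 := by
  have k : ∀ b : ℂ × ℂ, IsAxis b → ‖b.1‖ = 1 := by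
    intro b hb
    have h6 := congrArg norm hb.1
    rw [norm_mul, Complex.norm_conj, norm_one] at h6
    nlinarith [norm_nonneg b.1]
  unfold comp
  rw [norm_mul, Complex.norm_conj, k a h, k a' h', one_mul]

theorem comp_ne_one {a a' : ℂ × ℂ} (h : IsAxis a) (hne : a.1 ≠ a'.1) : (comp a a').1 ≠ 1 := by
  unfold comp
  simp only
  intro h1
  apply hne
  have h2 : a'.1 * (conj a.1 * a.1) = a.1 := by rw [← mul_assoc, h1, one_mul]
  have h3 : conj a.1 * a.1 = 1 := by rw [mul_comm]; exact h.1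
  rw [h3, mul_one] at h2
  exact h2.symm

theorem cen_fix {a a' : ℂ × ℂ} (h : IsAxis a) (h' : IsAxis a') (hne : a.1 ≠ a'.1) :
    rfl' a (toC (cen (comp a a'))) = toC (cen (comp a a')) := by
  have hU := comp_ne_one h hne
  unfold cen
  rw [toC_ofC]
  set U := (comp a a').1 with hUd
  set W := (comp a a').2 with hWd
  have hU1 : 1 - U ≠ 0 := sub_ne_zero.2 (Ne.symm hU)
  set O := W / (1 - U) with hO
  have hOe : O * (1 - U) = W := div_mul_cancel₀ W hU1
  have hUe : U = a'.1 * conj a.1 := rfl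
  have hWe : W = a'.1 * conj a.2 + a'.2 := rfl
  have hOc : conj O * (1 - conj U) = conj W := by
    have := congrArg conj hOe
    rwa [map_mul, map_sub, map_one] at this
  have hUUc : U * conj U = 1 := by
    rw [hUe, map_mul, Complex.conj_conj]
    linear_combination (conj a'.1 * a'.1) * h.1 + h'.1
  have hUc : conj U = conj a'.1 * a.1 := by rw [hUe, map_mul, Complex.conj_conj]
  have hWc : conj W = conj a'.1 * a.2 + conj a'.2 := by
    rw [hWe, map_add, map_mul, Complex.conj_conj]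
  have hc2 : conj a.1 * a.2 + conj a.2 = 0 := by
    have := congrArg conj h.2
    rw [map_add, map_mul, Complex.conj_conj, map_zero] at this
    exact this
  have key : (a.1 * conj O + a.2 - O) * (1 - U) = 0 := by
    have e1 : a.1 * conj O * (1 - U) = -(a.1 * U * conj W) := by
      rw [← hOc]
      linear_combination (-(a.1 * conj O)) * hUUc
    have e2 : a.1 * U * conj W = a.2 + a'.1 * conj a'.2 := by
      rw [hUe, hWc]
      linear_combination (a'.1 * conj a'.1 * a.2 + a'.1 * conj a'.2) * h.1 + a.2 * h'.1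
    have e3 : (a.1 * conj O + a.2 - O) * (1 - U) =
        a.1 * conj O * (1 - U) + a.2 * (1 - U) - O * (1 - U) := by ring
    rw [e3, e1, e2, hOe, hUe, hWe]
    linear_combination (-a'.1) * hc2 - h'.2
  have h3 := (mul_eq_zero.1 key).resolve_right hU1
  unfold rfl'
  linear_combination h3

theorem dist_of_fix {a : ℂ × ℂ} (h : IsAxis a) {c : Plane} (hc : rfl' a (toC c) = toC c)
    (p : Plane) : dist (actr a p) c = dist p c := by
  rw [← dist_toC, toC_actr, ← dist_toC p c]
  have h4 : rfl' a (toC p) - toC c = a.1 * conj (toC p - toC c) := by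
    rw [map_sub]
    unfold rfl' at hc ⊢
    linear_combination hc
  rw [Complex.dist_eq, h4, norm_mul, Complex.norm_conj, ← Complex.dist_eq]
  have h5 : ‖a.1‖ = 1 := by
    have h6 := congrArg norm h.1
    rw [norm_mul, Complex.norm_conj, norm_one] at h6
    nlinarith [norm_nonneg a.1]
  rw [h5, one_mul]

theorem cen_fix' {a a' : ℂ × ℂ} (h : IsAxis a) (h' : IsAxis a') (hne : a.1 ≠ a'.1) :
    rfl' a' (toC (cen (comp a a'))) = toC (cen (comp a a')) := by
  have h1 := cen_fix h h' hne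
  have hU := comp_ne_one h hne
  have h2 : mv (comp a a') (toC (cen (comp a a'))) = toC (cen (comp a a')) := by
    unfold cen mv
    rw [toC_ofC]
    have hU1 : 1 - (comp a a').1 ≠ 0 := sub_ne_zero.2 (Ne.symm hU)
    field_simp
    ring
  rw [mv_comp, h1] at h2
  exact h2

/-- the triples `(x, y, y')` with `(x, y)` and `(x, y')` rich -/
noncomputable def trips (P : Finset Plane) (κ : ℝ) : Finset (Plane × Plane × Plane) :=
  (P ×ˢ P ×ˢ P).filter (fun z => z.2.1 ≠ z.2.2 ∧ (z.1, z.2.1) ∈ richs P κ ∧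
    (z.1, z.2.2) ∈ richs P κ)

/-- the three points lie on a circle containing at least `s` points of `P` -/
def OnRich (P : Finset Plane) (s : ℝ) (z : Plane × Plane × Plane) : Prop :=
  ∃ (c : Plane) (r : ℝ), s ≤ ((P.filter (fun p => dist p c = r)).card : ℝ) ∧
    dist z.1 c = r ∧ dist z.2.1 c = r ∧ dist z.2.2 c = r

theorem structure_trips {P : Finset Plane} (hP : LineBound P 2) {κ κ2 κ' : ℝ} (hκ : 0 < κ)
    (hκ2 : 0 < κ2) (hκ' : 0 < κ') (hn : 4 ≤ κ * P.card) (hn2 : 2 ≤ κ2 * P.card)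
    (T0 : Finset (Plane × Plane × Plane)) (hT1 : T0 ⊆ trips P κ)
    (hT2 : ∀ z ∈ T0, ¬ OnRich P (κ' * P.card) z) :
    (T0.card : ℝ) ≤ (4 * κ2 / κ ^ 2 + 6 * κ' / κ2 ^ 2) * (P.card : ℝ) ^ 3 := by
  classical
  set n : ℝ := (P.card : ℝ) with hnd
  have hn0 : 0 < n := by
    by_contra h
    have : κ * n ≤ 0 := mul_nonpos_of_nonneg_of_nonpos hκ.le (not_lt.1 h)
    linarith
  -- facts about a triple
  have hmem : ∀ z ∈ trips P κ, z.1 ∈ P ∧ z.2.1 ∈ P ∧ z.2.2 ∈ P ∧ z.1 ≠ z.2.1 ∧ z.1 ≠ z.2.2 ∧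
      z.2.1 ≠ z.2.2 ∧ axis z.1 z.2.1 ∈ axes P κ ∧ axis z.1 z.2.2 ∈ axes P κ := by
    intro z hz
    obtain ⟨_, h2, h3, h4⟩ := mem_filter.1 hz
    have h5 := mem_offDiag.1 (mem_filter.1 h3).1
    have h6 := mem_offDiag.1 (mem_filter.1 h4).1
    exact ⟨h5.1, h5.2.1, h6.2.1, h5.2.2, h6.2.2, h2, mem_image.2 ⟨_, h3, rfl⟩,
      mem_image.2 ⟨_, h4, rfl⟩⟩
  set gg : Plane × Plane × Plane → ℂ × ℂ := fun z => comp (axis z.1 z.2.1) (axis z.1 z.2.2)
    with hgg
  have hact1 : ∀ z ∈ trips P κ, actr (axis z.1 z.2.1) z.2.1 = z.1 := by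
    intro z hz
    obtain ⟨_, _, _, h4, _⟩ := hmem z hz
    rw [actr_axis h4, rf_b h4]
  have hact : ∀ z ∈ trips P κ, act (gg z) z.2.1 = z.2.2 := by
    intro z hz
    obtain ⟨_, _, _, _, h5, _⟩ := hmem z hz
    change act (comp (axis z.1 z.2.1) (axis z.1 z.2.2)) z.2.1 = z.2.2
    rw [act_comp, hact1 z hz, actr_axis h5, rf_a h5]
  -- the light triples
  set A2 := axes P κ ×ˢ axes P κ with hA2
  set L := T0.filter (fun z => ((stay P (gg z)).card : ℝ) < κ2 * n) with hL
  have hLc : (L.card : ℝ) ≤ 4 * κ2 / κ ^ 2 * n ^ 3 := by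
    set A3 := A2.filter (fun a => ((stay P (comp a.1 a.2)).card : ℝ) < κ2 * n) with hA3
    have h1 : L.card ≤ ∑ a ∈ A3, (stay P (comp a.1 a.2)).card := by
      rw [← card_sigma]
      apply card_le_card_of_injOn (fun z : Plane × Plane × Plane =>
        (⟨(axis z.1 z.2.1, axis z.1 z.2.2), z.2.1⟩ : (_ : (ℂ × ℂ) × (ℂ × ℂ)) × Plane))
      · intro z hz
        obtain ⟨h2, h3⟩ := mem_filter.1 (mem_coe.1 hz)
        have h4 := hT1 h2
        obtain ⟨m1, m2, m3, m4, m5, m6, m7, m8⟩ := hmem z h4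
        refine mem_coe.2 (mem_sigma.2 ⟨mem_filter.2 ⟨mem_product.2 ⟨m7, m8⟩, h3⟩, ?_⟩)
        refine mem_filter.2 ⟨m2, ?_⟩
        have := hact z h4
        rw [hgg] at this
        simp only at this ⊢
        rw [this]; exact m3
      · intro z hz z' hz' h
        have h4 := hT1 (mem_filter.1 (mem_coe.1 hz)).1
        have h4' := hT1 (mem_filter.1 (mem_coe.1 hz')).1
        have e0 : (axis z.1 z.2.1, axis z.1 z.2.2) = (axis z'.1 z'.2.1, axis z'.1 z'.2.2) :=
          congrArg (fun y : (_ : (ℂ × ℂ) × (ℂ × ℂ)) × Plane => y.1) h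
        have e1 : axis z.1 z.2.1 = axis z'.1 z'.2.1 := congrArg Prod.fst e0
        have e2 : axis z.1 z.2.2 = axis z'.1 z'.2.2 := congrArg Prod.snd e0
        have e3 : z.2.1 = z'.2.1 :=
          congrArg (fun y : (_ : (ℂ × ℂ) × (ℂ × ℂ)) × Plane => y.2) h
        have e4 : z.1 = z'.1 := by
          rw [← hact1 z h4, ← hact1 z' h4', e1, e3]
        have e5 : z.2.2 = z'.2.2 := by
          have f1 := hact z h4
          have f2 := hact z' h4'
          rw [hgg] at f1 f2
          simp only at f1 f2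
          rw [← f1, ← f2, e1, e2, e3]
        exact Prod.ext e4 (Prod.ext e3 e5)
    have h2 : ((∑ a ∈ A3, (stay P (comp a.1 a.2)).card : ℕ) : ℝ) ≤
        ((axes P κ).card : ℝ) ^ 2 * (κ2 * n) := by
      push_cast
      calc ∑ a ∈ A3, ((stay P (comp a.1 a.2)).card : ℝ) ≤ ∑ _a ∈ A3, κ2 * n := by
            apply sum_le_sum
            intro a ha
            exact (mem_filter.1 ha).2.le
        _ = (A3.card : ℝ) * (κ2 * n) := by rw [sum_const, nsmul_eq_mul]
        _ ≤ ((axes P κ).card : ℝ) ^ 2 * (κ2 * n) := by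
            apply mul_le_mul_of_nonneg_right _ (by positivity)
            have : A3.card ≤ (axes P κ).card * (axes P κ).card := by
              refine (card_filter_le _ _).trans ?_
              rw [hA2, card_product]
            rw [pow_two]
            exact_mod_cast this
    have h3 := axes_card hP hκ hn
    rw [← hnd] at h3
    have h4 : ((axes P κ).card : ℝ) ≤ 2 * n / κ := by
      rw [le_div_iff₀ hκ]; exact h3
    have h5 : ((axes P κ).card : ℝ) ^ 2 ≤ (2 * n / κ) ^ 2 :=
      pow_le_pow_left₀ (Nat.cast_nonneg _) h4 2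
    calc (L.card : ℝ) ≤ ((∑ a ∈ A3, (stay P (comp a.1 a.2)).card : ℕ) : ℝ) := by
          exact_mod_cast h1
      _ ≤ _ := h2
      _ ≤ (2 * n / κ) ^ 2 * (κ2 * n) := mul_le_mul_of_nonneg_right h5 (by positivity)
      _ = _ := by field_simp; ring
  -- the heavy triples
  set H := T0.filter (fun z => ¬ (((stay P (gg z)).card : ℝ) < κ2 * n)) with hH
  set 𝒢 := (A2.image (fun a => comp a.1 a.2)).filter
    (fun g => ‖g.1‖ = 1 ∧ κ2 * n ≤ ((stay P g).card : ℝ)) with h𝒢
  have hGc : (𝒢.card : ℝ) ≤ 6 * n / κ2 ^ 2 := by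
    have h1 := heavy_card hP 𝒢 hn2 (fun g hg => (mem_filter.1 hg).2)
    rw [← hnd] at h1
    rw [le_div_iff₀ (by positivity)]
    have h2 : n ^ 2 * ((𝒢.card : ℝ) * κ2 ^ 2) ≤ n ^ 2 * (6 * n) := by
      calc n ^ 2 * ((𝒢.card : ℝ) * κ2 ^ 2) = (𝒢.card : ℝ) * (κ2 * n) ^ 2 := by ring
        _ ≤ 6 * n ^ 3 := h1
        _ = _ := by ring
    exact le_of_mul_le_mul_left h2 (by positivity)
  set small : (ℂ × ℂ) × Plane → Finset Plane := fun y =>
    (P.filter (fun p => dist p (cen y.1) = dist y.2 (cen y.1))).filter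
      (fun _ => ((P.filter (fun p => dist p (cen y.1) = dist y.2 (cen y.1))).card : ℝ) < κ' * n)
    with hsmall
  have hsm : ∀ y, ((small y).card : ℝ) ≤ κ' * n := by
    intro y
    by_cases h : ((P.filter (fun p => dist p (cen y.1) = dist y.2 (cen y.1))).card : ℝ) < κ' * n
    · refine le_trans ?_ h.le
      exact_mod_cast card_filter_le _ _
    · have : small y = ∅ := by
        rw [hsmall]
        simp only
        exact filter_false_of_mem fun _ _ => h
      rw [this]
      simp only [card_empty, Nat.cast_zero]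
      positivity
  have hHc : (H.card : ℝ) ≤ 6 * κ' / κ2 ^ 2 * n ^ 3 := by
    have h1 : H.card ≤ ∑ y ∈ 𝒢 ×ˢ P, (small y).card := by
      rw [← card_sigma]
      apply card_le_card_of_injOn (fun z : Plane × Plane × Plane =>
        (⟨(gg z, z.2.1), z.1⟩ : (_ : (ℂ × ℂ) × Plane) × Plane))
      · intro z hz
        obtain ⟨h2, h3⟩ := mem_filter.1 (mem_coe.1 hz)
        have h4 := hT1 h2
        have h5 := hT2 z h2
        obtain ⟨m1, m2, m3, m4, m5, m6, m7, m8⟩ := hmem z h4
        have x1 := axis_is m4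
        have x2 := axis_is m5
        have hne : (axis z.1 z.2.1).1 ≠ (axis z.1 z.2.2).1 := mu_ne hP m1 m2 m3 m4 m5 m6
        have c1 := cen_fix x1 x2 hne
        have c2 := cen_fix' x1 x2 hne
        have d1 : dist z.1 (cen (gg z)) = dist z.2.1 (cen (gg z)) := by
          have := dist_of_fix x1 c1 z.2.1
          rw [hact1 z h4] at this
          exact this
        have d2 : dist z.2.2 (cen (gg z)) = dist z.1 (cen (gg z)) := by
          have := dist_of_fix x2 c2 z.1
          rw [actr_axis m5, rf_a m5] at this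
          exact this
        have hlt : ((P.filter (fun p => dist p (cen (gg z)) =
            dist z.2.1 (cen (gg z)))).card : ℝ) < κ' * n := by
          by_contra h6
          apply h5
          exact ⟨cen (gg z), dist z.2.1 (cen (gg z)), not_lt.1 h6, d1, rfl, d2.trans d1⟩
        refine mem_coe.2 (mem_sigma.2 ⟨mem_product.2 ⟨mem_filter.2 ⟨mem_image.2
          ⟨(axis z.1 z.2.1, axis z.1 z.2.2), mem_product.2 ⟨m7, m8⟩, rfl⟩,
          comp_norm x1 x2, not_lt.1 h3⟩, m2⟩, ?_⟩)
        exact mem_filter.2 ⟨mem_filter.2 ⟨m1, d1⟩, hlt⟩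
      · intro z hz z' hz' h
        have h4 := hT1 (mem_filter.1 (mem_coe.1 hz)).1
        have h4' := hT1 (mem_filter.1 (mem_coe.1 hz')).1
        have e0 : (gg z, z.2.1) = (gg z', z'.2.1) :=
          congrArg (fun y : (_ : (ℂ × ℂ) × Plane) × Plane => y.1) h
        have e1 : gg z = gg z' := congrArg Prod.fst e0
        have e2 : z.2.1 = z'.2.1 := congrArg Prod.snd e0
        have e3 : z.1 = z'.1 :=
          congrArg (fun y : (_ : (ℂ × ℂ) × Plane) × Plane => y.2) h
        have e5 : z.2.2 = z'.2.2 := by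
          rw [← hact z h4, ← hact z' h4', e1, e2]
        exact Prod.ext e3 (Prod.ext e2 e5)
    have h2 : ((∑ y ∈ 𝒢 ×ˢ P, (small y).card : ℕ) : ℝ) ≤ (𝒢.card : ℝ) * n * (κ' * n) := by
      push_cast
      calc ∑ y ∈ 𝒢 ×ˢ P, ((small y).card : ℝ) ≤ ∑ _y ∈ 𝒢 ×ˢ P, κ' * n :=
            sum_le_sum fun y _ => hsm y
        _ = ((𝒢 ×ˢ P).card : ℝ) * (κ' * n) := by rw [sum_const, nsmul_eq_mul]
        _ = (𝒢.card : ℝ) * n * (κ' * n) := by rw [card_product]; push_cast; rw [← hnd]
    calc (H.card : ℝ) ≤ ((∑ y ∈ 𝒢 ×ˢ P, (small y).card : ℕ) : ℝ) := by exact_mod_cast h1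
      _ ≤ _ := h2
      _ ≤ (6 * n / κ2 ^ 2) * n * (κ' * n) := by
          apply mul_le_mul_of_nonneg_right _ (by positivity)
          exact mul_le_mul_of_nonneg_right hGc hn0.le
      _ = _ := by field_simp
  have hsplit : (T0.card : ℝ) = (L.card : ℝ) + (H.card : ℝ) := by
    have := card_filter_add_card_filter_not (s := T0)
      (p := fun z => ((stay P (gg z)).card : ℝ) < κ2 * n)
    exact_mod_cast this.symm
  rw [hsplit]
  have : (4 * κ2 / κ ^ 2 + 6 * κ' / κ2 ^ 2) * n ^ 3 =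
      4 * κ2 / κ ^ 2 * n ^ 3 + 6 * κ' / κ2 ^ 2 * n ^ 3 := by ring
  rw [this]
  linarith

end Pool.Agent.ConvTri
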